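import Pool.Agent.Lib.P76s.Defs

/-!
# P76s.LogM (1 h): elementary, Mathlib only

* `exists_balanced`: distribute `N` particles as evenly as possible over the `m³` cells (use any
  bijection of the cells with `Fin (m^3)` and `i ↦ i % m³`; the fibres have
  `⌊N/m³⌋` or `⌊N/m³⌋ + 1` elements, `Nat.count_modEq_card` or similar).
* `log_MM_le`.  Let `K = m³` (number of cells), `n_c = occ a c`, `δ_c = n_c - N/K`, `|δ_c| ≤ 1`,
  `∑ n_c = N`.  `log MM = N log K + ∑ log n_c! - log N!`.  Use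
  `log N! ≥ N log N - N` (`Real.` Stirling-free: `N^N/N! ≤ e^N`, one term of the exponential series)
  and `log n! ≤ 1 + log (n+1) + n log n - n` for `n ≥ 0` (with `0 log 0 = 0`; from
  `n! ≤ n^{n+1} e^{1-n}` for `n ≥ 1`; elementary induction, or Mathlib's Stirling files).  So
  `log MM ≤ ∑_c [1 + log (n_c + 1)... ]`; careful: what is claimed has `log (N/K + 1)`; use
  `log n_c! ≤ 1 + log n_c + n_c log n_c - n_c` for `n_c ≥ 1`, `n_c ≤ N/K + 1`, and `0! = 1`:
  `log MM ≤ K (1 + log (N/K + 1)) + ∑_c n_c log (n_c K/N)`, and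
  `n_c log (n_c K/N) = n_c log (1 + δ_c K/N) ≤ n_c δ_c K/N = δ_c + δ_c² K/N`, whose sum over `c`
  is `≤ 0 + K · K/N`.
-/

open MeasureTheory Filter Topology ProbabilityTheory
open scoped ENNReal NNReal BigOperators ContDiff

namespace Pool.Agent.P76s

theorem exists_balanced (N : ℕ) {m : ℕ} (hm : 0 < m) :
    ∃ a : Fin N → Fin 3 → Fin m, ∀ c, |(occ a c : ℝ) - N / m ^ 3| ≤ 1 := by
  have hM : 0 < m ^ 3 := by positivity
  let e : (Fin 3 → Fin m) ≃ Fin (m ^ 3) := finFunctionFinEquiv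
  refine ⟨fun i => e.symm ⟨(i : ℕ) % m ^ 3, Nat.mod_lt _ hM⟩, fun c => ?_⟩
  have h1 : occ (fun i : Fin N => e.symm ⟨(i : ℕ) % m ^ 3, Nat.mod_lt _ hM⟩) c =
      N.count (fun k => k ≡ (e c : ℕ) [MOD m ^ 3]) := by
    unfold occ
    rw [Nat.count_eq_card_filter_range, Finset.card_filter, Finset.card_filter,
      ← Fin.sum_univ_eq_sum_range
        (fun k => if k ≡ (e c : ℕ) [MOD m ^ 3] then 1 else 0) N]
    refine Finset.sum_congr rfl fun i _ => ?_
    have h2 : (e.symm ⟨(i : ℕ) % m ^ 3, Nat.mod_lt _ hM⟩ = c) ↔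
        ((i : ℕ) ≡ (e c : ℕ) [MOD m ^ 3]) := by
      rw [Equiv.symm_apply_eq, Fin.ext_iff]
      show (i : ℕ) % m ^ 3 = (e c : ℕ) ↔ (i : ℕ) % m ^ 3 = (e c : ℕ) % m ^ 3
      rw [Nat.mod_eq_of_lt (e c).2]
    by_cases h : e.symm ⟨(i : ℕ) % m ^ 3, Nat.mod_lt _ hM⟩ = c
    · rw [if_pos h, if_pos (h2.1 h)]
    · rw [if_neg h, if_neg (fun h' => h (h2.2 h'))]
  rw [h1, Nat.count_modEq_card _ hM]
  have hMR : (0 : ℝ) < (m : ℝ) ^ 3 := by exact_mod_cast hM
  have h3 : (N : ℝ) = (m : ℝ) ^ 3 * ((N / m ^ 3 : ℕ) : ℝ) + ((N % m ^ 3 : ℕ) : ℝ) := by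
    exact_mod_cast (Nat.div_add_mod N (m ^ 3)).symm
  have h4 : (N : ℝ) / (m : ℝ) ^ 3 =
      ((N / m ^ 3 : ℕ) : ℝ) + ((N % m ^ 3 : ℕ) : ℝ) / (m : ℝ) ^ 3 := by
    conv_lhs => rw [h3]
    field_simp
  have h5 : ((N % m ^ 3 : ℕ) : ℝ) / (m : ℝ) ^ 3 ≤ 1 := by
    rw [div_le_one hMR]
    exact_mod_cast (Nat.mod_lt N hM).le
  have h6 : 0 ≤ ((N % m ^ 3 : ℕ) : ℝ) / (m : ℝ) ^ 3 := by positivity
  rw [h4, abs_le]
  push_cast
  split_ifs
  · constructor <;> linarith
  · constructor <;> linarith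

theorem sum_occ {N m : ℕ} (a : Fin N → Fin 3 → Fin m) : ∑ c, occ a c = N := by
  classical
  have h := Finset.card_eq_sum_card_fiberwise (f := a) (s := Finset.univ) (t := Finset.univ)
    (fun _ _ => by simp)
  rw [Finset.card_univ, Fintype.card_fin] at h
  exact h.symm

private theorem log_fact_upper (n : ℕ) :
    Real.log ((n + 1).factorial : ℝ) ≤
      1 + Real.log ((n : ℝ) + 1) + ((n : ℝ) + 1) * Real.log ((n : ℝ) + 1) - ((n : ℝ) + 1) := by
  induction n with
  | zero => simp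
  | succ n ih =>
    have h0 : (0 : ℝ) < (n : ℝ) + 1 := by positivity
    have h1 : (0 : ℝ) < (n : ℝ) + 1 + 1 := by positivity
    have h2 : Real.log (((n + 1 + 1).factorial : ℕ) : ℝ) =
        Real.log ((n : ℝ) + 1 + 1) + Real.log ((n + 1).factorial : ℝ) := by
      rw [Nat.factorial_succ (n + 1)]
      push_cast
      rw [Real.log_mul h1.ne' (by positivity)]
    have h3 := Real.one_sub_inv_le_log_of_pos (div_pos h1 h0)
    rw [Real.log_div h1.ne' h0.ne', inv_div] at h3
    have h4 : 1 - ((n : ℝ) + 1) / ((n : ℝ) + 1 + 1) = 1 / ((n : ℝ) + 1 + 1) := by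
      field_simp
      ring
    rw [h4] at h3
    have h5 : 1 ≤ ((n : ℝ) + 1 + 1) * (Real.log ((n : ℝ) + 1 + 1) - Real.log ((n : ℝ) + 1)) := by
      have := mul_le_mul_of_nonneg_left h3 h1.le
      rwa [mul_one_div_cancel h1.ne'] at this
    rw [h2]
    push_cast
    nlinarith

private theorem log_fact_lower (N : ℕ) (hN : 0 < N) :
    (N : ℝ) * Real.log N - N ≤ Real.log (N.factorial : ℝ) := by
  have hN' : (0 : ℝ) < N := by exact_mod_cast hN
  have hf : (0 : ℝ) < (N.factorial : ℝ) := by positivity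
  have h := Real.pow_div_factorial_le_exp (N : ℝ) hN'.le N
  have h1 := Real.log_le_log (by positivity) h
  rw [Real.log_exp, Real.log_div (by positivity) hf.ne', Real.log_pow] at h1
  linarith

theorem log_MM_le {N m : ℕ} (hN : 0 < N) (hm : 0 < m) (a : Fin N → Fin 3 → Fin m)
    (ha : ∀ c, |(occ a c : ℝ) - N / m ^ 3| ≤ 1) :
    Real.log (MM N m a) ≤
      m ^ 3 * (1 + Real.log (N / m ^ 3 + 1) + m ^ 3 / N) := by
  have hN' : (0 : ℝ) < N := by exact_mod_cast hN
  have hm' : (0 : ℝ) < m := by exact_mod_cast hm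
  set k : ℝ := (m : ℝ) ^ 3 with hk
  have hk0 : 0 < k := by positivity
  have hf : (0 : ℝ) < (N.factorial : ℝ) := by positivity
  have hcard : ((Finset.univ : Finset (Fin 3 → Fin m)).card : ℝ) = k := by
    rw [Finset.card_univ, Fintype.card_fun, Fintype.card_fin, Fintype.card_fin]
    push_cast
    rfl
  have hsum : ∑ c, (occ a c : ℝ) = N := by
    exact_mod_cast sum_occ a
  have hlog : Real.log (MM N m a) = N * Real.log k +
      ∑ c, Real.log ((occ a c).factorial : ℝ) - Real.log (N.factorial : ℝ) := by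
    unfold MM
    rw [← hk, Real.log_div (by positivity) hf.ne', Real.log_mul (by positivity)
      (by positivity), Real.log_pow, Real.log_prod (fun c _ => by positivity)]
  have hL1 : 0 ≤ Real.log (N / k + 1) := Real.log_nonneg (by
    have : 0 ≤ (N : ℝ) / k := by positivity
    linarith)
  have h1 : ∀ c, Real.log ((occ a c).factorial : ℝ) ≤
      (1 + Real.log (N / k + 1)) + (occ a c * Real.log (occ a c) - occ a c) := by
    intro c
    rcases Nat.eq_zero_or_pos (occ a c) with h0 | h0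
    · rw [h0]
      simp only [Nat.factorial_zero, Nat.cast_one, Real.log_one, Nat.cast_zero, zero_mul, sub_zero,
        add_zero]
      linarith
    · obtain ⟨n, hn⟩ : ∃ n, occ a c = n + 1 := ⟨occ a c - 1, by omega⟩
      have h2 := log_fact_upper n
      have h3 := (abs_le.1 (ha c)).2
      rw [hn] at h3 ⊢
      push_cast at h3 ⊢
      have h4 : Real.log ((n : ℝ) + 1) ≤ Real.log (N / k + 1) :=
        Real.log_le_log (by positivity) (by linarith)
      linarith
  have h2 : ∀ c, (occ a c : ℝ) * (Real.log (occ a c) + Real.log k - Real.log N) ≤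
      ((occ a c : ℝ) - N / k) + k / N := by
    intro c
    have hδ := ha c
    rcases Nat.eq_zero_or_pos (occ a c) with h0 | h0
    · rw [h0] at hδ ⊢
      simp only [Nat.cast_zero, zero_mul, zero_sub] at hδ ⊢
      rw [abs_neg, abs_of_nonneg (by positivity : (0 : ℝ) ≤ N / k)] at hδ
      have h5 : (1 : ℝ) ≤ k / N := by
        rw [le_div_iff₀ hN']
        rw [div_le_one hk0] at hδ
        linarith
      linarith
    · have hn : (0 : ℝ) < occ a c := by exact_mod_cast h0
      have h3 : Real.log (occ a c) + Real.log k - Real.log N ≤ occ a c * k / N - 1 := by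
        rw [← Real.log_mul hn.ne' hk0.ne', ← Real.log_div (by positivity) hN'.ne']
        exact Real.log_le_sub_one_of_pos (by positivity)
      refine (mul_le_mul_of_nonneg_left h3 hn.le).trans ?_
      set δ : ℝ := (occ a c : ℝ) - N / k with hδdef
      have h4 : (occ a c : ℝ) = N / k + δ := by rw [hδdef]; ring
      have h5 : (occ a c : ℝ) * (occ a c * k / N - 1) = δ + δ ^ 2 * (k / N) := by
        rw [h4]
        field_simp
        ring
      rw [h5]
      have h6 : δ ^ 2 ≤ 1 := by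
        rw [← sq_abs]
        exact pow_le_one₀ (abs_nonneg _) hδ
      have h7 : δ ^ 2 * (k / N) ≤ 1 * (k / N) := mul_le_mul_of_nonneg_right h6 (by positivity)
      linarith
  have hS1 := Finset.sum_le_sum (fun c (_ : c ∈ (Finset.univ : Finset (Fin 3 → Fin m))) => h1 c)
  have hS2 := Finset.sum_le_sum (fun c (_ : c ∈ (Finset.univ : Finset (Fin 3 → Fin m))) => h2 c)
  rw [Finset.sum_add_distrib, Finset.sum_const, nsmul_eq_mul, hcard, Finset.sum_sub_distrib,
    hsum] at hS1
  rw [Finset.sum_add_distrib, Finset.sum_const, nsmul_eq_mul, hcard, Finset.sum_sub_distrib,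
    hsum, Finset.sum_const, nsmul_eq_mul, hcard] at hS2
  have hS3 : ∑ c, (occ a c : ℝ) * (Real.log (occ a c) + Real.log k - Real.log N) =
      ∑ c, (occ a c : ℝ) * Real.log (occ a c) + N * Real.log k - N * Real.log N := by
    rw [← hsum, Finset.sum_mul, Finset.sum_mul, ← Finset.sum_add_distrib, ← Finset.sum_sub_distrib]
    refine Finset.sum_congr rfl fun c _ => ?_
    rw [hsum]
    ring
  rw [hS3] at hS2
  have hlow := log_fact_lower N hN
  have h8 : k * ((N : ℝ) / k) = N := by field_simp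
  rw [h8] at hS2
  rw [hlog]
  have h9 : k * (1 + Real.log (N / k + 1) + k / N) =
      k * (1 + Real.log (N / k + 1)) + k * (k / N) := by ring
  rw [h9]
  linarith

end Pool.Agent.P76s
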