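import Pool.Agent.Lib.P76s.LogM

/-!
# P76s.Combine (0.8 h): finite algebra (black box: `sum_occ` of LogM)

`K = m³` cells, `n_c = occ a c = N/K + δ_c`, `|δ_c| ≤ 1`, `∑ δ_c = 0` (`sum_occ`).  For symmetric `J ≥ 0`
with all row sums `R`:
`2 ∑_{i<j} J(a_i,a_j) = ∑_{i,j} J(a_i,a_j) - ∑_i J(a_i,a_i) = ∑_{c,c'} n_c n_{c'} J(c,c') - ∑_c n_c J(c,c)`
and `∑_{c,c'} n_c n_{c'} J = (N/K)² K R + 2 (N/K) R ∑ δ_c + ∑ δ_c δ_{c'} J ≤ N² R/K + K R`.
-/

open MeasureTheory Filter Topology ProbabilityTheory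
open scoped ENNReal NNReal BigOperators ContDiff

namespace Pool.Agent.P76s

namespace CombineAux

lemma sum_comp_occ {N m : ℕ} (a : Fin N → Fin 3 → Fin m) (f : (Fin 3 → Fin m) → ℝ) :
    ∑ i, f (a i) = ∑ c, (occ a c : ℝ) * f c := by
  have h1 : ∀ i, f (a i) = ∑ c, if a i = c then f c else 0 := by
    intro i
    simp
  simp_rw [h1]
  rw [Finset.sum_comm]
  refine Finset.sum_congr rfl fun c _ => ?_
  rw [← Finset.sum_filter, Finset.sum_const, nsmul_eq_mul]
  rfl

lemma sum_pairs {N : ℕ} (f : Fin N → Fin N → ℝ) (hf : ∀ i j, f i j = f j i) :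
    2 * ∑ i, ∑ j ∈ Finset.Ioi i, f i j = ∑ i, ∑ j, f i j - ∑ i, f i i := by
  have h1 : ∀ i : Fin N, ∑ j, f i j = ∑ j ∈ Finset.Iio i, f i j + f i i + ∑ j ∈ Finset.Ioi i, f i j := by
    intro i
    have hu : (Finset.univ : Finset (Fin N)) = (Finset.Iio i ∪ {i}) ∪ Finset.Ioi i := by
      ext j
      simp only [Finset.mem_univ, Finset.mem_union, Finset.mem_Iio, Finset.mem_singleton,
        Finset.mem_Ioi, true_iff]
      rcases lt_trichotomy j i with h | h | h
      · exact Or.inl (Or.inl h)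
      · exact Or.inl (Or.inr h)
      · exact Or.inr h
    rw [hu, Finset.sum_union, Finset.sum_union, Finset.sum_singleton]
    · rw [Finset.disjoint_left]
      intro j hj hj'
      simp only [Finset.mem_Iio, Finset.mem_singleton] at hj hj'
      exact absurd hj' (ne_of_lt hj)
    · rw [Finset.disjoint_left]
      intro j hj hj'
      simp only [Finset.mem_union, Finset.mem_Iio, Finset.mem_singleton, Finset.mem_Ioi] at hj hj'
      rcases hj with h | h
      · exact absurd hj' (not_lt_of_gt h)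
      · exact absurd hj' (by rw [h]; exact lt_irrefl i)
  have h2 : ∑ i : Fin N, ∑ j ∈ Finset.Iio i, f i j = ∑ i : Fin N, ∑ j ∈ Finset.Ioi i, f i j := by
    have e1 : ∀ i : Fin N, ∑ j ∈ Finset.Iio i, f i j = ∑ j, if j < i then f i j else 0 := by
      intro i
      rw [← Finset.sum_filter]
      refine Finset.sum_congr ?_ fun _ _ => rfl
      ext j
      simp
    have e2 : ∀ i : Fin N, ∑ j ∈ Finset.Ioi i, f i j = ∑ j, if i < j then f i j else 0 := by
      intro i
      rw [← Finset.sum_filter]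
      refine Finset.sum_congr ?_ fun _ _ => rfl
      ext j
      simp
    simp_rw [e1, e2]
    rw [Finset.sum_comm]
    refine Finset.sum_congr rfl fun i _ => Finset.sum_congr rfl fun j _ => ?_
    rw [hf j i]
  have h3 : ∑ i, ∑ j, f i j = ∑ i : Fin N, ∑ j ∈ Finset.Iio i, f i j + ∑ i, f i i +
      ∑ i : Fin N, ∑ j ∈ Finset.Ioi i, f i j := by
    rw [← Finset.sum_add_distrib, ← Finset.sum_add_distrib]
    exact Finset.sum_congr rfl fun i _ => h1 i
  rw [h3, h2]
  ring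

end CombineAux

open CombineAux

theorem combine {N m : ℕ} (hm : 0 < m) (a : Fin N → Fin 3 → Fin m)
    (ha : ∀ c, |(occ a c : ℝ) - N / m ^ 3| ≤ 1)
    (J : (Fin 3 → Fin m) → (Fin 3 → Fin m) → ℝ) {R κ : ℝ} (h0 : ∀ c c', 0 ≤ J c c')
    (hsymm : ∀ c c', J c c' = J c' c) (hrow : ∀ c, ∑ c', J c c' = R) (hκ : ∀ c, κ ≤ J c c) :
    ∑ i, ∑ j ∈ Finset.Ioi i, J (a i) (a j) ≤
      1 / 2 * (N ^ 2 * R / m ^ 3 + m ^ 3 * R - N * κ) := by
  have hmr : (0 : ℝ) < (m : ℝ) ^ 3 := by positivity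
  set K : ℝ := (m : ℝ) ^ 3 with hK
  have h1 := sum_pairs (fun i j => J (a i) (a j)) (fun i j => hsymm _ _)
  have h2 : (N : ℝ) * κ ≤ ∑ i, J (a i) (a i) := by
    calc (N : ℝ) * κ = ∑ _i : Fin N, κ := by simp
      _ ≤ ∑ i, J (a i) (a i) := Finset.sum_le_sum fun i _ => hκ _
  set δ : (Fin 3 → Fin m) → ℝ := fun c => (occ a c : ℝ) - N / K with hδ
  have hcard : (Fintype.card (Fin 3 → Fin m) : ℝ) = K := by
    rw [Fintype.card_fun, Fintype.card_fin, Fintype.card_fin, hK]
    push_cast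
    rfl
  have hδsum : ∑ c, δ c = 0 := by
    simp only [hδ]
    rw [Finset.sum_sub_distrib, Finset.sum_const, Finset.card_univ, nsmul_eq_mul, hcard,
      ← Nat.cast_sum, sum_occ]
    field_simp
    ring
  have h3 : ∑ i, ∑ j, J (a i) (a j) = ∑ c, ∑ c', (occ a c : ℝ) * ((occ a c' : ℝ) * J c c') := by
    rw [sum_comp_occ a (fun c => ∑ j, J c (a j))]
    refine Finset.sum_congr rfl fun c _ => ?_
    rw [sum_comp_occ a (fun c' => J c c'), Finset.mul_sum]
  have h4 : ∀ c c', (occ a c : ℝ) * ((occ a c' : ℝ) * J c c') =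
      (N / K) * (N / K) * J c c' + (N / K) * (δ c * J c c') + (N / K) * (δ c' * J c' c) +
        δ c * δ c' * J c c' := by
    intro c c'
    rw [← hsymm c c']
    simp only [hδ]
    ring
  have hrowsum : ∑ c, ∑ c', J c c' = K * R := by
    simp_rw [hrow]
    rw [Finset.sum_const, Finset.card_univ, nsmul_eq_mul, hcard]
  have h5 : ∑ c, ∑ c', (N / K) * (δ c * J c c') = 0 := by
    have e1 : ∀ c, ∑ c', (N / K) * (δ c * J c c') = (N / K) * R * δ c := by
      intro c
      rw [← Finset.mul_sum, ← Finset.mul_sum, hrow]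
      ring
    simp_rw [e1]
    rw [← Finset.mul_sum, hδsum, mul_zero]
  have h6 : ∑ c, ∑ c', (N / K) * (δ c' * J c' c) = 0 := by
    rw [Finset.sum_comm]
    exact h5
  have h7 : ∑ c, ∑ c', δ c * δ c' * J c c' ≤ K * R := by
    rw [← hrowsum]
    refine Finset.sum_le_sum fun c _ => Finset.sum_le_sum fun c' _ => ?_
    have e1 : δ c * δ c' ≤ 1 := by
      have e2 : |δ c * δ c'| ≤ 1 := by
        rw [abs_mul]
        exact mul_le_one₀ (ha c) (abs_nonneg _) (ha c')
      exact (le_abs_self _).trans e2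
    calc δ c * δ c' * J c c' ≤ 1 * J c c' := mul_le_mul_of_nonneg_right e1 (h0 c c')
      _ = J c c' := one_mul _
  have h8 : ∑ i, ∑ j, J (a i) (a j) ≤ N ^ 2 * R / K + K * R := by
    rw [h3]
    simp_rw [h4]
    simp_rw [Finset.sum_add_distrib]
    rw [h5, h6]
    have e1 : ∑ c, ∑ c', (N / K : ℝ) * (N / K) * J c c' = N ^ 2 * R / K := by
      simp_rw [← Finset.mul_sum]
      rw [hrowsum]
      field_simp
    rw [e1]
    linarith
  linarith

end Pool.Agent.P76s
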