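import Pool.Agent.Lib.P76s.Defs

/-!
# P76s.PiDens (1 h): product measures, Mathlib only

* `lintegral_pi_prod`: the lintegral of a product of functions of the single coordinates.  Either
  induct as in `MeasureTheory.integral_fintype_prod_eq_prod`
  (`Mathlib/MeasureTheory/Integral/Pi.lean`; use `lintegral_prod_mul` and
  `measurePreserving_piFinSuccAbove`), or use `lintegral_prod_eq_prod_lintegral_of_indepFun`.
* `pi_withDensity`: `Measure.pi_eq` (boxes) and `lintegral_pi_prod` for the functions
  `indicator (s i) (f i)` (`setLIntegral`, `Finset.prod_indicator`-like rewriting, or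
  `Measure.restrict_pi_pi`).
* `lintegral_pi_pair`: the law of `(x i, x j)` under a product of probability measures is
  `(μ i).prod (μ j)`: `iIndepFun_pi`, `iIndepFun.indepFun`, `indepFun_iff_map_prod_eq_prod_map_map`,
  `(measurePreserving_eval μ i).map_eq`, `lintegral_map`, `lintegral_prod`.
-/

open MeasureTheory Filter Topology ProbabilityTheory
open scoped ENNReal NNReal BigOperators

namespace Pool.Agent.P76s

namespace PiDensAux

theorem lintegral_fin_prod {n : ℕ} {E : Fin n → Type*} {mE : ∀ i, MeasurableSpace (E i)}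
    (μ : (i : Fin n) → Measure (E i)) [∀ i, SigmaFinite (μ i)] (f : (i : Fin n) → E i → ℝ≥0∞)
    (hf : ∀ i, Measurable (f i)) :
    ∫⁻ x : (i : Fin n) → E i, ∏ i, f i (x i) ∂(Measure.pi μ) = ∏ i, ∫⁻ x, f i x ∂(μ i) := by
  induction n with
  | zero => simp
  | succ n n_ih =>
      calc
        _ = ∫⁻ x : E 0 × ((i : Fin n) → E (Fin.succ i)),
            f 0 x.1 * ∏ i : Fin n, f (Fin.succ i) (x.2 i)
            ∂((μ 0).prod (Measure.pi (fun i => μ i.succ))) := by
          have hm : Measurable fun x : (i : Fin (n + 1)) → E i => ∏ i, f i (x i) :=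
            Finset.measurable_prod _ fun i _ => (hf i).comp (measurable_pi_apply i)
          rw [← ((measurePreserving_piFinSuccAbove μ 0).symm).lintegral_comp hm]
          simp_rw [MeasurableEquiv.piFinSuccAbove_symm_apply, Fin.insertNthEquiv,
            Fin.prod_univ_succ, Fin.insertNth_zero, Equiv.coe_fn_mk, Fin.cons_succ,
            Fin.zero_succAbove, cast_eq, Fin.cons_zero]
          rfl
        _ = (∫⁻ x, f 0 x ∂μ 0)
            * ∏ i : Fin n, ∫⁻ (x : E (Fin.succ i)), f (Fin.succ i) x ∂(μ i.succ) := by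
          have hm : Measurable fun x : (i : Fin n) → E i.succ => ∏ i, f i.succ (x i) :=
            Finset.measurable_prod _ fun i _ => (hf i.succ).comp (measurable_pi_apply i)
          rw [← n_ih _ _ fun i => hf i.succ]
          exact lintegral_prod_mul (hf 0).aemeasurable hm.aemeasurable
        _ = ∏ i, ∫⁻ x, f i x ∂(μ i) := by rw [Fin.prod_univ_succ]

end PiDensAux

theorem lintegral_pi_prod {ι : Type*} [Fintype ι] {X : ι → Type*} [∀ i, MeasurableSpace (X i)]
    (μ : ∀ i, Measure (X i)) [∀ i, SigmaFinite (μ i)] (f : ∀ i, X i → ℝ≥0∞)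
    (hf : ∀ i, Measurable (f i)) :
    ∫⁻ x, ∏ i, f i (x i) ∂(Measure.pi μ) = ∏ i, ∫⁻ x, f i x ∂(μ i) := by
  let e := (Fintype.equivFin ι).symm
  have hm : Measurable fun x : ∀ i, X i => ∏ i, f i (x i) :=
    Finset.measurable_prod _ fun i _ => (hf i).comp (measurable_pi_apply i)
  rw [← (measurePreserving_piCongrLeft μ e).lintegral_comp hm]
  have h := PiDensAux.lintegral_fin_prod (fun i => μ (e i)) (fun i => f (e i)) (fun i => hf (e i))
  rw [← e.prod_comp fun i => ∫⁻ x, f i x ∂(μ i), ← h]
  refine lintegral_congr fun x => ?_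
  rw [← e.prod_comp]
  refine Finset.prod_congr rfl fun i _ => ?_
  rw [MeasurableEquiv.coe_piCongrLeft, Equiv.piCongrLeft_apply_apply]

theorem pi_withDensity {ι : Type*} [Fintype ι] {X : ι → Type*} [∀ i, MeasurableSpace (X i)]
    (μ : ∀ i, Measure (X i)) [∀ i, SigmaFinite (μ i)] (f : ∀ i, X i → ℝ≥0∞)
    (hf : ∀ i, Measurable (f i)) (hfin : ∀ i, ∫⁻ x, f i x ∂(μ i) ≠ ∞) :
    Measure.pi (fun i => (μ i).withDensity (f i)) =
      (Measure.pi μ).withDensity (fun x => ∏ i, f i (x i)) := by
  haveI : ∀ i, IsFiniteMeasure ((μ i).withDensity (f i)) := fun i =>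
    isFiniteMeasure_withDensity (hfin i)
  refine Measure.pi_eq fun s hs => ?_
  rw [withDensity_apply _ (MeasurableSet.univ_pi hs), Measure.restrict_pi_pi,
    lintegral_pi_prod (fun i => (μ i).restrict (s i)) f hf]
  exact Finset.prod_congr rfl fun i _ => (withDensity_apply _ (hs i)).symm

theorem lintegral_pi_pair {ι : Type*} [Fintype ι] {X : Type*} [MeasurableSpace X]
    (μ : ι → Measure X) [∀ i, IsProbabilityMeasure (μ i)] {i j : ι} (hij : i ≠ j)
    {f : X → X → ℝ≥0∞} (hf : Measurable (Function.uncurry f)) :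
    ∫⁻ x, f (x i) (x j) ∂(Measure.pi μ) = ∫⁻ x, ∫⁻ y, f x y ∂(μ j) ∂(μ i) := by
  have h1 : iIndepFun (fun (l : ι) (ω : ι → X) => ω l) (Measure.pi μ) :=
    iIndepFun_pi (X := fun _ x => x) fun _ => aemeasurable_id
  have h2 := (indepFun_iff_map_prod_eq_prod_map_map (measurable_pi_apply i).aemeasurable
    (measurable_pi_apply j).aemeasurable).1 (h1.indepFun hij)
  rw [(measurePreserving_eval μ i).map_eq, (measurePreserving_eval μ j).map_eq] at h2
  have h3 := lintegral_prod (μ := μ i) (ν := μ j) (Function.uncurry f) hf.aemeasurable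
  rw [← h2, lintegral_map hf ((measurable_pi_apply i).prodMk (measurable_pi_apply j))] at h3
  exact h3

end Pool.Agent.P76s
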