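import Pool.Agent.Lib.P76s.TrialI
import Pool.Agent.Lib.P76s.PiDens

/-!
# P76s.PairReduce (1.5 h): the interaction energy of `√PP` (black boxes: TrialP, TrialI, PiDens)

`|trial x|² = PP x = (1/N!) ∑_σ ∏_i qq (a (σ i)) (x i)`.

1. For one permutation `σ`: `∫⁻_{confBox} (∑_{i<j} W(x_i-x_j)) ∏_k ofReal (qq (a (σ k)) (x k))` does not
   depend on `σ`: the map `x ↦ x ∘ σ` preserves `volume.restrict (confBox N L)`
   (`MeasurableEquiv.piCongrLeft`, `volume_measurePreserving_piCongrLeft`, or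
   `measurePreserving_piCongrLeft`; or avoid the change of variables: do step 2 for every `σ` first,
   then reindex the finite sum over pairs).
2. For a pair `i ≠ j` and any `c : Fin N → cells`:
   `∫⁻_{confBox} W(x_i-x_j) ∏_k ofReal (qq (c k) (x k)) = ofReal((L³)^N) * JJ (c i) (c j)`:
   `volume.restrict (confBox N L) = Measure.pi fun _ => volume.restrict (box L)`
   (`Measure.restrict_pi_pi`, `volume_pi`); `pi_withDensity` and `lintegral_pi_pair` for the probability
   measures `nu m L s (c k)` (`isProbabilityMeasure_nu`).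
3. `∑_{i<j} JJ (a (σ i)) (a (σ j)) = ∑_{i<j} JJ (a i) (a j)`: `JJ` is symmetric since `W` is even
   (`JJ_comm`), and twice the sum over `i<j` is the sum over `i ≠ j`
   (state it as a lemma on finite sums in `ℝ≥0∞`: for symmetric `g`,
   `∑_{i<j} g (σ i) (σ j) = ∑_{i<j} g i j`; e.g. via `Finset.sum_sigma'`/`Finset.sum_nbij'` with
   `(i,j) ↦ (min (σ i) (σ j), max (σ i) (σ j))`).
-/

open MeasureTheory Filter Topology ProbabilityTheory
open scoped ENNReal NNReal BigOperators ContDiff

namespace Pool.Agent.P76s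

variable {N m : ℕ} {L : ℝ} {s : ℝ≥0}

namespace PairReduceAux

/-- twice the sum over `i < j` of a symmetric function is the sum over `i ≠ j` -/
theorem two_mul_sum_Ioi {N : ℕ} (g : Fin N → Fin N → ℝ≥0∞) (hg : ∀ i j, g i j = g j i) :
    2 * (∑ i, ∑ j ∈ Finset.Ioi i, g i j) = ∑ i, ∑ j, if i ≠ j then g i j else 0 := by
  have h1 : ∀ i : Fin N, ∑ j ∈ Finset.Ioi i, g i j = ∑ j, if i < j then g i j else 0 := by
    intro i
    rw [← Finset.sum_filter]
    congr 1
    ext j
    simp
  have h2 : ∑ i : Fin N, ∑ j, (if j < i then g i j else 0) =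
      ∑ i : Fin N, ∑ j, (if i < j then g i j else 0) := by
    rw [Finset.sum_comm]
    refine Finset.sum_congr rfl fun i _ => Finset.sum_congr rfl fun j _ => ?_
    rw [hg j i]
  have h3 : ∀ i j : Fin N, (if i ≠ j then g i j else 0) =
      (if i < j then g i j else 0) + (if j < i then g i j else 0) := by
    intro i j
    rcases lt_trichotomy i j with h | h | h
    · simp [h, h.ne, not_lt.2 h.le]
    · simp [h]
    · simp [h, h.ne', not_lt.2 h.le]
  simp_rw [h3, Finset.sum_add_distrib, h1]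
  rw [h2, two_mul]

theorem sum_Ioi_perm {N : ℕ} (g : Fin N → Fin N → ℝ≥0∞) (hg : ∀ i j, g i j = g j i)
    (σ : Equiv.Perm (Fin N)) :
    ∑ i, ∑ j ∈ Finset.Ioi i, g (σ i) (σ j) = ∑ i, ∑ j ∈ Finset.Ioi i, g i j := by
  have h1 := two_mul_sum_Ioi g hg
  have h2 := two_mul_sum_Ioi (fun i j => g (σ i) (σ j)) (fun i j => hg _ _)
  have h3 : (∑ i, ∑ j, if i ≠ j then g (σ i) (σ j) else 0) =
      ∑ i, ∑ j, if i ≠ j then g i j else 0 := by
    rw [← Equiv.sum_comp σ (fun i => ∑ j, if i ≠ j then g i j else 0)]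
    refine Finset.sum_congr rfl fun i _ => ?_
    rw [← Equiv.sum_comp σ (fun j => if σ i ≠ j then g (σ i) j else 0)]
    refine Finset.sum_congr rfl fun j _ => ?_
    simp only [ne_eq, EmbeddingLike.apply_eq_iff_eq]
  rw [h3] at h2
  have h4 : (2 : ℝ≥0∞) * (∑ i, ∑ j ∈ Finset.Ioi i, g (σ i) (σ j)) =
      2 * ∑ i, ∑ j ∈ Finset.Ioi i, g i j := by rw [h2, h1]
  exact (ENNReal.mul_right_inj (by norm_num) (by norm_num)).1 h4

theorem restrict_confBox (N : ℕ) (L : ℝ) :
    (volume : Measure (Conf N)).restrict (confBox N L) =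
      Measure.pi fun _ => (volume : Measure (Fin 3 → ℝ)).restrict (box L) := by
  unfold confBox
  rw [volume_pi, Measure.restrict_pi_pi]

theorem measurable_dens (c : Fin 3 → Fin m) :
    Measurable fun y => ENNReal.ofReal (qq m L s c y / L ^ 3) :=
  ENNReal.measurable_ofReal.comp ((measurable_qq c).div_const _)

theorem lintegral_dens_ne_top (hL : 0 < L) (hs : s ≠ 0) (c : Fin 3 → Fin m) :
    ∫⁻ y, ENNReal.ofReal (qq m L s c y / L ^ 3) ∂(volume.restrict (box L)) ≠ (⊤ : ℝ≥0∞) := by
  have := isProbabilityMeasure_nu (m := m) hL hs c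
  have h := measure_univ (μ := nu m L s c)
  unfold nu at h
  rw [withDensity_apply _ MeasurableSet.univ, Measure.restrict_univ] at h
  rw [h]
  exact ENNReal.one_ne_top

theorem pair_int (hL : 0 < L) (hs : s ≠ 0) {W : (Fin 3 → ℝ) → ℝ≥0∞} (hW : Measurable W)
    (c : Fin N → Fin 3 → Fin m) {i j : Fin N} (hij : i ≠ j) :
    ∫⁻ x in confBox N L, (∏ k, ENNReal.ofReal (qq m L s (c k) (x k))) * W (x i - x j) =
      ENNReal.ofReal ((L ^ 3) ^ N) * JJ m L s W (c i) (c j) := by
  have : ∀ k, IsProbabilityMeasure (nu m L s (c k)) := fun k =>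
    isProbabilityMeasure_nu (m := m) hL hs (c k)
  have hL3 : (0 : ℝ) < L ^ 3 := pow_pos hL 3
  have h1 : ∀ x : Conf N, (∏ k, ENNReal.ofReal (qq m L s (c k) (x k))) * W (x i - x j) =
      ENNReal.ofReal ((L ^ 3) ^ N) *
        (((fun x : Conf N => ∏ k, ENNReal.ofReal (qq m L s (c k) (x k) / L ^ 3)) *
          fun x : Conf N => W (x i - x j)) x) := by
    intro x
    rw [Pi.mul_apply, ← mul_assoc]
    congr 1
    have : ∀ k : Fin N, ENNReal.ofReal (qq m L s (c k) (x k)) =
        ENNReal.ofReal (L ^ 3) * ENNReal.ofReal (qq m L s (c k) (x k) / L ^ 3) := by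
      intro k
      rw [← ENNReal.ofReal_mul hL3.le, mul_div_cancel₀ _ hL3.ne']
    simp_rw [this]
    rw [Finset.prod_mul_distrib, Finset.prod_const, Finset.card_univ, Fintype.card_fin,
      ENNReal.ofReal_pow hL3.le]
  have hWm : Measurable fun x : Conf N => W (x i - x j) :=
    hW.comp ((measurable_pi_apply i).sub (measurable_pi_apply j))
  have hdm : Measurable fun x : Conf N =>
      ∏ k, ENNReal.ofReal (qq m L s (c k) (x k) / L ^ 3) :=
    Finset.measurable_fun_prod _ fun k _ => (measurable_dens (c k)).comp (measurable_pi_apply k)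
  rw [lintegral_congr h1, lintegral_const_mul _ (hdm.mul hWm), restrict_confBox,
    ← lintegral_withDensity_eq_lintegral_mul _ hdm hWm,
    ← pi_withDensity (fun _ => (volume : Measure (Fin 3 → ℝ)).restrict (box L))
      (fun k y => ENNReal.ofReal (qq m L s (c k) y / L ^ 3)) (fun k => measurable_dens (c k))
      (fun k => lintegral_dens_ne_top (m := m) hL hs (c k))]
  congr 1
  have h2 := lintegral_pi_pair (fun k => nu m L s (c k)) hij
    (f := fun x y => W (x - y)) (hW.comp (measurable_fst.sub measurable_snd))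
  exact h2

end PairReduceAux

open PairReduceAux

theorem JJ_comm (hL : 0 < L) (hs : s ≠ 0) {W : (Fin 3 → ℝ) → ℝ≥0∞} (hW : Measurable W)
    (heven : ∀ y, W (-y) = W y) (c c' : Fin 3 → Fin m) :
    JJ m L s W c c' = JJ m L s W c' c := by
  have := isProbabilityMeasure_nu (m := m) hL hs c
  have := isProbabilityMeasure_nu (m := m) hL hs c'
  unfold JJ
  have hm : Measurable (Function.uncurry fun x y : Fin 3 → ℝ => W (x - y)) :=
    hW.comp (measurable_fst.sub measurable_snd)
  rw [lintegral_lintegral_swap (f := fun x y => W (x - y)) hm.aemeasurable]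
  refine lintegral_congr fun x => lintegral_congr fun y => ?_
  rw [← heven (y - x), neg_sub]

theorem interaction_trial (hL : 0 < L) (hs : s ≠ 0) {W : (Fin 3 → ℝ) → ℝ≥0∞} (hW : Measurable W)
    (heven : ∀ y, W (-y) = W y) (a : Fin N → Fin 3 → Fin m) :
    interaction N L W (trial N m L s a) =
      ENNReal.ofReal ((L ^ 3) ^ N) * ∑ i, ∑ j ∈ Finset.Ioi i, JJ m L s W (a i) (a j) := by
  have hfac : (0 : ℝ) < (Nat.factorial N : ℕ) := by exact_mod_cast Nat.factorial_pos N
  have h1 : ∀ x : Conf N, ENNReal.ofReal (‖trial N m L s a x‖ ^ 2) =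
      ENNReal.ofReal (((Nat.factorial N : ℕ) : ℝ)⁻¹) *
        ∑ σ : Equiv.Perm (Fin N), ∏ k, ENNReal.ofReal (qq m L s (a (σ k)) (x k)) := by
    intro x
    have hP := PP_pos (N := N) (m := m) hL hs a x
    have : ‖trial N m L s a x‖ ^ 2 = PP N m L s a x := by
      unfold trial
      rw [Complex.norm_real, Real.norm_eq_abs, sq_abs, Real.sq_sqrt hP.le]
    rw [this]
    unfold PP
    rw [ENNReal.ofReal_mul (inv_nonneg.2 hfac.le),
      ENNReal.ofReal_sum_of_nonneg fun σ _ =>
        Finset.prod_nonneg fun k _ => (qq_pos hL hs _ _).le]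
    congr 1
    refine Finset.sum_congr rfl fun σ _ => ?_
    rw [ENNReal.ofReal_prod_of_nonneg fun k _ => (qq_pos hL hs _ _).le]
  have hWm : ∀ i j : Fin N, Measurable fun x : Conf N => W (x i - x j) := fun i j =>
    hW.comp ((measurable_pi_apply i).sub (measurable_pi_apply j))
  have hqm : ∀ σ : Equiv.Perm (Fin N), Measurable fun x : Conf N =>
      ∏ k, ENNReal.ofReal (qq m L s (a (σ k)) (x k)) := fun σ =>
    Finset.measurable_fun_prod _ fun k _ =>
      ENNReal.measurable_ofReal.comp ((measurable_qq (a (σ k))).comp (measurable_pi_apply k))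
  have h2 : ∀ x : Conf N, (∑ i, ∑ j ∈ Finset.Ioi i, W (x i - x j)) *
      ENNReal.ofReal (‖trial N m L s a x‖ ^ 2) =
      ENNReal.ofReal (((Nat.factorial N : ℕ) : ℝ)⁻¹) *
        ∑ σ : Equiv.Perm (Fin N), ∑ i, ∑ j ∈ Finset.Ioi i,
          (∏ k, ENNReal.ofReal (qq m L s (a (σ k)) (x k))) * W (x i - x j) := by
    intro x
    rw [h1 x, mul_left_comm]
    congr 1
    rw [Finset.mul_sum]
    refine Finset.sum_congr rfl fun σ _ => ?_
    rw [mul_comm, Finset.mul_sum]
    refine Finset.sum_congr rfl fun i _ => ?_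
    rw [Finset.mul_sum]
  have h3 : ∀ σ : Equiv.Perm (Fin N), ∀ i j : Fin N, Measurable fun x : Conf N =>
      (∏ k, ENNReal.ofReal (qq m L s (a (σ k)) (x k))) * W (x i - x j) :=
    fun σ i j => (hqm σ).mul (hWm i j)
  unfold interaction
  rw [lintegral_congr h2, lintegral_const_mul _ (Finset.measurable_fun_sum _ fun σ _ =>
    Finset.measurable_fun_sum _ fun i _ => Finset.measurable_fun_sum _ fun j _ => h3 σ i j)]
  rw [lintegral_finsetSum _ fun σ _ =>
    Finset.measurable_fun_sum _ fun i _ => Finset.measurable_fun_sum _ fun j _ => h3 σ i j]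
  have h4 : ∀ σ : Equiv.Perm (Fin N), ∫⁻ x in confBox N L, ∑ i, ∑ j ∈ Finset.Ioi i,
      (∏ k, ENNReal.ofReal (qq m L s (a (σ k)) (x k))) * W (x i - x j) =
      ENNReal.ofReal ((L ^ 3) ^ N) * ∑ i, ∑ j ∈ Finset.Ioi i, JJ m L s W (a i) (a j) := by
    intro σ
    rw [lintegral_finsetSum _ fun i _ => Finset.measurable_fun_sum _ fun j _ => h3 σ i j]
    rw [← sum_Ioi_perm (fun i j => JJ m L s W (a i) (a j))
      (fun i j => JJ_comm hL hs hW heven (a i) (a j)) σ, Finset.mul_sum]
    refine Finset.sum_congr rfl fun i _ => ?_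
    rw [lintegral_finsetSum _ fun j _ => h3 σ i j, Finset.mul_sum]
    refine Finset.sum_congr rfl fun j hj => ?_
    exact pair_int hL hs hW (fun k => a (σ k)) (Finset.mem_Ioi.1 hj).ne
  rw [Finset.sum_congr rfl fun σ _ => h4 σ, Finset.sum_const, Finset.card_univ,
    Fintype.card_perm, Fintype.card_fin, nsmul_eq_mul, ← mul_assoc,
    ENNReal.ofReal_inv_of_pos hfac, ENNReal.ofReal_natCast,
    ENNReal.inv_mul_cancel (by exact_mod_cast Nat.factorial_ne_zero N)
      (ENNReal.natCast_ne_top _), one_mul]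

end Pool.Agent.P76s
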