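import Pool.Agent.Lib.P76s.Tile

/-!
# P76s.SelfTerm (1.5 h): two particles of the same cell (black boxes: Cells, Tile)

`JJ c c = (1/V²) ∬_{box²} W(x-y) qq c x qq c y` with `V = L³`, `W = periodize L w`, and
`qq c x = ∫ hcell c (x+z) dgam3(z)` (product of three one-dimensional integrals:
`integral_fintype_prod_eq_prod`, or in `ℝ≥0∞`).  So, by Tonelli,
`JJ c c = (1/V²) ∫∫ dgam3(z) dgam3(z') ∬_{box²} W(x-y) hcell c (x+z) hcell c (y+z')`; by
`lintegral_box_shift` (in `x` and in `y`; `W` and `hcell c` are periodic) the inner integral is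
`∬_{box²} W(x-y-z+z') hcell c x hcell c y`.  Tonelli again:
`JJ c c = (1/V²) ∬_{box²} hcell c x hcell c y [∫∫ W(x-y-z+z')] ≥ (1/V²) ∬ hcell c x hcell c y κ = κ`,
because `W ≥ w` (`le_periodize`), for `x, y ∈ box` with `hcell c x, hcell c y ≠ 0` every coordinate of
`d = x - y` is `≤ L/m` in absolute value (`cell_close`), the double Gaussian integral of
`w(d - z + z')` is `KK s w d` (swap the names/order of `z, z'`: `lintegral_lintegral_swap`), and
`∫_{box} hcell c = V` (`integral_cell`, product).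
-/

open MeasureTheory Filter Topology ProbabilityTheory
open scoped ENNReal NNReal BigOperators ContDiff

namespace Pool.Agent.P76s

namespace SelfTermAux

open TrialIAux

variable {m : ℕ} {L : ℝ} {s : ℝ≥0}

/-- the cell function with values in `[0, ∞]` -/
noncomputable def hh (m : ℕ) (L : ℝ) (c : Fin 3 → Fin m) (y : Fin 3 → ℝ) : ℝ≥0∞ :=
  ENNReal.ofReal (hcell m L c y)

lemma measurable_hh (c : Fin 3 → Fin m) : Measurable (hh m L c) :=
  (measurable_hcell c).ennreal_ofReal

lemma hcell_nonneg' (c : Fin 3 → Fin m) (y : Fin 3 → ℝ) : 0 ≤ hcell m L c y :=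
  Finset.prod_nonneg fun _ _ => cell_nonneg _ _

lemma norm_hcell_le (c : Fin 3 → Fin m) (y : Fin 3 → ℝ) : ‖hcell m L c y‖ ≤ (m : ℝ) ^ 3 := by
  rw [Real.norm_eq_abs, abs_of_nonneg (hcell_nonneg' c y)]
  unfold hcell
  calc ∏ b, cell m L (c b) (y b) ≤ ∏ _b : Fin 3, (m : ℝ) :=
        Finset.prod_le_prod (fun _ _ => cell_nonneg _ _) fun b _ => cell_le _ _
    _ = (m : ℝ) ^ 3 := by simp

lemma hh_per (hL : 0 < L) (c : Fin 3 → Fin m) (y : Fin 3 → ℝ) (n : Fin 3 → ℤ) :
    hh m L c (y + lat L n) = hh m L c y := by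
  unfold hh hcell
  congr 1
  refine Finset.prod_congr rfl fun b _ => ?_
  exact cell_add hL (c b) (y b) (n b)

lemma ofReal_qq (c : Fin 3 → Fin m) (y : Fin 3 → ℝ) :
    ENNReal.ofReal (qq m L s c y) = ∫⁻ z, hh m L c (y + z) ∂(gam3 s) := by
  have h1 : qq m L s c y = ∫ z, hcell m L c (y + z) ∂(gam3 s) := by
    unfold qq psi gam3
    exact (integral_fintype_prod_eq_prod (μ := fun _ : Fin 3 => gaussianReal 0 s)
      (fun b (t : ℝ) => cell m L (c b) (y b + t))).symm
  rw [h1, ofReal_integral_eq_lintegral_ofReal]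
  · rfl
  · refine Integrable.of_bound ?_ ((m : ℝ) ^ 3) (Eventually.of_forall fun z => norm_hcell_le _ _)
    exact ((measurable_hcell c).comp (measurable_const_add y)).aestronglyMeasurable
  · exact Eventually.of_forall fun z => hcell_nonneg' _ _

lemma lintegral_hh (hL : 0 < L) (c : Fin 3 → Fin m) :
    ∫⁻ y in box L, hh m L c y = ENNReal.ofReal (L ^ 3) := by
  have h1 : ∫ y in box L, hcell m L c y = L ^ 3 := by
    rw [box_restrict]
    unfold hcell
    rw [integral_fintype_prod_eq_prod (fun b (t : ℝ) => cell m L (c b) t)]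
    simp only [integral_cell hL]
    simp
  rw [← h1, ofReal_integral_eq_lintegral_ofReal]
  · rfl
  · exact Integrable.of_bound (measurable_hcell c).aestronglyMeasurable ((m : ℝ) ^ 3)
      (Eventually.of_forall fun z => norm_hcell_le _ _)
  · exact Eventually.of_forall fun z => hcell_nonneg' _ _

/-- averaging a periodic function against `qq` -/
lemma avg (hL : 0 < L) (c : Fin 3 → Fin m) {G : (Fin 3 → ℝ) → ℝ≥0∞} (hG : Measurable G)
    (hper : ∀ y (n : Fin 3 → ℤ), G (y + lat L n) = G y) :
    ∫⁻ x in box L, ENNReal.ofReal (qq m L s c x) * G x =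
      ∫⁻ x in box L, hh m L c x * ∫⁻ z, G (x - z) ∂(gam3 s) := by
  have hm1 : ∀ x : Fin 3 → ℝ, Measurable fun z : Fin 3 → ℝ => hh m L c (x + z) := fun x =>
    (measurable_hh c).comp (measurable_const_add x)
  have hm2 : ∀ x : Fin 3 → ℝ, Measurable fun z : Fin 3 → ℝ => G (x - z) := fun x =>
    hG.comp (measurable_const.sub measurable_id)
  have e1 : ∀ x, ENNReal.ofReal (qq m L s c x) * G x =
      ∫⁻ z, hh m L c (x + z) * G x ∂(gam3 s) := by
    intro x
    rw [ofReal_qq, lintegral_mul_const _ (hm1 x)]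
  have e2 : ∀ x, hh m L c x * ∫⁻ z, G (x - z) ∂(gam3 s) =
      ∫⁻ z, hh m L c x * G (x - z) ∂(gam3 s) := by
    intro x
    rw [lintegral_const_mul _ (hm2 x)]
  have s1 : ∫⁻ x in box L, ∫⁻ z, hh m L c (x + z) * G x ∂(gam3 s) =
      ∫⁻ z, (∫⁻ x in box L, hh m L c (x + z) * G x) ∂(gam3 s) := by
    refine lintegral_lintegral_swap (Measurable.aemeasurable ?_)
    exact ((measurable_hh c).comp (measurable_fst.add measurable_snd)).mul
      (hG.comp measurable_fst)
  have s2 : ∫⁻ x in box L, ∫⁻ z, hh m L c x * G (x - z) ∂(gam3 s) =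
      ∫⁻ z, (∫⁻ x in box L, hh m L c x * G (x - z)) ∂(gam3 s) := by
    refine lintegral_lintegral_swap (Measurable.aemeasurable ?_)
    exact ((measurable_hh c).comp measurable_fst).mul
      (hG.comp (measurable_fst.sub measurable_snd))
  simp only [e1, e2]
  rw [s1, s2]
  refine lintegral_congr fun z => ?_
  have hmz : Measurable fun y : Fin 3 → ℝ => hh m L c y * G (y - z) :=
    (measurable_hh c).mul (hG.comp (measurable_id.sub_const z))
  have h := lintegral_box_shift hL hmz
    (fun y n => by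
      have e3 : y + lat L n - z = y - z + lat L n := by abel
      rw [hh_per hL, e3, hper]) z
  rw [← h]
  refine lintegral_congr fun y => ?_
  rw [add_sub_cancel_right]

lemma lintegral_nu (c : Fin 3 → Fin m) {F : (Fin 3 → ℝ) → ℝ≥0∞} (hF : Measurable F) :
    ∫⁻ x, F x ∂(nu m L s c) =
      ENNReal.ofReal (L ^ 3)⁻¹ * ∫⁻ x in box L, ENNReal.ofReal (qq m L s c x) * F x := by
  have hq : Measurable fun y : Fin 3 → ℝ => ENNReal.ofReal (qq m L s c y / L ^ 3) :=
    ((measurable_qq c).div_const _).ennreal_ofReal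
  have hq' : Measurable fun y : Fin 3 → ℝ => ENNReal.ofReal (qq m L s c y) :=
    (measurable_qq c).ennreal_ofReal
  have hm : Measurable fun y : Fin 3 → ℝ => ENNReal.ofReal (qq m L s c y) * F y := hq'.mul hF
  unfold nu
  rw [lintegral_withDensity_eq_lintegral_mul _ hq hF, ← lintegral_const_mul _ hm]
  refine lintegral_congr fun x => ?_
  rw [Pi.mul_apply, div_eq_mul_inv, ENNReal.ofReal_mul (qq_nonneg c x)]
  ring

end SelfTermAux

open SelfTermAux in
theorem le_JJ_self {m : ℕ} {L : ℝ} {s : ℝ≥0} {w : (Fin 3 → ℝ) → ℝ≥0∞} (hL : 0 < L) (hs : s ≠ 0)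
    (hw : Measurable w) {κ : ℝ≥0∞} (hκ : ∀ d : Fin 3 → ℝ, (∀ b, |d b| ≤ L / m) → κ ≤ KK s w d)
    (c : Fin 3 → Fin m) : κ ≤ JJ m L s (periodize L w) c c := by
  have hW : Measurable (periodize L w) := measurable_periodize hw
  have hG : Measurable fun x : Fin 3 → ℝ =>
      ∫⁻ y in box L, ENNReal.ofReal (qq m L s c y) * periodize L w (x - y) :=
    Measurable.lintegral_prod_right' (f := fun p : (Fin 3 → ℝ) × (Fin 3 → ℝ) =>
      ENNReal.ofReal (qq m L s c p.2) * periodize L w (p.1 - p.2))
      (((measurable_qq c).ennreal_ofReal.comp measurable_snd).mul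
        (hW.comp (measurable_fst.sub measurable_snd)))
  have hGper : ∀ (x : Fin 3 → ℝ) (n : Fin 3 → ℤ),
      ∫⁻ y in box L, ENNReal.ofReal (qq m L s c y) * periodize L w (x + lat L n - y) =
      ∫⁻ y in box L, ENNReal.ofReal (qq m L s c y) * periodize L w (x - y) := by
    intro x n
    refine lintegral_congr fun y => ?_
    have e : x + lat L n - y = x - y + lat L n := by abel
    rw [e, periodize_add]
  -- the inner integral
  have hG2 : ∀ x : Fin 3 → ℝ,
      ∫⁻ y in box L, ENNReal.ofReal (qq m L s c y) * periodize L w (x - y) =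
      ∫⁻ y in box L, hh m L c y * ∫⁻ z', periodize L w (x - (y - z')) ∂(gam3 s) := by
    intro x
    refine avg hL c (G := fun y => periodize L w (x - y))
      (hW.comp (measurable_const.sub measurable_id)) fun y n => ?_
    have e : x - y = x - (y + lat L n) + lat L n := by abel
    rw [e, periodize_add]
  have hJ : JJ m L s (periodize L w) c c = ENNReal.ofReal (L ^ 3)⁻¹ * (ENNReal.ofReal (L ^ 3)⁻¹ *
      ∫⁻ x in box L, hh m L c x * ∫⁻ z, (∫⁻ y in box L, hh m L c y *
        ∫⁻ z', periodize L w (x - z - (y - z')) ∂(gam3 s)) ∂(gam3 s)) := by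
    have e1 : ∀ x : Fin 3 → ℝ, ∫⁻ y, periodize L w (x - y) ∂(nu m L s c) =
        ENNReal.ofReal (L ^ 3)⁻¹ *
          ∫⁻ y in box L, ENNReal.ofReal (qq m L s c y) * periodize L w (x - y) := fun x =>
      lintegral_nu c (hW.comp (measurable_const.sub measurable_id))
    unfold JJ
    simp only [e1]
    rw [lintegral_const_mul _ hG, lintegral_nu c hG, avg hL c hG hGper]
    congr 1
    congr 1
    refine lintegral_congr fun x => ?_
    congr 1
    refine lintegral_congr fun z => ?_
    exact hG2 (x - z)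
  have hmain : ENNReal.ofReal (L ^ 3) * (ENNReal.ofReal (L ^ 3) * κ) ≤
      ∫⁻ x in box L, hh m L c x * ∫⁻ z, (∫⁻ y in box L, hh m L c y *
        ∫⁻ z', periodize L w (x - z - (y - z')) ∂(gam3 s)) ∂(gam3 s) := by
    rw [← lintegral_hh hL c, ← lintegral_mul_const _ (measurable_hh c),
      ← lintegral_mul_const _ (measurable_hh c)]
    refine setLIntegral_mono' tl_measurable_box fun x hx => ?_
    rcases eq_or_ne (hh m L c x) 0 with hx0 | hx0
    · rw [hx0, zero_mul]
      exact zero_le
    refine mul_le_mul_right ?_ _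
    have hswap : ∫⁻ z, (∫⁻ y in box L, hh m L c y *
        ∫⁻ z', periodize L w (x - z - (y - z')) ∂(gam3 s)) ∂(gam3 s) =
        ∫⁻ y in box L, (∫⁻ z, hh m L c y *
        (∫⁻ z', periodize L w (x - z - (y - z')) ∂(gam3 s)) ∂(gam3 s)) := by
      refine lintegral_lintegral_swap (Measurable.aemeasurable ?_)
      refine ((measurable_hh c).comp measurable_snd).mul ?_
      exact Measurable.lintegral_prod_right'
        (f := fun p : ((Fin 3 → ℝ) × (Fin 3 → ℝ)) × (Fin 3 → ℝ) =>
          periodize L w (x - p.1.1 - (p.1.2 - p.2)))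
        (hW.comp ((measurable_const.sub (measurable_fst.comp measurable_fst)).sub
          ((measurable_snd.comp measurable_fst).sub measurable_snd)))
    rw [hswap]
    refine setLIntegral_mono' tl_measurable_box fun y hy => ?_
    rcases eq_or_ne (hh m L c y) 0 with hy0 | hy0
    · rw [hy0, zero_mul]
      exact zero_le
    have hmy : Measurable fun z : Fin 3 → ℝ =>
        ∫⁻ z', periodize L w (x - z - (y - z')) ∂(gam3 s) :=
      Measurable.lintegral_prod_right' (f := fun p : (Fin 3 → ℝ) × (Fin 3 → ℝ) =>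
        periodize L w (x - p.1 - (y - p.2)))
        (hW.comp ((measurable_const.sub measurable_fst).sub
          (measurable_const.sub measurable_snd)))
    rw [lintegral_const_mul _ hmy]
    refine mul_le_mul_right ?_ _
    have hd : ∀ b, |(x - y) b| ≤ L / m := by
      intro b
      have hxb : cell m L (c b) (x b) ≠ 0 := by
        intro h
        refine hx0 ?_
        unfold hh hcell
        rw [Finset.prod_eq_zero (Finset.mem_univ b) h, ENNReal.ofReal_zero]
      have hyb : cell m L (c b) (y b) ≠ 0 := by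
        intro h
        refine hy0 ?_
        unfold hh hcell
        rw [Finset.prod_eq_zero (Finset.mem_univ b) h, ENNReal.ofReal_zero]
      exact cell_close hL (c b) (hx b (Set.mem_univ b)) (hy b (Set.mem_univ b)) hxb hyb
    refine (hκ _ hd).trans ?_
    unfold KK
    rw [lintegral_lintegral_swap]
    · refine lintegral_mono fun z => lintegral_mono fun z' => ?_
      have e : x - z - (y - z') = x - y + z' - z := by abel
      rw [e]
      exact le_periodize _
    · exact (hw.comp ((measurable_const.add measurable_fst).sub measurable_snd)).aemeasurable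
  rw [hJ]
  have hL3 : (0 : ℝ) < L ^ 3 := pow_pos hL 3
  have hone : ENNReal.ofReal (L ^ 3)⁻¹ * ENNReal.ofReal (L ^ 3) = 1 := by
    rw [← ENNReal.ofReal_mul (inv_nonneg.2 hL3.le), inv_mul_cancel₀ hL3.ne', ENNReal.ofReal_one]
  calc κ = ENNReal.ofReal (L ^ 3)⁻¹ * (ENNReal.ofReal (L ^ 3)⁻¹ *
        (ENNReal.ofReal (L ^ 3) * (ENNReal.ofReal (L ^ 3) * κ))) := by
        rw [← mul_assoc (ENNReal.ofReal (L ^ 3)⁻¹) (ENNReal.ofReal (L ^ 3)), hone, one_mul,
          ← mul_assoc, hone, one_mul]
    _ ≤ _ := mul_le_mul_right (mul_le_mul_right hmain _) _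

end Pool.Agent.P76s
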