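import Pool.Agent.Lib.P76s.Kinetic
import Pool.Agent.Lib.P76s.PairReduce
import Pool.Agent.Lib.P76s.SelfTerm
import Pool.Agent.Lib.P76s.Combine

/-!
# P76s.Upper: the upper bound for the ground-state energy at finite volume
-/

open MeasureTheory Filter Topology ProbabilityTheory
open scoped ENNReal NNReal BigOperators

namespace Pool.Agent.P76s

theorem groundEnergy_mono {N : ℕ} {L : ℝ} {W W' : (Fin 3 → ℝ) → ℝ≥0∞} (h : ∀ y, W y ≤ W' y) :
    groundEnergy N L W ≤ groundEnergy N L W' := by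
  unfold groundEnergy interaction
  gcongr
  exact h _

theorem groundEnergy_le {N : ℕ} {L : ℝ} {W : (Fin 3 → ℝ) → ℝ≥0∞} {Ψ : Conf N → ℂ}
    (h : IsWave N L Ψ) (hm : mass N L Ψ ≠ 0) :
    groundEnergy N L W ≤ (kinetic N L Ψ + interaction N L W Ψ) / mass N L Ψ :=
  iInf_le_of_le Ψ (iInf_le_of_le h (iInf_le_of_le hm le_rfl))

theorem upper {N m : ℕ} (hN : 0 < N) (hm : 0 < m) {L : ℝ} (hL : 0 < L) {s : ℝ≥0} (hs : s ≠ 0)
    {w : (Fin 3 → ℝ) → ℝ≥0∞} (hw : Measurable w) (heven : ∀ y, w (-y) = w y) {V₀ κ : ℝ}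
    (hV : ∫⁻ y, w y = ENNReal.ofReal V₀) (hV0 : 0 ≤ V₀)
    (hκ : ∀ d : Fin 3 → ℝ, (∀ b, |d b| ≤ L / m) → ENNReal.ofReal κ ≤ KK s w d) :
    groundEnergy N L (periodize L w) ≤
      ENNReal.ofReal (m ^ 3 * (1 + Real.log (N / m ^ 3 + 1) + m ^ 3 / N) / (4 * s) +
        1 / 2 * (N ^ 2 * V₀ / L ^ 3 + (m ^ 3) ^ 2 * V₀ / L ^ 3 - N * κ)) := by
  obtain ⟨a, ha⟩ := exists_balanced N hm
  have hW := measurable_periodize (L := L) hw
  have hWe : ∀ y, periodize L w (-y) = periodize L w y := periodize_neg heven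
  have hs' : (0 : ℝ) < s := by positivity
  have hm' : (0 : ℝ) < m := by exact_mod_cast hm
  have hN' : (0 : ℝ) < N := by exact_mod_cast hN
  have hV3 : (0 : ℝ) < (L ^ 3) ^ N := by positivity
  have hrowE : ∀ c, ∑ c', JJ m L s (periodize L w) c c' = ENNReal.ofReal (m ^ 3 / L ^ 3 * V₀) := by
    intro c
    rw [JJ_row hL hs hm hw, hV, ← ENNReal.ofReal_mul (by positivity)]
  have hfin : ∀ c c', JJ m L s (periodize L w) c c' ≠ ⊤ := by
    intro c c'
    refine ne_of_lt (lt_of_le_of_lt ?_ (ENNReal.ofReal_lt_top (r := m ^ 3 / L ^ 3 * V₀)))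
    rw [← hrowE c]
    exact Finset.single_le_sum (f := fun c' => JJ m L s (periodize L w) c c')
      (fun _ _ => zero_le) (Finset.mem_univ c')
  set J : (Fin 3 → Fin m) → (Fin 3 → Fin m) → ℝ :=
    fun c c' => (JJ m L s (periodize L w) c c').toReal with hJ
  have hJof : ∀ c c', JJ m L s (periodize L w) c c' = ENNReal.ofReal (J c c') := fun c c' =>
    (ENNReal.ofReal_toReal (hfin c c')).symm
  have h0 : ∀ c c', 0 ≤ J c c' := fun c c' => ENNReal.toReal_nonneg
  have hsymm : ∀ c c', J c c' = J c' c := by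
    intro c c'
    simp only [hJ]
    rw [JJ_comm hL hs hW hWe]
  have hrow : ∀ c, ∑ c', J c c' = m ^ 3 / L ^ 3 * V₀ := by
    intro c
    have h1 := congrArg ENNReal.toReal (hrowE c)
    rw [ENNReal.toReal_sum (fun c' _ => hfin c c'), ENNReal.toReal_ofReal (by positivity)] at h1
    exact h1
  have hκ' : ∀ c, κ ≤ J c c := by
    intro c
    have h1 := le_JJ_self hL hs hw hκ c
    exact (ENNReal.ofReal_le_iff_le_toReal (hfin c c)).1 h1
  have hcomb := combine hm a ha J h0 hsymm hrow hκ'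
  set B : ℝ := ∑ i, ∑ j ∈ Finset.Ioi i, J (a i) (a j) with hB
  have hB0 : 0 ≤ B := Finset.sum_nonneg fun i _ => Finset.sum_nonneg fun j _ => h0 _ _
  set A : ℝ := m ^ 3 * (1 + Real.log (N / m ^ 3 + 1) + m ^ 3 / N) / (4 * s) with hA
  have hlog0 : 0 ≤ Real.log (N / m ^ 3 + 1) :=
    Real.log_nonneg (by have : (0:ℝ) ≤ N / m ^ 3 := by positivity
                        linarith)
  have hA0 : 0 ≤ A := by positivity
  have hkin : kinetic N L (trial N m L s a) ≤ ENNReal.ofReal (A * (L ^ 3) ^ N) := by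
    refine le_trans (kinetic_trial_le hL hs a) (ENNReal.ofReal_le_ofReal ?_)
    have h1 := log_MM_le hN hm a ha
    rw [hA]
    gcongr
  have hint : interaction N L (periodize L w) (trial N m L s a) =
      ENNReal.ofReal ((L ^ 3) ^ N) * ENNReal.ofReal B := by
    rw [interaction_trial hL hs hW hWe a, hB]
    congr 1
    rw [ENNReal.ofReal_sum_of_nonneg (fun i _ => Finset.sum_nonneg fun j _ => h0 _ _)]
    refine Finset.sum_congr rfl fun i _ => ?_
    rw [ENNReal.ofReal_sum_of_nonneg (fun j _ => h0 _ _)]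
    exact Finset.sum_congr rfl fun j _ => hJof _ _
  have hmass := mass_trial (N := N) hL hs a
  have hmass0 : mass N L (trial N m L s a) ≠ 0 := by
    rw [hmass]; simpa using hV3
  refine le_trans (groundEnergy_le (isWave_trial hL hs a) hmass0) ?_
  rw [hmass, hint]
  have hVn0 : ENNReal.ofReal ((L ^ 3) ^ N) ≠ 0 := by simpa using hV3
  refine le_trans (ENNReal.div_le_of_le_mul (b := ENNReal.ofReal A + ENNReal.ofReal B) ?_) ?_
  · rw [add_mul, ← ENNReal.ofReal_mul hA0, mul_comm (ENNReal.ofReal B)]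
    gcongr
  · rw [← ENNReal.ofReal_add hA0 hB0]
    refine ENNReal.ofReal_le_ofReal ?_
    refine add_le_add le_rfl (le_trans hcomb (le_of_eq ?_))
    have hm3 : (m : ℝ) ^ 3 ≠ 0 := by positivity
    have hL3 : L ^ 3 ≠ 0 := by positivity
    field_simp

end Pool.Agent.P76s
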