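import Pool.Agent.Lib.P76s.FourierEqn

/-!
# P76s.PosU (2 h): solutions with `u ≤ 1` are nonnegative (black box: FourierEqn)

`v ≥ 0` integrable, `ρ > 0`, `u ≤ 1` a.e., so `S = (1-u)v ≥ 0` a.e., `e = (ρ/2)∫S ≥ 0`.
Write `κ(k) = 4π²|k|² + 4e`, `û = 𝓕 u`, `Ŝ = 𝓕 S`, so `κ û = Ŝ + 2eρ û²` and `|Ŝ| ≤ Ŝ(0) = 2e/ρ`.
* `e = 0`: `Ŝ = 0`, so `û = 0` off `0`, hence everywhere (continuity), `u = 0` a.e. (injectivity of
  the Fourier transform on `L¹`).
* `e > 0`: put `w(k) = 4eρ û/κ`, `x(k) = 8eρ Ŝ/κ²`; the equation reads `2w = x + w²`, `|x| < 1` for `k ≠ 0`.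
  `|w| ≠ 1`: `w (2 - w) = x`, and `|w| = 1` would give `|2-w| ≥ 1`.  Along a ray `t ↦ w(tk)`, `t ≥ 1`, `w → 0`
  (`û` is bounded); by the intermediate value theorem `|w(k)| < 1` for all `k ≠ 0`.
* Let `w₀ = 0`, `w_{n+1} = (x + w_n²)/2`.  With `r(k) = 1 - √(1-|x|) < 1`: `|w_n| ≤ r`, and
  `|w - w_{n+1}| ≤ ½|w - w_n|(|w| + |w_n|)`, so `w_n → w` pointwise on `k ≠ 0`.
* `û_n := κ w_n/(4eρ)` satisfies `û_{n+1} = (Ŝ + 2eρ û_n²)/κ`.  Each `û_n` is the Fourier transform of a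
  nonnegative integrable function (or of a finite positive measure `μ_n`): `Ŝ` is; products are
  (convolution); `1/κ` is, because `1/κ = ∫_0^∞ e^{-4eτ} e^{-4π²τ|k|²} dτ` is a mixture of Gaussians.
  (`charFun` of finite measures on `E3` is convenient: `charFun_conv`, and the law of a
  Gaussian mixture; mind the factor `-2π` between `𝓕` and `charFun`.)  Also `|û_n| ≤ 1/ρ`.
* For a bump function `g ≥ 0` (smooth, compact support), `g = 𝓕 h` with `h ∈ 𝓢`:
  `∫ u g = ∫ û h = lim ∫ û_n h = lim ∫ g dμ_n ≥ 0` (dominated convergence), so `u ≥ 0` a.e.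
  (`ContDiffBump.ae_convolution_tendsto_right_of_locallyIntegrable`).
-/

open MeasureTheory Filter Topology ProbabilityTheory
open scoped ENNReal NNReal BigOperators ContDiff FourierTransform SchwartzMap

namespace Pool.Agent.P76s

namespace PosU

/-- Fourier transforms of finite measures. -/
def PD (F : E3 → ℂ) : Prop :=
  ∃ μ : Measure E3, IsFiniteMeasure μ ∧ ∀ k, F k = charFun μ ((-(2 * Real.pi)) • k)

theorem PD.zero : PD (fun _ => 0) :=
  ⟨0, inferInstance, fun k => by simp⟩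

theorem PD.mul {F G : E3 → ℂ} (hF : PD F) (hG : PD G) : PD fun k => F k * G k := by
  obtain ⟨μ, hμ, h1⟩ := hF
  obtain ⟨ν, hν, h2⟩ := hG
  refine ⟨μ.conv ν, inferInstance, fun k => ?_⟩
  change F k * G k = _
  rw [charFun_conv, h1, h2]

theorem integrable_char (μ : Measure E3) [IsFiniteMeasure μ] (t : E3) :
    Integrable (fun x : E3 => Complex.exp ((inner ℝ x t : ℝ) * Complex.I)) μ := by
  refine (integrable_const (1 : ℝ)).mono ?_ ?_
  · exact (Measurable.aestronglyMeasurable (by fun_prop))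
  · exact Eventually.of_forall fun x => by
      rw [Complex.norm_exp_ofReal_mul_I]; simp

theorem PD.add {F G : E3 → ℂ} (hF : PD F) (hG : PD G) : PD fun k => F k + G k := by
  obtain ⟨μ, hμ, h1⟩ := hF
  obtain ⟨ν, hν, h2⟩ := hG
  refine ⟨μ + ν, inferInstance, fun k => ?_⟩
  change F k + G k = _
  rw [h1, h2, charFun_apply, charFun_apply, charFun_apply,
    integral_add_measure (integrable_char μ _) (integrable_char ν _)]

theorem PD.smul {F : E3 → ℂ} (hF : PD F) {c : ℝ} (hc : 0 ≤ c) : PD fun k => (c : ℂ) * F k := by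
  obtain ⟨μ, hμ, h1⟩ := hF
  refine ⟨ENNReal.ofReal c • μ, ⟨?_⟩, fun k => ?_⟩
  · rw [Measure.smul_apply, smul_eq_mul]
    exact ENNReal.mul_lt_top ENNReal.ofReal_lt_top (measure_lt_top μ _)
  · change (c : ℂ) * F k = _
    rw [h1, charFun_apply, charFun_apply, integral_smul_measure, ENNReal.toReal_ofReal hc]
    simp

theorem PD.measurable {F : E3 → ℂ} (hF : PD F) : Measurable F := by
  obtain ⟨μ, hμ, h1⟩ := hF
  have : F = fun k => charFun μ ((-(2 * Real.pi)) • k) := funext h1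
  rw [this]
  exact measurable_charFun.comp (by fun_prop)

theorem charFun_eq_FI (μ : Measure E3) (k : E3) : charFun μ ((-(2 * Real.pi)) • k) =
    VectorFourier.fourierIntegral Real.fourierChar μ (innerₗ E3) (1 : E3 → ℂ) k := by
  rw [charFun_eq_fourierIntegral']
  congr 1
  rw [smul_smul]
  have : -(2 * Real.pi)⁻¹ * -(2 * Real.pi) = 1 := by
    have := Real.pi_ne_zero
    field_simp
  rw [this, one_smul]

/-- nonnegative functions -/
theorem PD.fourier {f : E3 → ℝ} (hf : Integrable f) (hf0 : ∀ᵐ x, 0 ≤ f x) :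
    PD (𝓕 (fun x => (f x : ℂ))) := by
  refine ⟨(volume : Measure E3).withDensity fun x => ENNReal.ofReal (f x), ?_, fun k => ?_⟩
  · exact isFiniteMeasure_withDensity_ofReal hf.2
  · rw [charFun_eq_FI, VectorFourier.fourierIntegral, Real.fourier_eq]
    have hm : AEMeasurable (fun x => (f x).toNNReal) (volume : Measure E3) :=
      hf.1.aemeasurable.real_toNNReal
    have h1 : (fun x => ENNReal.ofReal (f x)) = fun x => (((f x).toNNReal : ℝ≥0) : ℝ≥0∞) := rfl
    rw [h1, integral_withDensity_eq_integral_smul₀ hm]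
    refine integral_congr_ae ?_
    filter_upwards [hf0] with x hx
    simp only [Pi.one_apply, innerₗ_apply_apply]
    rw [NNReal.smul_def, Real.coe_toNNReal _ hx, smul_comm]
    simp [Circle.smul_def]

/-- pairing with Schwartz functions with nonnegative Fourier transform -/
theorem PD.pair {F : E3 → ℂ} (hF : PD F) (h : 𝓢(E3, ℂ)) (g : E3 → ℝ) (hg : ∀ x, 0 ≤ g x)
    (hgh : ∀ x, 𝓕 (h : E3 → ℂ) x = (g x : ℂ)) : 0 ≤ (∫ k, F k * h k).re := by
  obtain ⟨μ, hμ, h1⟩ := hF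
  have h2 : ∫ k, F k * h k = ∫ x, ((g x : ℝ) : ℂ) ∂μ := by
    have h3 := VectorFourier.integral_fourierIntegral_smul_eq_flip (μ := μ)
      (ν := (volume : Measure E3)) (e := Real.fourierChar) (L := innerₗ E3)
      (f := (1 : E3 → ℂ)) (g := (h : E3 → ℂ)) Real.continuous_fourierChar
      (by simpa using (continuous_inner (𝕜 := ℝ) (E := E3)))
      (integrable_const (1 : ℂ)) h.integrable
    simp only [smul_eq_mul, Pi.one_apply, one_mul] at h3
    rw [show (fun k => F k * h k) = fun k => VectorFourier.fourierIntegral Real.fourierChar μ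
      (innerₗ E3) (1 : E3 → ℂ) k * h k from funext fun k => by rw [h1, charFun_eq_FI], h3]
    refine integral_congr_ae (Eventually.of_forall fun x => ?_)
    simp only
    rw [← hgh, Real.fourier_eq, VectorFourier.fourierIntegral]
    simp only [LinearMap.flip_apply, innerₗ_apply_apply]
    refine integral_congr_ae (Eventually.of_forall fun y => ?_)
    simp only
    rw [real_inner_comm]
  rw [h2, integral_complex_ofReal, Complex.ofReal_re]
  exact integral_nonneg hg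

/-- the exponential weight on the half line -/
noncomputable def mExp (r : ℝ) : Measure ℝ :=
  (volume.restrict (Set.Ioi 0)).withDensity fun τ => ENNReal.ofReal (Real.exp (-r * τ))

theorem mExp_finite {r : ℝ} (hr : 0 < r) : IsFiniteMeasure (mExp r) := by
  refine isFiniteMeasure_withDensity_ofReal ?_
  exact (integrableOn_exp_mul_Ioi (a := -r) (by linarith) 0).2

theorem integral_mExp {r : ℝ} (hr : 0 < r) {s : ℝ} (hs : 0 ≤ s) :
    ∫ τ, ((Real.exp (-(τ * s)) : ℝ) : ℂ) ∂(mExp r) = ((r + s : ℝ) : ℂ)⁻¹ := by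
  have hm : AEMeasurable (fun τ : ℝ => (Real.exp (-r * τ)).toNNReal)
      ((volume : Measure ℝ).restrict (Set.Ioi 0)) := by
    exact (Measurable.aemeasurable (by fun_prop))
  have h1 : mExp r = ((volume : Measure ℝ).restrict (Set.Ioi 0)).withDensity
      fun τ => (((Real.exp (-r * τ)).toNNReal : ℝ≥0) : ℝ≥0∞) := rfl
  rw [h1, integral_withDensity_eq_integral_smul₀ hm]
  have h2 : ∀ τ : ℝ, (Real.exp (-r * τ)).toNNReal • ((Real.exp (-(τ * s)) : ℝ) : ℂ) =
      ((Real.exp (-(r + s) * τ) : ℝ) : ℂ) := by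
    intro τ
    rw [NNReal.smul_def, Real.coe_toNNReal _ (Real.exp_pos _).le, Complex.real_smul,
      ← Complex.ofReal_mul, ← Real.exp_add]
    congr 2
    ring
  simp_rw [h2]
  rw [integral_complex_ofReal, integral_exp_mul_Ioi (by linarith) 0, mul_zero, Real.exp_zero,
    neg_div_neg_eq, one_div, Complex.ofReal_inv]

/-- the resolvent kernel is the Fourier transform of a finite measure -/
theorem PD.resolvent {r : ℝ} (hr : 0 < r) :
    PD fun k => ((4 * Real.pi ^ 2 * ‖k‖ ^ 2 + r : ℝ) : ℂ)⁻¹ := by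
  have := mExp_finite hr
  refine ⟨((mExp r).prod (stdGaussian E3)).map fun p => Real.sqrt (2 * p.1) • p.2, inferInstance,
    fun k => ?_⟩
  have hm : Measurable fun p : ℝ × E3 => Real.sqrt (2 * p.1) • p.2 := by fun_prop
  obtain ⟨t, ht⟩ : ∃ t : E3, t = (-(2 * Real.pi)) • k := ⟨_, rfl⟩
  have htn : ‖t‖ ^ 2 = 4 * Real.pi ^ 2 * ‖k‖ ^ 2 := by
    rw [ht, norm_smul, Real.norm_eq_abs, mul_pow, sq_abs]
    ring
  change ((4 * Real.pi ^ 2 * ‖k‖ ^ 2 + r : ℝ) : ℂ)⁻¹ = _
  rw [← ht, ← htn]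
  have hc : Continuous fun x : E3 => Complex.exp ((inner ℝ x t : ℝ) * Complex.I) := by fun_prop
  rw [charFun_apply, integral_map hm.aemeasurable hc.aestronglyMeasurable, integral_prod]
  · have h1 : ∀ τ : ℝ, 0 < τ → ∫ z : E3, Complex.exp
        ((inner ℝ (Real.sqrt (2 * τ) • z) t : ℝ) * Complex.I) ∂(stdGaussian E3) =
        ((Real.exp (-(τ * ‖t‖ ^ 2)) : ℝ) : ℂ) := by
      intro τ hτ
      have h2 : (fun z : E3 => Complex.exp
        ((inner ℝ (Real.sqrt (2 * τ) • z) t : ℝ) * Complex.I)) = fun z : E3 => Complex.exp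
        ((inner ℝ z (Real.sqrt (2 * τ) • t) : ℝ) * Complex.I) := by
        funext z
        rw [real_inner_smul_left, real_inner_smul_right]
      rw [h2, ← charFun_apply, charFun_stdGaussian, norm_smul, Real.norm_eq_abs, ← Complex.ofReal_pow,
        mul_pow, sq_abs, Real.sq_sqrt (by linarith)]
      push_cast
      congr 1
      ring
    have hae : ∀ᵐ τ ∂(mExp r), 0 < τ := by
      have h3 : ∀ᵐ τ ∂((volume : Measure ℝ).restrict (Set.Ioi 0)), 0 < τ :=
        ae_restrict_mem measurableSet_Ioi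
      exact (withDensity_absolutelyContinuous _ _).ae_le h3
    rw [integral_congr_ae (hae.mono fun τ hτ => h1 τ hτ), integral_mExp hr (sq_nonneg _), add_comm]
  · refine (integrable_const (1 : ℝ)).mono ?_ ?_
    · exact (hc.measurable.comp hm).aestronglyMeasurable
    · exact Eventually.of_forall fun x => by
        rw [Complex.norm_exp_ofReal_mul_I]; simp

/-! ### the iteration -/

/-- the coefficient `κ` -/
noncomputable def kap (e : ℝ) (k : E3) : ℝ := 4 * Real.pi ^ 2 * ‖k‖ ^ 2 + 4 * e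

theorem kap_ge {e : ℝ} (k : E3) : 4 * e ≤ kap e k := by
  unfold kap
  have : 0 ≤ 4 * Real.pi ^ 2 * ‖k‖ ^ 2 := by positivity
  linarith

theorem kap_gt {e : ℝ} {k : E3} (hk : k ≠ 0) : 4 * e < kap e k := by
  unfold kap
  have h1 : 0 < ‖k‖ := norm_pos_iff.2 hk
  have : 0 < 4 * Real.pi ^ 2 * ‖k‖ ^ 2 := by positivity
  linarith

theorem kap_pos {e : ℝ} (he : 0 < e) (k : E3) : 0 < kap e k := by
  have := kap_ge (e := e) k
  linarith

/-- Picard iteration -/
noncomputable def Un (ρ e : ℝ) (Sh : E3 → ℂ) : ℕ → E3 → ℂ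
  | 0 => fun _ => 0
  | n + 1 => fun k => ((4 * Real.pi ^ 2 * ‖k‖ ^ 2 + 4 * e : ℝ) : ℂ)⁻¹ *
      (Sh k + ((2 * e * ρ : ℝ) : ℂ) * (Un ρ e Sh n k * Un ρ e Sh n k))

theorem Un_PD {ρ e : ℝ} (he : 0 < e) (hρ : 0 < ρ) {Sh : E3 → ℂ} (hS : PD Sh) (n : ℕ) :
    PD (Un ρ e Sh n) := by
  induction n with
  | zero => exact PD.zero
  | succ n ih =>
    exact (PD.resolvent (r := 4 * e) (by linarith)).mul
      (hS.add ((ih.mul ih).smul (c := 2 * e * ρ) (by positivity)))

theorem Un_succ (ρ e : ℝ) (Sh : E3 → ℂ) (n : ℕ) (k : E3) : Un ρ e Sh (n + 1) k =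
    ((kap e k : ℝ) : ℂ)⁻¹ * (Sh k + ((2 * e * ρ : ℝ) : ℂ) * (Un ρ e Sh n k * Un ρ e Sh n k)) := rfl

theorem Un_bd {ρ e : ℝ} (he : 0 < e) (hρ : 0 < ρ) {Sh : E3 → ℂ} (hSh : ∀ k, ‖Sh k‖ ≤ 2 * e / ρ)
    (n : ℕ) (k : E3) : ‖Un ρ e Sh n k‖ ≤ 1 / ρ := by
  induction n with
  | zero =>
    change ‖(0 : ℂ)‖ ≤ 1 / ρ
    rw [norm_zero]
    positivity
  | succ n ih =>
    have hκ := kap_pos he k
    rw [Un_succ, norm_mul, norm_inv, Complex.norm_real, Real.norm_eq_abs, abs_of_pos hκ,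
      inv_mul_le_iff₀ hκ]
    refine (norm_add_le _ _).trans ?_
    rw [norm_mul, norm_mul, Complex.norm_real, Real.norm_eq_abs,
      abs_of_pos (by positivity : 0 < 2 * e * ρ)]
    have h1 : ‖Un ρ e Sh n k‖ * ‖Un ρ e Sh n k‖ ≤ (1 / ρ) * (1 / ρ) :=
      mul_le_mul ih ih (norm_nonneg _) (by positivity)
    have h2 : 2 * e * ρ * (‖Un ρ e Sh n k‖ * ‖Un ρ e Sh n k‖) ≤ 2 * e * ρ * ((1 / ρ) * (1 / ρ)) :=
      mul_le_mul_of_nonneg_left h1 (by positivity)
    have h3 : 2 * e * ρ * ((1 / ρ) * (1 / ρ)) = 2 * e / ρ := by field_simp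
    have h4 : 4 * e * (1 / ρ) ≤ kap e k * (1 / ρ) :=
      mul_le_mul_of_nonneg_right (kap_ge k) (by positivity)
    have h5 : 2 * e / ρ + 2 * e / ρ = 4 * e * (1 / ρ) := by ring
    linarith [hSh k]

/-- the solution is on the small branch -/
theorem small {ρ e B : ℝ} (he : 0 < e) (hρ : 0 < ρ) {Sh U : E3 → ℂ}
    (hSh : ∀ k, ‖Sh k‖ ≤ 2 * e / ρ) (hU : Continuous U) (hB : ∀ k, ‖U k‖ ≤ B)
    (heq : ∀ k, ((kap e k : ℝ) : ℂ) * U k = Sh k + ((2 * e * ρ : ℝ) : ℂ) * (U k) ^ 2)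
    {k : E3} (hk : k ≠ 0) : 4 * e * ρ * ‖U k‖ < kap e k := by
  by_contra hcon
  push Not at hcon
  have hB0 : 0 ≤ B := (norm_nonneg _).trans (hB 0)
  have hk0 : 0 < ‖k‖ := norm_pos_iff.2 hk
  obtain ⟨X, hX⟩ : ∃ X : ℝ, X = 4 * e * ρ * B / (4 * Real.pi ^ 2 * ‖k‖ ^ 2) := ⟨_, rfl⟩
  have hX0 : 0 ≤ X := by rw [hX]; positivity
  have hcontk : Continuous fun t : ℝ => kap e (t • k) - 4 * e * ρ * ‖U (t • k)‖ := by
    unfold kap
    fun_prop
  have hT : 0 < kap e ((1 + X) • k) - 4 * e * ρ * ‖U ((1 + X) • k)‖ := by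
    have h1 : 4 * e * ρ * ‖U ((1 + X) • k)‖ ≤ 4 * e * ρ * B :=
      mul_le_mul_of_nonneg_left (hB _) (by positivity)
    have h2 : 4 * e * ρ * B = 4 * Real.pi ^ 2 * ‖k‖ ^ 2 * X := by
      rw [hX]
      field_simp
    have h3 : 4 * Real.pi ^ 2 * ‖k‖ ^ 2 * X ≤ 4 * Real.pi ^ 2 * ‖(1 + X) • k‖ ^ 2 := by
      rw [norm_smul, Real.norm_eq_abs, mul_pow, sq_abs]
      have h4 : X ≤ (1 + X) ^ 2 := by nlinarith
      have h5 : 0 ≤ 4 * Real.pi ^ 2 * ‖k‖ ^ 2 := by positivity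
      nlinarith
    unfold kap
    linarith
  have hiv := intermediate_value_Icc (a := (1 : ℝ)) (b := 1 + X) (by linarith)
    (f := fun t : ℝ => kap e (t • k) - 4 * e * ρ * ‖U (t • k)‖) hcontk.continuousOn
  obtain ⟨t, ht, ht0⟩ := hiv (show (0 : ℝ) ∈ _ from ⟨by simpa using hcon, hT.le⟩)
  simp only at ht0
  have htk : t • k ≠ 0 := smul_ne_zero (by linarith [ht.1]) hk
  have hκ := kap_gt (e := e) htk
  have h1 := heq (t • k)
  have h2 : 2 * e * ρ * ‖U (t • k)‖ = kap e (t • k) / 2 := by linarith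
  have h3 : ‖((kap e (t • k) : ℝ) : ℂ) * U (t • k)‖ ≤ 2 * e / ρ +
      kap e (t • k) / 2 * ‖U (t • k)‖ := by
    rw [h1]
    refine (norm_add_le _ _).trans (add_le_add (hSh _) (le_of_eq ?_))
    rw [norm_mul, norm_pow, Complex.norm_real, Real.norm_eq_abs,
      abs_of_pos (by positivity : 0 < 2 * e * ρ), ← h2]
    ring
  rw [norm_mul, Complex.norm_real, Real.norm_eq_abs, abs_of_pos (by linarith)] at h3
  have h4 : ‖U (t • k)‖ = kap e (t • k) / (4 * e * ρ) := by
    rw [eq_div_iff (by positivity)]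
    linarith
  have h5 : kap e (t • k) / 2 * ‖U (t • k)‖ ≤ 2 * e / ρ := by linarith
  rw [h4, div_mul_div_comm, div_le_div_iff₀ (by positivity) hρ] at h5
  have h6 : kap e (t • k) * kap e (t • k) ≤ 4 * e * (4 * e) := by
    have : kap e (t • k) * kap e (t • k) * ρ ≤ 4 * e * (4 * e) * ρ := by linarith
    exact le_of_mul_le_mul_right this hρ
  nlinarith

theorem Un_tendsto {ρ e B : ℝ} (he : 0 < e) (hρ : 0 < ρ) {Sh U : E3 → ℂ}
    (hSh : ∀ k, ‖Sh k‖ ≤ 2 * e / ρ) (hU : Continuous U) (hB : ∀ k, ‖U k‖ ≤ B)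
    (heq : ∀ k, ((kap e k : ℝ) : ℂ) * U k = Sh k + ((2 * e * ρ : ℝ) : ℂ) * (U k) ^ 2)
    {k : E3} (hk : k ≠ 0) : Tendsto (fun n => Un ρ e Sh n k) atTop (𝓝 (U k)) := by
  have hκ := kap_pos he k
  have hs := small he hρ hSh hU hB heq hk
  obtain ⟨q, hq⟩ : ∃ q : ℝ, q = 2 * e * ρ * (‖U k‖ + 1 / ρ) / kap e k := ⟨_, rfl⟩
  have hq0 : 0 ≤ q := by rw [hq]; positivity
  have hq1 : q < 1 := by
    rw [hq, div_lt_one hκ]
    have h1 : 2 * e * ρ * (1 / ρ) = 2 * e := by field_simp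
    have h2 := kap_ge (e := e) k
    nlinarith
  have hstep : ∀ n, ‖U k - Un ρ e Sh n k‖ ≤ q ^ n * ‖U k‖ := by
    intro n
    induction n with
    | zero =>
      change ‖U k - 0‖ ≤ _
      simp
    | succ n ih =>
      have h1 : U k = ((kap e k : ℝ) : ℂ)⁻¹ * (Sh k + ((2 * e * ρ : ℝ) : ℂ) * (U k) ^ 2) := by
        rw [← heq, ← mul_assoc, inv_mul_cancel₀ (Complex.ofReal_ne_zero.2 hκ.ne'), one_mul]
      have h2 : U k - Un ρ e Sh (n + 1) k = ((kap e k : ℝ) : ℂ)⁻¹ * (((2 * e * ρ : ℝ) : ℂ) *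
          ((U k + Un ρ e Sh n k) * (U k - Un ρ e Sh n k))) := by
        rw [Un_succ]
        calc U k - ((kap e k : ℝ) : ℂ)⁻¹ * (Sh k + ((2 * e * ρ : ℝ) : ℂ) *
              (Un ρ e Sh n k * Un ρ e Sh n k)) =
              ((kap e k : ℝ) : ℂ)⁻¹ * (Sh k + ((2 * e * ρ : ℝ) : ℂ) * (U k) ^ 2) -
              ((kap e k : ℝ) : ℂ)⁻¹ * (Sh k + ((2 * e * ρ : ℝ) : ℂ) *
              (Un ρ e Sh n k * Un ρ e Sh n k)) := by rw [← h1]
          _ = _ := by ring
      rw [h2, norm_mul, norm_mul, norm_mul, norm_inv, Complex.norm_real, Complex.norm_real,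
        Real.norm_eq_abs, Real.norm_eq_abs, abs_of_pos hκ,
        abs_of_pos (by positivity : 0 < 2 * e * ρ)]
      have h3 : ‖U k + Un ρ e Sh n k‖ ≤ ‖U k‖ + 1 / ρ :=
        (norm_add_le _ _).trans (add_le_add le_rfl (Un_bd he hρ hSh n k))
      calc (kap e k)⁻¹ * (2 * e * ρ * (‖U k + Un ρ e Sh n k‖ * ‖U k - Un ρ e Sh n k‖)) ≤
          (kap e k)⁻¹ * (2 * e * ρ * ((‖U k‖ + 1 / ρ) * (q ^ n * ‖U k‖))) := by
            gcongr
        _ = q * (q ^ n * ‖U k‖) := by rw [hq]; ring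
        _ = q ^ (n + 1) * ‖U k‖ := by ring
  rw [tendsto_iff_norm_sub_tendsto_zero]
  have h0 : Tendsto (fun n : ℕ => q ^ n * ‖U k‖) atTop (𝓝 0) := by
    have := (tendsto_pow_atTop_nhds_zero_of_lt_one hq0 hq1).mul_const ‖U k‖
    rwa [zero_mul] at this
  refine squeeze_zero (fun n => norm_nonneg _) (fun n => ?_) h0
  rw [norm_sub_rev]
  exact hstep n

/-- the pairing with a nonnegative test function -/
theorem pair_nonneg {u : E3 → ℝ} (hu : Integrable u) {F : ℕ → E3 → ℂ} {B : ℝ}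
    (hF : ∀ n, PD (F n)) (hFB : ∀ n k, ‖F n k‖ ≤ B)
    (hlim : ∀ k : E3, k ≠ 0 → Tendsto (fun n => F n k) atTop (𝓝 (𝓕 (fun x => (u x : ℂ)) k)))
    {g : E3 → ℝ} (hg : ContDiff ℝ ∞ g) (hgc : HasCompactSupport g) (hg0 : ∀ x, 0 ≤ g x) :
    0 ≤ ∫ x, u x * g x := by
  have hgC : ContDiff ℝ ∞ fun x => (g x : ℂ) := Complex.ofRealCLM.contDiff.comp hg
  have hgCc : HasCompactSupport fun x => (g x : ℂ) :=
    hgc.comp_left (g := fun r : ℝ => (r : ℂ)) Complex.ofReal_zero
  set gS : 𝓢(E3, ℂ) := hgCc.toSchwartzMap hgC with hgS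
  set h : 𝓢(E3, ℂ) := 𝓕⁻ gS with hh
  have hh1 : ∀ x, 𝓕 (h : E3 → ℂ) x = (g x : ℂ) := by
    intro x
    rw [← SchwartzMap.fourier_coe, hh, FourierTransform.fourier_fourierInv_eq]
    rfl
  have huC : Integrable fun x => (u x : ℂ) := hu.ofReal
  -- transfer
  have h1 : ∫ x, (u x : ℂ) * (g x : ℂ) = ∫ k, 𝓕 (fun x => (u x : ℂ)) k * h k := by
    have h3 := VectorFourier.integral_fourierIntegral_smul_eq_flip (μ := (volume : Measure E3))
      (ν := (volume : Measure E3)) (e := Real.fourierChar) (L := innerₗ E3)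
      (f := fun x => (u x : ℂ)) (g := (h : E3 → ℂ)) Real.continuous_fourierChar
      (by simpa using (continuous_inner (𝕜 := ℝ) (E := E3))) huC h.integrable
    simp only [smul_eq_mul] at h3
    refine Eq.trans ?_ h3.symm
    refine integral_congr_ae (Eventually.of_forall fun x => ?_)
    simp only
    congr 1
    rw [← hh1, Real.fourier_eq, VectorFourier.fourierIntegral]
    simp only [LinearMap.flip_apply, innerₗ_apply_apply]
    refine integral_congr_ae (Eventually.of_forall fun y => ?_)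
    simp only
    rw [real_inner_comm]
  have h2 : Tendsto (fun n => ∫ k, F n k * h k) atTop
      (𝓝 (∫ k, 𝓕 (fun x => (u x : ℂ)) k * h k)) := by
    refine tendsto_integral_of_dominated_convergence (fun k => B * ‖h k‖) ?_ ?_ ?_ ?_
    · intro n
      exact (hF n).measurable.aestronglyMeasurable.mul h.integrable.1
    · exact h.integrable.norm.const_mul B
    · intro n
      exact Eventually.of_forall fun k => by
        rw [norm_mul]
        exact mul_le_mul_of_nonneg_right (hFB n k) (norm_nonneg _)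
    · have h4 : ∀ᵐ k : E3, k ≠ 0 := by
        rw [ae_iff]
        simp
      filter_upwards [h4] with k hk
      exact (hlim k hk).mul_const _
  have h3 : 0 ≤ (∫ k, 𝓕 (fun x => (u x : ℂ)) k * h k).re := by
    refine ge_of_tendsto' ((Complex.continuous_re.tendsto _).comp h2) fun n => ?_
    exact (hF n).pair h g hg0 hh1
  rw [← h1] at h3
  have h5 : ∫ x, (u x : ℂ) * (g x : ℂ) = ((∫ x, u x * g x : ℝ) : ℂ) := by
    rw [← integral_complex_ofReal]
    refine integral_congr_ae (Eventually.of_forall fun x => ?_)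
    simp
  rwa [h5, Complex.ofReal_re] at h3

/-- nonnegativity from the pairings -/
theorem ae_nonneg_of_pair {u : E3 → ℝ} (hu : Integrable u)
    (h : ∀ g : E3 → ℝ, ContDiff ℝ ∞ g → HasCompactSupport g → (∀ x, 0 ≤ g x) →
      0 ≤ ∫ x, u x * g x) : ∀ᵐ x, 0 ≤ u x := by
  let φ : ℕ → ContDiffBump (0 : E3) := fun n =>
    ⟨1 / (2 * ((n : ℝ) + 1)), 1 / ((n : ℝ) + 1), by positivity, by
      rw [one_div_lt_one_div (by positivity) (by positivity)]
      have : (0 : ℝ) ≤ n := Nat.cast_nonneg n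
      linarith⟩
  have h1 := ContDiffBump.ae_convolution_tendsto_right_of_locallyIntegrable (φ := φ)
    (l := (atTop : Filter ℕ)) (K := 2) (μ := (volume : Measure E3))
    (tendsto_one_div_add_atTop_nhds_zero_nat) (Eventually.of_forall fun n => by
      change 1 / ((n : ℝ) + 1) ≤ 2 * (1 / (2 * ((n : ℝ) + 1)))
      rw [one_div, one_div, mul_inv, ← mul_assoc, mul_inv_cancel₀ (by norm_num), one_mul])
    hu.locallyIntegrable
  filter_upwards [h1] with x hx
  refine ge_of_tendsto' hx fun n => ?_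
  rw [convolution_eq_swap]
  have h2 := h (fun y => (φ n).normed volume (x - y)) ?_ ?_ ?_
  · refine h2.trans (le_of_eq ?_)
    refine integral_congr_ae (Eventually.of_forall fun y => ?_)
    simp [mul_comm]
  · exact (φ n).contDiff_normed.comp (contDiff_const.sub contDiff_id)
  · exact (φ n).hasCompactSupport_normed.comp_homeomorph (Homeomorph.subLeft x)
  · intro y
    exact (φ n).nonneg_normed _

end PosU

theorem nonneg_of_le_one {v u : E3 → ℝ} {ρ e : ℝ} (hρ : 0 < ρ) (hv : Integrable v)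
    (hv0 : ∀ x, 0 ≤ v x) (h : IsSimpleSolution v ρ u e) (hu : ∀ᵐ x, u x ≤ 1) :
    ∀ᵐ x, 0 ≤ u x := by
  refine PosU.ae_nonneg_of_pair h.int_u fun g hg hgc hg0 => ?_
  have hS0 : ∀ᵐ x, 0 ≤ (1 - u x) * v x := by
    filter_upwards [hu] with x hx
    exact mul_nonneg (by linarith) (hv0 x)
  have hSint : 0 ≤ ∫ x, (1 - u x) * v x := integral_nonneg_of_ae hS0
  have he0 : 0 ≤ e := by
    rw [h.energy]
    positivity
  set U : E3 → ℂ := 𝓕 (fun x => (u x : ℂ)) with hU
  set Sh : E3 → ℂ := 𝓕 (fun x => (((1 - u x) * v x : ℝ) : ℂ)) with hSh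
  have heq : ∀ k, ((PosU.kap e k : ℝ) : ℂ) * U k = Sh k + ((2 * e * ρ : ℝ) : ℂ) * (U k) ^ 2 :=
    fun k => fourier_eqn h k
  have hShb : ∀ k, ‖Sh k‖ ≤ 2 * e / ρ := by
    intro k
    have h1 : ‖Sh k‖ ≤ ∫ x, ‖(((1 - u x) * v x : ℝ) : ℂ)‖ :=
      VectorFourier.norm_fourierIntegral_le_integral_norm _ _ _ _ _
    refine h1.trans (le_of_eq ?_)
    have h2 : ∫ x, ‖(((1 - u x) * v x : ℝ) : ℂ)‖ = ∫ x, (1 - u x) * v x := by
      refine integral_congr_ae ?_
      filter_upwards [hS0] with x hx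
      rw [Complex.norm_real, Real.norm_eq_abs, abs_of_nonneg hx]
    rw [h2, h.energy]
    field_simp
  have hUb : ∀ k, ‖U k‖ ≤ ∫ x, ‖(u x : ℂ)‖ := fun k =>
    VectorFourier.norm_fourierIntegral_le_integral_norm _ _ _ _ _
  have hUc : Continuous U := VectorFourier.fourierIntegral_continuous Real.continuous_fourierChar
    (by simpa using (continuous_inner (𝕜 := ℝ) (E := E3))) h.int_u.ofReal
  rcases he0.eq_or_lt with he | he
  · -- zero energy
    refine PosU.pair_nonneg h.int_u (F := fun _ _ => 0) (B := 0) (fun _ => PosU.PD.zero)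
      (fun _ _ => by simp) (fun k hk => ?_) hg hgc hg0
    have h1 := heq k
    have h2 : Sh k = 0 := by
      have := hShb k
      rw [← he, mul_zero, zero_div] at this
      exact norm_le_zero_iff.1 this
    have h3 : (0 : ℝ) < PosU.kap e k := by
      have := PosU.kap_gt (e := e) hk
      linarith
    rw [h2, ← he] at h1
    simp only [mul_zero, zero_mul, Complex.ofReal_zero, add_zero, mul_eq_zero] at h1
    rcases h1 with h1 | h1
    · rw [he] at h1
      exact absurd (Complex.ofReal_eq_zero.1 h1) h3.ne'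
    · rw [← hU, h1]
      exact tendsto_const_nhds
  · exact PosU.pair_nonneg h.int_u (F := PosU.Un ρ e Sh) (B := 1 / ρ)
      (PosU.Un_PD he hρ (PosU.PD.fourier h.int_S hS0)) (PosU.Un_bd he hρ hShb)
      (fun k hk => PosU.Un_tendsto he hρ hShb hUc hUb heq hk) hg hgc hg0

end Pool.Agent.P76s
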