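import Pool.Agent.Lib.P76s.FourierEqn

/-!
# P76s.Branch (1.2 h): which root of the quadratic equation is `û` (black box: FourierEqn)

`κ = 4π²|k|² + 4e`, `û = 𝓕 u k`, `Ŝ = 𝓕 S k`, `S = (1-u)v ≥ 0` a.e.; `fourier_eqn`: `κ û = Ŝ + 2eρ û²`.
With `w = 4eρ û/κ`, `x = 8eρ Ŝ/κ²` this is `2w = x + w²` (field algebra).
`‖w‖ < 1` for `k ≠ 0`: `|Ŝ(k)| ≤ ∫ S = 2e/ρ` and `κ > 4e`, so `|x| < 1`; `w (2 - w) = x`, and `‖w‖ = 1` would give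
`‖2 - w‖ ≥ 1`, so `‖x‖ ≥ 1`.  On the ray `t ↦ t k`, `t ≥ 1`: `w(t k)` is continuous and tends to `0` as `t → ∞`
(`û` is bounded by `∫ |u|`, `κ → ∞`), and `‖w(tk)‖ ≠ 1`; by the intermediate value theorem `‖w‖ < 1`.
(helper57 proves `P76s.PosU`, which contains the same step: coordinate if you like.)
-/

open MeasureTheory Filter Topology
open scoped ENNReal NNReal BigOperators FourierTransform

namespace Pool.Agent.P76s

namespace BranchAux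

theorem fcont {f : E3 → ℂ} (hf : Integrable f) : Continuous (𝓕 f) :=
  VectorFourier.fourierIntegral_continuous Real.continuous_fourierChar
    (by exact continuous_inner) hf

theorem fnorm (f : E3 → ℂ) (k : E3) : ‖𝓕 f k‖ ≤ ∫ x, ‖f x‖ :=
  VectorFourier.norm_fourierIntegral_le_integral_norm _ _ _ _ _

theorem norm_ne_one {w x : ℂ} (h : 2 * w = x + w ^ 2) (hx : ‖x‖ < 1) : ‖w‖ ≠ 1 := by
  intro hw
  have h1 : x = w * (2 - w) := by linear_combination (-1 : ℂ) * h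
  have h2 : ‖x‖ = ‖2 - w‖ := by rw [h1, norm_mul, hw, one_mul]
  have h3 : ‖(2 : ℂ)‖ - ‖w‖ ≤ ‖2 - w‖ := norm_sub_norm_le _ _
  rw [hw] at h3
  norm_num at h3
  linarith

variable {v u : E3 → ℝ} {ρ e : ℝ}

theorem eqn_w (h : IsSimpleSolution v ρ u e) (he : 0 < e) (k : E3) :
    2 * (((4 * e * ρ : ℝ) : ℂ) * 𝓕 (fun x => (u x : ℂ)) k /
      ((4 * Real.pi ^ 2 * ‖k‖ ^ 2 + 4 * e : ℝ) : ℂ)) =
    ((8 * e * ρ : ℝ) : ℂ) * 𝓕 (fun x => (((1 - u x) * v x : ℝ) : ℂ)) k /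
      ((4 * Real.pi ^ 2 * ‖k‖ ^ 2 + 4 * e : ℝ) : ℂ) ^ 2 +
    (((4 * e * ρ : ℝ) : ℂ) * 𝓕 (fun x => (u x : ℂ)) k /
      ((4 * Real.pi ^ 2 * ‖k‖ ^ 2 + 4 * e : ℝ) : ℂ)) ^ 2 := by
  have h1 := fourier_eqn h k
  have hκ : ((4 * Real.pi ^ 2 * ‖k‖ ^ 2 + 4 * e : ℝ) : ℂ) ≠ 0 := by
    rw [Complex.ofReal_ne_zero]
    positivity
  generalize ((4 * Real.pi ^ 2 * ‖k‖ ^ 2 + 4 * e : ℝ) : ℂ) = κ at h1 hκ ⊢
  generalize 𝓕 (fun x => (((1 - u x) * v x : ℝ) : ℂ)) k = T at h1 ⊢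
  generalize 𝓕 (fun x => (u x : ℂ)) k = U at h1 ⊢
  have h2 : T = κ * U - ((2 * e * ρ : ℝ) : ℂ) * U ^ 2 := by rw [h1]; ring
  rw [h2]
  push_cast
  field_simp
  ring

theorem norm_x (hρ : 0 < ρ) (hv0 : ∀ x, 0 ≤ v x)
    (h : IsSimpleSolution v ρ u e) (hu : ∀ᵐ x, u x ≤ 1) (he : 0 < e) {k : E3} (hk : k ≠ 0) :
    ‖((8 * e * ρ : ℝ) : ℂ) * 𝓕 (fun x => (((1 - u x) * v x : ℝ) : ℂ)) k /
      ((4 * Real.pi ^ 2 * ‖k‖ ^ 2 + 4 * e : ℝ) : ℂ) ^ 2‖ < 1 := by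
  have hk' : 0 < ‖k‖ := norm_pos_iff.2 hk
  have hκ : 4 * e < 4 * Real.pi ^ 2 * ‖k‖ ^ 2 + 4 * e := by
    have : 0 < 4 * Real.pi ^ 2 * ‖k‖ ^ 2 := by positivity
    linarith
  have hκ0 : 0 < 4 * Real.pi ^ 2 * ‖k‖ ^ 2 + 4 * e := lt_trans (by positivity) hκ
  have hS : ‖𝓕 (fun x => (((1 - u x) * v x : ℝ) : ℂ)) k‖ ≤ 2 * e / ρ := by
    refine (fnorm _ k).trans (le_of_eq ?_)
    rw [eq_div_iff hρ.ne']
    have h1 : ∫ x, ‖(((1 - u x) * v x : ℝ) : ℂ)‖ = ∫ x, (1 - u x) * v x := by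
      refine integral_congr_ae ?_
      filter_upwards [hu] with x hx
      rw [Complex.norm_real, Real.norm_eq_abs,
        abs_of_nonneg (mul_nonneg (by linarith) (hv0 x))]
    rw [h1]
    have h2 := h.energy
    linarith
  rw [norm_div, norm_mul, norm_pow, Complex.norm_real, Complex.norm_real, Real.norm_eq_abs,
    Real.norm_eq_abs, abs_of_pos hκ0, abs_of_pos (by positivity : 0 < 8 * e * ρ),
    div_lt_one (by positivity)]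
  calc 8 * e * ρ * ‖𝓕 (fun x => (((1 - u x) * v x : ℝ) : ℂ)) k‖ ≤ 8 * e * ρ * (2 * e / ρ) := by
        gcongr
    _ = (4 * e) ^ 2 := by field_simp; ring
    _ < (4 * Real.pi ^ 2 * ‖k‖ ^ 2 + 4 * e) ^ 2 := by
        gcongr

end BranchAux

open BranchAux in
theorem branch {v u : E3 → ℝ} {ρ e : ℝ} (hρ : 0 < ρ) (hv : Integrable v)
    (hv0 : ∀ x, 0 ≤ v x) (h : IsSimpleSolution v ρ u e) (hu : ∀ᵐ x, u x ≤ 1) (he : 0 < e)
    {k : E3} (hk : k ≠ 0) {w x : ℂ}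
    (hw : w = ((4 * e * ρ : ℝ) : ℂ) * 𝓕 (fun x => (u x : ℂ)) k /
      ((4 * Real.pi ^ 2 * ‖k‖ ^ 2 + 4 * e : ℝ) : ℂ))
    (hx : x = ((8 * e * ρ : ℝ) : ℂ) * 𝓕 (fun x => (((1 - u x) * v x : ℝ) : ℂ)) k /
      ((4 * Real.pi ^ 2 * ‖k‖ ^ 2 + 4 * e : ℝ) : ℂ) ^ 2) :
    2 * w = x + w ^ 2 ∧ ‖w‖ < 1 := by
  subst hw
  subst hx
  refine ⟨eqn_w h he k, ?_⟩
  set A : ℝ := ∫ x, ‖(u x : ℂ)‖ with hA
  have hA0 : 0 ≤ A := integral_nonneg fun x => norm_nonneg _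
  have hk' : 0 < ‖k‖ := norm_pos_iff.2 hk
  let κ : ℝ → ℝ := fun t => 4 * Real.pi ^ 2 * ‖t • k‖ ^ 2 + 4 * e
  have hκ : ∀ t, 0 < κ t := fun t => by positivity
  let F : ℝ → ℝ := fun t => ‖((4 * e * ρ : ℝ) : ℂ) * 𝓕 (fun x => (u x : ℂ)) (t • k) /
      ((κ t : ℝ) : ℂ)‖
  have hF1 : ∀ t, 1 ≤ t → F t ≠ 1 := fun t ht =>
    norm_ne_one (eqn_w h he (t • k)) (norm_x hρ hv0 h hu he
      (smul_ne_zero (by linarith) hk))
  have hcont : Continuous F := by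
    refine continuous_norm.comp (Continuous.div ?_ ?_ ?_)
    · exact continuous_const.mul ((fcont h.int_u.ofReal).comp (by fun_prop))
    · exact Complex.continuous_ofReal.comp (by fun_prop)
    · intro t
      exact Complex.ofReal_ne_zero.2 (hκ t).ne'
  let t₁ : ℝ := 1 + 4 * e * ρ * A / (4 * Real.pi ^ 2 * ‖k‖ ^ 2)
  have ht₁ : 1 ≤ t₁ := by
    have : 0 ≤ 4 * e * ρ * A / (4 * Real.pi ^ 2 * ‖k‖ ^ 2) := by positivity
    simp only [t₁]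
    linarith
  have hF2 : F t₁ < 1 := by
    simp only [F]
    rw [norm_div, norm_mul, Complex.norm_real, Complex.norm_real, Real.norm_eq_abs,
      Real.norm_eq_abs, abs_of_pos (hκ t₁), abs_of_pos (by positivity : 0 < 4 * e * ρ),
      div_lt_one (hκ t₁)]
    calc 4 * e * ρ * ‖𝓕 (fun x => (u x : ℂ)) (t₁ • k)‖ ≤ 4 * e * ρ * A := by
          gcongr
          exact fnorm _ _
      _ < κ t₁ := by
          simp only [κ]
          rw [norm_smul, Real.norm_eq_abs, mul_pow, sq_abs]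
          have h1 : t₁ ≤ t₁ ^ 2 := by nlinarith
          have h2 : 4 * e * ρ * A / (4 * Real.pi ^ 2 * ‖k‖ ^ 2) ≤ t₁ ^ 2 := by
            refine le_trans ?_ h1
            simp only [t₁]
            linarith
          rw [div_le_iff₀ (by positivity)] at h2
          nlinarith
  by_contra hcon
  have h3 : F 1 = ‖((4 * e * ρ : ℝ) : ℂ) * 𝓕 (fun x => (u x : ℂ)) k /
      ((4 * Real.pi ^ 2 * ‖k‖ ^ 2 + 4 * e : ℝ) : ℂ)‖ := by
    simp only [F, κ, one_smul]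
  rw [← h3] at hcon
  push Not at hcon
  obtain ⟨t, ht, htF⟩ := intermediate_value_Icc' ht₁ hcont.continuousOn ⟨hF2.le, hcon⟩
  exact hF1 t ht.1 htF

end Pool.Agent.P76s
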