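import Pool.Agent.Lib.P76s.Defs

/-!
# P76s.Cells (1.2 h): elementary facts on `cell` and `psi`, Mathlib only

`cell m L j t = m` if `⌊m * fract(t/L)⌋ = j`, else `0`.  Note that `j : Fin m` forces `0 < m`.

* `integral_cell`: on `[0, L)` the cell is the interval `[jL/m, (j+1)L/m)`.
* `psi_pos`: the set `{z | cell m L j (t+z) ≠ 0}` contains an interval, and `gaussianReal 0 s`
  gives positive mass to it (`gaussianReal` is mutually absolutely continuous with `volume`,
  or `gaussianReal_absolutelyContinuous'`).
* `integral_psi`: Fubini (`integral_integral_swap`, everything bounded, finite measures) and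
  periodicity of `cell` (`Function.Periodic.intervalIntegral_add_eq`).
-/

open MeasureTheory Filter Topology ProbabilityTheory
open scoped ENNReal NNReal BigOperators ContDiff

namespace Pool.Agent.P76s

variable {m : ℕ} {L : ℝ} {s : ℝ≥0}

theorem cell_nonneg (j : Fin m) (t : ℝ) : 0 ≤ cell m L j t := by
  unfold cell
  split_ifs <;> positivity

theorem cell_le (j : Fin m) (t : ℝ) : cell m L j t ≤ m := by
  unfold cell
  split_ifs
  · exact le_rfl
  · positivity

theorem measurable_cell (j : Fin m) : Measurable (cell m L j) := by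
  unfold cell
  refine Measurable.ite ?_ measurable_const measurable_const
  have h1 : Measurable fun t : ℝ => ⌊(m : ℝ) * Int.fract (t / L)⌋ :=
    Int.measurable_floor.comp ((measurable_fract.comp (measurable_id.div_const L)).const_mul _)
  exact h1 (measurableSet_singleton _)

theorem cell_add (hL : 0 < L) (j : Fin m) (t : ℝ) (n : ℤ) :
    cell m L j (t + L * n) = cell m L j t := by
  unfold cell
  have h1 : (t + L * n) / L = t / L + n := by field_simp
  rw [h1, Int.fract_add_intCast]

theorem sum_cell (hm : 0 < m) (t : ℝ) : ∑ j, cell m L j t = m := by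
  have hm' : (0 : ℝ) < m := Nat.cast_pos.2 hm
  set x : ℝ := (m : ℝ) * Int.fract (t / L) with hx
  have h0 : 0 ≤ x := mul_nonneg hm'.le (Int.fract_nonneg _)
  have h1 : x < m := by
    calc x < (m : ℝ) * 1 := mul_lt_mul_of_pos_left (Int.fract_lt_one _) hm'
      _ = m := mul_one _
  have h2 : 0 ≤ ⌊x⌋ := Int.floor_nonneg.2 h0
  have h3 : ⌊x⌋ < (m : ℤ) := Int.floor_lt.2 (by exact_mod_cast h1)
  have h4 : ⌊x⌋.toNat < m := by omega
  rw [Finset.sum_eq_single (⟨⌊x⌋.toNat, h4⟩ : Fin m)]
  · unfold cell
    rw [if_pos]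
    show ⌊x⌋ = ((⌊x⌋.toNat : ℕ) : ℤ)
    omega
  · intro j _ hj
    unfold cell
    rw [if_neg]
    intro h5
    apply hj
    apply Fin.ext
    show (j : ℕ) = ⌊x⌋.toNat
    rw [h5]
    simp
  · intro h
    exact absurd (Finset.mem_univ _) h

/-- the `j`-th cell in `[0, L)` -/
def cint (m : ℕ) (L : ℝ) (j : Fin m) : Set ℝ :=
  Set.Ico ((j : ℝ) * L / m) (((j : ℝ) + 1) * L / m)

theorem cint_subset (hL : 0 < L) (j : Fin m) : cint m L j ⊆ Set.Ico 0 L := by
  have hm : 0 < m := Nat.lt_of_le_of_lt (Nat.zero_le _) j.2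
  have hm' : (0 : ℝ) < m := Nat.cast_pos.2 hm
  have hj : (j : ℝ) + 1 ≤ m := by exact_mod_cast j.2
  rintro t ⟨h1, h2⟩
  refine ⟨le_trans (by positivity) h1, h2.trans_le ?_⟩
  rw [div_le_iff₀ hm', mul_comm]
  exact mul_le_mul_of_nonneg_left hj hL.le

theorem cell_of_mem (hL : 0 < L) (j : Fin m) {t : ℝ} (ht : t ∈ cint m L j) :
    cell m L j t = m := by
  have hm : 0 < m := Nat.lt_of_le_of_lt (Nat.zero_le _) j.2
  have hm' : (0 : ℝ) < m := Nat.cast_pos.2 hm
  have h0 := cint_subset hL j ht
  unfold cell
  have h1 : Int.fract (t / L) = t / L := by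
    rw [Int.fract_eq_self]
    exact ⟨div_nonneg h0.1 hL.le, (div_lt_one hL).2 h0.2⟩
  rw [if_pos]
  rw [h1, Int.floor_eq_iff]
  push_cast
  obtain ⟨h2, h3⟩ := ht
  have h4 : (m : ℝ) * (t / L) = t * (m / L) := by ring
  rw [h4]
  constructor
  · calc (j : ℝ) = (j : ℝ) * L / m * (m / L) := by field_simp
      _ ≤ t * (m / L) := mul_le_mul_of_nonneg_right h2 (by positivity)
  · calc t * (m / L) < ((j : ℝ) + 1) * L / m * (m / L) :=
          mul_lt_mul_of_pos_right h3 (by positivity)
      _ = j + 1 := by field_simp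

theorem integrable_cell (j : Fin m) (t : ℝ) :
    Integrable (fun z => cell m L j (t + z)) (gaussianReal 0 s) := by
  refine Integrable.of_bound (C := (m : ℝ))
    ((measurable_cell j).comp (measurable_const_add t)).aestronglyMeasurable
    (Eventually.of_forall fun z => ?_)
  rw [Real.norm_eq_abs, abs_of_nonneg (cell_nonneg j _)]
  exact cell_le j _

/-- two points of `[0, L)` in the same cell -/
theorem cell_close (hL : 0 < L) (j : Fin m) {t t' : ℝ} (ht : t ∈ Set.Ico 0 L)
    (ht' : t' ∈ Set.Ico 0 L) (h : cell m L j t ≠ 0) (h' : cell m L j t' ≠ 0) :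
    |t - t'| ≤ L / m := by
  have hm : 0 < m := Nat.lt_of_le_of_lt (Nat.zero_le _) j.2
  have hm' : (0 : ℝ) < m := Nat.cast_pos.2 hm
  have key : ∀ u ∈ Set.Ico (0 : ℝ) L, cell m L j u ≠ 0 → ⌊(m : ℝ) * (u / L)⌋ = ((j : ℕ) : ℤ) := by
    intro u hu hne
    unfold cell at hne
    have h1 : Int.fract (u / L) = u / L := by
      rw [Int.fract_eq_self]
      exact ⟨div_nonneg hu.1 hL.le, (div_lt_one hL).2 hu.2⟩
    rw [h1] at hne
    by_contra h2
    rw [if_neg h2] at hne
    exact hne rfl
  have h1 := Int.abs_sub_lt_one_of_floor_eq_floor ((key t ht h).trans (key t' ht' h').symm)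
  have h2 : (m : ℝ) * (t / L) - m * (t' / L) = (m / L) * (t - t') := by ring
  rw [h2, abs_mul, abs_of_pos (by positivity)] at h1
  rw [le_div_iff₀ hm']
  have h3 : |t - t'| * m = L * (m / L * |t - t'|) := by field_simp
  rw [h3]
  calc L * (m / L * |t - t'|) ≤ L * 1 := mul_le_mul_of_nonneg_left h1.le hL.le
    _ = L := mul_one L

theorem integral_cell (hL : 0 < L) (j : Fin m) : ∫ t in Set.Ico 0 L, cell m L j t = L := by
  have hm : 0 < m := Nat.lt_of_le_of_lt (Nat.zero_le _) j.2
  have hm' : (0 : ℝ) < m := Nat.cast_pos.2 hm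
  have h1 : ∀ t ∈ Set.Ico (0 : ℝ) L, cell m L j t =
      (cint m L j).indicator (fun _ => (m : ℝ)) t := by
    intro t ht
    by_cases h2 : t ∈ cint m L j
    · rw [Set.indicator_of_mem h2]
      exact cell_of_mem hL j h2
    · rw [Set.indicator_of_notMem h2]
      unfold cell
      rw [if_neg]
      intro h3
      apply h2
      have h4 : Int.fract (t / L) = t / L := by
        rw [Int.fract_eq_self]
        exact ⟨div_nonneg ht.1 hL.le, (div_lt_one hL).2 ht.2⟩
      rw [h4, Int.floor_eq_iff] at h3
      obtain ⟨h5, h6⟩ := h3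
      push_cast at h5 h6
      have h7 : (m : ℝ) * (t / L) * (L / m) = t := by field_simp
      constructor
      · calc (j : ℝ) * L / m = j * (L / m) := by ring
          _ ≤ (m : ℝ) * (t / L) * (L / m) := mul_le_mul_of_nonneg_right h5 (by positivity)
          _ = t := h7
      · calc t = (m : ℝ) * (t / L) * (L / m) := h7.symm
          _ < (j + 1) * (L / m) := mul_lt_mul_of_pos_right h6 (by positivity)
          _ = (j + 1) * L / m := by ring
  have hcm : MeasurableSet (cint m L j) := measurableSet_Ico
  rw [setIntegral_congr_fun measurableSet_Ico h1, integral_indicator hcm,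
    Measure.restrict_restrict hcm,
    Set.inter_eq_self_of_subset_left (cint_subset hL j), setIntegral_const]
  unfold cint
  rw [Real.volume_real_Ico_of_le (by
    rw [div_le_div_iff_of_pos_right hm']
    nlinarith), smul_eq_mul]
  field_simp
  ring

theorem psi_pos (hL : 0 < L) (hs : s ≠ 0) (j : Fin m) (t : ℝ) : 0 < psi m L s j t := by
  have hm : 0 < m := Nat.lt_of_le_of_lt (Nat.zero_le _) j.2
  have hm' : (0 : ℝ) < m := Nat.cast_pos.2 hm
  unfold psi
  rw [integral_pos_iff_support_of_nonneg (fun z => cell_nonneg j _) (integrable_cell j t)]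
  rw [pos_iff_ne_zero]
  intro h0
  have h1 : volume (Function.support fun z => cell m L j (t + z)) = 0 :=
    gaussianReal_absolutelyContinuous' 0 hs h0
  have h2 : Set.Ico ((j : ℝ) * L / m - t) (((j : ℝ) + 1) * L / m - t) ⊆
      Function.support fun z => cell m L j (t + z) := by
    intro z hz
    have h3 : t + z ∈ cint m L j := ⟨by linarith [hz.1], by linarith [hz.2]⟩
    rw [Function.mem_support, cell_of_mem hL j h3]
    exact hm'.ne'
  have h3 := measure_mono_null h2 h1
  rw [Real.volume_Ico, ENNReal.ofReal_eq_zero] at h3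
  have h4 : ((j : ℝ) + 1) * L / m - t - (j * L / m - t) = L / m := by ring
  rw [h4] at h3
  have : 0 < L / m := by positivity
  linarith

theorem psi_le (j : Fin m) (t : ℝ) : psi m L s j t ≤ m := by
  unfold psi
  calc ∫ z, cell m L j (t + z) ∂(gaussianReal 0 s) ≤ ∫ _z, (m : ℝ) ∂(gaussianReal 0 s) :=
        integral_mono (integrable_cell j t) (integrable_const _) fun z => cell_le j _
    _ = m := by simp

theorem measurable_psi (j : Fin m) : Measurable (psi m L s j) := by
  unfold psi
  have h1 : Measurable fun p : ℝ × ℝ => cell m L j (p.1 + p.2) :=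
    (measurable_cell j).comp (measurable_fst.add measurable_snd)
  exact h1.stronglyMeasurable.integral_prod_right'.measurable

theorem psi_add (hL : 0 < L) (j : Fin m) (t : ℝ) (n : ℤ) :
    psi m L s j (t + L * n) = psi m L s j t := by
  unfold psi
  refine integral_congr_ae (Eventually.of_forall fun z => ?_)
  show cell m L j (t + L * n + z) = cell m L j (t + z)
  rw [show t + L * n + z = t + z + L * n by ring, cell_add hL]

theorem sum_psi (hm : 0 < m) (t : ℝ) : ∑ j, psi m L s j t = m := by
  unfold psi
  rw [← integral_finsetSum _ fun j _ => integrable_cell j t]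
  simp [sum_cell hm]

theorem integral_psi (hL : 0 < L) (j : Fin m) : ∫ t in Set.Ico 0 L, psi m L s j t = L := by
  unfold psi
  have hint : Integrable (Function.uncurry fun (t z : ℝ) => cell m L j (t + z))
      ((volume.restrict (Set.Ico (0 : ℝ) L)).prod (gaussianReal 0 s)) := by
    refine Integrable.of_bound (C := (m : ℝ)) ?_ (Eventually.of_forall fun p => ?_)
    · exact ((measurable_cell j).comp (measurable_fst.add measurable_snd)).aestronglyMeasurable
    · rw [Function.uncurry_def, Real.norm_eq_abs, abs_of_nonneg (cell_nonneg j _)]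
      exact cell_le j _
  rw [integral_integral_swap hint]
  have h1 : ∀ z : ℝ, ∫ t in Set.Ico 0 L, cell m L j (t + z) = L := by
    intro z
    have hper : Function.Periodic (cell m L j) L := by
      intro t
      have := cell_add hL j t 1
      simpa using this
    rw [integral_Ico_eq_integral_Ioc, ← intervalIntegral.integral_of_le hL.le,
      intervalIntegral.integral_comp_add_right (fun t => cell m L j t) z, zero_add, add_comm L z,
      hper.intervalIntegral_add_eq z 0, zero_add, intervalIntegral.integral_of_le hL.le,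
      ← integral_Ico_eq_integral_Ioc]
    exact integral_cell hL j
  simp only [h1]
  simp

end Pool.Agent.P76s
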