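import Mathlib

/-!
# MP_76de3d_mp, high density: definitions

Everything that the final theorem needs, and the trial density used in its proof.
-/

open MeasureTheory Filter Topology ProbabilityTheory
open scoped ENNReal NNReal BigOperators FourierTransform SchwartzMap Laplacian ContDiff

namespace Pool.Agent.P76s

/-- Euclidean three-space. -/
abbrev E3 := EuclideanSpace ℝ (Fin 3)

/-- Configurations of `N` particles in `ℝ³` (coordinates of the particles). -/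
abbrev Conf (N : ℕ) := Fin N → Fin 3 → ℝ

/-- The lattice vector `L n`, `n ∈ ℤ³`. -/
def lat (L : ℝ) (n : Fin 3 → ℤ) : Fin 3 → ℝ := fun b => L * n b

/-- The period box `[0, L)³`. -/
def box (L : ℝ) : Set (Fin 3 → ℝ) := Set.univ.pi fun _ => Set.Ico 0 L

/-- The `N`-fold product of the period box. -/
def confBox (N : ℕ) (L : ℝ) : Set (Conf N) := Set.univ.pi fun _ => box L

/-- The periodization of a nonnegative function. -/
noncomputable def periodize (L : ℝ) (w : (Fin 3 → ℝ) → ℝ≥0∞) (y : Fin 3 → ℝ) : ℝ≥0∞ :=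
  ∑' n : Fin 3 → ℤ, w (y + lat L n)

/-- The pair potential `v` as a function of the three coordinates, with values in `[0, ∞]`. -/
noncomputable def pot (v : E3 → ℝ) (y : Fin 3 → ℝ) : ℝ≥0∞ := ENNReal.ofReal (v (WithLp.toLp 2 y))

/-- Admissible wave functions of `N` bosons on the torus `ℝ³/(Lℤ)³`: smooth, `L`-periodic in every
particle, symmetric. -/
structure IsWave (N : ℕ) (L : ℝ) (Ψ : Conf N → ℂ) : Prop where
  smooth : ContDiff ℝ ∞ Ψ
  periodic : ∀ (x : Conf N) (i : Fin N) (n : Fin 3 → ℤ), Ψ (x + Pi.single i (lat L n)) = Ψ x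
  symm : ∀ (x : Conf N) (σ : Equiv.Perm (Fin N)), Ψ (x ∘ σ) = Ψ x

/-- The kinetic energy `½ ∑ᵢ ∫ |∇ᵢ Ψ|²`. -/
noncomputable def kinetic (N : ℕ) (L : ℝ) (Ψ : Conf N → ℂ) : ℝ≥0∞ :=
  ∫⁻ x in confBox N L, ENNReal.ofReal
    (1 / 2 * ∑ i, ∑ b, ‖fderiv ℝ Ψ x (Pi.single i (Pi.single b 1))‖ ^ 2)

/-- The interaction energy `∑_{i<j} ∫ W(xᵢ - xⱼ) |Ψ|²`. -/
noncomputable def interaction (N : ℕ) (L : ℝ) (W : (Fin 3 → ℝ) → ℝ≥0∞) (Ψ : Conf N → ℂ) :
    ℝ≥0∞ :=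
  ∫⁻ x in confBox N L, (∑ i, ∑ j ∈ Finset.Ioi i, W (x i - x j)) * ENNReal.ofReal (‖Ψ x‖ ^ 2)

/-- `∫ |Ψ|²`. -/
noncomputable def mass (N : ℕ) (L : ℝ) (Ψ : Conf N → ℂ) : ℝ≥0∞ :=
  ∫⁻ x in confBox N L, ENNReal.ofReal (‖Ψ x‖ ^ 2)

/-- The ground-state energy `E₀(N, L³)` of `N` bosons on the torus `ℝ³/(Lℤ)³` with
pair interaction `W`: the infimum of the quadratic form of
`-½ ∑ Δᵢ + ∑_{i<j} W(xᵢ - xⱼ)` over the normalised admissible wave functions. -/
noncomputable def groundEnergy (N : ℕ) (L : ℝ) (W : (Fin 3 → ℝ) → ℝ≥0∞) : ℝ≥0∞ :=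
  ⨅ (Ψ : Conf N → ℂ) (_ : IsWave N L Ψ) (_ : mass N L Ψ ≠ 0),
    (kinetic N L Ψ + interaction N L W Ψ) / mass N L Ψ

/-- `(u, e)` solves the Simple equation with potential `v` at density `ρ`:
`(-Δ + 4e) u = (1-u) v + 2eρ u∗u` (as tempered distributions), `e = (ρ/2) ∫ (1-u) v`. -/
structure IsSimpleSolution (v : E3 → ℝ) (ρ : ℝ) (u : E3 → ℝ) (e : ℝ) : Prop where
  int_u : Integrable u
  int_S : Integrable fun x => (1 - u x) * v x
  energy : e = ρ / 2 * ∫ x, (1 - u x) * v x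
  eqn : ∀ φ : 𝓢(E3, ℂ),
    ∫ x, (u x : ℂ) * (-(Δ φ) x + 4 * e * φ x) =
      ∫ x, (((1 - u x) * v x + 2 * e * ρ * ∫ y, u y * u (x - y) : ℝ) : ℂ) * φ x

/-! ### The trial density -/

/-- `m` times the indicator of the `j`-th cell of the partition of `ℝ/Lℤ` into `m` intervals. -/
noncomputable def cell (m : ℕ) (L : ℝ) (j : Fin m) (t : ℝ) : ℝ :=
  if ⌊(m : ℝ) * Int.fract (t / L)⌋ = ((j : ℕ) : ℤ) then (m : ℝ) else 0

/-- The Gaussian average (variance `s`) of `cell`. -/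
noncomputable def psi (m : ℕ) (L : ℝ) (s : ℝ≥0) (j : Fin m) (t : ℝ) : ℝ :=
  ∫ z, cell m L j (t + z) ∂(gaussianReal 0 s)

/-- `m³` times the indicator of a cell of `ℝ³/(Lℤ)³`. -/
noncomputable def hcell (m : ℕ) (L : ℝ) (c : Fin 3 → Fin m) (y : Fin 3 → ℝ) : ℝ :=
  ∏ b, cell m L (c b) (y b)

/-- The Gaussian average of `hcell`. -/
noncomputable def qq (m : ℕ) (L : ℝ) (s : ℝ≥0) (c : Fin 3 → Fin m) (y : Fin 3 → ℝ) : ℝ :=
  ∏ b, psi m L s (c b) (y b)

/-- The symmetrised density of `N` particles, the `i`-th one in the cell `a i`. -/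
noncomputable def HH (N m : ℕ) (L : ℝ) (a : Fin N → Fin 3 → Fin m) (x : Conf N) : ℝ :=
  ((Nat.factorial N : ℕ) : ℝ)⁻¹ * ∑ σ : Equiv.Perm (Fin N), ∏ i, hcell m L (a (σ i)) (x i)

/-- The trial density: the Gaussian average of `HH`. -/
noncomputable def PP (N m : ℕ) (L : ℝ) (s : ℝ≥0) (a : Fin N → Fin 3 → Fin m) (x : Conf N) : ℝ :=
  ((Nat.factorial N : ℕ) : ℝ)⁻¹ * ∑ σ : Equiv.Perm (Fin N), ∏ i, qq m L s (a (σ i)) (x i)

/-- The trial wave function `√PP`. -/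
noncomputable def trial (N m : ℕ) (L : ℝ) (s : ℝ≥0) (a : Fin N → Fin 3 → Fin m) (x : Conf N) : ℂ :=
  ((Real.sqrt (PP N m L s a x) : ℝ) : ℂ)

/-- The centred Gaussian measure on `ℝ³`, variance `s` per coordinate. -/
noncomputable def gam3 (s : ℝ≥0) : Measure (Fin 3 → ℝ) := Measure.pi fun _ => gaussianReal 0 s

/-- The centred Gaussian measure on `(ℝ³)^N`. -/
noncomputable def Gam (N : ℕ) (s : ℝ≥0) : Measure (Conf N) := Measure.pi fun _ => gam3 s

instance (s : ℝ≥0) : IsProbabilityMeasure (gam3 s) := by unfold gam3; infer_instance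

instance (N : ℕ) (s : ℝ≥0) : IsProbabilityMeasure (Gam N s) := by unfold Gam; infer_instance

/-- The number of particles in the cell `c`. -/
noncomputable def occ {N m : ℕ} (a : Fin N → Fin 3 → Fin m) (c : Fin 3 → Fin m) : ℕ :=
  (Finset.univ.filter fun i => a i = c).card

/-- The upper bound of `HH`. -/
noncomputable def MM (N m : ℕ) (a : Fin N → Fin 3 → Fin m) : ℝ :=
  ((m : ℝ) ^ 3) ^ N * (∏ c : Fin 3 → Fin m, (Nat.factorial (occ a c) : ℝ)) / (Nat.factorial N : ℝ)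

/-- The law (on the period box) of a particle with density proportional to `qq c`. -/
noncomputable def nu (m : ℕ) (L : ℝ) (s : ℝ≥0) (c : Fin 3 → Fin m) : Measure (Fin 3 → ℝ) :=
  (volume.restrict (box L)).withDensity fun y => ENNReal.ofReal (qq m L s c y / L ^ 3)

/-- The mean interaction of two particles with laws `nu c`, `nu c'`. -/
noncomputable def JJ (m : ℕ) (L : ℝ) (s : ℝ≥0) (W : (Fin 3 → ℝ) → ℝ≥0∞)
    (c c' : Fin 3 → Fin m) : ℝ≥0∞ :=
  ∫⁻ x, ∫⁻ y, W (x - y) ∂(nu m L s c') ∂(nu m L s c)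

/-- The twice Gaussian-averaged potential. -/
noncomputable def KK (s : ℝ≥0) (w : (Fin 3 → ℝ) → ℝ≥0∞) (d : Fin 3 → ℝ) : ℝ≥0∞ :=
  ∫⁻ z, ∫⁻ z', w (d + z - z') ∂(gam3 s) ∂(gam3 s)

end Pool.Agent.P76s
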