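import Pool.Agent.Lib.P76s.Defs

/-!
# P76s.Entropy (1.2 h): the Gaussian entropy inequality, Mathlib only

For a measurable `h` on `(ℝ³)^N`, `0 ≤ h ≤ M`, with `P = ∫ h dΓ > 0` and
`w_{ib} = ∫ h z_{ib} dΓ` (`Γ` = standard product Gaussian, variance `s` per coordinate):
`∑ w_{ib}² ≤ 2 s P² log (M/P)`.

Proof.  Put `θ = w/(P s)`, `X(z) = ∑ θ_{ib} z_{ib}`, `c = ∑ θ_{ib} w_{ib} / P = (1/P) ∫ h X dΓ`.
Pointwise `e^X ≥ e^c (1 + X - c)` (`Real.add_one_le_exp`); multiply by `h ≥ 0` and integrate: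
`∫ h e^X ≥ e^c (P + ∫ hX - cP) = e^c P`.  On the other hand
`∫ h e^X ≤ M ∫ e^X dΓ = M ∏ ∫ e^{θ z} dγ_s = M e^{s |θ|²/2}`
(`integral_fintype_prod_eq_prod` twice, `mgf_gaussianReal`).
Hence `c ≤ log (M/P) + s |θ|²/2`.  With `|w|² = ∑ w_{ib}²`: `c = |w|²/(P² s)` and
`s |θ|²/2 = |w|²/(2 P² s)`, which is the claim.  (Integrability: `h` is bounded, `z_{ib}` and `e^X` are
integrable.)
-/

open MeasureTheory Filter Topology ProbabilityTheory
open scoped ENNReal NNReal BigOperators ContDiff

namespace Pool.Agent.P76s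

namespace EntropyAux

variable {N : ℕ} {s : ℝ≥0}

lemma integrable_coord (i : Fin N) (b : Fin 3) :
    Integrable (fun z : Conf N => z i b) (Gam N s) := by
  have h1 : Integrable (fun x : ℝ => x) (gaussianReal 0 s) :=
    (memLp_id_gaussianReal 1).integrable (by norm_num)
  have h2 : Integrable (fun y : Fin 3 → ℝ => y b) (gam3 s) :=
    integrable_comp_eval (μ := fun _ : Fin 3 => gaussianReal 0 s) (i := b)
      (f := fun x : ℝ => x) h1
  exact integrable_comp_eval (μ := fun _ : Fin N => gam3 s) (i := i)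
    (f := fun y : Fin 3 → ℝ => y b) h2

lemma integrable_expX (θ : Fin N → Fin 3 → ℝ) :
    Integrable (fun z : Conf N => Real.exp (∑ i, ∑ b, θ i b * z i b)) (Gam N s) := by
  have h1 : ∀ z : Conf N, Real.exp (∑ i, ∑ b, θ i b * z i b) =
      ∏ i, ∏ b, Real.exp (θ i b * z i b) := by
    intro z
    rw [Real.exp_sum]
    exact Finset.prod_congr rfl fun i _ => Real.exp_sum _ _
  simp only [h1]
  have h2 : ∀ i : Fin N, Integrable (fun y : Fin 3 → ℝ => ∏ b, Real.exp (θ i b * y b))
      (gam3 s) := by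
    intro i
    exact Integrable.fintype_prod (μ := fun _ : Fin 3 => gaussianReal 0 s)
      (f := fun b x => Real.exp (θ i b * x)) fun b => integrable_exp_mul_gaussianReal _
  exact Integrable.fintype_prod (μ := fun _ : Fin N => gam3 s)
    (f := fun i (y : Fin 3 → ℝ) => ∏ b, Real.exp (θ i b * y b)) h2

lemma integral_expX (θ : Fin N → Fin 3 → ℝ) :
    ∫ z : Conf N, Real.exp (∑ i, ∑ b, θ i b * z i b) ∂(Gam N s) =
      Real.exp (∑ i, ∑ b, (s : ℝ) * θ i b ^ 2 / 2) := by
  have h1 : ∀ z : Conf N, Real.exp (∑ i, ∑ b, θ i b * z i b) =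
      ∏ i, ∏ b, Real.exp (θ i b * z i b) := by
    intro z
    rw [Real.exp_sum]
    exact Finset.prod_congr rfl fun i _ => Real.exp_sum _ _
  simp only [h1]
  have h2 : ∫ z : Conf N, ∏ i, ∏ b, Real.exp (θ i b * z i b) ∂(Gam N s) =
      ∏ i, ∫ y : Fin 3 → ℝ, ∏ b, Real.exp (θ i b * y b) ∂(gam3 s) :=
    integral_fintype_prod_eq_prod (𝕜 := ℝ) (μ := fun _ : Fin N => gam3 s)
      (fun i (y : Fin 3 → ℝ) => ∏ b, Real.exp (θ i b * y b))
  rw [h2, Real.exp_sum]
  refine Finset.prod_congr rfl fun i _ => ?_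
  have h3 : ∫ y : Fin 3 → ℝ, ∏ b, Real.exp (θ i b * y b) ∂(gam3 s) =
      ∏ b, ∫ x, Real.exp (θ i b * x) ∂(gaussianReal 0 s) :=
    integral_fintype_prod_eq_prod (𝕜 := ℝ) (μ := fun _ : Fin 3 => gaussianReal 0 s)
      (fun b (x : ℝ) => Real.exp (θ i b * x))
  rw [h3, Real.exp_sum]
  refine Finset.prod_congr rfl fun b _ => ?_
  have h4 := congrFun (mgf_fun_id_gaussianReal (μ := 0) (v := s)) (θ i b)
  rw [mgf] at h4
  rw [h4]
  congr 1
  ring

end EntropyAux

open EntropyAux

theorem entropy_bound {N : ℕ} {s : ℝ≥0} (hs : s ≠ 0) {h : Conf N → ℝ} (hm : Measurable h) {M : ℝ}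
    (h0 : ∀ z, 0 ≤ h z) (hM : ∀ z, h z ≤ M) (hP : 0 < ∫ z, h z ∂(Gam N s)) :
    ∑ i, ∑ b, (∫ z, h z * z i b ∂(Gam N s)) ^ 2 ≤
      2 * s * (∫ z, h z ∂(Gam N s)) ^ 2 * Real.log (M / ∫ z, h z ∂(Gam N s)) := by
  set P := ∫ z, h z ∂(Gam N s) with hPdef
  set w : Fin N → Fin 3 → ℝ := fun i b => ∫ z, h z * z i b ∂(Gam N s) with hw
  have hs0 : (0:ℝ) < s := by
    have : 0 < s := pos_iff_ne_zero.2 hs
    exact_mod_cast this
  have hbd : ∀ᵐ z ∂(Gam N s), ‖h z‖ ≤ M := by
    filter_upwards with z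
    rw [Real.norm_eq_abs, abs_of_nonneg (h0 z)]
    exact hM z
  have hint : Integrable h (Gam N s) :=
    Integrable.of_bound hm.aestronglyMeasurable M hbd
  have hPM : P ≤ M := by
    calc P ≤ ∫ _z, M ∂(Gam N s) := integral_mono hint (integrable_const _) hM
      _ = M := by simp
  have hM0 : 0 < M := lt_of_lt_of_le hP hPM
  have hmul : ∀ f : Conf N → ℝ, Integrable f (Gam N s) →
      Integrable (fun z => h z * f z) (Gam N s) := by
    intro f hf
    exact hf.bdd_mul hm.aestronglyMeasurable hbd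
  set θ : Fin N → Fin 3 → ℝ := fun i b => w i b / (P * s) with hθ
  set X : Conf N → ℝ := fun z => ∑ i, ∑ b, θ i b * z i b with hX
  set W := ∑ i, ∑ b, w i b ^ 2 with hW
  have hXint : Integrable X (Gam N s) := by
    refine integrable_finsetSum _ fun i _ => integrable_finsetSum _ fun b _ => ?_
    exact (integrable_coord i b).const_mul _
  have hXh : ∫ z, h z * X z ∂(Gam N s) = W / (P * s) := by
    have h1 : ∀ z, h z * X z = ∑ i, ∑ b, θ i b * (h z * z i b) := by
      intro z
      rw [hX, Finset.mul_sum]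
      refine Finset.sum_congr rfl fun i _ => ?_
      rw [Finset.mul_sum]
      exact Finset.sum_congr rfl fun b _ => by ring
    simp only [h1]
    have hi : ∀ i b, Integrable (fun z : Conf N => θ i b * (h z * z i b)) (Gam N s) :=
      fun i b => (hmul _ (integrable_coord i b)).const_mul _
    rw [integral_finsetSum _ fun i _ => integrable_finsetSum _ fun b _ => hi i b, hW,
      Finset.sum_div]
    refine Finset.sum_congr rfl fun i _ => ?_
    rw [integral_finsetSum _ fun b _ => hi i b, Finset.sum_div]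
    refine Finset.sum_congr rfl fun b _ => ?_
    rw [integral_const_mul]
    have h2 : ∫ z, h z * z i b ∂(Gam N s) = w i b := rfl
    rw [h2, hθ]
    ring
  set c := W / (P ^ 2 * s) with hc
  have hcP : c * P = W / (P * s) := by
    rw [hc]
    field_simp
  have hexp := integrable_expX (N := N) (s := s) θ
  -- lower bound
  have hlow : Real.exp c * P ≤ ∫ z, h z * Real.exp (X z) ∂(Gam N s) := by
    have h1 : ∀ z, h z * (Real.exp c * (1 + X z - c)) ≤ h z * Real.exp (X z) := by
      intro z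
      refine mul_le_mul_of_nonneg_left ?_ (h0 z)
      have h2 := Real.add_one_le_exp (X z - c)
      calc Real.exp c * (1 + X z - c) ≤ Real.exp c * Real.exp (X z - c) :=
            mul_le_mul_of_nonneg_left (by linarith) (Real.exp_pos _).le
        _ = Real.exp (X z) := by
            rw [← Real.exp_add]
            congr 1
            ring
    have h3 : ∀ z, h z * (Real.exp c * (1 + X z - c)) =
        Real.exp c * ((1 - c) * h z + h z * X z) := fun z => by ring
    have hi1 : Integrable (fun z => Real.exp c * ((1 - c) * h z + h z * X z)) (Gam N s) :=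
      ((hint.const_mul _).add (hmul _ hXint)).const_mul _
    have h4 : ∫ z, h z * (Real.exp c * (1 + X z - c)) ∂(Gam N s) = Real.exp c * P := by
      simp only [h3]
      rw [integral_const_mul, integral_add (hint.const_mul _) (hmul _ hXint), integral_const_mul,
        hXh, ← hPdef, ← hcP]
      ring
    rw [← h4]
    refine integral_mono ?_ (hmul _ hexp) h1
    simp only [h3]
    exact hi1
  -- upper bound
  have hup : ∫ z, h z * Real.exp (X z) ∂(Gam N s) ≤ M * Real.exp (c / 2) := by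
    have h1 : ∫ z, h z * Real.exp (X z) ∂(Gam N s) ≤ ∫ z, M * Real.exp (X z) ∂(Gam N s) :=
      integral_mono (hmul _ hexp) (hexp.const_mul _) fun z =>
        mul_le_mul_of_nonneg_right (hM z) (Real.exp_pos _).le
    refine h1.trans (le_of_eq ?_)
    rw [integral_const_mul, integral_expX θ]
    congr 2
    rw [hc, hW, Finset.sum_div, Finset.sum_div]
    refine Finset.sum_congr rfl fun i _ => ?_
    rw [Finset.sum_div, Finset.sum_div]
    refine Finset.sum_congr rfl fun b _ => ?_
    rw [hθ]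
    field_simp
  have hfin : Real.exp c * P ≤ M * Real.exp (c / 2) := hlow.trans hup
  have hlog : c / 2 ≤ Real.log (M / P) := by
    rw [Real.le_log_iff_exp_le (div_pos hM0 hP), le_div_iff₀ hP]
    have h1 : Real.exp c = Real.exp (c / 2) * Real.exp (c / 2) := by
      rw [← Real.exp_add]
      congr 1
      ring
    rw [h1] at hfin
    have h2 : Real.exp (c / 2) * (Real.exp (c / 2) * P) ≤ Real.exp (c / 2) * M := by linarith
    exact le_of_mul_le_mul_left h2 (Real.exp_pos _)
  have hcW : W = 2 * s * P ^ 2 * (c / 2) := by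
    rw [hc]
    field_simp
  rw [hcW]
  exact mul_le_mul_of_nonneg_left hlog (by positivity)

end Pool.Agent.P76s
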