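import Pool.Agent.Lib.P76s.Kappa

/-!
# P76s.IntHat (1.2 h): `v̂ ≥ 0` and `v` continuous imply `v̂ ∈ L¹`, and the gap is positive (Mathlib only)

* `integrable_hat`: `∫ v̂(k) e^{-π t |k|²} dk = ∫ v(x) t^{-3/2} e^{-π|x|²/t} dx` (`fourier_gaussian_innerProductSpace`, flip
  formula) `≤ sup_{|x|≤1} v + o(1)`, bounded as `t → 0`; monotone convergence (Fatou).  `v̂` is real because `v` is
  even.
* `hat_zero`: then `∫ v̂ = v 0` (Fourier inversion, `Continuous` + `Integrable` both sides:
  `MeasureTheory.Integrable.fourierInv_fourier_eq`-type lemma).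
* `gap_pos`: `v̂` is continuous, `v̂(0) = V₀ > 0`, `v̂ ≤ V₀`, `v̂ → 0` at infinity (Riemann-Lebesgue,
  `tendsto_integral_exp_smul_cocompact`/`zero_at_infty_fourier`), so `0 < v̂ < V₀` on a nonempty open set
  (intermediate value theorem on `E3`, preconnected).
-/

open MeasureTheory Filter Topology
open scoped ENNReal NNReal BigOperators FourierTransform

namespace Pool.Agent.P76s

theorem hat_im {v : E3 → ℝ} (heven : ∀ x, v (-x) = v x) (k : E3) :
    (𝓕 (fun x => (v x : ℂ)) k).im = 0 := by
  rw [KappaAux.fourier_im heven, Complex.ofReal_im]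

namespace IntHatAux

open KappaAux

/-- the scales -/
noncomputable def TT (n : ℕ) : ℝ := (2 * Real.pi ^ 2 * ((n : ℝ) + 1))⁻¹

lemma TT_pos (n : ℕ) : 0 < TT n := by
  unfold TT
  have := Real.pi_pos
  positivity

lemma TT_tendsto : Tendsto TT atTop (𝓝 0) := by
  have h1 := tendsto_one_div_add_atTop_nhds_zero_nat (𝕜 := ℝ)
  have h2 := h1.const_mul (2 * Real.pi ^ 2)⁻¹
  rw [mul_zero] at h2
  refine h2.congr fun n => ?_
  unfold TT
  rw [one_div, ← mul_inv]

lemma tendsto_GG {v : E3 → ℝ} (hv : Integrable v) (hcont : Continuous v) :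
    Tendsto (fun n : ℕ => ∫ x, v x * GG (TT n) x) atTop (𝓝 (v 0)) := by
  have hvC : Integrable (fun x => (v x : ℂ)) := hv.ofReal
  have h1 := Real.tendsto_integral_gaussian_smul' hvC
    (v := (0 : E3)) (Complex.continuous_ofReal.comp hcont).continuousAt
  have h2 : Tendsto (fun n : ℕ => (n : ℝ) + 1) atTop atTop :=
    tendsto_atTop_add_const_right _ _ tendsto_natCast_atTop_atTop
  have h3 := h1.comp h2
  have h4 := (Complex.continuous_re.tendsto _).comp h3
  simp only [Complex.ofReal_re] at h4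
  refine h4.congr fun n => ?_
  simp only [Function.comp_apply]
  have hn : (0 : ℝ) < (n : ℝ) + 1 := by positivity
  have hpi := Real.pi_pos
  have h5 : ∀ w : E3, (((Real.pi : ℂ) * (((n : ℝ) + 1 : ℝ) : ℂ)) ^
      ((Module.finrank ℝ E3 : ℂ) / 2) * Complex.exp (-(Real.pi : ℂ) ^ 2 * (((n : ℝ) + 1 : ℝ) : ℂ) *
        ((‖(0 : E3) - w‖ : ℝ) : ℂ) ^ 2)) • ((v w : ℝ) : ℂ) = ((v w * GG (TT n) w : ℝ) : ℂ) := by
    intro w
    have h6 : ((Module.finrank ℝ E3 : ℂ) / 2) = ((3 / 2 : ℝ) : ℂ) := by
      rw [finrank_euclideanSpace_fin]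
      push_cast
      rfl
    rw [h6, ← Complex.ofReal_mul, ← Complex.ofReal_cpow (by positivity), zero_sub, norm_neg,
      smul_eq_mul]
    have h7 : Complex.exp (-(Real.pi : ℂ) ^ 2 * (((n : ℝ) + 1 : ℝ) : ℂ) * ((‖w‖ : ℝ) : ℂ) ^ 2) =
        ((Real.exp (-‖w‖ ^ 2 / (2 * TT n)) : ℝ) : ℂ) := by
      rw [Complex.ofReal_exp]
      congr 1
      unfold TT
      push_cast
      have hpi' : (Real.pi : ℂ) ≠ 0 := by exact_mod_cast hpi.ne'
      have hn' : ((n : ℂ) + 1) ≠ 0 := by exact_mod_cast hn.ne'
      field_simp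
    have h8 : (Real.pi * ((n : ℝ) + 1)) ^ (3 / 2 : ℝ) = (√(2 * Real.pi * TT n))⁻¹ ^ 3 := by
      have h9 : 2 * Real.pi * TT n = (Real.pi * ((n : ℝ) + 1))⁻¹ := by
        unfold TT
        field_simp
      rw [h9, Real.sqrt_inv, inv_inv, Real.sqrt_eq_rpow, ← Real.rpow_natCast,
        ← Real.rpow_mul (by positivity)]
      norm_num
    rw [h7, h8]
    unfold GG
    push_cast
    ring
  simp only [h5]
  rw [integral_complex_ofReal, Complex.ofReal_re]

end IntHatAux

open KappaAux IntHatAux in
theorem integrable_hat {v : E3 → ℝ} (hv : Integrable v) (hv0 : ∀ x, 0 ≤ v x)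
    (heven : ∀ x, v (-x) = v x) (hcont : Continuous v)
    (hpos : ∀ k, 0 ≤ (𝓕 (fun x => (v x : ℂ)) k).re) :
    Integrable (𝓕 (fun x => (v x : ℂ))) := by
  have hVc := continuous_VV hv
  have hpos' : ∀ k, 0 ≤ VV v k := hpos
  have hint : ∫⁻ k, ENNReal.ofReal (VV v k) ≤ ENNReal.ofReal (v 0 + 1) := by
    set f : ℕ → E3 → ℝ≥0∞ := fun n k =>
      ENNReal.ofReal (VV v k * Real.exp (-(2 * Real.pi ^ 2 * TT n) * ‖k‖ ^ 2)) with hf
    have h1 : ∀ k, Tendsto (fun n => f n k) atTop (𝓝 (ENNReal.ofReal (VV v k))) := by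
      intro k
      refine (ENNReal.continuous_ofReal.tendsto _).comp ?_
      have h2 : Tendsto (fun n => VV v k *
          Real.exp (-(2 * Real.pi ^ 2 * TT n) * ‖k‖ ^ 2)) atTop
          (𝓝 (VV v k * Real.exp (-(2 * Real.pi ^ 2 * 0) * ‖k‖ ^ 2))) := by
        refine Tendsto.const_mul _ ((Real.continuous_exp.tendsto _).comp ?_)
        exact ((TT_tendsto.const_mul _).neg).mul_const _
      simpa using h2
    have h3 := lintegral_liminf_le (μ := (volume : Measure E3)) (u := atTop) (f := f)
      (fun n => by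
        refine (Measurable.ennreal_ofReal ?_)
        exact hVc.measurable.mul (by fun_prop))
    simp only [(h1 _).liminf_eq] at h3
    refine h3.trans ?_
    have h5 : ∀ n, Integrable fun k : E3 =>
        VV v k * Real.exp (-(2 * Real.pi ^ 2 * TT n) * ‖k‖ ^ 2) := by
      intro n
      have h7 := (integrable_gauss (TT_pos n)).re
      simp only [cexp_re, RCLike.re_to_complex, Complex.ofReal_re] at h7
      refine Integrable.bdd_mul (c := ∫ x, v x) h7 hVc.aestronglyMeasurable ?_
      refine Eventually.of_forall fun k => ?_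
      rw [Real.norm_eq_abs, abs_of_nonneg (hpos' k)]
      exact VV_le hv0 k
    have h6 : ∀ᶠ n in atTop, ∫⁻ k, f n k ≤ ENNReal.ofReal (v 0 + 1) := by
      have h8 := (tendsto_GG hv hcont).eventually (ge_mem_nhds (lt_add_one (v 0)))
      filter_upwards [h8] with n hn
      rw [hf, ← ofReal_integral_eq_lintegral_ofReal (h5 n) (Eventually.of_forall fun k =>
        mul_nonneg (hpos' k) (Real.exp_pos _).le), ← integral_v_GG hv (TT_pos n)]
      exact ENNReal.ofReal_le_ofReal hn
    refine (liminf_le_liminf h6).trans ?_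
    rw [liminf_const]
  have hV : Integrable (VV v) := by
    refine ⟨hVc.aestronglyMeasurable, ?_⟩
    rw [hasFiniteIntegral_iff_ofReal (Eventually.of_forall hpos')]
    exact hint.trans_lt ENNReal.ofReal_lt_top
  refine hV.ofReal.congr (Eventually.of_forall fun k => ?_)
  exact (fourier_im heven k).symm

theorem hat_zero {v : E3 → ℝ} (hv : Integrable v) (hcont : Continuous v)
    (hint : Integrable (𝓕 (fun x => (v x : ℂ)))) :
    ∫ k, (𝓕 (fun x => (v x : ℂ)) k).re = v 0 := by
  have hvC : Integrable (fun x => (v x : ℂ)) := hv.ofReal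
  have h1 := MeasureTheory.Integrable.fourierInv_fourier_eq hvC hint (v := (0 : E3))
    (Complex.continuous_ofReal.comp hcont).continuousAt
  rw [Real.fourierInv_eq'] at h1
  simp only [inner_zero_right, mul_zero, Complex.ofReal_zero, zero_mul, Complex.exp_zero,
    one_smul] at h1
  have h2 := integral_re hint (𝕜 := ℂ)
  simp only [RCLike.re_to_complex] at h2
  rw [h2, h1, Complex.ofReal_re]

open KappaAux in
theorem gap_pos {v : E3 → ℝ} (hv : Integrable v) (hv0 : ∀ x, 0 ≤ v x) (hne : 0 < ∫ x, v x)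
    (hpos : ∀ k, 0 ≤ (𝓕 (fun x => (v x : ℂ)) k).re)
    (hint : Integrable (𝓕 (fun x => (v x : ℂ)))) :
    0 < ∫ k, (𝓕 (fun x => (v x : ℂ)) k).re *
        √(1 - (𝓕 (fun x => (v x : ℂ)) k).re / ∫ x, v x) := by
  have hcont := continuous_VV hv
  have hpos' : ∀ k, 0 ≤ VV v k := hpos
  have hV : Integrable (VV v) := by
    have h2 := hint.re
    exact h2
  set V0 : ℝ := ∫ x, v x with hV0
  change 0 < ∫ k, VV v k * √(1 - VV v k / V0)
  have hc : Continuous fun k => VV v k * √(1 - VV v k / V0) := by fun_prop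
  have hh0 : 0 ≤ fun k => VV v k * √(1 - VV v k / V0) := fun k =>
    mul_nonneg (hpos' k) (Real.sqrt_nonneg _)
  have hhi : Integrable fun k => VV v k * √(1 - VV v k / V0) := by
    refine hV.mono hc.aestronglyMeasurable (Eventually.of_forall fun k => ?_)
    rw [Real.norm_eq_abs, Real.norm_eq_abs, abs_of_nonneg (hh0 k), abs_of_nonneg (hpos' k)]
    refine mul_le_of_le_one_right (hpos' k) ?_
    have h9 := div_nonneg (hpos' k) hne.le
    exact Real.sqrt_le_one.mpr (by linarith)
  rcases (integral_nonneg hh0).lt_or_eq with hlt | heq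
  · exact hlt
  exfalso
  have hz := (integral_eq_zero_iff_of_nonneg hh0 hhi).1 heq.symm
  have hz' : (fun k => VV v k * √(1 - VV v k / V0)) = fun _ => (0 : ℝ) :=
    (Continuous.ae_eq_iff_eq (volume : Measure E3) hc continuous_const).1 hz
  have hdich : ∀ k, VV v k = 0 ∨ VV v k = V0 := by
    intro k
    have h1 : VV v k * √(1 - VV v k / V0) = 0 := congrFun hz' k
    rcases mul_eq_zero.1 h1 with h | h
    · exact Or.inl h
    · right
      have h2 := VV_le hv0 k
      have h3 : 1 - VV v k / V0 ≤ 0 := Real.sqrt_eq_zero'.1 h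
      have h4 : 1 ≤ VV v k / V0 := by linarith
      rw [one_le_div hne] at h4
      exact le_antisymm h2 h4
  have hclopen : IsClopen {k | VV v k = V0} := by
    refine ⟨isClosed_eq hcont continuous_const, ?_⟩
    have h1 : {k | VV v k = V0} = {k | VV v k = 0}ᶜ := by
      ext k
      simp only [Set.mem_compl_iff]
      constructor
      · intro h h'
        have h2 : VV v k = V0 := h
        have h3 : VV v k = 0 := h'
        rw [h3] at h2
        exact hne.ne' h2.symm
      · intro h
        rcases hdich k with h' | h'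
        · exact absurd h' h
        · exact h'
    rw [h1]
    exact (isClosed_eq hcont continuous_const).isOpen_compl
  have huniv : {k | VV v k = V0} = Set.univ := by
    rcases isClopen_iff.1 hclopen with h | h
    · exfalso
      have h1 : (0 : E3) ∈ {k | VV v k = V0} := VV_zero
      rw [h] at h1
      exact h1
    · exact h
  have hconst : VV v = fun _ => V0 := funext fun k => by
    have h1 : k ∈ {k | VV v k = V0} := by rw [huniv]; trivial
    exact h1
  rw [hconst, integrable_const_iff] at hV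
  rcases hV with h | h
  · exact hne.ne' h
  · exact absurd h.measure_univ_lt_top (by simp)

end Pool.Agent.P76s
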