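import Pool.Agent.Lib.P76s.Kappa

/-!
# P76s.KappaC (1 h): the Gaussian average of a function continuous at `0` (Mathlib only)

Assume `0 ≤ κ` (otherwise `ofReal κ = 0`).  Pick `κ < κ' < v 0` and `r > 0` with `v ≥ κ'` on the ball `‖x‖ < r`
(`hcont`).  If `|d b|, |z b|, |z' b| ≤ r/8` for all `b` then the Euclidean norm of `d + z - z'` is `≤ √3 · 3r/8 < r`, so
`KK s (pot v) d ≥ κ' (gam3 s {|z b| ≤ r/8})²`, and `gam3 s {∀ b, |z b| ≤ r/8} ≥ 1 - 3 · 64 s/r²` (Chebyshev: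
`variance_id_gaussianReal`), which tends to `1` as `s → 0`.
-/

open MeasureTheory Filter Topology ProbabilityTheory
open scoped ENNReal NNReal BigOperators

namespace Pool.Agent.P76s

namespace KappaCAux

lemma gauss_ge (t : ℝ≥0) {a : ℝ} (ha : 0 < a) :
    ENNReal.ofReal (1 - t / a ^ 2) ≤ gaussianReal 0 t (Set.Icc (-a) a) := by
  have h1 := meas_ge_le_variance_div_sq (μ := gaussianReal 0 t) (X := id)
    (memLp_id_gaussianReal 2) ha
  rw [variance_id_gaussianReal] at h1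
  have h2 : ∫ x, id x ∂(gaussianReal 0 t) = 0 := integral_id_gaussianReal
  rw [h2] at h1
  have h3 : (Set.Icc (-a) a)ᶜ ⊆ {ω : ℝ | a ≤ |id ω - 0|} := by
    intro x hx
    rw [Set.mem_compl_iff, Set.mem_Icc, ← abs_le, not_le] at hx
    change a ≤ |x - 0|
    rw [sub_zero]
    exact hx.le
  have h4 := (measure_mono h3).trans h1
  have h5 : gaussianReal 0 t (Set.Icc (-a) a) = 1 - gaussianReal 0 t (Set.Icc (-a) a)ᶜ := by
    rw [← prob_compl_eq_one_sub measurableSet_Icc.compl, compl_compl]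
  rw [h5, ENNReal.ofReal_sub _ (by positivity), ENNReal.ofReal_one]
  exact tsub_le_tsub_left h4 1

lemma gam3_ge (t : ℝ≥0) {a : ℝ} (ha : 0 < a) :
    ENNReal.ofReal (1 - 3 * (t / a ^ 2)) ≤
      gam3 t (Set.univ.pi fun _ : Fin 3 => Set.Icc (-a) a) := by
  have hx : 0 ≤ (t : ℝ) / a ^ 2 := by positivity
  by_cases h : (t : ℝ) / a ^ 2 ≤ 1
  · have h1 : gam3 t (Set.univ.pi fun _ : Fin 3 => Set.Icc (-a) a) =
        (gaussianReal 0 t (Set.Icc (-a) a)) ^ 3 := by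
      unfold gam3
      rw [Measure.pi_pi, Finset.prod_const, Finset.card_univ, Fintype.card_fin]
    rw [h1]
    refine le_trans ?_ (pow_le_pow_left' (gauss_ge t ha) 3)
    rw [← ENNReal.ofReal_pow (by linarith)]
    apply ENNReal.ofReal_le_ofReal
    have h2 := one_add_mul_le_pow (a := -((t : ℝ) / a ^ 2)) (by linarith) 3
    push_cast at h2
    have h3 : 1 + -((t : ℝ) / a ^ 2) = 1 - t / a ^ 2 := by ring
    rw [h3] at h2
    linarith
  · rw [ENNReal.ofReal_of_nonpos (by linarith)]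
    exact zero_le

end KappaCAux

theorem exists_kappa_cont {v : E3 → ℝ} (hvm : Measurable v) (hv0 : ∀ x, 0 ≤ v x)
    (hcont : ContinuousAt v 0) {κ : ℝ} (hκ : κ < v 0) :
    ∃ s : ℝ≥0, s ≠ 0 ∧ ∃ ℓ > 0,
      ∀ d : Fin 3 → ℝ, (∀ b, |d b| ≤ ℓ) → ENNReal.ofReal κ ≤ KK s (pot v) d := by
  rcases lt_or_ge κ 0 with hneg | hκ0
  · refine ⟨1, one_ne_zero, 1, one_pos, fun d _ => ?_⟩
    rw [ENNReal.ofReal_of_nonpos hneg.le]
    exact zero_le
  obtain ⟨κ', h1, h2⟩ := exists_between hκ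
  have hκ' : 0 < κ' := lt_of_le_of_lt hκ0 h1
  have h3 : ∀ᶠ x in 𝓝 (0 : E3), κ' < v x := hcont.eventually (lt_mem_nhds h2)
  obtain ⟨r, hr, h4⟩ := Metric.eventually_nhds_iff.1 h3
  obtain ⟨a, ha⟩ : ∃ a, a = r / 4 := ⟨_, rfl⟩
  have ha0 : 0 < a := by rw [ha]; positivity
  have hx0 : 0 < a ^ 2 * (κ' - κ) / (6 * κ') := by
    have : 0 < κ' - κ := by linarith
    positivity
  obtain ⟨s, hs⟩ : ∃ s : ℝ≥0, (s : ℝ) = a ^ 2 * (κ' - κ) / (6 * κ') :=
    ⟨⟨_, hx0.le⟩, rfl⟩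
  have hs0 : s ≠ 0 := by
    intro h
    rw [h, NNReal.coe_zero] at hs
    exact hx0.ne hs
  have hpm : Measurable (pot v) := by
    unfold pot
    exact (hvm.comp (WithLp.measurable_toLp 2 _)).ennreal_ofReal
  refine ⟨s, hs0, a, ha0, fun d hd => ?_⟩
  rw [KappaAux.KK_eq s hpm d]
  have h5 : ∀ u ∈ Set.univ.pi (fun _ : Fin 3 => Set.Icc (-a) a),
      ENNReal.ofReal κ' ≤ pot v (d + u) := by
    intro u hu
    apply ENNReal.ofReal_le_ofReal
    apply (h4 _).le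
    rw [dist_zero_right, EuclideanSpace.norm_eq]
    have h6 : ∀ b : Fin 3, ‖(WithLp.toLp 2 (d + u) : E3) b‖ ^ 2 ≤ (r / 2) ^ 2 := by
      intro b
      have h7 := hd b
      have h8 : |u b| ≤ a := abs_le.2 (hu b (Set.mem_univ b))
      have h9 : |d b + u b| ≤ r / 2 := by
        refine (abs_add_le _ _).trans ?_
        rw [ha] at h7 h8
        linarith
      change ‖d b + u b‖ ^ 2 ≤ _
      rw [Real.norm_eq_abs]
      exact pow_le_pow_left₀ (abs_nonneg _) h9 2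
    have h10 : ∑ b, ‖(WithLp.toLp 2 (d + u) : E3) b‖ ^ 2 < r ^ 2 := by
      calc ∑ b, ‖(WithLp.toLp 2 (d + u) : E3) b‖ ^ 2 ≤ ∑ _b : Fin 3, (r / 2) ^ 2 :=
            Finset.sum_le_sum fun b _ => h6 b
        _ = 3 * (r / 2) ^ 2 := by rw [Finset.sum_const, Finset.card_univ, Fintype.card_fin]; simp
        _ < r ^ 2 := by
          have : 0 < r ^ 2 := by positivity
          nlinarith
    exact (Real.sqrt_lt' hr).2 h10
  calc ENNReal.ofReal κ = ENNReal.ofReal κ' * ENNReal.ofReal (1 - 3 * (((s + s : ℝ≥0) : ℝ) / a ^ 2)) := by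
        rw [← ENNReal.ofReal_mul hκ'.le]
        congr 1
        push_cast
        rw [hs]
        field_simp
        ring
    _ ≤ ENNReal.ofReal κ' * gam3 (s + s) (Set.univ.pi fun _ : Fin 3 => Set.Icc (-a) a) := by
        gcongr
        exact KappaCAux.gam3_ge (s + s) ha0
    _ = ∫⁻ _u in Set.univ.pi (fun _ : Fin 3 => Set.Icc (-a) a), ENNReal.ofReal κ' ∂(gam3 (s + s)) := by
        rw [setLIntegral_const]
    _ ≤ ∫⁻ u in Set.univ.pi (fun _ : Fin 3 => Set.Icc (-a) a), pot v (d + u) ∂(gam3 (s + s)) := by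
        apply setLIntegral_mono (by fun_prop)
        exact h5
    _ ≤ ∫⁻ u, pot v (d + u) ∂(gam3 (s + s)) := setLIntegral_le_lintegral _ _

end Pool.Agent.P76s
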