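import Pool.Agent.Lib.P76s.TrialI

/-!
# P76s.Tile (1.5 h): periodization (black boxes: Cells; `measurable_qq`, `qq_pos`, `isProbabilityMeasure_nu` of TrialI)

* `lintegral_box_periodize`: `∫⁻_{box} ∑_n w(y + L n) dy = ∑_n ∫⁻_{box + Ln} w = ∫⁻ w`: the translates
  `box L + lat L n` tile `ℝ³` (`n b = ⌊y b / L⌋`); use `lintegral_tsum`, translation invariance
  (`lintegral_add_right_eq_self` / `measurePreserving_add_right`) and `lintegral_iUnion` over the
  countable disjoint family (or `IsAddFundamentalDomain`).
* `lintegral_box_shift`: a periodic function has the same integral over `box` and over a translate of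
  `box`: write it as `∑_n` over the tiles again, e.g. apply the tiling formula to
  `w = indicator (box + t) f`, whose periodization is `f` itself.
* `lintegral_box_sub`: from the previous two, with `y ↦ x - y`.
* `JJ_row`: `∑_{c'} qq c' y = m³` (product of the `sum_psi`, `Finset.prod_univ_sum`),
  hence `∑_{c'} nu c' = (m³/L³) volume.restrict box` (test on functions:
  `lintegral_withDensity_eq_lintegral_mul`), and `∫⁻_{box} periodize L w (x - y) dy = ∫⁻ w`.
-/

open MeasureTheory Filter Topology ProbabilityTheory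
open scoped ENNReal NNReal BigOperators ContDiff

namespace Pool.Agent.P76s

variable {m : ℕ} {L : ℝ} {s : ℝ≥0} {w : (Fin 3 → ℝ) → ℝ≥0∞}

theorem tl_lat_add (n k : Fin 3 → ℤ) : lat L (n + k) = lat L n + lat L k := by
  funext b
  simp only [lat, Pi.add_apply, Int.cast_add]
  ring

theorem tl_lat_neg (n : Fin 3 → ℤ) : lat L (-n) = -lat L n := by
  funext b
  simp only [lat, Pi.neg_apply, Int.cast_neg]
  ring

theorem tl_lat_zero : lat L 0 = 0 := by
  funext b
  simp [lat]

theorem measurable_periodize (hw : Measurable w) : Measurable (periodize L w) := by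
  unfold periodize
  exact Measurable.tsum fun n => hw.comp (measurable_id.add_const _)

theorem tl_periodize_neg' (y : Fin 3 → ℝ) :
    periodize L w (-y) = periodize L (fun z => w (-z)) y := by
  unfold periodize
  rw [← (Equiv.neg (Fin 3 → ℤ)).tsum_eq (fun n => w (-(y + lat L n)))]
  refine tsum_congr fun n => ?_
  rw [Equiv.neg_apply, tl_lat_neg]
  congr 1
  abel

theorem periodize_neg (heven : ∀ y, w (-y) = w y) (y : Fin 3 → ℝ) :
    periodize L w (-y) = periodize L w y := by
  rw [tl_periodize_neg']
  unfold periodize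
  exact tsum_congr fun n => heven _

theorem periodize_add (y : Fin 3 → ℝ) (n : Fin 3 → ℤ) :
    periodize L w (y + lat L n) = periodize L w y := by
  unfold periodize
  rw [← (Equiv.addLeft n).tsum_eq (fun k => w (y + lat L k))]
  refine tsum_congr fun k => ?_
  rw [Equiv.coe_addLeft, tl_lat_add, add_assoc]

theorem le_periodize (y : Fin 3 → ℝ) : w y ≤ periodize L w y := by
  unfold periodize
  have h := ENNReal.le_tsum (f := fun n : Fin 3 → ℤ => w (y + lat L n)) 0
  simpa [tl_lat_zero] using h

/-- the tile with index `n` -/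
def tlT (L : ℝ) (n : Fin 3 → ℤ) : Set (Fin 3 → ℝ) := {y | ∀ b, ⌊y b / L⌋ = n b}

theorem tl_measurable_T (n : Fin 3 → ℤ) : MeasurableSet (tlT L n) := by
  have : tlT L n = ⋂ b, {y : Fin 3 → ℝ | ⌊y b / L⌋ = n b} := by
    ext y
    simp [tlT]
  rw [this]
  refine MeasurableSet.iInter fun b => ?_
  have h0 : Measurable fun y : Fin 3 → ℝ => y b / L := by fun_prop
  have h : Measurable fun y : Fin 3 → ℝ => ⌊y b / L⌋ := Int.measurable_floor.comp h0
  exact h (measurableSet_singleton (n b))

theorem tl_union_T : ⋃ n, tlT L n = Set.univ := by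
  ext y
  simp only [Set.mem_iUnion, Set.mem_univ, iff_true]
  exact ⟨fun b => ⌊y b / L⌋, fun b => rfl⟩

theorem tl_disj_T : Pairwise (Function.onFun Disjoint (tlT L)) := by
  intro n k hnk
  refine Set.disjoint_left.2 fun y hy hy' => hnk ?_
  funext b
  rw [← hy b, ← hy' b]

theorem tl_mem_box {x : Fin 3 → ℝ} : x ∈ box L ↔ ∀ b, 0 ≤ x b ∧ x b < L := by
  simp [box, Set.mem_pi]

theorem tl_measurable_box : MeasurableSet (box L) :=
  MeasurableSet.univ_pi fun _ => measurableSet_Ico

theorem tl_mem_iff (hL : 0 < L) (y : Fin 3 → ℝ) (n k : Fin 3 → ℤ) :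
    y + lat L k ∈ tlT L n ↔ y ∈ tlT L (n - k) := by
  simp only [tlT, Set.mem_ofPred_eq, lat, Pi.add_apply, Pi.sub_apply]
  refine forall_congr' fun b => ?_
  have h : (y b + L * (k b : ℝ)) / L = y b / L + (k b : ℝ) := by
    field_simp
  rw [h, Int.floor_add_intCast]
  constructor <;> intro h <;> omega

theorem tl_box_eq (hL : 0 < L) : box L = tlT L 0 := by
  ext y
  rw [tl_mem_box]
  simp only [tlT, Set.mem_ofPred_eq, Pi.zero_apply]
  refine forall_congr' fun b => ?_
  rw [Int.floor_eq_zero_iff, Set.mem_Ico]
  rw [div_lt_one hL, le_div_iff₀ hL, zero_mul]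

theorem tl_tiling (hL : 0 < L) (hw : Measurable w) :
    ∫⁻ y, w y = ∑' n : Fin 3 → ℤ, ∫⁻ y in box L, w (y + lat L n) := by
  rw [← setLIntegral_univ, ← tl_union_T (L := L),
    lintegral_iUnion (fun n => tl_measurable_T n) tl_disj_T]
  refine tsum_congr fun n => ?_
  have hmp : MeasurePreserving (fun y : Fin 3 → ℝ => y + lat L n) volume volume :=
    measurePreserving_add_right volume (lat L n)
  rw [← hmp.setLIntegral_comp_preimage (tl_measurable_T n) hw]
  have h : (fun y : Fin 3 → ℝ => y + lat L n) ⁻¹' tlT L n = box L := by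
    ext y
    rw [Set.mem_preimage, tl_mem_iff hL, sub_self, tl_box_eq hL]
  rw [h]

theorem lintegral_box_periodize (hL : 0 < L) (hw : Measurable w) :
    ∫⁻ y in box L, periodize L w y = ∫⁻ y, w y := by
  rw [tl_tiling hL hw]
  unfold periodize
  exact lintegral_tsum fun n => (hw.comp (measurable_id.add_const _)).aemeasurable

theorem tl_tsum_box (hL : 0 < L) (x : Fin 3 → ℝ) (a : ℝ≥0∞) :
    ∑' n : Fin 3 → ℤ, (box L).indicator (fun _ => a) (x + lat L n) = a := by
  have key : ∀ n : Fin 3 → ℤ, x + lat L n ∈ box L ↔ n = fun b => -⌊x b / L⌋ := by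
    intro n
    rw [tl_box_eq hL, tl_mem_iff hL]
    simp only [tlT, Set.mem_ofPred_eq, Pi.sub_apply, Pi.zero_apply, zero_sub]
    constructor
    · intro h
      funext b
      have := h b
      omega
    · intro h b
      rw [h]
      simp
  rw [tsum_eq_single (fun b => -⌊x b / L⌋)]
  · rw [Set.indicator_of_mem ((key _).2 rfl)]
  · intro n hn
    rw [Set.indicator_of_notMem fun h => hn ((key n).1 h)]

/-- the integral of a periodic function over the box is translation invariant -/
theorem lintegral_box_shift (hL : 0 < L) {f : (Fin 3 → ℝ) → ℝ≥0∞} (hf : Measurable f)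
    (hper : ∀ y (n : Fin 3 → ℤ), f (y + lat L n) = f y) (t : Fin 3 → ℝ) :
    ∫⁻ y in box L, f (y + t) = ∫⁻ y in box L, f y := by
  set g : (Fin 3 → ℝ) → ℝ≥0∞ := fun y => (box L).indicator (fun z => f (z + t)) (y - t) with hg
  have hgm : Measurable g := by
    have hg0 : Measurable fun y => (box L).indicator (fun z => f (z + t)) y :=
      (hf.comp (measurable_id.add_const t)).indicator tl_measurable_box
    exact hg0.comp (measurable_id.sub_const t)
  have h1 : ∫⁻ y, g y = ∫⁻ y in box L, f (y + t) := by
    rw [hg, lintegral_sub_right_eq_self (fun y => (box L).indicator (fun z => f (z + t)) y) t,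
      lintegral_indicator tl_measurable_box]
  have h2 : ∀ y, periodize L g y = f y := by
    intro y
    unfold periodize
    rw [← tl_tsum_box hL (y - t) (f y)]
    refine tsum_congr fun n => ?_
    have e : y + lat L n - t = y - t + lat L n := by abel
    simp only [hg]
    rw [e]
    by_cases h : y - t + lat L n ∈ box L
    · rw [Set.indicator_of_mem h, Set.indicator_of_mem h]
      have e2 : y - t + lat L n + t = y + lat L n := by abel
      rw [e2, hper]
    · rw [Set.indicator_of_notMem h, Set.indicator_of_notMem h]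
  rw [← h1, ← lintegral_box_periodize hL hgm]
  simp only [h2]

theorem lintegral_box_sub (hL : 0 < L) (hw : Measurable w) (x : Fin 3 → ℝ) :
    ∫⁻ y in box L, periodize L w (x - y) = ∫⁻ y, w y := by
  have hw' : Measurable fun z => w (-z) := hw.comp measurable_neg
  have h1 : ∀ y, periodize L w (x - y) = periodize L (fun z => w (-z)) (y + -x) := by
    intro y
    rw [← tl_periodize_neg']
    congr 1
    abel
  simp only [h1]
  rw [lintegral_box_shift hL (measurable_periodize hw') (fun y n => periodize_add y n) (-x),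
    lintegral_box_periodize hL hw']
  exact lintegral_neg_eq_self w

theorem tl_sum_qq (hm : 0 < m) (y : Fin 3 → ℝ) :
    ∑ c : Fin 3 → Fin m, qq m L s c y = (m : ℝ) ^ 3 := by
  have h := Finset.prod_univ_sum (fun _ : Fin 3 => (Finset.univ : Finset (Fin m)))
    (fun b j => psi m L s j (y b))
  rw [Fintype.piFinset_univ] at h
  unfold qq
  rw [← h]
  simp only [sum_psi hm, Finset.prod_const, Finset.card_univ, Fintype.card_fin]

theorem JJ_row (hL : 0 < L) (hs : s ≠ 0) (hm : 0 < m) (hw : Measurable w) (c : Fin 3 → Fin m) :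
    ∑ c', JJ m L s (periodize L w) c c' = ENNReal.ofReal (m ^ 3 / L ^ 3) * ∫⁻ y, w y := by
  have hprob : ∀ c' : Fin 3 → Fin m, IsProbabilityMeasure (nu m L s c') := fun c' =>
    isProbabilityMeasure_nu hL hs c'
  have hmeas : ∀ c' : Fin 3 → Fin m,
      Measurable fun x => ∫⁻ y, periodize L w (x - y) ∂(nu m L s c') := fun c' =>
    Measurable.lintegral_prod_right' (f := fun p : (Fin 3 → ℝ) × (Fin 3 → ℝ) =>
      periodize L w (p.1 - p.2)) ((measurable_periodize hw).comp (measurable_fst.sub measurable_snd))
  have hsum : ∀ x : Fin 3 → ℝ, ∑ c' : Fin 3 → Fin m, ∫⁻ y, periodize L w (x - y) ∂(nu m L s c') =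
      ENNReal.ofReal (m ^ 3 / L ^ 3) * ∫⁻ y, w y := by
    intro x
    have hW : Measurable fun y : Fin 3 → ℝ => periodize L w (x - y) :=
      (measurable_periodize hw).comp (measurable_const.sub measurable_id)
    have hq : ∀ c' : Fin 3 → Fin m,
        Measurable fun y : Fin 3 → ℝ => ENNReal.ofReal (qq m L s c' y / L ^ 3) := fun c' =>
      ((measurable_qq c').div_const _).ennreal_ofReal
    have h1 : ∀ c' : Fin 3 → Fin m, ∫⁻ y, periodize L w (x - y) ∂(nu m L s c') =
        ∫⁻ y in box L, ENNReal.ofReal (qq m L s c' y / L ^ 3) * periodize L w (x - y) := by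
      intro c'
      unfold nu
      rw [lintegral_withDensity_eq_lintegral_mul _ (hq c') hW]
      rfl
    simp only [h1]
    have h3 := lintegral_finsetSum (μ := volume.restrict (box L)) Finset.univ
      (f := fun (c' : Fin 3 → Fin m) y =>
        ENNReal.ofReal (qq m L s c' y / L ^ 3) * periodize L w (x - y))
      (fun c' _ => (hq c').mul hW)
    rw [← h3]
    have h2 : ∀ y : Fin 3 → ℝ, ∑ c' : Fin 3 → Fin m,
        ENNReal.ofReal (qq m L s c' y / L ^ 3) * periodize L w (x - y) =
        ENNReal.ofReal (m ^ 3 / L ^ 3) * periodize L w (x - y) := by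
      intro y
      rw [← Finset.sum_mul, ← ENNReal.ofReal_sum_of_nonneg, ← Finset.sum_div, tl_sum_qq hm]
      intro c' _
      have := (qq_pos hL hs c' y).le
      positivity
    simp only [h2]
    rw [lintegral_const_mul _ hW, lintegral_box_sub hL hw]
  unfold JJ
  rw [← lintegral_finsetSum _ (fun c' _ => hmeas c')]
  simp only [hsum]
  rw [lintegral_const, measure_univ, mul_one]

end Pool.Agent.P76s
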