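import Pool.Agent.Lib.P76s.FourierPos
import Pool.Agent.Lib.P76s.Tile
import Pool.Agent.Lib.P76s.PairReduce

/-!
# P76s.PerLower (2 h): the lower bound for positive-type potentials (black boxes: FourierPos, Tile)

`v ≥ 0` continuous, even, `v(x) (1+‖x‖)^4 ≤ C`, `v̂ ≥ 0`; `W = periodize L (pot v)`.
* `W` is finite, `(W y).toReal = ∑_n v(toLp (y + Ln))` is continuous (locally uniform convergence:
  `continuous_tsum`/`ContinuousOn.tsum` on bounded sets; `∑_n (1+‖n‖)^{-4} < ∞` on `ℤ³`: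
  `EisensteinSeries`-type summability, or `Real.summable_...`, or compare with
  `∏_b (1+|n_b|)^{-4/3}`), `L`-periodic, even, with Fourier coefficients
  `∫_{box} W cos(2π n·y/L) dy = ∫ v cos(2π⟨k, ·⟩) = (𝓕 v k).re ≥ 0`, `k = n/L` (the Bochner version of
  `lintegral_box_periodize`, or apply it to `v (1 + cos)` and `v (1 - cos)`).  So `fourier_pos` gives
  `∑_{i,j} W(x_i - x_j) ≥ (N²/L³) ∫ v` (`per_lower`).
* `periodize_zero_le`: `∑_{n ≠ 0} v(Ln) ≤ C L^{-4} ∑_{n≠0} ‖n‖^{-4} → 0` as `L → ∞`.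
* `groundEnergy_ge`: `2 ∑_{i<j} W(x_i-x_j) = ∑_{i,j} W(x_i-x_j) - N W(0)`, so for every `Ψ`
  `interaction ≥ ½ (N² V₀/L³ - N (v 0 + ε)) mass`; drop the kinetic energy; infimum (`le_iInf`,
  `ENNReal.le_div_iff_mul_le`; `mass ≠ 0`; `mass ≠ ∞` because `Ψ` is continuous and the box bounded).
-/

open MeasureTheory Filter Topology ProbabilityTheory
open scoped ENNReal NNReal BigOperators FourierTransform

namespace Pool.Agent.P76s

namespace PerLowerAux

variable {v : E3 → ℝ} {C L : ℝ}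

/-- one-dimensional weight -/
noncomputable def hh (δ : ℝ) (j : ℤ) : ℝ := (1 + δ * |(j : ℝ)|) ^ (-(4 / 3 : ℝ))

lemma hh_nonneg {δ : ℝ} (hδ : 0 < δ) (j : ℤ) : 0 ≤ hh δ j := by
  unfold hh
  positivity

lemma summable_hh {δ : ℝ} (hδ : 0 < δ) : Summable (hh δ) := by
  have h1 : Summable fun j : ℤ => |(j : ℝ)| ^ (-(4 / 3 : ℝ)) :=
    Real.summable_abs_int_rpow (by norm_num)
  have h2 : Summable fun j : ℤ => δ ^ (-(4 / 3 : ℝ)) * |(j : ℝ)| ^ (-(4 / 3 : ℝ)) +
      (if j = 0 then (1 : ℝ) else 0) := (h1.mul_left _).add (hasSum_ite_eq 0 1).summable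
  refine Summable.of_nonneg_of_le (hh_nonneg hδ) (fun j => ?_) h2
  by_cases hj : j = 0
  · rw [if_pos hj]
    have h3 : hh δ j = 1 := by
      rw [hj]
      simp [hh]
    rw [h3]
    have h4 : 0 ≤ δ ^ (-(4 / 3 : ℝ)) * |(j : ℝ)| ^ (-(4 / 3 : ℝ)) := by positivity
    linarith
  · rw [if_neg hj, add_zero, ← Real.mul_rpow hδ.le (abs_nonneg _)]
    have hj' : 0 < |(j : ℝ)| := by
      rw [abs_pos]
      exact_mod_cast hj
    exact Real.rpow_le_rpow_of_nonpos (by positivity) (by linarith) (by norm_num)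

/-- three-dimensional weight -/
noncomputable def H3 (δ : ℝ) (n : Fin 3 → ℤ) : ℝ := ∏ b, hh δ (n b)

lemma H3_nonneg {δ : ℝ} (hδ : 0 < δ) (n : Fin 3 → ℤ) : 0 ≤ H3 δ n :=
  Finset.prod_nonneg fun _ _ => hh_nonneg hδ _

lemma summable_H3 {δ : ℝ} (hδ : 0 < δ) : Summable (H3 δ) := by
  have h1 := summable_hh hδ
  have h2 := h1.mul_of_nonneg h1 (hh_nonneg hδ) (hh_nonneg hδ)
  have h3 := h1.mul_of_nonneg h2 (hh_nonneg hδ) (fun p =>
    mul_nonneg (hh_nonneg hδ p.1) (hh_nonneg hδ p.2))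
  have h4 : Function.Injective (fun n : Fin 3 → ℤ => (n 0, n 1, n 2)) := by
    intro n n' h
    simp only [Prod.mk.injEq] at h
    funext b
    fin_cases b
    · exact h.1
    · exact h.2.1
    · exact h.2.2
  refine (h3.comp_injective h4).congr fun n => ?_
  simp only [Function.comp_apply, H3, Fin.prod_univ_three, mul_assoc]

lemma C_nonneg (hv0 : ∀ x, 0 ≤ v x) (hdec : ∀ x, v x * (1 + ‖x‖) ^ 4 ≤ C) : 0 ≤ C :=
  le_trans (mul_nonneg (hv0 0) (by positivity)) (hdec 0)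

lemma inv_le (x : E3) : ((1 + ‖x‖) ^ 4)⁻¹ ≤ ∏ b, (1 + |x b|) ^ (-(4 / 3 : ℝ)) := by
  have h0 : 0 < 1 + ‖x‖ := by positivity
  have h2 : ((1 + ‖x‖) ^ 4)⁻¹ = ∏ _b : Fin 3, (1 + ‖x‖) ^ (-(4 / 3 : ℝ)) := by
    rw [Finset.prod_const, Finset.card_univ, Fintype.card_fin, ← Real.rpow_natCast,
      ← Real.rpow_natCast, ← Real.rpow_mul h0.le, ← Real.rpow_neg h0.le]
    norm_num
  rw [h2]
  refine Finset.prod_le_prod (fun _ _ => by positivity) fun b _ => ?_
  refine Real.rpow_le_rpow_of_nonpos (by positivity) ?_ (by norm_num)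
  have h4 : |x b| ≤ ‖x‖ := by
    have := PiLp.norm_apply_le x b
    rwa [Real.norm_eq_abs] at this
  linarith

lemma v_le (hv0 : ∀ x, 0 ≤ v x) (hdec : ∀ x, v x * (1 + ‖x‖) ^ 4 ≤ C) (x : E3) :
    v x ≤ C * ∏ b, (1 + |x b|) ^ (-(4 / 3 : ℝ)) := by
  have hC := C_nonneg hv0 hdec
  have h0 : 0 < 1 + ‖x‖ := by positivity
  have h1 : v x ≤ C * ((1 + ‖x‖) ^ 4)⁻¹ := by
    rw [← div_eq_mul_inv, le_div_iff₀ (by positivity)]
    exact hdec x
  exact h1.trans (mul_le_mul_of_nonneg_left (inv_le x) hC)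

lemma term_le (hv0 : ∀ x, 0 ≤ v x) (hdec : ∀ x, v x * (1 + ‖x‖) ^ 4 ≤ C) (hL : 0 < L) {R : ℝ}
    (hR : 0 ≤ R) {y : Fin 3 → ℝ} (hy : ∀ b, |y b| ≤ R) (n : Fin 3 → ℤ) :
    v (WithLp.toLp 2 (y + lat L n)) ≤ C * ((1 + R) ^ (4 / 3 : ℝ)) ^ 3 * H3 L n := by
  have hC := C_nonneg hv0 hdec
  refine (v_le hv0 hdec _).trans ?_
  rw [mul_assoc]
  refine mul_le_mul_of_nonneg_left ?_ hC
  have h1 : ((1 + R) ^ (4 / 3 : ℝ)) ^ 3 * H3 L n =
      ∏ b, ((1 + R) ^ (4 / 3 : ℝ) * hh L (n b)) := by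
    rw [Finset.prod_mul_distrib, Finset.prod_const, Finset.card_univ, Fintype.card_fin]
    rfl
  rw [h1]
  refine Finset.prod_le_prod (fun _ _ => by positivity) fun b _ => ?_
  have h2 : (WithLp.toLp 2 (y + lat L n) : E3) b = y b + L * n b := rfl
  rw [h2]
  have h3 : 1 + L * |(n b : ℝ)| ≤ (1 + R) * (1 + |y b + L * n b|) := by
    have h4 : L * |(n b : ℝ)| = |(y b + L * n b) - y b| := by
      rw [add_sub_cancel_left, abs_mul, abs_of_pos hL]
    have h5 := abs_sub (y b + L * n b) (y b)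
    have h6 := hy b
    have h7 : 0 ≤ R * |y b + L * n b| := mul_nonneg hR (abs_nonneg _)
    rw [h4]
    nlinarith [h5, h6, h7]
  have h8 : (0 : ℝ) < 1 + L * |(n b : ℝ)| := by positivity
  have h9 := Real.rpow_le_rpow_of_nonpos h8 h3 (by norm_num : (-(4 / 3 : ℝ)) ≤ 0)
  rw [Real.mul_rpow (by positivity) (by positivity)] at h9
  have h10 : (1 + R) ^ (4 / 3 : ℝ) * (1 + R) ^ (-(4 / 3 : ℝ)) = 1 := by
    rw [← Real.rpow_add (by positivity)]
    norm_num
  calc (1 + |y b + L * n b|) ^ (-(4 / 3 : ℝ)) =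
        ((1 + R) ^ (4 / 3 : ℝ) * (1 + R) ^ (-(4 / 3 : ℝ))) *
          (1 + |y b + L * n b|) ^ (-(4 / 3 : ℝ)) := by rw [h10, one_mul]
    _ = (1 + R) ^ (4 / 3 : ℝ) * ((1 + R) ^ (-(4 / 3 : ℝ)) *
          (1 + |y b + L * n b|) ^ (-(4 / 3 : ℝ))) := by ring
    _ ≤ (1 + R) ^ (4 / 3 : ℝ) * hh L (n b) := by
        refine mul_le_mul_of_nonneg_left h9 (by positivity)

/-- the periodization, as a real function -/
noncomputable def Wr (v : E3 → ℝ) (L : ℝ) (y : Fin 3 → ℝ) : ℝ :=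
  ∑' n : Fin 3 → ℤ, v (WithLp.toLp 2 (y + lat L n))

lemma summable_Wr (hv0 : ∀ x, 0 ≤ v x) (hdec : ∀ x, v x * (1 + ‖x‖) ^ 4 ≤ C) (hL : 0 < L)
    (y : Fin 3 → ℝ) : Summable fun n : Fin 3 → ℤ => v (WithLp.toLp 2 (y + lat L n)) :=
  Summable.of_nonneg_of_le (fun _ => hv0 _)
    (fun n => term_le hv0 hdec hL (norm_nonneg y) (fun b => norm_le_pi_norm y b) n)
    ((summable_H3 hL).mul_left _)

lemma Wr_nonneg (hv0 : ∀ x, 0 ≤ v x) (y : Fin 3 → ℝ) : 0 ≤ Wr v L y := tsum_nonneg fun _ => hv0 _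

lemma continuous_Wr (hcont : Continuous v) (hv0 : ∀ x, 0 ≤ v x)
    (hdec : ∀ x, v x * (1 + ‖x‖) ^ 4 ≤ C) (hL : 0 < L) : Continuous (Wr v L) := by
  rw [continuous_iff_continuousAt]
  intro y₀
  have h1 : ContinuousOn (Wr v L) (Metric.ball 0 (‖y₀‖ + 1)) := by
    refine continuousOn_tsum (u := fun n => C * ((1 + (‖y₀‖ + 1)) ^ (4 / 3 : ℝ)) ^ 3 * H3 L n)
      (fun n => ?_) ((summable_H3 hL).mul_left _) fun n y hy => ?_
    · refine Continuous.continuousOn (hcont.comp ?_)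
      exact (PiLp.continuous_toLp 2 _).comp (continuous_id.add continuous_const)
    · rw [Real.norm_eq_abs, abs_of_nonneg (hv0 _)]
      refine term_le hv0 hdec hL (by positivity) (fun b => ?_) n
      rw [mem_ball_zero_iff] at hy
      exact (norm_le_pi_norm y b).trans hy.le
  refine h1.continuousAt (Metric.isOpen_ball.mem_nhds ?_)
  rw [mem_ball_zero_iff]
  linarith

lemma periodize_eq (hv0 : ∀ x, 0 ≤ v x) (hdec : ∀ x, v x * (1 + ‖x‖) ^ 4 ≤ C) (hL : 0 < L)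
    (y : Fin 3 → ℝ) : periodize L (pot v) y = ENNReal.ofReal (Wr v L y) := by
  unfold Wr periodize pot
  rw [ENNReal.ofReal_tsum_of_nonneg (fun _ => hv0 _) (summable_Wr hv0 hdec hL y)]

lemma Wr_per (hv0 : ∀ x, 0 ≤ v x) (hdec : ∀ x, v x * (1 + ‖x‖) ^ 4 ≤ C) (hL : 0 < L)
    (y : Fin 3 → ℝ) (n : Fin 3 → ℤ) : Wr v L (y + lat L n) = Wr v L y := by
  have h1 := periodize_add (L := L) (w := pot v) y n
  rw [periodize_eq hv0 hdec hL, periodize_eq hv0 hdec hL] at h1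
  exact (ENNReal.ofReal_eq_ofReal_iff (Wr_nonneg hv0 _) (Wr_nonneg hv0 _)).1 h1

lemma pot_even (heven : ∀ x, v (-x) = v x) (y : Fin 3 → ℝ) : pot v (-y) = pot v y := by
  unfold pot
  rw [WithLp.toLp_neg, heven]

lemma Wr_even (hv0 : ∀ x, 0 ≤ v x) (heven : ∀ x, v (-x) = v x)
    (hdec : ∀ x, v x * (1 + ‖x‖) ^ 4 ≤ C) (hL : 0 < L)
    (y : Fin 3 → ℝ) : Wr v L (-y) = Wr v L y := by
  have h1 := periodize_neg (L := L) (w := pot v) (pot_even heven) y
  rw [periodize_eq hv0 hdec hL, periodize_eq hv0 hdec hL] at h1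
  exact (ENNReal.ofReal_eq_ofReal_iff (Wr_nonneg hv0 _) (Wr_nonneg hv0 _)).1 h1

lemma box_int (hcont : Continuous v) (hv0 : ∀ x, 0 ≤ v x)
    (hdec : ∀ x, v x * (1 + ‖x‖) ^ 4 ≤ C) (hL : 0 < L) {φ : (Fin 3 → ℝ) → ℝ}
    (hφ : Continuous φ) (hφ0 : ∀ y, 0 ≤ φ y)
    (hφp : ∀ y (n : Fin 3 → ℤ), φ (y + lat L n) = φ y) :
    ∫ y in box L, Wr v L y * φ y = ∫ x, v (WithLp.toLp 2 x) * φ x := by
  have hvL : Continuous fun x : Fin 3 → ℝ => v (WithLp.toLp 2 x) :=
    hcont.comp (PiLp.continuous_toLp 2 _)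
  have hW := continuous_Wr hcont hv0 hdec hL
  rw [integral_eq_lintegral_of_nonneg_ae
      (Eventually.of_forall fun y => mul_nonneg (Wr_nonneg hv0 y) (hφ0 y))
      (hW.mul hφ).aestronglyMeasurable,
    integral_eq_lintegral_of_nonneg_ae
      (Eventually.of_forall fun y => mul_nonneg (hv0 _) (hφ0 y))
      (hvL.mul hφ).aestronglyMeasurable]
  congr 1
  have hm : Measurable fun x : Fin 3 → ℝ => ENNReal.ofReal (v (WithLp.toLp 2 x) * φ x) :=
    (hvL.mul hφ).measurable.ennreal_ofReal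
  rw [← lintegral_box_periodize hL hm]
  refine lintegral_congr fun y => ?_
  unfold periodize
  simp only [hφp, ENNReal.ofReal_mul (hv0 _)]
  rw [ENNReal.tsum_mul_right, ENNReal.ofReal_mul (Wr_nonneg hv0 y), ← periodize_eq hv0 hdec hL]
  rfl

lemma integrable_v (hcont : Continuous v) (hv0 : ∀ x, 0 ≤ v x)
    (hdec : ∀ x, v x * (1 + ‖x‖) ^ 4 ≤ C) : Integrable v := by
  have h1 : Integrable fun x : E3 => C * (1 + ‖x‖) ^ (-(4 : ℝ)) := by
    refine Integrable.const_mul (integrable_one_add_norm ?_) C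
    rw [finrank_euclideanSpace_fin]
    norm_num
  refine h1.mono' hcont.aestronglyMeasurable (Eventually.of_forall fun x => ?_)
  rw [Real.norm_eq_abs, abs_of_nonneg (hv0 x), Real.rpow_neg (by positivity), ← div_eq_mul_inv,
    le_div_iff₀ (by positivity)]
  exact_mod_cast hdec x

lemma integral_toLp (f : E3 → ℝ) : ∫ x : Fin 3 → ℝ, f (WithLp.toLp 2 x) = ∫ x, f x :=
  (PiLp.volume_preserving_toLp (Fin 3)).integral_comp
    (MeasurableEquiv.toLp 2 (Fin 3 → ℝ)).measurableEmbedding f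

lemma fourier_re (hv : Integrable v) (k : E3) :
    (𝓕 (fun x => (v x : ℂ)) k).re = ∫ x, v x * Real.cos (2 * Real.pi * inner ℝ x k) := by
  rw [Real.fourier_eq']
  have h1 : Integrable fun x : E3 =>
      Complex.exp (((-2 * Real.pi * inner ℝ x k : ℝ) : ℂ) * Complex.I) • (v x : ℂ) := by
    have h2 : Integrable (fun x : E3 => (v x : ℂ)) := hv.ofReal
    refine Integrable.bdd_mul (c := 1) h2 ?_ (Eventually.of_forall fun x => ?_)
    · refine Continuous.aestronglyMeasurable ?_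
      fun_prop
    · rw [Complex.norm_exp_ofReal_mul_I]
  have h3 := integral_re h1 (𝕜 := ℂ)
  simp only [RCLike.re_to_complex] at h3
  rw [← h3]
  refine integral_congr_ae (Eventually.of_forall fun x => ?_)
  simp only [smul_eq_mul, Complex.mul_re, Complex.ofReal_re, Complex.ofReal_im, mul_zero,
    sub_zero, Complex.exp_ofReal_mul_I_re]
  have h4 : -2 * Real.pi * inner ℝ x k = -(2 * Real.pi * inner ℝ x k) := by ring
  rw [h4, Real.cos_neg, mul_comm]

lemma coef_nonneg (hcont : Continuous v) (hv0 : ∀ x, 0 ≤ v x)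
    (hdec : ∀ x, v x * (1 + ‖x‖) ^ 4 ≤ C)
    (hpos : ∀ k, 0 ≤ (𝓕 (fun x => (v x : ℂ)) k).re) (hL : 0 < L) (n : Fin 3 → ℤ) :
    0 ≤ ∫ y in box L, Wr v L y * Real.cos (2 * Real.pi / L * ∑ b, (n b : ℝ) * y b) := by
  obtain ⟨c, hc⟩ : ∃ c : (Fin 3 → ℝ) → ℝ,
      c = fun y => Real.cos (2 * Real.pi / L * ∑ b, (n b : ℝ) * y b) := ⟨_, rfl⟩
  have hcc : Continuous c := by rw [hc]; fun_prop
  have hc1 : ∀ y, 0 ≤ 1 + c y := fun y => by
    rw [hc]
    have := Real.neg_one_le_cos (2 * Real.pi / L * ∑ b, (n b : ℝ) * y b)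
    simp only
    linarith
  have hcp : ∀ y (m : Fin 3 → ℤ), 1 + c (y + lat L m) = 1 + c y := by
    intro y m
    rw [hc]
    simp only [Pi.add_apply, lat]
    have h1 : 2 * Real.pi / L * ∑ b, (n b : ℝ) * (y b + L * (m b : ℝ)) =
        2 * Real.pi / L * ∑ b, (n b : ℝ) * y b + ((∑ b, n b * m b : ℤ) : ℝ) * (2 * Real.pi) := by
      simp only [mul_add, Finset.sum_add_distrib, Int.cast_sum, Int.cast_mul]
      rw [Finset.sum_mul, Finset.mul_sum (f := fun b => (n b : ℝ) * (L * (m b : ℝ)))]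
      congr 1
      refine Finset.sum_congr rfl fun b _ => ?_
      field_simp
    rw [h1, Real.cos_add_int_mul_two_pi]
  have h1 := box_int hcont hv0 hdec hL (φ := fun y => 1 + c y) (continuous_const.add hcc) hc1 hcp
  have h2 := box_int hcont hv0 hdec hL (φ := fun _ => 1) continuous_const
    (fun _ => zero_le_one) (fun _ _ => rfl)
  have hW := continuous_Wr hcont hv0 hdec hL
  have hbox : ∀ F : (Fin 3 → ℝ) → ℝ, Continuous F → IntegrableOn F (box L) := by
    intro F hF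
    have h3 : IntegrableOn F (Set.Icc (fun _ => 0) (fun _ => L)) :=
      hF.continuousOn.integrableOn_compact isCompact_Icc
    refine h3.mono_set ?_
    intro y hy
    rw [tl_mem_box] at hy
    exact ⟨fun b => (hy b).1, fun b => (hy b).2.le⟩
  have hv := integrable_v hcont hv0 hdec
  have hvL : Integrable fun x : Fin 3 → ℝ => v (WithLp.toLp 2 x) :=
    (PiLp.volume_preserving_toLp (Fin 3)).integrable_comp_of_integrable hv
  have hvc : Integrable fun x : Fin 3 → ℝ => v (WithLp.toLp 2 x) * c x := by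
    refine hvL.mul_bdd (c := 1) hcc.aestronglyMeasurable (Eventually.of_forall fun y => ?_)
    rw [hc]
    exact Real.abs_cos_le_one _
  simp only [mul_add, mul_one] at h1 h2
  rw [integral_add (hbox _ hW) (hbox (fun y => Wr v L y * c y) (hW.mul hcc)),
    integral_add hvL hvc, h2] at h1
  have h3 := add_left_cancel h1
  rw [hc] at h3
  simp only at h3
  rw [h3]
  have h4 := hpos (WithLp.toLp 2 fun b => (n b : ℝ) / L)
  rw [fourier_re hv, ← integral_toLp] at h4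
  refine le_of_le_of_eq h4 (integral_congr_ae (Eventually.of_forall fun x => ?_))
  simp only
  congr 2
  rw [PiLp.inner_apply]
  simp only [RCLike.inner_apply, conj_trivial]
  rw [Finset.mul_sum, Finset.mul_sum]
  refine Finset.sum_congr rfl fun b _ => ?_
  ring

end PerLowerAux

open PerLowerAux

theorem per_lower {v : E3 → ℝ} (hcont : Continuous v) (hv0 : ∀ x, 0 ≤ v x)
    (heven : ∀ x, v (-x) = v x) {C : ℝ} (hdec : ∀ x, v x * (1 + ‖x‖) ^ 4 ≤ C)
    (hpos : ∀ k, 0 ≤ (𝓕 (fun x => (v x : ℂ)) k).re) {L : ℝ} (hL : 0 < L) {N : ℕ}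
    (x : Fin N → Fin 3 → ℝ) :
    ENNReal.ofReal ((N : ℝ) ^ 2 / L ^ 3 * ∫ x, v x) ≤
      ∑ i, ∑ j, periodize L (pot v) (x i - x j) := by
  have h1 := fourier_pos hL (continuous_Wr hcont hv0 hdec hL) (Wr_per hv0 hdec hL)
    (Wr_even hv0 heven hdec hL) (coef_nonneg hcont hv0 hdec hpos hL) x
  have h2 := box_int hcont hv0 hdec hL (φ := fun _ => 1) continuous_const
    (fun _ => zero_le_one) (fun _ _ => rfl)
  simp only [mul_one] at h2
  rw [h2, integral_toLp] at h1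
  refine (ENNReal.ofReal_le_ofReal h1).trans (le_of_eq ?_)
  rw [ENNReal.ofReal_sum_of_nonneg fun i _ => Finset.sum_nonneg fun j _ => Wr_nonneg hv0 _]
  refine Finset.sum_congr rfl fun i _ => ?_
  rw [ENNReal.ofReal_sum_of_nonneg fun j _ => Wr_nonneg hv0 _]
  refine Finset.sum_congr rfl fun j _ => ?_
  rw [periodize_eq hv0 hdec hL]

theorem periodize_zero_le {v : E3 → ℝ} (hv0 : ∀ x, 0 ≤ v x) {C : ℝ}
    (hdec : ∀ x, v x * (1 + ‖x‖) ^ 4 ≤ C) {ε : ℝ} (hε : 0 < ε) :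
    ∃ L₀ > 0, ∀ L ≥ L₀, periodize L (pot v) 0 ≤ ENNReal.ofReal (v 0 + ε) := by
  have hC := C_nonneg hv0 hdec
  obtain ⟨S, hS⟩ : ∃ S, S = ∑' n, H3 1 n := ⟨_, rfl⟩
  refine ⟨max 1 (16 * C * S / ε), lt_max_of_lt_left one_pos, fun L hLL => ?_⟩
  have hL1 : 1 ≤ L := le_trans (le_max_left _ _) hLL
  have hL2 : 16 * C * S / ε ≤ L := le_trans (le_max_right _ _) hLL
  have hL : 0 < L := by linarith
  rw [periodize_eq hv0 hdec hL]
  apply ENNReal.ofReal_le_ofReal
  have hterm : ∀ n : Fin 3 → ℤ, v (WithLp.toLp 2 (0 + lat L n)) ≤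
      (if n = 0 then v 0 else 0) + 16 * C / L * H3 1 n := by
    intro n
    have hH : 0 ≤ 16 * C / L * H3 1 n := mul_nonneg (by positivity) (H3_nonneg one_pos n)
    by_cases hn : n = 0
    · rw [if_pos hn, hn, tl_lat_zero, add_zero, WithLp.toLp_zero, ← hn]
      linarith
    · rw [if_neg hn, zero_add, zero_add]
      obtain ⟨x₁, hx₁⟩ : ∃ x₁ : E3, x₁ = WithLp.toLp 2 (lat 1 n) := ⟨_, rfl⟩
      have hx : (WithLp.toLp 2 (lat L n) : E3) = L • x₁ := by
        rw [hx₁, ← WithLp.toLp_smul]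
        congr 1
        funext b
        simp only [lat, Pi.smul_apply, smul_eq_mul, one_mul]
      have hr : 1 ≤ ‖x₁‖ := by
        obtain ⟨b, hb⟩ := Function.ne_iff.1 hn
        have h1 := PiLp.norm_apply_le x₁ b
        have h2 : x₁ b = (n b : ℝ) := by
          rw [hx₁]
          simp [lat]
        have h3 : (1 : ℝ) ≤ |(n b : ℝ)| := by
          have h4 : 1 ≤ |n b| := Int.one_le_abs hb
          exact_mod_cast h4
        rw [h2, Real.norm_eq_abs] at h1
        linarith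
      have h1 := hdec (WithLp.toLp 2 (lat L n))
      have h2 : v (WithLp.toLp 2 (lat L n)) ≤ C * ((1 + L * ‖x₁‖) ^ 4)⁻¹ := by
        rw [← div_eq_mul_inv, le_div_iff₀ (by positivity)]
        have h3 : ‖(WithLp.toLp 2 (lat L n) : E3)‖ = L * ‖x₁‖ := by
          rw [hx, norm_smul, Real.norm_eq_abs, abs_of_pos hL]
        rw [← h3]
        exact h1
      have h4 : H3 1 n = ∏ b, (1 + |x₁ b|) ^ (-(4 / 3 : ℝ)) := by
        unfold H3 hh
        refine Finset.prod_congr rfl fun b _ => ?_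
        rw [hx₁]
        simp [lat]
      have h5 := inv_le x₁
      rw [← h4] at h5
      have h6 : ((1 + L * ‖x₁‖) ^ 4)⁻¹ ≤ 16 / L * ((1 + ‖x₁‖) ^ 4)⁻¹ := by
        rw [← div_eq_mul_inv, div_div, inv_eq_one_div, div_le_div_iff₀ (by positivity)
          (by positivity), one_mul]
        have h7 : (1 + ‖x₁‖) ^ 4 ≤ (2 * ‖x₁‖) ^ 4 :=
          pow_le_pow_left₀ (by positivity) (by linarith) 4
        have h8 : (L * ‖x₁‖) ^ 4 ≤ (1 + L * ‖x₁‖) ^ 4 :=
          pow_le_pow_left₀ (by positivity) (by linarith) 4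
        have h9 : L ≤ L ^ 4 := by
          calc L = L ^ 1 := (pow_one L).symm
            _ ≤ L ^ 4 := pow_le_pow_right₀ hL1 (by norm_num)
        calc L * (1 + ‖x₁‖) ^ 4 ≤ L * (2 * ‖x₁‖) ^ 4 := mul_le_mul_of_nonneg_left h7 hL.le
          _ = 16 * (L * ‖x₁‖ ^ 4) := by ring
          _ ≤ 16 * (L ^ 4 * ‖x₁‖ ^ 4) := by
            have := mul_le_mul_of_nonneg_right h9 (by positivity : 0 ≤ ‖x₁‖ ^ 4)
            linarith
          _ = 16 * (L * ‖x₁‖) ^ 4 := by ring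
          _ ≤ 16 * (1 + L * ‖x₁‖) ^ 4 := by linarith
      calc v (WithLp.toLp 2 (lat L n)) ≤ C * ((1 + L * ‖x₁‖) ^ 4)⁻¹ := h2
        _ ≤ C * (16 / L * ((1 + ‖x₁‖) ^ 4)⁻¹) := mul_le_mul_of_nonneg_left h6 hC
        _ ≤ C * (16 / L * H3 1 n) :=
          mul_le_mul_of_nonneg_left (mul_le_mul_of_nonneg_left h5 (by positivity)) hC
        _ = 16 * C / L * H3 1 n := by ring
  have hs1 : Summable fun n : Fin 3 → ℤ => (if n = 0 then v 0 else 0) :=
    (hasSum_ite_eq 0 (v 0)).summable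
  have hs2 : Summable fun n : Fin 3 → ℤ => 16 * C / L * H3 1 n :=
    (summable_H3 one_pos).mul_left _
  have h1 := (summable_Wr hv0 hdec hL 0).tsum_le_tsum hterm (hs1.add hs2)
  rw [hs1.tsum_add hs2, tsum_mul_left, ← hS, tsum_ite_eq] at h1
  refine h1.trans ?_
  have h2 : 16 * C / L * S ≤ ε := by
    rw [div_le_iff₀ hε] at hL2
    rw [div_mul_eq_mul_div, div_le_iff₀ hL]
    linarith
  linarith

theorem groundEnergy_ge {v : E3 → ℝ} (hcont : Continuous v) (hv0 : ∀ x, 0 ≤ v x)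
    (heven : ∀ x, v (-x) = v x) {C : ℝ} (hdec : ∀ x, v x * (1 + ‖x‖) ^ 4 ≤ C)
    (hpos : ∀ k, 0 ≤ (𝓕 (fun x => (v x : ℂ)) k).re) {ε : ℝ} (hε : 0 < ε) :
    ∃ L₀ > 0, ∀ L ≥ L₀, ∀ N : ℕ,
      ENNReal.ofReal (N * (1 / 2 * (N / L ^ 3) * (∫ x, v x) - 1 / 2 * v 0 - ε)) ≤
        groundEnergy N L (periodize L (pot v)) := by
  obtain ⟨L₀, hL₀, hper⟩ := periodize_zero_le hv0 hdec hε
  refine ⟨L₀, hL₀, fun L hLL N => ?_⟩
  have hL : 0 < L := lt_of_lt_of_le hL₀ hLL
  obtain ⟨κ, hκ⟩ : ∃ κ, κ = N * (1 / 2 * (N / L ^ 3) * (∫ x, v x) - 1 / 2 * v 0 - ε) := ⟨_, rfl⟩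
  rw [← hκ]
  have hpt : ∀ x : Fin N → Fin 3 → ℝ, ENNReal.ofReal κ ≤
      ∑ i, ∑ j ∈ Finset.Ioi i, periodize L (pot v) (x i - x j) := by
    intro x
    rcases le_or_gt κ 0 with h0 | h0
    · rw [ENNReal.ofReal_of_nonpos h0]
      exact zero_le
    have hsym : ∀ i j, periodize L (pot v) (x i - x j) = periodize L (pot v) (x j - x i) := by
      intro i j
      rw [← periodize_neg (pot_even heven) (x i - x j), neg_sub]
    have h1 := PairReduceAux.two_mul_sum_Ioi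
      (fun i j => periodize L (pot v) (x i - x j)) hsym
    have h2 : ∑ i, ∑ j, periodize L (pot v) (x i - x j) =
        2 * (∑ i, ∑ j ∈ Finset.Ioi i, periodize L (pot v) (x i - x j)) +
          N * periodize L (pot v) 0 := by
      rw [h1]
      have h3 : ∀ i j, periodize L (pot v) (x i - x j) =
          (if i ≠ j then periodize L (pot v) (x i - x j) else 0) +
            (if i = j then periodize L (pot v) 0 else 0) := by
        intro i j
        by_cases h : i = j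
        · simp [h]
        · simp [h]
      have h4 : ∑ i, ∑ j, periodize L (pot v) (x i - x j) =
          ∑ i, ∑ j, ((if i ≠ j then periodize L (pot v) (x i - x j) else 0) +
            (if i = j then periodize L (pot v) 0 else 0)) :=
        Finset.sum_congr rfl fun i _ => Finset.sum_congr rfl fun j _ => h3 i j
      rw [h4]
      simp only [Finset.sum_add_distrib]
      congr 1
      simp
    have h3 := per_lower hcont hv0 heven hdec hpos hL x
    rw [h2] at h3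
    have h4 : periodize L (pot v) 0 ≤ ENNReal.ofReal (v 0 + ε) := hper L hLL
    have hN : (0 : ℝ) ≤ N := Nat.cast_nonneg N
    have hv00 := hv0 0
    have h5 : 2 * ENNReal.ofReal κ + N * ENNReal.ofReal (v 0 + ε) ≤
        2 * (∑ i, ∑ j ∈ Finset.Ioi i, periodize L (pot v) (x i - x j)) +
          N * ENNReal.ofReal (v 0 + ε) := by
      calc 2 * ENNReal.ofReal κ + N * ENNReal.ofReal (v 0 + ε) =
            ENNReal.ofReal (2 * κ + N * (v 0 + ε)) := by
            rw [ENNReal.ofReal_add (by positivity : 0 ≤ 2 * κ)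
                (by positivity : 0 ≤ (N : ℝ) * (v 0 + ε)),
              ENNReal.ofReal_mul (by norm_num), ENNReal.ofReal_mul hN, ENNReal.ofReal_natCast,
              ENNReal.ofReal_ofNat]
        _ ≤ ENNReal.ofReal ((N : ℝ) ^ 2 / L ^ 3 * ∫ x, v x) := by
            apply ENNReal.ofReal_le_ofReal
            rw [hκ]
            have h6 : 0 ≤ (N : ℝ) * ε := by positivity
            have h7 : 2 * ((N : ℝ) * (1 / 2 * (N / L ^ 3) * (∫ x, v x) - 1 / 2 * v 0 - ε)) +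
                N * (v 0 + ε) = (N : ℝ) ^ 2 / L ^ 3 * (∫ x, v x) - N * ε := by ring
            rw [h7]
            linarith
        _ ≤ _ := h3
        _ ≤ _ := by gcongr
    have hfin : (N : ℝ≥0∞) * ENNReal.ofReal (v 0 + ε) ≠ ⊤ :=
      ENNReal.mul_ne_top (ENNReal.natCast_ne_top N) ENNReal.ofReal_ne_top
    have h6 := (ENNReal.add_le_add_iff_right hfin).1 h5
    exact (ENNReal.mul_le_mul_iff_right two_ne_zero ENNReal.ofNat_ne_top).1 h6
  unfold groundEnergy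
  refine le_iInf fun Ψ => le_iInf fun hΨ => le_iInf fun hm => ?_
  have hΨc : Continuous Ψ := hΨ.smooth.continuous
  have hfin : mass N L Ψ ≠ ⊤ := by
    unfold mass
    have h1 : IntegrableOn (fun x => ‖Ψ x‖ ^ 2) (confBox N L) := by
      have h2 : IsCompact (Set.univ.pi fun _ : Fin N => Set.univ.pi fun _ : Fin 3 =>
          Set.Icc (0 : ℝ) L) := isCompact_univ_pi fun _ => isCompact_univ_pi fun _ => isCompact_Icc
      have h3 : IntegrableOn (fun x => ‖Ψ x‖ ^ 2) (Set.univ.pi fun _ : Fin N =>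
          Set.univ.pi fun _ : Fin 3 => Set.Icc (0 : ℝ) L) :=
        (hΨc.norm.pow 2).continuousOn.integrableOn_compact h2
      refine h3.mono_set ?_
      exact Set.pi_mono fun i _ => Set.pi_mono fun b _ => Set.Ico_subset_Icc_self
    exact h1.lintegral_lt_top.ne
  rw [ENNReal.le_div_iff_mul_le (Or.inl hm) (Or.inl hfin)]
  refine le_trans ?_ le_add_self
  unfold interaction mass
  have hmeas : Measurable fun x => ENNReal.ofReal (‖Ψ x‖ ^ 2) :=
    (hΨc.norm.pow 2).measurable.ennreal_ofReal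
  rw [← lintegral_const_mul _ hmeas]
  exact lintegral_mono fun x => mul_le_mul_left (hpt x) _

end Pool.Agent.P76s
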