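import Pool.Agent.Lib.P76s.Defs

/-!
# P76s.Planch (1.5 h): Plancherel for functions in `L¹ ∩ L²`, Mathlib only

For `f ∈ L¹ ∩ L²(E3; ℂ)` the `L²` Fourier transform (Mathlib/Analysis/Fourier/LpSpace.lean:
`MeasureTheory.Lp.norm_fourier_eq`, `Lp.inner_fourier_eq`) is a.e. equal to the integral `𝓕 f`: compare the
two tempered distributions (`Lp.fourier_toTemperedDistribution_eq`, the flip formula
`∫ (𝓕 f) g = ∫ f 𝓕 g` for `g ∈ 𝓢`, and `ae_eq_of_integral_contDiff_smul_eq`).
Alternative: approximate `f` by Schwartz functions in `L¹` and `L²` at once, or use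
Gaussian regularisation.
-/

open MeasureTheory Filter Topology
open scoped ENNReal NNReal BigOperators ContDiff FourierTransform SchwartzMap ComplexConjugate

namespace Pool.Agent.P76s

namespace PlanchAux

/-- the flip formula -/
lemma flip {f g : E3 → ℂ} (hf : Integrable f) (hg : Integrable g) :
    ∫ x, 𝓕 f x • g x = ∫ x, f x • 𝓕 g x := by
  simpa using! (VectorFourier.integral_fourierIntegral_smul_eq_flip (L := innerₗ E3)
      Real.continuous_fourierChar continuous_inner hf hg)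

lemma continuous_fourier {f : E3 → ℂ} (hf : Integrable f) : Continuous (𝓕 f) :=
  VectorFourier.fourierIntegral_continuous Real.continuous_fourierChar
    (L := innerₗ E3) continuous_inner hf

/-- the Fourier transform of `Lp` is the integral -/
lemma ae_eq {f : E3 → ℂ} (hf1 : Integrable f) (hf2 : MemLp f 2) :
    ∀ᵐ x : E3, (𝓕 (hf2.toLp f) : Lp (α := E3) ℂ 2 volume) x = 𝓕 f x := by
  apply ae_eq_of_integral_contDiff_smul_eq
  · exact (Lp.memLp _).locallyIntegrable (by norm_num)
  · exact (continuous_fourier hf1).locallyIntegrable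
  intro g hg hgc
  have hg1 : HasCompactSupport (Complex.ofRealCLM ∘ g) := hgc.comp_left rfl
  have hg2 : ContDiff ℝ ∞ (Complex.ofRealCLM ∘ g) := by fun_prop
  set G : 𝓢(E3, ℂ) := hg1.toSchwartzMap hg2 with hG
  have hGx : ∀ x, G x = (g x : ℂ) := fun x => rfl
  have h1 : ∫ x, g x • (𝓕 (hf2.toLp f) : Lp (α := E3) ℂ 2 volume) x =
      Lp.toTemperedDistribution (𝓕 (hf2.toLp f) : Lp (α := E3) ℂ 2 volume) G := by
    rw [Lp.toTemperedDistribution_apply]
    refine integral_congr_ae (Eventually.of_forall fun x => ?_)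
    show g x • _ = G x • _
    rw [hGx, Complex.real_smul, smul_eq_mul]
  have h2 : Lp.toTemperedDistribution (𝓕 (hf2.toLp f) : Lp (α := E3) ℂ 2 volume) G =
      Lp.toTemperedDistribution (hf2.toLp f) (𝓕 G) := by
    rw [← Lp.fourier_toTemperedDistribution_eq]
    rfl
  have h3 : Lp.toTemperedDistribution (hf2.toLp f) (𝓕 G) = ∫ x, 𝓕 (G : E3 → ℂ) x • f x := by
    rw [Lp.toTemperedDistribution_apply]
    refine integral_congr_ae ?_
    filter_upwards [hf2.coeFn_toLp] with x hx
    rw [hx, SchwartzMap.fourier_coe]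
  rw [h1, h2, h3, flip G.integrable hf1]
  refine integral_congr_ae (Eventually.of_forall fun x => ?_)
  show G x • 𝓕 f x = g x • 𝓕 f x
  rw [hGx, Complex.real_smul, smul_eq_mul]

end PlanchAux

theorem fourier_memLp {f : E3 → ℂ} (hf1 : Integrable f) (hf2 : MemLp f 2) :
    MemLp (𝓕 f) 2 := by
  exact (memLp_congr_ae (PlanchAux.ae_eq hf1 hf2)).1 (Lp.memLp _)

theorem plancherel {f g : E3 → ℂ} (hf1 : Integrable f) (hf2 : MemLp f 2) (hg1 : Integrable g)
    (hg2 : MemLp g 2) :
    ∫ k, 𝓕 f k * conj (𝓕 g k) = ∫ x, f x * conj (g x) := by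
  have h := Lp.inner_fourier_eq (E := E3) (F := ℂ) (hg2.toLp g) (hf2.toLp f)
  rw [L2.inner_def, L2.inner_def] at h
  have h1 : ∫ k, 𝓕 f k * conj (𝓕 g k) = ∫ x : E3, inner ℂ ((𝓕 (hg2.toLp g) : Lp (α := E3) ℂ 2 volume) x)
      ((𝓕 (hf2.toLp f) : Lp (α := E3) ℂ 2 volume) x) := by
    refine integral_congr_ae ?_
    filter_upwards [PlanchAux.ae_eq hf1 hf2, PlanchAux.ae_eq hg1 hg2] with x hx hx'
    rw [hx, hx', RCLike.inner_apply]
  have h2 : ∫ x, f x * conj (g x) = ∫ x : E3, inner ℂ ((hg2.toLp g) x) ((hf2.toLp f) x) := by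
    refine integral_congr_ae ?_
    filter_upwards [hf2.coeFn_toLp, hg2.coeFn_toLp] with x hx hx'
    rw [hx, hx', RCLike.inner_apply]
  rw [h1, h2]
  exact h

end Pool.Agent.P76s
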