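import Pool.Agent.Lib.P76s.FourierEqn
import Pool.Agent.Lib.P76s.Planch

/-!
# P76s.SimpleLower (1.5 h): lower bounds for the Simple-equation energy at high density
(black boxes: FourierEqn, Planch)

Let `v ≥ 0`, `v ∈ L¹`, `V₀ = ∫ v > 0`, `(u,e)` a solution with `0 ≤ u ≤ 1`, `S = (1-u)v ∈ [0, v]`,
`a = ∫ u v ∈ [0, V₀]`.  Then `2e/ρ = ∫ S = V₀ - a`, `e ≥ 0`.
* `e > 0`: if `e = 0`, then `∫ S = 0`, so `S = 0` a.e., and `fourier_eqn` gives `û(k) = 0` for `k ≠ 0`,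
  hence for `k = 0` (continuity), so `∫ u = 0`, `u = 0` a.e., `v = S = 0` a.e.: contradiction.
* `fourier_eqn` at `k = 0`: `4e û(0) = 2e/ρ + 2eρ û(0)²`, i.e. `(ρ û(0) - 1)² = 0`: `∫ u = 1/ρ`.
* `a ≤ ∫ u min(v,M) + ∫ (v-M)₊ ≤ M/ρ + ∫ (v-M)₊`: so `a → 0` as `ρ → ∞`, uniformly in the solution:
  for `ε > 0` choose `M` with `∫ (v-M)₊ ≤ ε/2` (dominated convergence) and `ρ₁ = 2M/ε`.  This is `simple_lower_one`.
* `v ∈ L²`: multiply `fourier_eqn` by `conj û`, take real parts, use `|û(k)| ≤ û(0) = 1/ρ`: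
  `2e |û|² ≤ (4π²|k|² + 4e)|û|² - 2eρ|û|³ ≤ Re (Ŝ conj û)`; integrate (`plancherel`):
  `2e ∫u² ≤ ∫ S u ≤ a`.  Cauchy-Schwarz: `a² ≤ ∫u² ∫v²`, so `2e a² ≤ a ∫ v²`, `ρ a (V₀ - a) = 2e a ≤ ∫ v²`.
  So `e = ½ρV₀ - ½ρa ≥ ½ρV₀ - ∫v²/(2(V₀ - a))`, and `a → 0`.  This is `simple_lower_two`.
-/

open MeasureTheory Filter Topology
open scoped ENNReal NNReal BigOperators ContDiff FourierTransform SchwartzMap

namespace Pool.Agent.P76s

namespace SimpleLowerAux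

open scoped ComplexConjugate

variable {v u : E3 → ℝ} {ρ e : ℝ}

theorem fcont {f : E3 → ℂ} (hf : Integrable f) : Continuous (𝓕 f) :=
  VectorFourier.fourierIntegral_continuous Real.continuous_fourierChar
    (by exact continuous_inner) hf

theorem fzero (f : E3 → ℂ) : 𝓕 f 0 = ∫ x, f x := by
  rw [Real.fourier_eq]
  simp

theorem fnorm (f : E3 → ℂ) (k : E3) : ‖𝓕 f k‖ ≤ ∫ x, ‖f x‖ :=
  VectorFourier.norm_fourierIntegral_le_integral_norm _ _ _ _ _

theorem uv_int (hv : Integrable v) (h : IsSimpleSolution v ρ u e) :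
    Integrable (fun x => u x * v x) :=
  (hv.sub h.int_S).congr (ae_of_all _ fun x => by simp only [Pi.sub_apply]; ring)

theorem int_S_eq (hv : Integrable v) (h : IsSimpleSolution v ρ u e) :
    ∫ x, (1 - u x) * v x = (∫ x, v x) - ∫ x, u x * v x := by
  rw [← integral_sub hv (uv_int hv h)]
  exact integral_congr_ae (ae_of_all _ fun x => by ring)

theorem e_pos (hv : Integrable v) (hv0 : ∀ x, 0 ≤ v x) (hne : 0 < ∫ x, v x) (hρ : 0 < ρ)
    (h : IsSimpleSolution v ρ u e) (hu : ∀ᵐ x, 0 ≤ u x ∧ u x ≤ 1) : 0 < e := by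
  have hS0 : 0 ≤ᵐ[volume] fun x => (1 - u x) * v x :=
    hu.mono fun x hx => mul_nonneg (by linarith [hx.2]) (hv0 x)
  have h0 : 0 ≤ ∫ x, (1 - u x) * v x := integral_nonneg_of_ae hS0
  have he0 : 0 ≤ e := by rw [h.energy]; positivity
  rcases he0.eq_or_lt with he | he
  · exfalso
    have hS : ∫ x, (1 - u x) * v x = 0 := by
      have h1 := h.energy
      rw [← he] at h1
      exact (mul_eq_zero.1 h1.symm).resolve_left (by positivity)
    have hSae : (fun x => (1 - u x) * v x) =ᵐ[volume] 0 :=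
      (integral_eq_zero_iff_of_nonneg_ae hS0 h.int_S).1 hS
    have hF : ∀ k, 𝓕 (fun x => (((1 - u x) * v x : ℝ) : ℂ)) k = 0 := by
      intro k
      have h2 : (fun x => (((1 - u x) * v x : ℝ) : ℂ)) =ᵐ[volume] fun _ => (0 : ℂ) := by
        filter_upwards [hSae] with x hx
        simp only [Pi.zero_apply] at hx
        rw [hx, Complex.ofReal_zero]
      rw [Real.fourier_congr_ae h2, Real.fourier_eq]
      simp
    have hU : ∀ k ∈ ({0}ᶜ : Set E3), 𝓕 (fun x => (u x : ℂ)) k = (fun _ => (0 : ℂ)) k := by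
      intro k hk
      have h3 := fourier_eqn h k
      rw [hF, ← he] at h3
      have h4 : ((4 * Real.pi ^ 2 * ‖k‖ ^ 2 + 4 * 0 : ℝ) : ℂ) ≠ 0 := by
        rw [Complex.ofReal_ne_zero]
        have h5 : 0 < ‖k‖ := norm_pos_iff.2 hk
        positivity
      have h6 : ((4 * Real.pi ^ 2 * ‖k‖ ^ 2 + 4 * 0 : ℝ) : ℂ) * 𝓕 (fun x => (u x : ℂ)) k = 0 := by
        rw [h3]
        simp
      exact (mul_eq_zero.1 h6).resolve_left h4
    have hc : Continuous (𝓕 (fun x => (u x : ℂ))) := fcont h.int_u.ofReal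
    have hU0 : 𝓕 (fun x => (u x : ℂ)) = fun _ => (0 : ℂ) :=
      Continuous.ext_on (dense_compl_singleton (0 : E3)) hc continuous_const hU
    have h7 : ∫ x, u x = 0 := by
      have h8 := congrFun hU0 0
      rw [fzero, integral_complex_ofReal] at h8
      exact_mod_cast h8
    have h9 : u =ᵐ[volume] 0 :=
      (integral_eq_zero_iff_of_nonneg_ae (hu.mono fun x hx => hx.1) h.int_u).1 h7
    have h10 : v =ᵐ[volume] fun _ => (0 : ℝ) := by
      filter_upwards [hSae, h9] with x hx hx'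
      simp only [Pi.zero_apply] at hx hx'
      rw [hx'] at hx
      linarith
    rw [integral_congr_ae h10] at hne
    simp at hne
  · exact he

theorem int_u_eq (hv : Integrable v) (hv0 : ∀ x, 0 ≤ v x) (hne : 0 < ∫ x, v x) (hρ : 0 < ρ)
    (h : IsSimpleSolution v ρ u e) (hu : ∀ᵐ x, 0 ≤ u x ∧ u x ≤ 1) : ρ * ∫ x, u x = 1 := by
  have he := e_pos hv hv0 hne hρ h hu
  have h1 := fourier_eqn h 0
  rw [fzero, fzero, integral_complex_ofReal, integral_complex_ofReal, norm_zero] at h1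
  have h2 : (4 * Real.pi ^ 2 * (0 : ℝ) ^ 2 + 4 * e) * ∫ x, u x =
      (∫ x, (1 - u x) * v x) + (2 * e * ρ) * (∫ x, u x) ^ 2 := by
    exact_mod_cast h1
  have h3 := h.energy
  have h4 : (∫ x, (1 - u x) * v x) = 2 * e / ρ := by
    rw [eq_div_iff hρ.ne']
    linarith
  rw [h4] at h2
  have h5 : (2 * e) * (ρ * (∫ x, u x) - 1) ^ 2 = 0 := by
    have h6 : ρ * ((4 * Real.pi ^ 2 * (0 : ℝ) ^ 2 + 4 * e) * ∫ x, u x) =
        ρ * (2 * e / ρ + (2 * e * ρ) * (∫ x, u x) ^ 2) := by rw [h2]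
    rw [mul_add, mul_div_cancel₀ _ hρ.ne'] at h6
    nlinarith [h6]
  have h7 := (mul_eq_zero.1 h5).resolve_left (by positivity)
  have h8 := pow_eq_zero_iff (two_ne_zero) |>.1 h7
  linarith

theorem a_nonneg (hv0 : ∀ x, 0 ≤ v x) (hu : ∀ᵐ x, 0 ≤ u x ∧ u x ≤ 1) :
    0 ≤ ∫ x, u x * v x :=
  integral_nonneg_of_ae (hu.mono fun x hx => mul_nonneg hx.1 (hv0 x))

theorem a_small (hv : Integrable v) (hv0 : ∀ x, 0 ≤ v x) (hne : 0 < ∫ x, v x) {δ : ℝ}
    (hδ : 0 < δ) : ∃ ρ₁ > 0, ∀ ρ ≥ ρ₁, ∀ (u : E3 → ℝ) (e : ℝ), IsSimpleSolution v ρ u e →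
      (∀ᵐ x, 0 ≤ u x ∧ u x ≤ 1) → ∫ x, u x * v x ≤ δ := by
  have hint : ∀ M : ℝ, 0 ≤ M → Integrable fun x => max (v x - M) 0 := by
    intro M hM
    refine hv.mono' ((hv.aestronglyMeasurable.sub aestronglyMeasurable_const).sup
      aestronglyMeasurable_const) (ae_of_all _ fun x => ?_)
    rw [Real.norm_eq_abs, abs_of_nonneg (le_max_right _ _)]
    exact max_le (by linarith) (hv0 x)
  have hlim : Tendsto (fun n : ℕ => ∫ x, max (v x - n) 0) atTop (𝓝 (∫ _ : E3, (0 : ℝ))) := by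
    refine tendsto_integral_of_dominated_convergence v (fun n => (hint n
      (Nat.cast_nonneg n)).aestronglyMeasurable) hv (fun n => ae_of_all _ fun x => ?_)
      (ae_of_all _ fun x => ?_)
    · rw [Real.norm_eq_abs, abs_of_nonneg (le_max_right _ _)]
      have : (0 : ℝ) ≤ n := Nat.cast_nonneg n
      exact max_le (by linarith) (hv0 x)
    · refine tendsto_const_nhds.congr' ?_
      obtain ⟨n0, hn0⟩ := exists_nat_ge (v x)
      filter_upwards [eventually_ge_atTop n0] with n hn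
      have : (n0 : ℝ) ≤ n := by exact_mod_cast hn
      rw [max_eq_right (by linarith)]
  rw [integral_zero] at hlim
  obtain ⟨n, hn⟩ := (hlim.eventually (gt_mem_nhds (half_pos hδ))).exists
  refine ⟨2 * (n + 1) / δ, by positivity, ?_⟩
  intro ρ hρ u e h hu
  have hρ0 : 0 < ρ := lt_of_lt_of_le (by positivity) hρ
  have h1 := int_u_eq hv hv0 hne hρ0 h hu
  have hn0 : (0 : ℝ) ≤ n := Nat.cast_nonneg n
  have h2 : ∫ x, u x * v x ≤ ∫ x, ((n : ℝ) * u x + max (v x - n) 0) := by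
    refine integral_mono_ae (uv_int hv h) ((h.int_u.const_mul _).add (hint n hn0)) ?_
    filter_upwards [hu] with x hx
    have h3 : v x - n ≤ max (v x - n) 0 := le_max_left _ _
    have h4 : 0 ≤ max (v x - n) 0 := le_max_right _ _
    nlinarith [hx.1, hx.2, mul_nonneg hx.1 (sub_nonneg.2 h3), mul_nonneg (sub_nonneg.2 hx.2) h4]
  rw [integral_add (h.int_u.const_mul _) (hint n hn0), integral_const_mul] at h2
  have h5 : (n : ℝ) * ∫ x, u x ≤ δ / 2 := by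
    have h6 : 2 * ((n : ℝ) + 1) ≤ ρ * δ := by
      have := (div_le_iff₀ hδ).1 hρ
      exact this
    have h7 : 0 < ∫ x, u x := by
      by_contra hcon
      push Not at hcon
      nlinarith
    have h8 : 2 * ((n : ℝ) + 1) * ∫ x, u x ≤ ρ * δ * ∫ x, u x :=
      mul_le_mul_of_nonneg_right h6 h7.le
    have h9 : ρ * δ * ∫ x, u x = δ := by
      rw [mul_right_comm, h1, one_mul]
    nlinarith
  linarith

theorem two_e_a (hv : Integrable v) (hv0 : ∀ x, 0 ≤ v x) (hv2 : MemLp v 2)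
    (hne : 0 < ∫ x, v x) (hρ : 0 < ρ) (h : IsSimpleSolution v ρ u e)
    (hu : ∀ᵐ x, 0 ≤ u x ∧ u x ≤ 1) :
    2 * e * ∫ x, u x * v x ≤ ∫ x, v x ^ 2 := by
  have he := e_pos hv hv0 hne hρ h hu
  have hU1 := int_u_eq hv hv0 hne hρ h hu
  have hum : AEStronglyMeasurable u volume := h.int_u.aestronglyMeasurable
  have hu2 : MemLp u 2 := by
    refine (memLp_two_iff_integrable_sq hum).2 (h.int_u.mono' (hum.pow 2) ?_)
    filter_upwards [hu] with x hx
    rw [Real.norm_eq_abs, abs_of_nonneg (by positivity)]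
    nlinarith [hx.1, hx.2]
  have hS2 : MemLp (fun x => (1 - u x) * v x) 2 := by
    refine hv2.mono h.int_S.aestronglyMeasurable ?_
    filter_upwards [hu] with x hx
    rw [Real.norm_eq_abs, Real.norm_eq_abs, abs_mul, abs_of_nonneg (by linarith [hx.2])]
    have := abs_nonneg (v x)
    nlinarith [hx.1]
  have huC1 : Integrable (fun x => (u x : ℂ)) := h.int_u.ofReal
  have hSC1 : Integrable (fun x => (((1 - u x) * v x : ℝ) : ℂ)) := h.int_S.ofReal
  have huC2 : MemLp (fun x => (u x : ℂ)) 2 := hu2.ofReal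
  have hSC2 : MemLp (fun x => (((1 - u x) * v x : ℝ) : ℂ)) 2 := hS2.ofReal
  have hFu := fourier_memLp huC1 huC2
  have hFS := fourier_memLp hSC1 hSC2
  have p1 := plancherel huC1 huC2 huC1 huC2
  have p2 := plancherel hSC1 hSC2 huC1 huC2
  -- bound of the transform
  have hb : ∀ k, ‖𝓕 (fun x => (u x : ℂ)) k‖ ≤ 1 / ρ := by
    intro k
    refine (fnorm _ k).trans (le_of_eq ?_)
    rw [eq_div_iff hρ.ne', mul_comm, ← hU1]
    congr 1
    refine integral_congr_ae ?_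
    filter_upwards [hu] with x hx
    rw [Complex.norm_real, Real.norm_eq_abs, abs_of_nonneg hx.1]
  have hpt : ∀ k, 2 * e * ‖𝓕 (fun x => (u x : ℂ)) k‖ ^ 2 ≤
      (𝓕 (fun x => (((1 - u x) * v x : ℝ) : ℂ)) k * conj (𝓕 (fun x => (u x : ℂ)) k)).re := by
    intro k
    have h1 := fourier_eqn h k
    set U := 𝓕 (fun x => (u x : ℂ)) k with hU
    set T := 𝓕 (fun x => (((1 - u x) * v x : ℝ) : ℂ)) k with hT
    have h2 : T = ((4 * Real.pi ^ 2 * ‖k‖ ^ 2 + 4 * e : ℝ) : ℂ) * U -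
        ((2 * e * ρ : ℝ) : ℂ) * U ^ 2 := by rw [h1]; ring
    have h3 : T * conj U = ((4 * Real.pi ^ 2 * ‖k‖ ^ 2 + 4 * e : ℝ) : ℂ) * (U * conj U) -
        ((2 * e * ρ : ℝ) : ℂ) * (U * (U * conj U)) := by rw [h2]; ring
    have h4 : U * conj U = ((‖U‖ ^ 2 : ℝ) : ℂ) := by
      rw [Complex.mul_conj, Complex.normSq_eq_norm_sq]
    rw [h3, h4, Complex.sub_re, Complex.re_ofReal_mul, Complex.ofReal_re, Complex.re_ofReal_mul,
      Complex.re_mul_ofReal]
    have h5 : U.re ≤ 1 / ρ := (Complex.re_le_norm U).trans (hb k)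
    have h6 : 2 * e * ρ * (U.re * ‖U‖ ^ 2) ≤ 2 * e * ‖U‖ ^ 2 := by
      have h7 : U.re * ‖U‖ ^ 2 ≤ 1 / ρ * ‖U‖ ^ 2 := by gcongr
      calc 2 * e * ρ * (U.re * ‖U‖ ^ 2) ≤ 2 * e * ρ * (1 / ρ * ‖U‖ ^ 2) := by gcongr
        _ = 2 * e * ‖U‖ ^ 2 := by field_simp
    have h8 : 0 ≤ Real.pi ^ 2 * ‖k‖ ^ 2 * ‖U‖ ^ 2 := by positivity
    nlinarith
  have hI1 : Integrable fun k => 2 * e * ‖𝓕 (fun x => (u x : ℂ)) k‖ ^ 2 :=
    (hFu.integrable_norm_pow two_ne_zero).const_mul _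
  have hI2 : Integrable fun k => 𝓕 (fun x => (((1 - u x) * v x : ℝ) : ℂ)) k *
      conj (𝓕 (fun x => (u x : ℂ)) k) := by
    have := hFS.integrable_mul hFu.star
    exact this
  have h10 : ∫ k, 2 * e * ‖𝓕 (fun x => (u x : ℂ)) k‖ ^ 2 ≤
      ∫ k, (𝓕 (fun x => (((1 - u x) * v x : ℝ) : ℂ)) k *
        conj (𝓕 (fun x => (u x : ℂ)) k)).re :=
    integral_mono hI1 hI2.re hpt
  have h11 : ∫ k, (𝓕 (fun x => (((1 - u x) * v x : ℝ) : ℂ)) k *
        conj (𝓕 (fun x => (u x : ℂ)) k)).re = ∫ x, (1 - u x) * v x * u x := by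
    have h12 : ∫ k, (𝓕 (fun x => (((1 - u x) * v x : ℝ) : ℂ)) k *
        conj (𝓕 (fun x => (u x : ℂ)) k)).re = (∫ k, 𝓕 (fun x => (((1 - u x) * v x : ℝ) : ℂ)) k *
        conj (𝓕 (fun x => (u x : ℂ)) k)).re := integral_re hI2
    rw [h12, p2]
    have h13 : ∀ x, (((1 - u x) * v x : ℝ) : ℂ) * conj ((u x : ℂ)) =
        (((1 - u x) * v x * u x : ℝ) : ℂ) := by
      intro x
      rw [Complex.conj_ofReal]
      push_cast
      ring
    simp only [h13]
    rw [integral_complex_ofReal, Complex.ofReal_re]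
  have h14 : ∫ k, ‖𝓕 (fun x => (u x : ℂ)) k‖ ^ 2 = ∫ x, u x ^ 2 := by
    have h15 : ∀ k, 𝓕 (fun x => (u x : ℂ)) k * conj (𝓕 (fun x => (u x : ℂ)) k) =
        ((‖𝓕 (fun x => (u x : ℂ)) k‖ ^ 2 : ℝ) : ℂ) := by
      intro k
      rw [Complex.mul_conj, Complex.normSq_eq_norm_sq]
    have h16 : ∀ x, (u x : ℂ) * conj ((u x : ℂ)) = ((u x ^ 2 : ℝ) : ℂ) := by
      intro x
      rw [Complex.conj_ofReal]
      push_cast
      ring
    simp only [h15, h16] at p1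
    rw [integral_complex_ofReal, integral_complex_ofReal] at p1
    exact_mod_cast p1
  rw [integral_const_mul, h14, h11] at h10
  have hvsq : Integrable fun x => v x ^ 2 := hv2.integrable_sq
  have husq : Integrable fun x => u x ^ 2 := hu2.integrable_sq
  have huv := uv_int hv h
  have h17 : ∫ x, (1 - u x) * v x * u x ≤ ∫ x, u x * v x := by
    have hi : Integrable fun x => (1 - u x) * v x * u x := by
      have := hS2.integrable_mul hu2
      exact this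
    refine integral_mono_ae hi huv ?_
    filter_upwards [hu] with x hx
    have := mul_nonneg (mul_nonneg hx.1 hx.1) (hv0 x)
    show (1 - u x) * v x * u x ≤ u x * v x
    nlinarith
  have h18 : ∫ x, u x * v x ≤ ∫ x, (e * u x ^ 2 + (1 / (4 * e)) * v x ^ 2) := by
    refine integral_mono huv ((husq.const_mul _).add (hvsq.const_mul _)) fun x => ?_
    show u x * v x ≤ e * u x ^ 2 + (1 / (4 * e)) * v x ^ 2
    have h19 : e * u x ^ 2 + (1 / (4 * e)) * v x ^ 2 - u x * v x =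
        (1 / (4 * e)) * (2 * e * u x - v x) ^ 2 := by
      field_simp
      ring
    have h20 : 0 ≤ (1 / (4 * e)) * (2 * e * u x - v x) ^ 2 := by positivity
    linarith
  rw [integral_add (husq.const_mul _) (hvsq.const_mul _), integral_const_mul,
    integral_const_mul] at h18
  have h21 : (∫ x, u x * v x) / 2 ≤ (1 / (4 * e)) * ∫ x, v x ^ 2 := by linarith
  have h22 : 4 * e * ((∫ x, u x * v x) / 2) ≤ 4 * e * ((1 / (4 * e)) * ∫ x, v x ^ 2) := by
    gcongr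
  have h23 : 4 * e * ((1 / (4 * e)) * ∫ x, v x ^ 2) = ∫ x, v x ^ 2 := by
    field_simp
  linarith

end SimpleLowerAux

open SimpleLowerAux

theorem simple_lower_one {v : E3 → ℝ} (hv : Integrable v) (hv0 : ∀ x, 0 ≤ v x)
    (hne : 0 < ∫ x, v x) {ε : ℝ} (hε : 0 < ε) :
    ∃ ρ₁ > 0, ∀ ρ ≥ ρ₁, ∀ (u : E3 → ℝ) (e : ℝ), IsSimpleSolution v ρ u e →
      (∀ᵐ x, 0 ≤ u x ∧ u x ≤ 1) → ρ / 2 * ((∫ x, v x) - ε) ≤ e := by
  obtain ⟨ρ₁, hρ₁, H⟩ := a_small hv hv0 hne hε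
  refine ⟨ρ₁, hρ₁, fun ρ hρ u e h hu => ?_⟩
  have h1 := H ρ hρ u e h hu
  have hρ0 : 0 < ρ := lt_of_lt_of_le hρ₁ hρ
  have h2 := h.energy
  rw [int_S_eq hv h] at h2
  rw [h2]
  have h3 : 0 ≤ ρ / 2 := by positivity
  exact mul_le_mul_of_nonneg_left (by linarith) h3

theorem simple_lower_two {v : E3 → ℝ} (hv : Integrable v) (hv0 : ∀ x, 0 ≤ v x)
    (hv2 : MemLp v 2) (hne : 0 < ∫ x, v x) {ε : ℝ} (hε : 0 < ε) :
    ∃ ρ₁ > 0, ∀ ρ ≥ ρ₁, ∀ (u : E3 → ℝ) (e : ℝ), IsSimpleSolution v ρ u e →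
      (∀ᵐ x, 0 ≤ u x ∧ u x ≤ 1) →
        ρ / 2 * (∫ x, v x) - (∫ x, v x ^ 2) / (2 * ∫ x, v x) - ε ≤ e := by
  have hW : 0 ≤ ∫ x, v x ^ 2 := integral_nonneg fun x => by positivity
  have hδ : 0 < min ((∫ x, v x) / 2) (ε * (∫ x, v x) ^ 2 / ((∫ x, v x ^ 2) + 1)) := by
    refine lt_min (by positivity) (by positivity)
  obtain ⟨ρ₁, hρ₁, H⟩ := a_small hv hv0 hne hδ
  refine ⟨ρ₁, hρ₁, fun ρ hρ u e h hu => ?_⟩
  have h1 := H ρ hρ u e h hu
  have hρ0 : 0 < ρ := lt_of_lt_of_le hρ₁ hρ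
  have h2 := h.energy
  rw [int_S_eq hv h] at h2
  have h3 := two_e_a hv hv0 hv2 hne hρ0 h hu
  have h4 := a_nonneg hv0 hu
  set V := ∫ x, v x with hV
  set W := ∫ x, v x ^ 2 with hWd
  set a := ∫ x, u x * v x with ha
  have h5 : a ≤ V / 2 := h1.trans (min_le_left _ _)
  have h6 : a ≤ ε * V ^ 2 / (W + 1) := h1.trans (min_le_right _ _)
  have h7 : a * (W + 1) ≤ ε * V ^ 2 := by
    rwa [le_div_iff₀ (by positivity)] at h6
  have hVa : 0 < V - a := by linarith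
  have h8 : ρ * a * (V - a) ≤ W := by
    rw [h2] at h3
    linarith
  have h9 : ρ * a ≤ W / (V - a) := by
    rw [le_div_iff₀ hVa]
    exact h8
  have h10 : W / (V - a) ≤ W / V + 2 * ε := by
    rw [div_add' _ _ _ hne.ne', div_le_div_iff₀ hVa hne]
    have h11 : 0 ≤ 2 * ε * V * (V / 2 - a) := by
      have : 0 ≤ V / 2 - a := by linarith
      positivity
    nlinarith
  have h12 : W / (2 * V) = (W / V) / 2 := by
    rw [mul_comm, div_div]
  rw [h12, h2]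
  linarith

end Pool.Agent.P76s
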