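import Pool.Agent.Lib.P76s.Branch
import Pool.Agent.Lib.P76s.SimpleLower

/-!
# P76s.SimpleExact (2 h): the Simple-equation energy at high density, exactly
(black boxes: FourierEqn, Branch, SimpleLower)

`v̂ ≥ 0`, `v̂ ∈ L¹`, `V₀ = ∫ v`, `t(k) = v̂(k)/V₀ ∈ [0,1]`.  Claim: as `ρ → ∞`, uniformly in the solution,
`e = ½ρV₀ - ½ ∫ v̂ (1 - √(1 - t)) dk + o(1)`.

Let `a = ∫ u v`; then `2e/ρ = V₀ - a`, i.e. `e = ½ρV₀ - ½ρa`; `a → 0` uniformly (`simple_lower_one`), `e → ∞`.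
Parseval: `v(x) = ∫ v̂(k) e^{2πi k·x} dk` (Fourier inversion, `v` continuous), so `a = ∫ v̂(k) Re û(k) dk`
(`v̂` real and even), `|ρ û(k)| ≤ ρ ∫u = 1`.
For `k ≠ 0` (`branch`): `w = 4eρû/κ`, `ρû = w (1 + π²|k|²/e)`, `2w = x + w²`, `‖w‖ < 1`, where
`x = (Ŝ(k)/Ŝ(0)) (e/(e + π²|k|²))²`, `Ŝ(0) = V₀ - a`, `|Ŝ(k) - v̂(k)| ≤ ∫ u v = a`.  Let `w∞ = 1 - √(1-t)`,
`2w∞ = t + w∞²`; then `(w - w∞)(2 - w - w∞) = x - t` and `|2 - w - w∞| ≥ 1 - w∞ = √(1-t)`, so
`|w - w∞| ≤ |x - t|/√(1-t)` when `t < 1` (true for every `k ≠ 0`: `v̂(k) < V₀`; if you prefer, only a.e.: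
`|1-v̂/V₀| = 0` only on a null set, or avoid it: for `k ≠ 0`, `cos(2πk·x) < 1` a.e. and `v ≠ 0`).
`|x - t|` is bounded by a quantity `D(ρ, k)` independent of the solution with `D(ρ, k) → 0` as `ρ → ∞`
(it depends on `a ≤ a*(ρ) → 0` and `e ≥ ρV₀/4`).  Dominated convergence (`tendsto_integral_filter_of_dominated_convergence`
with the bound `2 v̂(k)`) for `∫ v̂(k) min(2, D(ρ,k)/√(1-t) + π²|k|²·4/(ρV₀)) dk → 0`.
Equivalently: argue by contradiction with sequences `ρ_n → ∞`, `(u_n, e_n)`.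
-/

open MeasureTheory Filter Topology
open scoped ENNReal NNReal BigOperators FourierTransform

namespace Pool.Agent.P76s

namespace SimpleExactAux

/-- the Fourier transform of an even real function is real -/
theorem fe_real {v : E3 → ℝ} (heven : ∀ x, v (-x) = v x) (k : E3) :
    (((𝓕 (fun x => (v x : ℂ)) k).re : ℝ) : ℂ) = 𝓕 (fun x => (v x : ℂ)) k := by
  apply Complex.conj_eq_iff_re.mp
  rw [Real.fourier_eq', ← integral_conj]
  rw [← integral_neg_eq_self]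
  refine integral_congr_ae (Filter.Eventually.of_forall fun x => ?_)
  simp only [smul_eq_mul, map_mul, Complex.conj_ofReal, heven, ← Complex.exp_conj, Complex.conj_I,
    inner_neg_left]
  congr 2
  push_cast
  ring

/-- Parseval for `∫ u v` -/
theorem int_uv {v u : E3 → ℝ} (hv : Integrable v) (heven : ∀ x, v (-x) = v x)
    (hcont : Continuous v) (hint : Integrable (𝓕 (fun x => (v x : ℂ)))) (hu : Integrable u) :
    ((∫ x, u x * v x : ℝ) : ℂ) =
      ∫ k, 𝓕 (fun x => (u x : ℂ)) k * (((𝓕 (fun x => (v x : ℂ)) k).re : ℝ) : ℂ) := by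
  have iU : Integrable (fun x => (u x : ℂ)) := hu.ofReal
  have iV : Integrable (fun x => (v x : ℂ)) := hv.ofReal
  have h := VectorFourier.integral_fourierIntegral_smul_eq_flip (L := innerₗ E3) (μ := volume)
    (ν := volume) Real.continuous_fourierChar continuous_inner iU
    (g := 𝓕 (fun x => (v x : ℂ))) hint
  have h1 : ∫ k, 𝓕 (fun x => (u x : ℂ)) k * (((𝓕 (fun x => (v x : ℂ)) k).re : ℝ) : ℂ) =
      ∫ k, 𝓕 (fun x => (u x : ℂ)) k • 𝓕 (fun x => (v x : ℂ)) k := by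
    refine integral_congr_ae (Filter.Eventually.of_forall fun k => ?_)
    simp only [fe_real heven, smul_eq_mul]
  rw [h1]
  refine Eq.trans ?_ h.symm
  rw [← integral_complex_ofReal]
  refine integral_congr_ae (Filter.Eventually.of_forall fun x => ?_)
  have h2 : VectorFourier.fourierIntegral Real.fourierChar volume (innerₗ E3).flip
      (𝓕 (fun x => (v x : ℂ))) x = (v x : ℂ) := by
    have hc : Continuous (fun x => (v x : ℂ)) := Complex.continuous_ofReal.comp hcont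
    have h3 := congrFun (hc.fourierInv_fourier_eq iV hint) (-x)
    rw [Real.fourierInv_eq_fourier_neg, neg_neg] at h3
    rw [heven] at h3
    rw [← h3, Real.fourier_eq]
    unfold VectorFourier.fourierIntegral
    refine integral_congr_ae (Filter.Eventually.of_forall fun y => ?_)
    simp only [LinearMap.flip_apply, innerₗ_apply_apply]
    rw [real_inner_comm]
  show ((u x * v x : ℝ) : ℂ) = (u x : ℂ) • _
  rw [h2, smul_eq_mul]
  push_cast
  ring

/-- the two roots are close -/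
theorem root_close {w x : ℂ} {t : ℝ} (ht1 : t ≤ 1) (h1 : 2 * w = x + w ^ 2)
    (h2 : ‖w‖ < 1) : ‖w - ((1 - √(1 - t) : ℝ) : ℂ)‖ ≤ √ ‖x - (t : ℂ)‖ := by
  obtain ⟨W, hW⟩ : ∃ W : ℝ, W = 1 - √(1 - t) := ⟨_, rfl⟩
  rw [← hW]
  have hs := Real.sq_sqrt (show (0 : ℝ) ≤ 1 - t by linarith)
  have hs0 := Real.sqrt_nonneg (1 - t)
  have hW1 : W ≤ 1 := by linarith
  have hWq : 2 * W = t + W ^ 2 := by rw [hW]; nlinarith
  have hprod : (w - (W : ℂ)) * (2 - w - (W : ℂ)) = x - (t : ℂ) := by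
    have h3 : (2 : ℂ) * (W : ℂ) = (t : ℂ) + (W : ℂ) ^ 2 := by exact_mod_cast hWq
    linear_combination h1 - h3
  have hre : w.re ≤ 1 := (Complex.re_le_norm w).trans h2.le
  have hle : ‖w - (W : ℂ)‖ ≤ ‖2 - w - (W : ℂ)‖ := by
    rw [← Real.sqrt_sq (norm_nonneg (w - (W : ℂ))), ← Real.sqrt_sq (norm_nonneg (2 - w - (W : ℂ)))]
    apply Real.sqrt_le_sqrt
    rw [Complex.sq_norm, Complex.sq_norm, Complex.normSq_apply, Complex.normSq_apply]
    simp only [Complex.sub_re, Complex.sub_im, Complex.ofReal_re, Complex.ofReal_im,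
      Complex.re_ofNat, Complex.im_ofNat]
    nlinarith [mul_nonneg (sub_nonneg.mpr hre) (sub_nonneg.mpr hW1)]
  apply Real.le_sqrt_of_sq_le
  rw [← hprod, norm_mul, sq]
  exact mul_le_mul_of_nonneg_left hle (norm_nonneg _)

theorem fe_norm_le (f : E3 → ℂ) (k : E3) : ‖𝓕 f k‖ ≤ ∫ x, ‖f x‖ :=
  VectorFourier.norm_fourierIntegral_le_integral_norm _ _ _ _ _

theorem fe_zero (f : E3 → ℂ) : 𝓕 f 0 = ∫ x, f x := by
  rw [Real.fourier_eq']
  simp

/-- facts about a solution -/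
theorem facts {v u : E3 → ℝ} {ρ e : ℝ} (hρ : 0 < ρ) (hv : Integrable v)
    (hv0 : ∀ x, 0 ≤ v x) (h : IsSimpleSolution v ρ u e) (hu : ∀ᵐ x, 0 ≤ u x ∧ u x ≤ 1)
    (he : 0 < e) :
    Integrable (fun x => u x * v x) ∧ 0 ≤ ∫ x, u x * v x ∧
      e = ρ / 2 * ((∫ x, v x) - ∫ x, u x * v x) ∧ ∫ x, u x = 1 / ρ ∧
      (∀ k, ‖𝓕 (fun x => (((1 - u x) * v x : ℝ) : ℂ)) k‖ ≤ (∫ x, v x) - ∫ x, u x * v x) ∧
      (∀ k, ‖𝓕 (fun x => (((1 - u x) * v x : ℝ) : ℂ)) k - 𝓕 (fun x => (v x : ℂ)) k‖ ≤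
        ∫ x, u x * v x) ∧
      (∀ k, ‖𝓕 (fun x => (u x : ℂ)) k‖ ≤ 1 / ρ) := by
  have iuv : Integrable (fun x => u x * v x) := by
    have h1 : (fun x => u x * v x) = fun x => v x - (1 - u x) * v x := by
      funext x; ring
    rw [h1]
    exact hv.sub h.int_S
  have huv0 : ∀ᵐ x, 0 ≤ u x * v x := by
    filter_upwards [hu] with x hx
    exact mul_nonneg hx.1 (hv0 x)
  have hS : ∫ x, (1 - u x) * v x = (∫ x, v x) - ∫ x, u x * v x := by
    rw [← integral_sub hv iuv]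
    refine integral_congr_ae (Filter.Eventually.of_forall fun x => ?_)
    show (1 - u x) * v x = v x - u x * v x
    ring
  have hSn : ∫ x, ‖(((1 - u x) * v x : ℝ) : ℂ)‖ = (∫ x, v x) - ∫ x, u x * v x := by
    rw [← hS]
    refine integral_congr_ae ?_
    filter_upwards [hu] with x hx
    rw [Complex.norm_real, Real.norm_of_nonneg (mul_nonneg (by linarith [hx.2]) (hv0 x))]
  have huv : ∫ x, ‖((u x * v x : ℝ) : ℂ)‖ = ∫ x, u x * v x := by
    refine integral_congr_ae ?_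
    filter_upwards [huv0] with x hx
    rw [Complex.norm_real, Real.norm_of_nonneg hx]
  have hun : ∫ x, ‖(u x : ℂ)‖ = ∫ x, u x := by
    refine integral_congr_ae ?_
    filter_upwards [hu] with x hx
    rw [Complex.norm_real, Real.norm_of_nonneg hx.1]
  have hmean : ∫ x, u x = 1 / ρ := by
    have h1 := fourier_eqn h 0
    rw [fe_zero, fe_zero, integral_complex_ofReal, integral_complex_ofReal, norm_zero] at h1
    have h2 : (4 * Real.pi ^ 2 * 0 ^ 2 + 4 * e) * (∫ x, u x) =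
        (∫ x, (1 - u x) * v x) + 2 * e * ρ * (∫ x, u x) ^ 2 := by exact_mod_cast h1
    have h3 : ∫ x, (1 - u x) * v x = 2 * e / ρ := by
      have := h.energy
      rw [this]
      field_simp
    rw [h3] at h2
    have h4 : (ρ * (∫ x, u x) - 1) ^ 2 = 0 := by
      have h5 : 2 * e / ρ * (ρ * (∫ x, u x) - 1) ^ 2 = 0 := by
        have h6 : 2 * e / ρ * (ρ * (∫ x, u x) - 1) ^ 2 =
            2 * e / ρ + 2 * e * ρ * (∫ x, u x) ^ 2 - 4 * e * ∫ x, u x := by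
          field_simp
          ring
        rw [h6]
        linarith
      rcases mul_eq_zero.mp h5 with h6 | h6
      · exact absurd h6 (by positivity)
      · exact h6
    have h5 : ρ * (∫ x, u x) - 1 = 0 := by
      exact pow_eq_zero_iff (by norm_num) |>.mp h4
    rw [eq_div_iff hρ.ne']
    linarith
  refine ⟨iuv, integral_nonneg_of_ae huv0, ?_, hmean, ?_, ?_, ?_⟩
  · rw [← hS]
    exact h.energy
  · intro k
    exact (fe_norm_le _ k).trans hSn.le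
  · intro k
    have h1 : 𝓕 (fun x => (v x : ℂ)) k = 𝓕 (fun x => (((1 - u x) * v x : ℝ) : ℂ)) k +
        𝓕 (fun x => ((u x * v x : ℝ) : ℂ)) k := by
      have h2 := fe_add (f := fun x => (((1 - u x) * v x : ℝ) : ℂ))
        (g := fun x => ((u x * v x : ℝ) : ℂ)) h.int_S.ofReal iuv.ofReal k
      rw [← h2]
      have h3 : (fun x => (v x : ℂ)) =
          fun x => (((1 - u x) * v x : ℝ) : ℂ) + ((u x * v x : ℝ) : ℂ) := by
        funext x
        push_cast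
        ring
      rw [← h3]
    rw [h1, sub_add_cancel_left, norm_neg]
    exact (fe_norm_le _ k).trans huv.le
  · intro k
    refine (fe_norm_le _ k).trans ?_
    rw [hun, hmean]

/-- the pointwise bound -/
theorem pointwise {v u : E3 → ℝ} {ρ e η : ℝ} (hρ : 0 < ρ) (hv : Integrable v)
    (hv0 : ∀ x, 0 ≤ v x) (heven : ∀ x, v (-x) = v x) (hne : 0 < ∫ x, v x)
    (hpos : ∀ k, 0 ≤ (𝓕 (fun x => (v x : ℂ)) k).re)
    (h : IsSimpleSolution v ρ u e) (hu : ∀ᵐ x, 0 ≤ u x ∧ u x ≤ 1)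
    (he : 0 < e) (ha : ∫ x, u x * v x ≤ (∫ x, v x) / 2)
    (ha2 : 4 * (∫ x, u x * v x) / (∫ x, v x) ≤ η) (he2 : 2 * Real.pi ^ 2 / e ≤ η)
    {k : E3} (hk : k ≠ 0) :
    ‖(ρ : ℂ) * 𝓕 (fun x => (u x : ℂ)) k -
      ((1 - √(1 - (𝓕 (fun x => (v x : ℂ)) k).re / ∫ x, v x) : ℝ) : ℂ)‖ ≤
      min 2 (√(η * (‖k‖ ^ 2 + 1)) + η * (‖k‖ ^ 2 + 1)) := by
  obtain ⟨iuv, ha0, hea, hmean, hS1, hS2, hun⟩ := facts hρ hv hv0 h hu he
  obtain ⟨a, haa⟩ : ∃ a : ℝ, a = ∫ x, u x * v x := ⟨_, rfl⟩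
  obtain ⟨V, hVV⟩ : ∃ V : ℝ, V = ∫ x, v x := ⟨_, rfl⟩
  rw [← haa] at ha ha2 ha0 hea hS1 hS2
  rw [← hVV] at ha ha2 hea hS1 hne ⊢
  obtain ⟨T, hT⟩ : ∃ T : ℝ, T = (𝓕 (fun x => (v x : ℂ)) k).re := ⟨_, rfl⟩
  have hTc : (T : ℂ) = 𝓕 (fun x => (v x : ℂ)) k := by rw [hT]; exact fe_real heven k
  have hT0 : 0 ≤ T := by rw [hT]; exact hpos k
  have hTV : T ≤ V := by
    rw [hT, hVV]
    refine (Complex.re_le_norm _).trans ((fe_norm_le _ k).trans ?_)
    refine le_of_eq (integral_congr_ae (Filter.Eventually.of_forall fun x => ?_))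
    show ‖(v x : ℂ)‖ = v x
    rw [Complex.norm_real, Real.norm_of_nonneg (hv0 x)]
  rw [← hT]
  have hS1k := hS1 k
  have hS2k := hS2 k
  rw [← hTc] at hS2k
  have hunk := hun k
  obtain ⟨U, hU⟩ : ∃ U : ℂ, U = 𝓕 (fun x => (u x : ℂ)) k := ⟨_, rfl⟩
  obtain ⟨S, hSd⟩ : ∃ S : ℂ, S = 𝓕 (fun x => (((1 - u x) * v x : ℝ) : ℂ)) k := ⟨_, rfl⟩
  have hbr := branch hρ hv hv0 h (hu.mono fun x hx => hx.2) he hk rfl rfl
  rw [← hU, ← hSd] at hbr
  rw [← hU] at hunk ⊢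
  rw [← hSd] at hS1k hS2k
  obtain ⟨κ, hκ⟩ : ∃ κ : ℝ, κ = 4 * Real.pi ^ 2 * ‖k‖ ^ 2 + 4 * e := ⟨_, rfl⟩
  rw [← hκ] at hbr
  have hk0 : 0 ≤ Real.pi ^ 2 * ‖k‖ ^ 2 := by positivity
  have hκ0 : 0 < κ := by rw [hκ]; positivity
  have hκc : (κ : ℂ) ≠ 0 := by exact_mod_cast hκ0.ne'
  have hκe : 4 * e ≤ κ := by rw [hκ]; linarith
  obtain ⟨w, hw⟩ : ∃ w : ℂ, w = ((4 * e * ρ : ℝ) : ℂ) * U / (κ : ℂ) := ⟨_, rfl⟩
  obtain ⟨x, hx⟩ : ∃ x : ℂ, x = ((8 * e * ρ : ℝ) : ℂ) * S / (κ : ℂ) ^ 2 := ⟨_, rfl⟩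
  rw [← hw, ← hx] at hbr
  obtain ⟨hq, hw1⟩ := hbr
  have hVa : 0 < V - a := by linarith
  have hρe : ρ * (V - a) = 2 * e := by rw [hea]; ring
  have ht0 : 0 ≤ T / V := div_nonneg hT0 hne.le
  have ht1 : T / V ≤ 1 := (div_le_one hne).mpr hTV
  have hroot := root_close ht1 hq hw1
  -- first: `ρ û - w`
  have hη0 : 0 ≤ η := le_trans (by positivity) he2
  have hA : ‖(ρ : ℂ) * U - w‖ ≤ η * (‖k‖ ^ 2 + 1) := by
    have h1 : (ρ : ℂ) * U - w = w * (((κ - 4 * e) / (4 * e) : ℝ) : ℂ) := by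
      have he' : (e : ℂ) ≠ 0 := by exact_mod_cast he.ne'
      rw [hw]
      push_cast
      field_simp
    rw [h1, norm_mul, Complex.norm_real, Real.norm_of_nonneg (div_nonneg (by linarith)
      (by linarith))]
    have h2 : (κ - 4 * e) / (4 * e) = Real.pi ^ 2 / e * ‖k‖ ^ 2 := by
      rw [hκ]
      field_simp
      ring
    rw [h2]
    have h3 : Real.pi ^ 2 / e ≤ η := by
      have : 0 ≤ Real.pi ^ 2 / e := by positivity
      have h4 : 2 * Real.pi ^ 2 / e = Real.pi ^ 2 / e + Real.pi ^ 2 / e := by ring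
      linarith
    calc ‖w‖ * (Real.pi ^ 2 / e * ‖k‖ ^ 2) ≤ 1 * (η * ‖k‖ ^ 2) := by
          apply mul_le_mul hw1.le _ (by positivity) (by norm_num)
          exact mul_le_mul_of_nonneg_right h3 (by positivity)
      _ ≤ η * (‖k‖ ^ 2 + 1) := by nlinarith
  have hB : ‖x - ((T / V : ℝ) : ℂ)‖ ≤ η * (‖k‖ ^ 2 + 1) := by
    obtain ⟨q, hqd⟩ : ∃ q : ℝ, q = 16 * e ^ 2 / κ ^ 2 := ⟨_, rfl⟩
    have hq1 : q ≤ 1 := by
      rw [hqd, div_le_one (by positivity)]
      nlinarith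
    have hq2 : 1 - q ≤ η * ‖k‖ ^ 2 := by
      have h1 : 1 - q = (κ - 4 * e) * (κ + 4 * e) / κ ^ 2 := by
        rw [hqd]
        field_simp
        ring
      have h2 : (κ - 4 * e) * (κ + 4 * e) / κ ^ 2 ≤ 2 * (κ - 4 * e) / κ := by
        rw [div_le_div_iff₀ (by positivity) hκ0]
        have h3 : 0 ≤ (κ - 4 * e) * κ * (κ - 4 * e) := by
          have : 0 ≤ κ - 4 * e := by linarith
          positivity
        nlinarith
      have h3 : 2 * (κ - 4 * e) / κ ≤ 2 * (κ - 4 * e) / (4 * e) :=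
        div_le_div_of_nonneg_left (by linarith) (by linarith) hκe
      have h4 : 2 * (κ - 4 * e) / (4 * e) = 2 * Real.pi ^ 2 / e * ‖k‖ ^ 2 := by
        rw [hκ]
        field_simp
        ring
      have h5 : 2 * Real.pi ^ 2 / e * ‖k‖ ^ 2 ≤ η * ‖k‖ ^ 2 :=
        mul_le_mul_of_nonneg_right he2 (by positivity)
      linarith
    have hVac : ((V - a : ℝ) : ℂ) ≠ 0 := by exact_mod_cast hVa.ne'
    have hVc : (V : ℂ) ≠ 0 := by exact_mod_cast hne.ne'
    have hx1 : x = (q : ℂ) * (S / ((V - a : ℝ) : ℂ)) := by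
      have hec : (e : ℂ) ≠ 0 := by exact_mod_cast he.ne'
      have h1 : ((V - a : ℝ) : ℂ) = 2 * (e : ℂ) / (ρ : ℂ) := by
        have hρc : (ρ : ℂ) ≠ 0 := by exact_mod_cast hρ.ne'
        rw [eq_div_iff hρc]
        have : (V - a) * ρ = 2 * e := by linarith
        exact_mod_cast this
      have hρc : (ρ : ℂ) ≠ 0 := by exact_mod_cast hρ.ne'
      rw [hx, h1, hqd]
      push_cast
      field_simp
      ring
    have hsplit : x - ((T / V : ℝ) : ℂ) = (((q - 1 : ℝ) : ℂ)) * (S / ((V - a : ℝ) : ℂ)) +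
        ((S - (T : ℂ)) / ((V - a : ℝ) : ℂ) + ((T * (a / (V * (V - a))) : ℝ) : ℂ)) := by
      have h1 : ((T * (a / (V * (V - a))) : ℝ) : ℂ) =
          (T : ℂ) / ((V - a : ℝ) : ℂ) - (T : ℂ) / (V : ℂ) := by
        have h2 : T * (a / (V * (V - a))) = T / (V - a) - T / V := by
          field_simp
          ring
        rw [h2]
        push_cast
        ring
      rw [h1, hx1]
      push_cast
      ring
    rw [hsplit]
    have n1 : ‖(((q - 1 : ℝ) : ℂ)) * (S / ((V - a : ℝ) : ℂ))‖ ≤ η * ‖k‖ ^ 2 := by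
      rw [norm_mul, norm_div, Complex.norm_real, Complex.norm_real, Real.norm_of_nonneg hVa.le,
        Real.norm_of_nonpos (by linarith)]
      calc -(q - 1) * (‖S‖ / (V - a)) ≤ (η * ‖k‖ ^ 2) * 1 := by
            apply mul_le_mul (by linarith) ((div_le_one hVa).mpr hS1k) (by positivity)
              (by positivity)
        _ = _ := mul_one _
    have n2 : ‖(S - (T : ℂ)) / ((V - a : ℝ) : ℂ)‖ ≤ a / (V - a) := by
      rw [norm_div, Complex.norm_real, Real.norm_of_nonneg hVa.le]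
      exact div_le_div_of_nonneg_right hS2k hVa.le
    have n3 : ‖((T * (a / (V * (V - a))) : ℝ) : ℂ)‖ ≤ a / (V - a) := by
      rw [Complex.norm_real, Real.norm_of_nonneg (by positivity)]
      calc T * (a / (V * (V - a))) ≤ V * (a / (V * (V - a))) :=
            mul_le_mul_of_nonneg_right hTV (by positivity)
        _ = a / (V - a) := by field_simp
    have n4 : a / (V - a) + a / (V - a) ≤ η := by
      refine le_trans ?_ ha2
      have h1 : a / (V - a) ≤ a / (V / 2) :=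
        div_le_div_of_nonneg_left ha0 (by positivity) (by linarith)
      have h2 : a / (V / 2) + a / (V / 2) = 4 * a / V := by
        field_simp
        ring
      linarith
    calc _ ≤ ‖(((q - 1 : ℝ) : ℂ)) * (S / ((V - a : ℝ) : ℂ))‖ +
          (‖(S - (T : ℂ)) / ((V - a : ℝ) : ℂ)‖ + ‖((T * (a / (V * (V - a))) : ℝ) : ℂ)‖) :=
          (norm_add_le _ _).trans (add_le_add le_rfl (norm_add_le _ _))
      _ ≤ η * (‖k‖ ^ 2 + 1) := by linarith
  apply le_min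
  · have h1 : ‖(ρ : ℂ) * U‖ ≤ 1 := by
      rw [norm_mul, Complex.norm_real, Real.norm_of_nonneg hρ.le]
      calc ρ * ‖U‖ ≤ ρ * (1 / ρ) := mul_le_mul_of_nonneg_left hunk hρ.le
        _ = 1 := by field_simp
    have h2 : ‖((1 - √(1 - T / V) : ℝ) : ℂ)‖ ≤ 1 := by
      rw [Complex.norm_real, Real.norm_eq_abs, abs_le]
      have h3 := Real.sqrt_nonneg (1 - T / V)
      have h4 : √(1 - T / V) ≤ 1 := by
        exact Real.sqrt_le_iff.mpr ⟨by norm_num, by linarith⟩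
      constructor <;> linarith
    exact (norm_sub_le _ _).trans (by linarith)
  · calc ‖(ρ : ℂ) * U - ((1 - √(1 - T / V) : ℝ) : ℂ)‖
        = ‖(w - ((1 - √(1 - T / V) : ℝ) : ℂ)) + ((ρ : ℂ) * U - w)‖ := by
          congr 1
          ring
      _ ≤ _ := norm_add_le _ _
      _ ≤ _ := by
          refine add_le_add (hroot.trans ?_) hA
          exact Real.sqrt_le_sqrt hB

/-- dominated convergence -/
theorem small {g : E3 → ℝ} (hg : Integrable g) (hg0 : ∀ k, 0 ≤ g k) {ε : ℝ} (hε : 0 < ε) :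
    ∃ η > 0, Integrable (fun k => min 2 (√(η * (‖k‖ ^ 2 + 1)) + η * (‖k‖ ^ 2 + 1)) * g k) ∧
      ∫ k, min 2 (√(η * (‖k‖ ^ 2 + 1)) + η * (‖k‖ ^ 2 + 1)) * g k ≤ ε := by
  have hmeas : ∀ η : ℝ, AEStronglyMeasurable
      (fun k : E3 => min 2 (√(η * (‖k‖ ^ 2 + 1)) + η * (‖k‖ ^ 2 + 1)) * g k) volume := by
    intro η
    refine AEStronglyMeasurable.mul ?_ hg.aestronglyMeasurable
    apply Continuous.aestronglyMeasurable
    fun_prop
  have hbd : ∀ η : ℝ, 0 < η → ∀ k : E3,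
      ‖min 2 (√(η * (‖k‖ ^ 2 + 1)) + η * (‖k‖ ^ 2 + 1)) * g k‖ ≤ 2 * g k := by
    intro η hη k
    rw [Real.norm_of_nonneg (mul_nonneg (le_min (by norm_num) (by positivity)) (hg0 k))]
    exact mul_le_mul_of_nonneg_right (min_le_left _ _) (hg0 k)
  have hint : ∀ η : ℝ, 0 < η → Integrable
      (fun k : E3 => min 2 (√(η * (‖k‖ ^ 2 + 1)) + η * (‖k‖ ^ 2 + 1)) * g k) := by
    intro η hη
    exact Integrable.mono' (hg.const_mul 2) (hmeas η) (Filter.Eventually.of_forall (hbd η hη))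
  have hlim : Tendsto (fun η : ℝ => ∫ k : E3,
      min 2 (√(η * (‖k‖ ^ 2 + 1)) + η * (‖k‖ ^ 2 + 1)) * g k) (𝓝[>] 0)
      (𝓝 (∫ _k : E3, (0 : ℝ))) := by
    apply tendsto_integral_filter_of_dominated_convergence (fun k => 2 * g k)
    · exact Filter.Eventually.of_forall fun η => hmeas η
    · filter_upwards [self_mem_nhdsWithin] with η hη
      exact Filter.Eventually.of_forall (hbd η hη)
    · exact hg.const_mul 2
    · refine Filter.Eventually.of_forall fun k => ?_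
      have hc : Continuous fun η : ℝ =>
          min 2 (√(η * (‖k‖ ^ 2 + 1)) + η * (‖k‖ ^ 2 + 1)) * g k := by fun_prop
      have h1 := (hc.tendsto 0).mono_left (nhdsWithin_le_nhds (s := Set.Ioi (0 : ℝ)))
      simpa using h1
  rw [integral_zero] at hlim
  have h1 := (hlim.eventually (eventually_le_nhds hε)).and self_mem_nhdsWithin
  obtain ⟨η, hη1, hη2⟩ := h1.exists
  exact ⟨η, hη2, hint η hη2, hη1⟩

end SimpleExactAux

open SimpleExactAux

theorem simple_exact {v : E3 → ℝ} (hv : Integrable v) (hv0 : ∀ x, 0 ≤ v x)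
    (heven : ∀ x, v (-x) = v x) (hcont : Continuous v) (hne : 0 < ∫ x, v x)
    (hpos : ∀ k, 0 ≤ (𝓕 (fun x => (v x : ℂ)) k).re)
    (hint : Integrable (𝓕 (fun x => (v x : ℂ)))) {ε : ℝ} (hε : 0 < ε) :
    ∃ ρ₁ > 0, ∀ ρ ≥ ρ₁, ∀ (u : E3 → ℝ) (e : ℝ), IsSimpleSolution v ρ u e →
      (∀ᵐ x, 0 ≤ u x ∧ u x ≤ 1) →
      |e - (ρ / 2 * (∫ x, v x) - 1 / 2 * ∫ k, (𝓕 (fun x => (v x : ℂ)) k).re *
        (1 - √(1 - (𝓕 (fun x => (v x : ℂ)) k).re / ∫ x, v x)))| ≤ ε := by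
  have ig : Integrable (fun k => (𝓕 (fun x => (v x : ℂ)) k).re) := hint.re
  obtain ⟨η, hη, hGi, hG⟩ := small ig hpos hε
  obtain ⟨V, hVV⟩ : ∃ V : ℝ, V = ∫ x, v x := ⟨_, rfl⟩
  have hV : 0 < V := by rw [hVV]; exact hne
  have hε' : 0 < min (V / 2) (η * V / 4) := lt_min (by positivity) (by positivity)
  obtain ⟨ρ₁, hρ₁, hlow⟩ := simple_lower_one hv hv0 hne hε'
  refine ⟨max ρ₁ (8 * Real.pi ^ 2 / (η * V)), lt_max_of_lt_left hρ₁, ?_⟩
  intro ρ hρ u e hsol hu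
  have hρ1 : ρ₁ ≤ ρ := (le_max_left _ _).trans hρ
  have hρ2 : 8 * Real.pi ^ 2 / (η * V) ≤ ρ := (le_max_right _ _).trans hρ
  have hρ0 : 0 < ρ := lt_of_lt_of_le hρ₁ hρ1
  have hl := hlow ρ hρ1 u e hsol hu
  rw [← hVV] at hl
  have heV : ρ * V / 4 ≤ e := by
    have h1 : min (V / 2) (η * V / 4) ≤ V / 2 := min_le_left _ _
    have h2 : ρ / 2 * (V / 2) ≤ ρ / 2 * (V - min (V / 2) (η * V / 4)) :=
      mul_le_mul_of_nonneg_left (by linarith) (by positivity)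
    linarith
  have he : 0 < e := lt_of_lt_of_le (by positivity) heV
  obtain ⟨iuv, ha0, hea, hmean, hS1, hS2, hun⟩ := facts hρ0 hv hv0 hsol hu he
  obtain ⟨a, haa⟩ : ∃ a : ℝ, a = ∫ x, u x * v x := ⟨_, rfl⟩
  have ha1 : a ≤ min (V / 2) (η * V / 4) := by
    have h1 : ρ / 2 * (V - min (V / 2) (η * V / 4)) ≤ ρ / 2 * (V - a) := by
      rw [hVV, haa, ← hea, ← hVV]
      exact hl
    have h2 := le_of_mul_le_mul_left h1 (by positivity)
    linarith
  have hpt : ∀ᵐ k : E3, ‖(ρ : ℂ) * 𝓕 (fun x => (u x : ℂ)) k -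
      ((1 - √(1 - (𝓕 (fun x => (v x : ℂ)) k).re / ∫ x, v x) : ℝ) : ℂ)‖ ≤
      min 2 (√(η * (‖k‖ ^ 2 + 1)) + η * (‖k‖ ^ 2 + 1)) := by
    have h0 : ∀ᵐ k : E3, k ≠ 0 := by
      rw [ae_iff]
      simp
    filter_upwards [h0] with k hk
    refine pointwise hρ0 hv hv0 heven hne hpos hsol hu he ?_ ?_ ?_ hk
    · rw [← haa, ← hVV]
      exact ha1.trans (min_le_left _ _)
    · rw [← haa, ← hVV, div_le_iff₀ hV]
      have := ha1.trans (min_le_right _ _)
      linarith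
    · rw [div_le_iff₀ he]
      rw [div_le_iff₀ (by positivity)] at hρ2
      have h1 : η * (ρ * V / 4) ≤ η * e := mul_le_mul_of_nonneg_left heV hη.le
      nlinarith
  -- integrability
  have iw : Integrable (fun k => (𝓕 (fun x => (v x : ℂ)) k).re *
      (1 - √(1 - (𝓕 (fun x => (v x : ℂ)) k).re / ∫ x, v x))) := by
    have hT : Continuous fun k => (𝓕 (fun x => (v x : ℂ)) k).re :=
      Complex.continuous_re.comp (fe_cont hv.ofReal)
    refine Integrable.mul_bdd (c := 1) ig ?_ (Filter.Eventually.of_forall fun k => ?_)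
    · apply Continuous.aestronglyMeasurable
      fun_prop
    · have h3 := Real.sqrt_nonneg (1 - (𝓕 (fun x => (v x : ℂ)) k).re / ∫ x, v x)
      have h5 : 0 ≤ (𝓕 (fun x => (v x : ℂ)) k).re / ∫ x, v x := div_nonneg (hpos k) hne.le
      have h4 : √(1 - (𝓕 (fun x => (v x : ℂ)) k).re / ∫ x, v x) ≤ 1 :=
        Real.sqrt_le_iff.mpr ⟨by norm_num, by linarith⟩
      rw [Real.norm_eq_abs, abs_le]
      constructor <;> linarith
  have iU : Integrable (fun k => 𝓕 (fun x => (u x : ℂ)) k *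
      (((𝓕 (fun x => (v x : ℂ)) k).re : ℝ) : ℂ)) := by
    refine Integrable.bdd_mul (c := 1 / ρ) ig.ofReal
      (fe_cont hsol.int_u.ofReal).aestronglyMeasurable ?_
    exact Filter.Eventually.of_forall hun
  have key : ((ρ * a : ℝ) : ℂ) - ((∫ k, (𝓕 (fun x => (v x : ℂ)) k).re *
      (1 - √(1 - (𝓕 (fun x => (v x : ℂ)) k).re / ∫ x, v x)) : ℝ) : ℂ) =
      ∫ k, ((ρ : ℂ) * 𝓕 (fun x => (u x : ℂ)) k -
      ((1 - √(1 - (𝓕 (fun x => (v x : ℂ)) k).re / ∫ x, v x) : ℝ) : ℂ)) *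
        (((𝓕 (fun x => (v x : ℂ)) k).re : ℝ) : ℂ) := by
    rw [← integral_complex_ofReal]
    push_cast
    rw [haa, int_uv hv heven hcont hint hsol.int_u, ← integral_const_mul, ← integral_sub]
    · refine integral_congr_ae (Filter.Eventually.of_forall fun k => ?_)
      push_cast
      ring
    · exact iU.const_mul _
    · have := iw.ofReal (𝕜 := ℂ)
      refine this.congr (Filter.Eventually.of_forall fun k => ?_)
      push_cast
      rfl
  have hfin : |ρ * a - ∫ k, (𝓕 (fun x => (v x : ℂ)) k).re *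
      (1 - √(1 - (𝓕 (fun x => (v x : ℂ)) k).re / ∫ x, v x))| ≤ ε := by
    rw [← Real.norm_eq_abs, ← Complex.norm_real, Complex.ofReal_sub, key]
    refine (norm_integral_le_of_norm_le hGi ?_).trans hG
    filter_upwards [hpt] with k hk
    rw [norm_mul, Complex.norm_real, Real.norm_of_nonneg (hpos k)]
    exact mul_le_mul_of_nonneg_right hk (hpos k)
  rw [abs_le] at hfin ⊢
  have hea' : e = ρ / 2 * (V - a) := by rw [hVV, haa]; exact hea
  rw [hea', ← hVV]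
  rw [← hVV] at hfin
  constructor <;> linarith [hfin.1, hfin.2]

end Pool.Agent.P76s
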