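import Pool.Agent.Lib.P76s.Main
import Pool.Agent.Lib.P76s.SimpleExact
import Pool.Agent.Lib.P76s.IntHat
import Pool.Agent.Lib.P76s.KappaC
import Pool.Agent.Lib.P76s.PerLower

/-!
# P76s.Exact: the exact asymptotic gap for potentials of positive type
-/

open MeasureTheory Filter Topology ProbabilityTheory
open scoped ENNReal NNReal BigOperators FourierTransform

namespace Pool.Agent.P76s

theorem integrable_of_decay {v : E3 → ℝ} (hcont : Continuous v) (hv0 : ∀ x, 0 ≤ v x) {C : ℝ}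
    (hdec : ∀ x, v x * (1 + ‖x‖) ^ 4 ≤ C) : Integrable v := by
  have h1 : Integrable (fun x : E3 => C * (1 + ‖x‖) ^ (-(4 : ℝ))) :=
    (integrable_one_add_norm (by simp; norm_num)).const_mul C
  refine h1.mono' hcont.aestronglyMeasurable (Eventually.of_forall fun x => ?_)
  have h2 : 0 < 1 + ‖x‖ := by positivity
  rw [Real.norm_of_nonneg (hv0 x), Real.rpow_neg h2.le, ← div_eq_mul_inv, le_div_iff₀ (by positivity)]
  have := hdec x
  have h3 : (1 + ‖x‖) ^ (4 : ℝ) = (1 + ‖x‖) ^ 4 := by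
    rw [← Real.rpow_natCast]; norm_num
  rw [h3]; exact this

theorem main_exact {v : E3 → ℝ} (hcont : Continuous v) (hv0 : ∀ x, 0 ≤ v x)
    (heven : ∀ x, v (-x) = v x) {C : ℝ} (hdec : ∀ x, v x * (1 + ‖x‖) ^ 4 ≤ C)
    (hne : 0 < ∫ x, v x) (hpos : ∀ k, 0 ≤ (𝓕 (fun x => (v x : ℂ)) k).re) {g : ℝ}
    (hg : g = 1 / 2 * ∫ k, (𝓕 (fun x => (v x : ℂ)) k).re *
        √(1 - (𝓕 (fun x => (v x : ℂ)) k).re / ∫ x, v x)) :
    0 < g ∧ ∀ ε > 0, ∃ ρ₀ > 0, ∀ ρ ≥ ρ₀, ∃ N₀ : ℕ, ∀ (u : E3 → ℝ) (e : ℝ),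
      IsSimpleSolution v ρ u e → (∀ᵐ x, u x ≤ 1) → ∀ N ≥ N₀,
      ENNReal.ofReal ((e - g - ε) * N) ≤
        groundEnergy N ((N / ρ) ^ (1 / 3 : ℝ)) (periodize ((N / ρ) ^ (1 / 3 : ℝ)) (pot v)) ∧
      groundEnergy N ((N / ρ) ^ (1 / 3 : ℝ)) (periodize ((N / ρ) ^ (1 / 3 : ℝ)) (pot v)) ≤
        ENNReal.ofReal ((e - g + ε) * N) := by
  have hv := integrable_of_decay hcont hv0 hdec
  have hvm := hcont.measurable
  have hint := integrable_hat hv hv0 heven hcont hpos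
  have hv00 := hat_zero hv hcont hint
  have hgpos := gap_pos hv hv0 hne hpos hint
  refine ⟨by rw [hg]; linarith, ?_⟩
  intro ε hε
  set V₀ := ∫ x, v x with hV₀
  set B := ∫ k, (𝓕 (fun x => (v x : ℂ)) k).re * (1 - √(1 - (𝓕 (fun x => (v x : ℂ)) k).re / V₀))
    with hB
  have hsum : v 0 = B + 2 * g := by
    have hre : Integrable (fun k => (𝓕 (fun x => (v x : ℂ)) k).re) := hint.re
    have hm : AEStronglyMeasurable (fun k =>
        √(1 - (𝓕 (fun x => (v x : ℂ)) k).re / V₀)) volume := by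
      have h1 : AEStronglyMeasurable (fun k => 1 - (𝓕 (fun x => (v x : ℂ)) k).re / V₀) volume :=
        aestronglyMeasurable_const.sub ((hre.div_const V₀).aestronglyMeasurable)
      exact Real.continuous_sqrt.comp_aestronglyMeasurable h1
    have hb : ∀ k, ‖√(1 - (𝓕 (fun x => (v x : ℂ)) k).re / V₀)‖ ≤ 1 := by
      intro k
      rw [Real.norm_of_nonneg (Real.sqrt_nonneg _)]
      refine Real.sqrt_le_one.2 ?_
      have : 0 ≤ (𝓕 (fun x => (v x : ℂ)) k).re / V₀ := div_nonneg (hpos k) hne.le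
      linarith
    have hI2 : Integrable (fun k => (𝓕 (fun x => (v x : ℂ)) k).re *
        √(1 - (𝓕 (fun x => (v x : ℂ)) k).re / V₀)) :=
      hre.mul_bdd hm (Eventually.of_forall hb)
    have hI1 : Integrable (fun k => (𝓕 (fun x => (v x : ℂ)) k).re *
        (1 - √(1 - (𝓕 (fun x => (v x : ℂ)) k).re / V₀))) := by
      refine (hre.sub hI2).congr (Eventually.of_forall fun k => ?_)
      simp only [Pi.sub_apply]; ring
    have h2 : 2 * g = ∫ k, (𝓕 (fun x => (v x : ℂ)) k).re *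
        √(1 - (𝓕 (fun x => (v x : ℂ)) k).re / V₀) := by rw [hg]; ring
    rw [h2, hB, ← integral_add hI1 hI2, ← hv00]
    congr 1
    ext k
    ring
  obtain ⟨s, hs, ℓ, hℓ, hK⟩ := exists_kappa_cont hvm hv0 hcont.continuousAt
    (show v 0 - ε / 2 < v 0 by linarith)
  obtain ⟨ρ₁, hρ₁, hex⟩ := simple_exact hv hv0 heven hcont hne hpos hint
    (show 0 < ε / 4 by positivity)
  obtain ⟨ρ₂, hρ₂, hup⟩ := upper_density hvm hv hv0 heven hs hℓ hK (show 0 < ε / 8 by positivity)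
  obtain ⟨L₀, hL₀, hlo⟩ := groundEnergy_ge hcont hv0 heven hdec hpos (show 0 < ε / 4 by positivity)
  refine ⟨max ρ₁ ρ₂, by positivity, ?_⟩
  intro ρ hρ
  have hρ1 : ρ₁ ≤ ρ := le_trans (le_max_left _ _) hρ
  have hρ2 : ρ₂ ≤ ρ := le_trans (le_max_right _ _) hρ
  have hρ0 : 0 < ρ := lt_of_lt_of_le hρ₁ hρ1
  obtain ⟨N₀, hN₀⟩ := hup ρ hρ2
  obtain ⟨N₁, hN₁⟩ := eventually_atTop.1 ((tendsto_side hρ0).eventually_ge_atTop L₀)
  refine ⟨max (max N₀ N₁) 1, ?_⟩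
  intro u e hsol hu1 N hN
  have hNa : N₀ ≤ N := le_trans (le_trans (le_max_left _ _) (le_max_left _ _)) hN
  have hNb : N₁ ≤ N := le_trans (le_trans (le_max_right _ _) (le_max_left _ _)) hN
  have hN1 : 0 < N := lt_of_lt_of_le one_pos (le_trans (le_max_right _ _) hN)
  have hN1' : (0 : ℝ) < N := by exact_mod_cast hN1
  have hu0 := nonneg_of_le_one hρ0 hv hv0 hsol hu1
  have hex' := abs_le.1 (hex ρ hρ1 u e hsol
    (by filter_upwards [hu0, hu1] with x h1 h2 using ⟨h1, h2⟩))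
  constructor
  · refine le_trans (ENNReal.ofReal_le_ofReal ?_) (hlo _ (hN₁ N hNb) N)
    rw [mul_comm, side_cube hρ0]
    refine mul_le_mul_of_nonneg_left ?_ hN1'.le
    have h1 : 1 / 2 * ((N : ℝ) / (N / ρ)) = ρ / 2 := by field_simp
    rw [h1]
    linarith [hex'.1, hex'.2]
  · refine (hN₀ N hNa).trans (ENNReal.ofReal_le_ofReal ?_)
    refine mul_le_mul_of_nonneg_right ?_ hN1'.le
    linarith [hex'.1, hex'.2]

end Pool.Agent.P76s
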