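import Pool.Agent.Lib.P76s.Defs

/-!
# P76s.FourierEqn (1.5 h): the Simple equation in Fourier space, Mathlib only

For `ψ ∈ 𝓢` take `φ = 𝓕 ψ` in `IsSimpleSolution.eqn`.  `-(Δ (𝓕 ψ)) = 𝓕 (4π²|x|² ψ)`
(Mathlib/Analysis/Distribution: `SchwartzMap.laplacian_eq_fourierMultiplierCLM`,
`lineDerivOp_fourier_eq`, `Δ` as a sum of second line derivatives) and
`∫ f 𝓕 g = ∫ (𝓕 f) g` (`VectorFourier.integral_fourierIntegral_smul_eq_flip`,
`Real.integral_fourier...`, `fourier` flip formula for integrable functions) turn the equation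
into `∫ (4π²|k|² + 4e) û ψ = ∫ (Ŝ + 2eρ û²) ψ` for all `ψ ∈ 𝓢` (`𝓕 (u ∗ u) = û²`:
`Real.fourier_mul_convolution_eq` or `fourier_bilin_convolution_eq` in
Mathlib/Analysis/Fourier/Convolution.lean).  Both sides are
continuous in `k` (`û`, `Ŝ` are continuous: `Real.fourierIntegral_continuous`-type lemma), so they are
equal everywhere (`ae_eq_of_integral_contDiff_smul_eq` + `Continuous.ae_eq_iff_eq`).
-/

open MeasureTheory Filter Topology
open scoped ENNReal NNReal BigOperators ContDiff FourierTransform SchwartzMap Laplacian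

namespace Pool.Agent.P76s

theorem fe_cont {f : E3 → ℂ} (hf : Integrable f) : Continuous (𝓕 f) :=
  VectorFourier.fourierIntegral_continuous (L := innerₗ E3) Real.continuous_fourierChar
    continuous_inner hf

theorem fe_add {f g : E3 → ℂ} (hf : Integrable f) (hg : Integrable g) (k : E3) :
    𝓕 (fun x => f x + g x) k = 𝓕 f k + 𝓕 g k :=
  congrFun (VectorFourier.fourierIntegral_add (L := innerₗ E3) Real.continuous_fourierChar
    continuous_inner hf hg) k

theorem fe_smul (f : E3 → ℂ) (c : ℂ) (k : E3) :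
    𝓕 (fun x => c * f x) k = c * 𝓕 f k := by
  rw [Real.fourier_eq', Real.fourier_eq', ← integral_const_mul]
  refine integral_congr_ae (Filter.Eventually.of_forall fun x => ?_)
  simp only [smul_eq_mul]
  ring

theorem fe_flip {f : E3 → ℂ} (hf : Integrable f) (g : 𝓢(E3, ℂ)) :
    ∫ x, f x * (𝓕⁻ g) x = ∫ k, 𝓕 f (-k) * g k := by
  have h := VectorFourier.integral_fourierIntegral_smul_eq_flip (L := innerₗ E3) (μ := volume)
    (ν := volume) Real.continuous_fourierChar continuous_inner hf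
    (g := fun x => g (-x)) (g.integrable.comp_neg)
  have h1 : ∫ ξ, 𝓕 f ξ * g (-ξ) = ∫ k, 𝓕 f (-k) * g k := by
    rw [← integral_neg_eq_self (fun ξ => 𝓕 f ξ * g (-ξ))]
    simp only [neg_neg]
  rw [← h1]
  refine Eq.trans ?_ h.symm
  refine integral_congr_ae (Filter.Eventually.of_forall fun x => ?_)
  show f x * (𝓕⁻ g) x = f x • _
  rw [smul_eq_mul, SchwartzMap.fourierInv_coe, Real.fourierInv_eq_fourier_comp_neg]
  congr 1
  rw [Real.fourier_eq]
  unfold VectorFourier.fourierIntegral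
  refine integral_congr_ae (Filter.Eventually.of_forall fun y => ?_)
  simp only [LinearMap.flip_apply, innerₗ_apply_apply]
  rw [real_inner_comm]

open Convolution in
theorem fourier_eqn {v u : E3 → ℝ} {ρ e : ℝ} (h : IsSimpleSolution v ρ u e) (k : E3) :
    ((4 * Real.pi ^ 2 * ‖k‖ ^ 2 + 4 * e : ℝ) : ℂ) * 𝓕 (fun x => (u x : ℂ)) k =
      𝓕 (fun x => (((1 - u x) * v x : ℝ) : ℂ)) k +
        ((2 * e * ρ : ℝ) : ℂ) * (𝓕 (fun x => (u x : ℂ)) k) ^ 2 := by
  set U : E3 → ℂ := fun x => (u x : ℂ) with hU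
  set S : E3 → ℂ := fun x => (((1 - u x) * v x : ℝ) : ℂ) with hS
  have iU : Integrable U := h.int_u.ofReal
  have iS : Integrable S := h.int_S.ofReal
  set CC : E3 → ℂ := U ⋆[ContinuousLinearMap.mul ℂ ℂ, volume] U with hCC
  have iC : Integrable CC := iU.integrable_convolution _ iU
  set R : E3 → ℂ := fun x => S x + ((2 * e * ρ : ℝ) : ℂ) * CC x with hR
  have iR : Integrable R := iS.add (iC.const_mul _)
  have hCx : ∀ x, CC x = ((∫ y, u y * u (x - y) : ℝ) : ℂ) := by
    intro x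
    rw [hCC]
    unfold MeasureTheory.convolution
    rw [← integral_complex_ofReal]
    refine integral_congr_ae (Filter.Eventually.of_forall fun y => ?_)
    simp [hU]
  have hFR : ∀ k, 𝓕 R k = 𝓕 S k + ((2 * e * ρ : ℝ) : ℂ) * (𝓕 U k) ^ 2 := by
    intro k
    rw [hR, fe_add iS (iC.const_mul _), fe_smul, hCC, Real.fourier_mul_convolution_eq iU iU, sq]
  -- the weak equation
  have key : ∀ ψ : 𝓢(E3, ℂ), ∫ k, (((4 * Real.pi ^ 2 * ‖k‖ ^ 2 + 4 * e : ℝ) : ℂ) * 𝓕 U (-k)) * ψ k =
      ∫ k, 𝓕 R (-k) * ψ k := by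
    intro ψ
    have h1 := h.eqn (𝓕⁻ ψ)
    have hgrow : Function.HasTemperateGrowth (fun x : E3 => ‖x‖ ^ 2) := by fun_prop
    set ψ₂ : 𝓢(E3, ℂ) := SchwartzMap.smulLeftCLM ℂ (fun x : E3 => ‖x‖ ^ 2) ψ with hψ₂
    have hΔ : Δ (𝓕⁻ ψ) = (-(2 * Real.pi) ^ 2 : ℝ) • 𝓕⁻ ψ₂ := by
      rw [SchwartzMap.laplacian_eq_fourierMultiplierCLM, SchwartzMap.fourierMultiplierCLM_apply,
        FourierTransform.fourier_fourierInv_eq]
    set χ : 𝓢(E3, ℂ) := (((2 * Real.pi) ^ 2 : ℝ) : ℂ) • ψ₂ + ((4 * e : ℝ) : ℂ) • ψ with hχ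
    have hFχ : 𝓕⁻ χ = (((2 * Real.pi) ^ 2 : ℝ) : ℂ) • 𝓕⁻ ψ₂ + ((4 * e : ℝ) : ℂ) • 𝓕⁻ ψ := by
      rw [hχ, FourierTransform.fourierInv_add, FourierTransform.fourierInv_smul,
        FourierTransform.fourierInv_smul]
    have h2 : ∫ x, U x * (𝓕⁻ χ) x = ∫ x, R x * (𝓕⁻ ψ) x := by
      calc ∫ x, U x * (𝓕⁻ χ) x
          = ∫ x, (u x : ℂ) * (-(Δ (𝓕⁻ ψ)) x + 4 * e * (𝓕⁻ ψ) x) := by
            refine integral_congr_ae (Filter.Eventually.of_forall fun x => ?_)
            show U x * (𝓕⁻ χ) x = (u x : ℂ) * (-(Δ (𝓕⁻ ψ)) x + 4 * e * (𝓕⁻ ψ) x)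
            rw [hFχ, hΔ]
            simp only [add_apply, smul_apply, smul_eq_mul,
              Complex.real_smul, hU]
            push_cast
            ring
        _ = _ := by
            rw [h1]
            refine integral_congr_ae (Filter.Eventually.of_forall fun x => ?_)
            simp only [hR, hS, hCx]
            push_cast
            ring
    rw [fe_flip iU, fe_flip iR] at h2
    rw [← h2]
    refine integral_congr_ae (Filter.Eventually.of_forall fun x => ?_)
    simp only [hχ, add_apply, smul_apply, smul_eq_mul, hψ₂,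
      SchwartzMap.smulLeftCLM_apply_apply hgrow, Complex.real_smul]
    push_cast
    ring
  have cU : Continuous fun k : E3 => ((4 * Real.pi ^ 2 * ‖k‖ ^ 2 + 4 * e : ℝ) : ℂ) * 𝓕 U (-k) := by
    refine Continuous.mul ?_ ((fe_cont iU).comp continuous_neg)
    exact Complex.continuous_ofReal.comp (by fun_prop)
  have cR : Continuous fun k : E3 => 𝓕 R (-k) := (fe_cont iR).comp continuous_neg
  have hae := ae_eq_of_integral_contDiff_smul_eq (μ := (volume : Measure E3))
    cU.locallyIntegrable cR.locallyIntegrable (fun g hg hgs => by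
      have hg1 : ContDiff ℝ ∞ fun x : E3 => ((g x : ℝ) : ℂ) :=
        Complex.ofRealCLM.contDiff.comp hg
      have hg2 : HasCompactSupport fun x : E3 => ((g x : ℝ) : ℂ) :=
        hgs.comp_left (g := fun y : ℝ => (y : ℂ)) Complex.ofReal_zero
      have h3 := key (hg2.toSchwartzMap hg1)
      simp only [HasCompactSupport.toSchwartzMap_toFun] at h3
      simp only [Complex.real_smul]
      refine Eq.trans ?_ (h3.trans ?_)
      · exact integral_congr_ae (Filter.Eventually.of_forall fun x => mul_comm _ _)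
      · exact integral_congr_ae (Filter.Eventually.of_forall fun x => mul_comm _ _))
  have hfun := (Continuous.ae_eq_iff_eq (volume : Measure E3) cU cR).1 hae
  have h4 := congrFun hfun (-k)
  simp only [neg_neg, norm_neg] at h4
  rw [h4, hFR]

end Pool.Agent.P76s
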