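import Pool.Agent.Lib.P76s.Defs

/-!
# P76s.FourierPos (2 h): periodic functions of positive type (Mathlib only)

`W` continuous, `L`-periodic, even, with nonnegative Fourier coefficients.  Then
`∑_{i,j} W(x_i - x_j) ≥ N² · (mean of W)`.

Proof.  The Fourier coefficients `c_n ≥ 0` of `W` are summable: `∑_{a,a' ∈ [0,k)³} c_{a'-a} = ∫ W |∑_a e_a|² ≤ sup W · k³`
(nonnegativity of the Fejér kernel).  So `W(y) = ∑_n c_n e_n(y)` pointwise
(`UnitAddTorus.hasSum_mFourier_series_apply_of_summable`), and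
`∑_{i,j} W(x_i - x_j) = ∑_n c_n |∑_i e_n(x_i)|² ≥ c_0 N²`.
-/

open MeasureTheory Filter Topology ProbabilityTheory
open scoped ENNReal NNReal BigOperators Pointwise

namespace Pool.Agent.P76s

namespace FourierPosAux

open UnitAddTorus

/-- the projection onto the torus -/
noncomputable def pr (x : Fin 3 → ℝ) : UnitAddTorus (Fin 3) := fun b => (x b : UnitAddCircle)

/-- the phase -/
noncomputable def ph (n : Fin 3 → ℤ) (x : Fin 3 → ℝ) : ℝ := 2 * Real.pi * ∑ b, (n b : ℝ) * x b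

/-- the character -/
noncomputable def ch (n : Fin 3 → ℤ) (x : Fin 3 → ℝ) : ℂ := Complex.exp ((ph n x : ℝ) * Complex.I)

lemma mF_pr (n : Fin 3 → ℤ) (x : Fin 3 → ℝ) : mFourier n (pr x) = ch n x := by
  unfold ch pr ph mFourier
  simp only [ContinuousMap.coe_mk, fourier_coe_apply]
  rw [← Complex.exp_sum]
  congr 1
  push_cast
  rw [Finset.mul_sum, Finset.sum_mul]
  refine Finset.sum_congr rfl fun b _ => ?_
  ring

lemma ch_re (n : Fin 3 → ℤ) (x : Fin 3 → ℝ) : (ch n x).re = Real.cos (ph n x) :=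
  Complex.exp_ofReal_mul_I_re _

lemma ch_im (n : Fin 3 → ℤ) (x : Fin 3 → ℝ) : (ch n x).im = Real.sin (ph n x) :=
  Complex.exp_ofReal_mul_I_im _

lemma ph_neg (n : Fin 3 → ℤ) (x : Fin 3 → ℝ) : ph (-n) x = -ph n x := by
  unfold ph
  simp only [Pi.neg_apply, Int.cast_neg, neg_mul, Finset.sum_neg_distrib, mul_neg]

lemma ph_neg' (n : Fin 3 → ℤ) (x : Fin 3 → ℝ) : ph n (-x) = -ph n x := by
  unfold ph
  simp only [Pi.neg_apply, mul_neg, Finset.sum_neg_distrib]

lemma ph_sub (m n : Fin 3 → ℤ) (x : Fin 3 → ℝ) : ph (m - n) x = ph m x - ph n x := by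
  unfold ph
  simp only [Pi.sub_apply, Int.cast_sub, sub_mul, Finset.sum_sub_distrib, mul_sub]

lemma ph_sub' (n : Fin 3 → ℤ) (x y : Fin 3 → ℝ) : ph n (x - y) = ph n x - ph n y := by
  unfold ph
  simp only [Pi.sub_apply, mul_sub, Finset.sum_sub_distrib]

lemma ph_zero (x : Fin 3 → ℝ) : ph 0 x = 0 := by
  unfold ph
  simp

lemma ch_sub (m n : Fin 3 → ℤ) (x : Fin 3 → ℝ) :
    ch (m - n) x = ch m x * (starRingEnd ℂ) (ch n x) := by
  unfold ch
  rw [← Complex.exp_conj, ← Complex.exp_add, ph_sub]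
  congr 1
  simp only [map_mul, Complex.conj_ofReal, Complex.conj_I]
  push_cast
  ring

lemma ch_sub' (n : Fin 3 → ℤ) (x y : Fin 3 → ℝ) :
    ch n (x - y) = ch n x * (starRingEnd ℂ) (ch n y) := by
  unfold ch
  rw [← Complex.exp_conj, ← Complex.exp_add, ph_sub']
  congr 1
  simp only [map_mul, Complex.conj_ofReal, Complex.conj_I]
  push_cast
  ring

lemma ch_zero (x : Fin 3 → ℝ) : ch 0 x = 1 := by
  unfold ch
  rw [ph_zero]
  simp

lemma continuous_ph (n : Fin 3 → ℤ) : Continuous (ph n) := by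
  unfold ph
  fun_prop

lemma continuous_ch (n : Fin 3 → ℤ) : Continuous (ch n) := by
  unfold ch
  have := continuous_ph n
  fun_prop

/-- descent to the torus -/
lemma exists_desc {g : (Fin 3 → ℝ) → ℝ} (hg : Continuous g)
    (hper : ∀ x (n : Fin 3 → ℤ), g (fun b => x b + n b) = g x) :
    ∃ f : C(UnitAddTorus (Fin 3), ℂ), ∀ x, f (pr x) = (g x : ℂ) := by
  have hq : IsOpenQuotientMap pr :=
    IsOpenQuotientMap.piMap (f := fun (_ : Fin 3) (t : ℝ) => (t : UnitAddCircle))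
      (fun _ => QuotientAddGroup.isOpenQuotientMap_mk)
  have hs : ∀ θ : UnitAddTorus (Fin 3), ∃ x, pr x = θ := hq.surjective
  choose σ hσ using hs
  have h1 : ∀ x, g (σ (pr x)) = g x := by
    intro x
    have h2 := hσ (pr x)
    have h3 : ∀ b, ∃ m : ℤ, σ (pr x) b = x b + m := by
      intro b
      have h4 : ((σ (pr x) b : ℝ) : UnitAddCircle) = ((x b : ℝ) : UnitAddCircle) := congrFun h2 b
      have h5 : ((σ (pr x) b - x b : ℝ) : UnitAddCircle) = 0 := by
        rw [AddCircle.coe_sub, h4, sub_self]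
      obtain ⟨m, hm⟩ := (AddCircle.coe_eq_zero_iff _).1 h5
      refine ⟨m, ?_⟩
      rw [zsmul_eq_mul, mul_one] at hm
      linarith
    choose m hm using h3
    have h4 : σ (pr x) = fun b => x b + (m b : ℤ) := funext hm
    rw [h4, hper]
  refine ⟨⟨fun θ => ((g (σ θ) : ℝ) : ℂ), ?_⟩, fun x => ?_⟩
  · rw [hq.isQuotientMap.continuous_iff]
    have h2 : (fun θ => ((g (σ θ) : ℝ) : ℂ)) ∘ pr = fun x => ((g x : ℝ) : ℂ) :=
      funext fun x => by rw [Function.comp_apply, h1]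
    rw [h2]
    exact Complex.continuous_ofReal.comp hg
  · change ((g (σ (pr x)) : ℝ) : ℂ) = _
    rw [h1]

/-- the box -/
def Q (a : ℝ) : Set (Fin 3 → ℝ) := Set.Icc (fun _ => a) (fun _ => a + 1)

lemma isCompact_Q (a : ℝ) : IsCompact (Q a) := isCompact_Icc

lemma coeff_eq {g : (Fin 3 → ℝ) → ℝ} {f : C(UnitAddTorus (Fin 3), ℂ)}
    (hf : ∀ x, f (pr x) = (g x : ℂ)) (n : Fin 3 → ℤ) (a : ℝ) :
    mFourierCoeff f n = ∫ x in Q a, ch (-n) x * (g x : ℂ) := by
  rw [mFourierCoeff_eq_integral f n (fun _ => a)]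
  have h1 : {x : Fin 3 → ℝ | ∀ i, x i ∈ Set.Ioc a (a + 1)} =ᵐ[volume] Q a := by
    have h2 : {x : Fin 3 → ℝ | ∀ i, x i ∈ Set.Ioc a (a + 1)} =
        Set.pi Set.univ fun _ : Fin 3 => Set.Ioc a (a + 1) := by
      ext x
      simp
    rw [h2, volume_pi]
    exact Measure.univ_pi_Ioc_ae_eq_Icc
  rw [setIntegral_congr_set h1]
  refine integral_congr_ae (Eventually.of_forall fun x => ?_)
  change mFourier (-n) (pr x) • f (pr x) = _
  rw [mF_pr, hf, smul_eq_mul]

lemma integrableOn_Q {F : (Fin 3 → ℝ) → ℂ} (hF : Continuous F) (a : ℝ) :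
    Integrable F (volume.restrict (Q a)) :=
  hF.continuousOn.integrableOn_compact (isCompact_Q a)

lemma coeff_im {g : (Fin 3 → ℝ) → ℝ} (hg : Continuous g) (heven : ∀ x, g (-x) = g x)
    {f : C(UnitAddTorus (Fin 3), ℂ)} (hf : ∀ x, f (pr x) = (g x : ℂ)) (n : Fin 3 → ℤ) :
    (mFourierCoeff f n).im = 0 := by
  have h0 : Continuous fun x => ch (-n) x * (g x : ℂ) :=
    (continuous_ch _).mul (Complex.continuous_ofReal.comp hg)
  have h1 := integral_im (integrableOn_Q h0 (-1 / 2)) (𝕜 := ℂ)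
  simp only [RCLike.im_to_complex, ← coeff_eq hf] at h1
  rw [← h1]
  have h2 : ∀ x, (ch (-n) x * (g x : ℂ)).im = Real.sin (ph (-n) x) * g x := fun x => by
    rw [Complex.mul_im, Complex.ofReal_re, Complex.ofReal_im, mul_zero, zero_add, ch_im]
  simp only [h2]
  set F : (Fin 3 → ℝ) → ℝ := fun x => Real.sin (ph (-n) x) * g x with hF
  have hodd : ∀ x, F (-x) = -F x := fun x => by
    simp only [hF, ph_neg', Real.sin_neg, heven, neg_mul]
  have hQ : ∀ x, -x ∈ Q (-1 / 2) ↔ x ∈ Q (-1 / 2) := by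
    intro x
    unfold Q
    simp only [Set.mem_Icc, Pi.le_def, Pi.neg_apply]
    constructor
    · rintro ⟨h1, h2⟩
      exact ⟨fun i => by have := h2 i; linarith, fun i => by have := h1 i; linarith⟩
    · rintro ⟨h1, h2⟩
      exact ⟨fun i => by have := h2 i; linarith, fun i => by have := h1 i; linarith⟩
  have hm : MeasurableSet (Q (-1 / 2)) := measurableSet_Icc
  have h3 : ∫ x in Q (-1 / 2), F x = -∫ x in Q (-1 / 2), F x := by
    rw [← integral_indicator hm]
    conv_lhs => rw [← integral_neg_eq_self]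
    rw [← integral_neg]
    refine integral_congr_ae (Eventually.of_forall fun x => ?_)
    by_cases h : x ∈ Q (-1 / 2)
    · simp only [Set.indicator_of_mem h, Set.indicator_of_mem ((hQ x).2 h), hodd]
    · simp only [Set.indicator_of_notMem h, Set.indicator_of_notMem (fun h' => h ((hQ x).1 h')),
        neg_zero]
  linarith

lemma coeff_re {g : (Fin 3 → ℝ) → ℝ} (hg : Continuous g)
    {f : C(UnitAddTorus (Fin 3), ℂ)} (hf : ∀ x, f (pr x) = (g x : ℂ)) (n : Fin 3 → ℤ) :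
    (mFourierCoeff f n).re = ∫ x in Q 0, g x * Real.cos (ph n x) := by
  have h0 : Continuous fun x => ch (-n) x * (g x : ℂ) :=
    (continuous_ch _).mul (Complex.continuous_ofReal.comp hg)
  have h1 := integral_re (integrableOn_Q h0 0) (𝕜 := ℂ)
  simp only [RCLike.re_to_complex, ← coeff_eq hf] at h1
  rw [← h1]
  refine integral_congr_ae (Eventually.of_forall fun x => ?_)
  change (ch (-n) x * (g x : ℂ)).re = g x * Real.cos (ph n x)
  rw [Complex.mul_re, Complex.ofReal_re, Complex.ofReal_im, mul_zero, sub_zero, ch_re, ph_neg,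
    Real.cos_neg, mul_comm]

lemma smul_box {L : ℝ} (hL : 0 < L) : L • box 1 = box L := by
  ext y
  rw [Set.mem_smul_set_iff_inv_smul_mem₀ hL.ne']
  unfold box
  simp only [Set.mem_pi, Set.mem_univ, true_implies, Set.mem_Ico, Pi.smul_apply, smul_eq_mul]
  refine forall_congr' fun b => ?_
  rw [inv_mul_lt_one₀ hL]
  constructor
  · rintro ⟨h1, h2⟩
    refine ⟨?_, h2⟩
    by_contra h
    rw [not_le] at h
    exact absurd h1 (not_le.2 (mul_neg_of_pos_of_neg (inv_pos.2 hL) h))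
  · rintro ⟨h1, h2⟩
    exact ⟨mul_nonneg (inv_nonneg.2 hL.le) h1, h2⟩

lemma box_scale {L : ℝ} (hL : 0 < L) (F : (Fin 3 → ℝ) → ℝ) :
    ∫ x in Q 0, F (L • x) = (L ^ 3)⁻¹ * ∫ y in box L, F y := by
  have h1 := Measure.setIntegral_comp_smul_of_pos (volume : Measure (Fin 3 → ℝ)) F (box 1) hL
  rw [smul_box hL, Module.finrank_fin_fun, smul_eq_mul] at h1
  rw [← h1]
  refine (setIntegral_congr_set ?_).symm
  unfold box Q
  rw [zero_add, volume_pi]
  exact Measure.univ_pi_Ico_ae_eq_Icc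

/-- orthogonality -/
lemma integral_ch {n : Fin 3 → ℤ} (hn : n ≠ 0) : ∫ x in Q 0, ch n x = 0 := by
  have h1 : Q 0 =ᵐ[volume] Set.pi Set.univ fun _ : Fin 3 => Set.Ioc (0 : ℝ) 1 := by
    unfold Q
    rw [zero_add, volume_pi]
    exact Measure.univ_pi_Ioc_ae_eq_Icc.symm
  rw [setIntegral_congr_set h1, volume_pi, Measure.restrict_pi_pi]
  have h2 : ∀ x : Fin 3 → ℝ, ch n x =
      ∏ b, Complex.exp ((2 * Real.pi * Complex.I * n b) * x b) := by
    intro x
    unfold ch ph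
    rw [← Complex.exp_sum]
    congr 1
    push_cast
    rw [Finset.mul_sum, Finset.sum_mul]
    refine Finset.sum_congr rfl fun b _ => ?_
    ring
  simp only [h2]
  rw [integral_fintype_prod_eq_prod
    (fun (b : Fin 3) (t : ℝ) => Complex.exp ((2 * Real.pi * Complex.I * n b) * t))]
  obtain ⟨b, hb⟩ := Function.ne_iff.1 hn
  refine Finset.prod_eq_zero (Finset.mem_univ b) ?_
  have hb' : (n b : ℂ) ≠ 0 := by exact_mod_cast hb
  have hc : 2 * Real.pi * Complex.I * n b ≠ 0 := by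
    refine mul_ne_zero (mul_ne_zero (mul_ne_zero two_ne_zero ?_) Complex.I_ne_zero) hb'
    exact_mod_cast Real.pi_ne_zero
  rw [← intervalIntegral.integral_of_le zero_le_one, integral_exp_mul_complex hc]
  have h3 : Complex.exp (2 * Real.pi * Complex.I * n b * ((1 : ℝ) : ℂ)) = 1 := by
    rw [Complex.ofReal_one, mul_one, mul_comm]
    exact Complex.exp_int_mul_two_pi_mul_I (n b)
  rw [h3, Complex.ofReal_zero, mul_zero, Complex.exp_zero, sub_self, zero_div]

/-- cast -/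
def ic (a : Fin 3 → ℕ) : Fin 3 → ℤ := fun b => (a b : ℤ)

lemma ic_injective : Function.Injective ic := by
  intro a a' h
  funext b
  have := congrFun h b
  unfold ic at this
  exact_mod_cast this

/-- the cube -/
def AA (k : ℕ) : Finset (Fin 3 → ℕ) := Fintype.piFinset fun _ => Finset.range k

lemma card_AA (k : ℕ) : (AA k).card = k ^ 3 := by
  unfold AA
  rw [Fintype.card_piFinset_const, Finset.card_range]

lemma mem_AA {k : ℕ} {a : Fin 3 → ℕ} : a ∈ AA k ↔ ∀ b, a b < k := by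
  unfold AA
  simp

lemma normSq_sum (A : Finset (Fin 3 → ℕ)) (x : Fin 3 → ℝ) :
    Complex.normSq (∑ a ∈ A, ch (ic a) x) =
      ∑ a ∈ A, ∑ a' ∈ A, Real.cos (ph (ic a' - ic a) x) := by
  have h1 : ((Complex.normSq (∑ a ∈ A, ch (ic a) x) : ℝ) : ℂ) =
      ∑ a ∈ A, ∑ a' ∈ A, ch (ic a' - ic a) x := by
    rw [← Complex.mul_conj, map_sum, Finset.sum_mul_sum, Finset.sum_comm]
    refine Finset.sum_congr rfl fun a _ => Finset.sum_congr rfl fun a' _ => ?_
    rw [ch_sub]
  have h2 := congrArg Complex.re h1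
  rw [Complex.ofReal_re] at h2
  rw [h2, Complex.re_sum]
  refine Finset.sum_congr rfl fun a _ => ?_
  rw [Complex.re_sum]
  exact Finset.sum_congr rfl fun a' _ => ch_re _ _

lemma integrableOn_Q' {F : (Fin 3 → ℝ) → ℝ} (hF : Continuous F) (a : ℝ) :
    Integrable F (volume.restrict (Q a)) :=
  hF.continuousOn.integrableOn_compact (isCompact_Q a)

lemma continuous_cosph (n : Fin 3 → ℤ) : Continuous fun x => Real.cos (ph n x) :=
  Real.continuous_cos.comp (continuous_ph n)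

lemma fejer_eq {g : (Fin 3 → ℝ) → ℝ} (hg : Continuous g)
    {f : C(UnitAddTorus (Fin 3), ℂ)} (hf : ∀ x, f (pr x) = (g x : ℂ)) (A : Finset (Fin 3 → ℕ)) :
    ∑ a ∈ A, ∑ a' ∈ A, (mFourierCoeff f (ic a' - ic a)).re =
      ∫ x in Q 0, g x * Complex.normSq (∑ a ∈ A, ch (ic a) x) := by
  have hI : ∀ n : Fin 3 → ℤ, Integrable (fun x => g x * Real.cos (ph n x))
      (volume.restrict (Q 0)) := fun n => integrableOn_Q' (hg.mul (continuous_cosph n)) 0
  simp only [coeff_re hg hf, normSq_sum, Finset.mul_sum]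
  rw [integral_finsetSum _ fun a _ => integrable_finsetSum _ fun a' _ => hI _]
  refine Finset.sum_congr rfl fun a _ => ?_
  rw [integral_finsetSum _ fun a' _ => hI _]

lemma integral_cos (n : Fin 3 → ℤ) :
    ∫ x in Q 0, Real.cos (ph n x) = if n = 0 then 1 else 0 := by
  split_ifs with h
  · rw [h]
    simp only [ph_zero, Real.cos_zero]
    rw [integral_const, smul_eq_mul, mul_one]
    change ((volume.restrict (Q 0)) Set.univ).toReal = 1
    rw [Measure.restrict_apply_univ]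
    unfold Q
    rw [Real.volume_Icc_pi]
    simp
  · have h1 := integral_re (integrableOn_Q (continuous_ch n) 0) (𝕜 := ℂ)
    rw [integral_ch h] at h1
    simp only [RCLike.re_to_complex, ch_re, Complex.zero_re] at h1
    exact h1

lemma integral_normSq (k : ℕ) :
    ∫ x in Q 0, Complex.normSq (∑ a ∈ AA k, ch (ic a) x) = (k : ℝ) ^ 3 := by
  have hI : ∀ n : Fin 3 → ℤ, Integrable (fun x => Real.cos (ph n x))
      (volume.restrict (Q 0)) := fun n => integrableOn_Q' (continuous_cosph n) 0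
  simp only [normSq_sum]
  rw [integral_finsetSum _ fun a _ => integrable_finsetSum _ fun a' _ => hI _]
  have h1 : ∀ a ∈ AA k, ∫ x in Q 0, ∑ a' ∈ AA k, Real.cos (ph (ic a' - ic a) x) = 1 := by
    intro a ha
    rw [integral_finsetSum _ fun a' _ => hI _]
    simp only [integral_cos, sub_eq_zero, ic_injective.eq_iff]
    rw [Finset.sum_ite_eq' (AA k) a, if_pos ha]
  rw [Finset.sum_congr rfl h1, Finset.sum_const, card_AA, nsmul_eq_mul, mul_one]
  push_cast
  rfl

lemma fejer_le {g : (Fin 3 → ℝ) → ℝ} (hg : Continuous g)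
    {f : C(UnitAddTorus (Fin 3), ℂ)} (hf : ∀ x, f (pr x) = (g x : ℂ)) {M : ℝ}
    (hM : ∀ x, g x ≤ M) (k : ℕ) :
    ∑ a ∈ AA k, ∑ a' ∈ AA k, (mFourierCoeff f (ic a' - ic a)).re ≤ M * (k : ℝ) ^ 3 := by
  rw [fejer_eq hg hf, ← integral_normSq k, ← integral_const_mul]
  have hD : Continuous fun x => Complex.normSq (∑ a ∈ AA k, ch (ic a) x) :=
    Complex.continuous_normSq.comp (continuous_finsetSum _ fun a _ => continuous_ch _)
  refine integral_mono (integrableOn_Q' (hg.mul hD) 0)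
    (integrableOn_Q' (continuous_const.mul hD) 0) fun x => ?_
  exact mul_le_mul_of_nonneg_right (hM x) (Complex.normSq_nonneg _)

lemma sum_lower {c : (Fin 3 → ℤ) → ℝ} (hc : ∀ n, 0 ≤ c n) (S : Finset (Fin 3 → ℤ)) (m : ℕ)
    (hm : ∀ n ∈ S, ∀ b, |n b| ≤ m) (j : ℕ) :
    (j : ℝ) ^ 3 * ∑ n ∈ S, c n ≤
      ∑ a ∈ AA (j + m), ∑ a' ∈ AA (j + m), c (ic a' - ic a) := by
  classical
  obtain ⟨φ, hφ⟩ : ∃ φ : (Fin 3 → ℤ) × (Fin 3 → ℕ) → (Fin 3 → ℕ) × (Fin 3 → ℕ),
      φ = fun p => (fun b => p.2 b + (-p.1 b).toNat, fun b => p.2 b + (p.1 b).toNat) := ⟨_, rfl⟩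
  have h1 : ∀ p, ic (φ p).2 - ic (φ p).1 = p.1 := by
    intro p
    rw [hφ]
    funext b
    unfold ic
    have := Int.toNat_sub_toNat_neg (p.1 b)
    simp only [Pi.sub_apply]
    push_cast
    omega
  have hinj : Function.Injective φ := by
    intro p p' h
    have h2 : p.1 = p'.1 := by rw [← h1 p, ← h1 p', h]
    refine Prod.ext h2 ?_
    have h3 := congrArg Prod.fst h
    rw [hφ] at h3
    funext b
    have h4 := congrFun h3 b
    simp only at h4
    rw [h2] at h4
    exact Nat.add_right_cancel h4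
  have h2 : (j : ℝ) ^ 3 * ∑ n ∈ S, c n = ∑ p ∈ S ×ˢ AA j, c (ic (φ p).2 - ic (φ p).1) := by
    simp only [h1]
    rw [Finset.sum_product, Finset.mul_sum]
    refine Finset.sum_congr rfl fun n _ => ?_
    change _ = ∑ _y ∈ AA j, c n
    rw [Finset.sum_const, card_AA, nsmul_eq_mul]
    push_cast
    rfl
  have h3 : ∑ a ∈ AA (j + m), ∑ a' ∈ AA (j + m), c (ic a' - ic a) =
      ∑ q ∈ AA (j + m) ×ˢ AA (j + m), c (ic q.2 - ic q.1) := by
    rw [Finset.sum_product]
  rw [h2, h3, ← Finset.sum_image (s := S ×ˢ AA j) (g := φ)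
    (f := fun q => c (ic q.2 - ic q.1)) (fun p _ p' _ h => hinj h)]
  refine Finset.sum_le_sum_of_subset_of_nonneg ?_ fun q _ _ => hc _
  intro q hq
  obtain ⟨p, hp, rfl⟩ := Finset.mem_image.1 hq
  obtain ⟨hp1, hp2⟩ := Finset.mem_product.1 hp
  have h4 := hm _ hp1
  rw [mem_AA] at hp2
  rw [Finset.mem_product, mem_AA, mem_AA, hφ]
  constructor
  · intro b
    have h5 := abs_le.1 (h4 b)
    have h6 := hp2 b
    simp only
    omega
  · intro b
    have h5 := abs_le.1 (h4 b)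
    have h6 := hp2 b
    simp only
    omega

lemma sum_le {g : (Fin 3 → ℝ) → ℝ} (hg : Continuous g)
    {f : C(UnitAddTorus (Fin 3), ℂ)} (hf : ∀ x, f (pr x) = (g x : ℂ)) {M : ℝ}
    (hM : ∀ x, g x ≤ M) (hpos : ∀ n, 0 ≤ (mFourierCoeff f n).re) (S : Finset (Fin 3 → ℤ)) :
    ∑ n ∈ S, (mFourierCoeff f n).re ≤ M := by
  obtain ⟨m, hm⟩ : ∃ m : ℕ, ∀ n ∈ S, ∀ b, |n b| ≤ (m : ℤ) := by
    refine ⟨∑ n ∈ S, ∑ b, (n b).natAbs, fun n hn b => ?_⟩
    have h1 : (n b).natAbs ≤ ∑ b, (n b).natAbs :=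
      Finset.single_le_sum (f := fun b => (n b).natAbs) (fun _ _ => Nat.zero_le _)
        (Finset.mem_univ b)
    have h2 : ∑ b, (n b).natAbs ≤ ∑ n ∈ S, ∑ b, (n b).natAbs :=
      Finset.single_le_sum (f := fun n : Fin 3 → ℤ => ∑ b, (n b).natAbs)
        (fun _ _ => Nat.zero_le _) hn
    have h3 := h1.trans h2
    rw [Int.abs_eq_natAbs]
    exact_mod_cast h3
  have h1 : ∀ j : ℕ, ∑ n ∈ S, (mFourierCoeff f n).re ≤
      M * (1 + m * (1 / ((j : ℝ) + 1))) ^ 3 := by
    intro j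
    have h2 := (sum_lower hpos S m hm (j + 1)).trans (fejer_le hg hf hM (j + 1 + m))
    have hj : (0 : ℝ) < ((j : ℝ) + 1) ^ 3 := by positivity
    push_cast at h2
    have h3 : M * ((j : ℝ) + 1 + m) ^ 3 =
        ((j : ℝ) + 1) ^ 3 * (M * (1 + m * (1 / ((j : ℝ) + 1))) ^ 3) := by
      field_simp
    rw [h3] at h2
    exact le_of_mul_le_mul_left h2 hj
  have h2 : Tendsto (fun j : ℕ => M * (1 + m * (1 / ((j : ℝ) + 1))) ^ 3) atTop
      (𝓝 (M * (1 + m * 0) ^ 3)) :=
    (((tendsto_one_div_add_atTop_nhds_zero_nat (𝕜 := ℝ)).const_mul _).const_add _).pow 3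
      |>.const_mul _
  have h3 := ge_of_tendsto' h2 h1
  simpa using h3

end FourierPosAux

open FourierPosAux UnitAddTorus in
theorem fourier_pos {L : ℝ} (hL : 0 < L) {W : (Fin 3 → ℝ) → ℝ} (hc : Continuous W)
    (hper : ∀ y (n : Fin 3 → ℤ), W (y + lat L n) = W y) (heven : ∀ y, W (-y) = W y)
    (hcoef : ∀ n : Fin 3 → ℤ,
      0 ≤ ∫ y in box L, W y * Real.cos (2 * Real.pi / L * ∑ b, n b * y b))
    {N : ℕ} (x : Fin N → Fin 3 → ℝ) :
    (N : ℝ) ^ 2 / L ^ 3 * ∫ y in box L, W y ≤ ∑ i, ∑ j, W (x i - x j) := by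
  obtain ⟨g, hgdef⟩ : ∃ g : (Fin 3 → ℝ) → ℝ, g = fun x => W (L • x) := ⟨_, rfl⟩
  have hg : Continuous g := by
    rw [hgdef]
    fun_prop
  have hgper : ∀ x (n : Fin 3 → ℤ), g (fun b => x b + n b) = g x := by
    intro x n
    rw [hgdef]
    have h1 : (L • fun b => x b + (n b : ℝ)) = L • x + lat L n := by
      funext b
      simp only [Pi.smul_apply, Pi.add_apply, smul_eq_mul, lat]
      ring
    simp only [h1, hper]
  have hgeven : ∀ x, g (-x) = g x := by
    intro x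
    rw [hgdef]
    simp only [smul_neg, heven]
  obtain ⟨f, hf⟩ := exists_desc hg hgper
  have hscale : ∀ n : Fin 3 → ℤ, (mFourierCoeff f n).re = (L ^ 3)⁻¹ *
      ∫ y in box L, W y * Real.cos (2 * Real.pi / L * ∑ b, n b * y b) := by
    intro n
    rw [coeff_re hg hf, ← box_scale hL (fun y => W y * Real.cos (2 * Real.pi / L * ∑ b, n b * y b))]
    refine integral_congr_ae (Eventually.of_forall fun x => ?_)
    rw [hgdef]
    simp only [Pi.smul_apply, smul_eq_mul]
    congr 2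
    unfold ph
    rw [Finset.mul_sum, Finset.mul_sum]
    refine Finset.sum_congr rfl fun b _ => ?_
    field_simp
  have hpos : ∀ n, 0 ≤ (mFourierCoeff f n).re := by
    intro n
    rw [hscale]
    exact mul_nonneg (by positivity) (hcoef n)
  have hM : ∀ x, g x ≤ ‖f‖ := by
    intro x
    have h1 := f.norm_coe_le_norm (pr x)
    rw [hf, Complex.norm_real] at h1
    exact (le_abs_self _).trans h1
  have hsum : Summable fun n => (mFourierCoeff f n).re :=
    summable_of_sum_le hpos (sum_le hg hf hM hpos)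
  have hco : ∀ n, mFourierCoeff f n = (((mFourierCoeff f n).re : ℝ) : ℂ) := fun n =>
    Complex.ext (by rw [Complex.ofReal_re]) (by rw [Complex.ofReal_im, coeff_im hg hgeven hf])
  have hsum' : Summable (mFourierCoeff f) := by
    have h1 := Complex.hasSum_ofReal.2 hsum.hasSum
    exact (h1.summable).congr fun n => (hco n).symm
  obtain ⟨u, hu⟩ : ∃ u : Fin N → Fin 3 → ℝ, u = fun i => L⁻¹ • x i := ⟨_, rfl⟩
  have hval : ∀ i j, g (u i - u j) = W (x i - x j) := by
    intro i j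
    rw [hgdef, hu]
    simp only [← smul_sub]
    rw [smul_inv_smul₀ hL.ne']
  have hser : HasSum (fun n => ∑ i, ∑ j, mFourierCoeff f n * ch n (u i - u j))
      (∑ i, ∑ j, ((W (x i - x j) : ℝ) : ℂ)) := by
    refine hasSum_sum fun i _ => hasSum_sum fun j _ => ?_
    have h1 := hasSum_mFourier_series_apply_of_summable hsum' (pr (u i - u j))
    rw [hf, hval] at h1
    refine h1.congr_fun fun n => ?_
    rw [mF_pr, smul_eq_mul]
  have hterm : ∀ n, ∑ i, ∑ j, mFourierCoeff f n * ch n (u i - u j) =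
      (((mFourierCoeff f n).re * Complex.normSq (∑ i, ch n (u i)) : ℝ) : ℂ) := by
    intro n
    rw [Complex.ofReal_mul, ← hco, ← Complex.mul_conj, map_sum, Finset.sum_mul_sum,
      Finset.mul_sum]
    refine Finset.sum_congr rfl fun i _ => ?_
    rw [Finset.mul_sum]
    refine Finset.sum_congr rfl fun j _ => ?_
    rw [ch_sub']
  simp only [hterm] at hser
  have hre : HasSum (fun n => (mFourierCoeff f n).re * Complex.normSq (∑ i, ch n (u i)))
      (∑ i, ∑ j, W (x i - x j)) := by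
    rw [← Complex.hasSum_ofReal]
    have h1 : (((∑ i, ∑ j, W (x i - x j) : ℝ)) : ℂ) = ∑ i, ∑ j, ((W (x i - x j) : ℝ) : ℂ) := by
      push_cast
      rfl
    rw [h1]
    exact hser
  have h0 := le_hasSum hre 0 fun n _ => mul_nonneg (hpos n) (Complex.normSq_nonneg _)
  refine le_trans (le_of_eq ?_) h0
  rw [hscale]
  simp only [ch_zero, Pi.zero_apply, Int.cast_zero, zero_mul, Finset.sum_const_zero, mul_zero,
    Real.cos_zero, mul_one]
  rw [Finset.sum_const, Finset.card_univ, Fintype.card_fin, nsmul_eq_mul, mul_one,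
    Complex.normSq_natCast]
  ring

end Pool.Agent.P76s
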