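import Pool.Agent.Lib.P76s.Defs

/-!
# P76s.Gauss1D (1.2 h): Gaussian averages of bounded functions of one variable, Mathlib only

`F(t) = ∫ f(t+z) dγ_s(z)`, `f` measurable, `0 ≤ f ≤ C`, `s ≠ 0`.

Suggested proof.  `F(t) = ∫ f(y) G(y-t) dy` (`gaussianReal` has density `gaussianPDFReal`), and
`G(y-t) = exp(-t²/(2s)) exp(ty/s) G(y)`; so `F(t) = exp(-t²/(2s)) * mgf id ((gaussianReal 0 s).withDensity f) (t/s)`
(`f` as an `ENNReal.ofReal`-valued density; or work with `∫ f(y) exp(τ y) dγ_s(y)` directly).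
The set `integrableExpSet` is everything (`integrable_exp_mul_gaussianReal`, `f` bounded), so
`analyticOn_mgf` / `analyticOnNhd_mgf` + `hasDerivAt_mgf` (Mathlib/Probability/Moments/MGFAnalytic)
give smoothness and the derivative
`F'(t) = (1/s) ∫ f(y) (y-t) G(y-t) dy = (1/s) ∫ f(t+z) z dγ_s(z)`.
-/

open MeasureTheory Filter Topology ProbabilityTheory
open scoped ENNReal NNReal BigOperators ContDiff

namespace Pool.Agent.P76s

namespace Gauss1DAux

/-- the Gaussian measure with density `f` -/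
noncomputable def mf (f : ℝ → ℝ) (s : ℝ≥0) : Measure ℝ :=
  (gaussianReal 0 s).withDensity (fun x => ENNReal.ofReal (f x))

theorem int_mf {f : ℝ → ℝ} (hf : Measurable f) (h0 : ∀ t, 0 ≤ f t) (s : ℝ≥0) (g : ℝ → ℝ) :
    ∫ x, g x ∂(mf f s) = ∫ x, f x * g x ∂(gaussianReal 0 s) := by
  unfold mf
  rw [integral_withDensity_eq_integral_toReal_smul hf.ennreal_ofReal
    (Eventually.of_forall fun _ => ENNReal.ofReal_lt_top)]
  refine integral_congr_ae (Eventually.of_forall fun x => ?_)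
  simp only [smul_eq_mul]
  rw [ENNReal.toReal_ofReal (h0 x)]

theorem integrable_mf {f : ℝ → ℝ} (hf : Measurable f) {C : ℝ} (h0 : ∀ t, 0 ≤ f t)
    (hC : ∀ t, f t ≤ C) (s : ℝ≥0) {g : ℝ → ℝ} (hg : Integrable g (gaussianReal 0 s)) :
    Integrable g (mf f s) := by
  unfold mf
  rw [integrable_withDensity_iff_integrable_smul' hf.ennreal_ofReal
    (Eventually.of_forall fun _ => ENNReal.ofReal_lt_top)]
  have h1 : Integrable (fun x => f x * g x) (gaussianReal 0 s) := by
    refine hg.bdd_mul (c := C) hf.aestronglyMeasurable (Eventually.of_forall fun x => ?_)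
    rw [Real.norm_eq_abs, abs_of_nonneg (h0 x)]
    exact hC x
  refine h1.congr (Eventually.of_forall fun x => ?_)
  simp only [smul_eq_mul]
  rw [ENNReal.toReal_ofReal (h0 x)]

theorem expSet_mf {f : ℝ → ℝ} (hf : Measurable f) {C : ℝ} (h0 : ∀ t, 0 ≤ f t)
    (hC : ∀ t, f t ≤ C) (s : ℝ≥0) : interior (integrableExpSet id (mf f s)) = Set.univ := by
  have h : integrableExpSet id (mf f s) = Set.univ := by
    ext t
    simp only [Set.mem_univ, iff_true]
    exact integrable_mf hf h0 hC s (integrable_exp_mul_gaussianReal t)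
  rw [h, interior_univ]

theorem shift (t : ℝ) (g : ℝ → ℝ) {s : ℝ≥0} (hs : s ≠ 0) :
    ∫ z, g (t + z) ∂(gaussianReal 0 s) =
      Real.exp (-(t ^ 2) / (2 * s)) * ∫ y, g y * Real.exp (t / s * y) ∂(gaussianReal 0 s) := by
  have hs' : (s : ℝ) ≠ 0 := by exact_mod_cast hs
  rw [integral_gaussianReal_eq_integral_smul hs, integral_gaussianReal_eq_integral_smul hs,
    ← integral_const_mul]
  have h1 := integral_add_left_eq_self (μ := volume)
    (fun y => gaussianPDFReal 0 s (y - t) * g y) t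
  simp only [add_sub_cancel_left] at h1
  simp only [smul_eq_mul]
  rw [h1]
  refine integral_congr_ae (Eventually.of_forall fun y => ?_)
  simp only
  unfold gaussianPDFReal
  have h2 : Real.exp (-(y - t - 0) ^ 2 / (2 * s)) =
      Real.exp (-(t ^ 2) / (2 * s)) * (Real.exp (-(y - 0) ^ 2 / (2 * s)) * Real.exp (t / s * y)) := by
    rw [← Real.exp_add, ← Real.exp_add]
    congr 1
    field_simp
    ring
  rw [h2]
  ring

theorem gauss_eq {f : ℝ → ℝ} (hf : Measurable f) (h0 : ∀ t, 0 ≤ f t) {s : ℝ≥0} (hs : s ≠ 0) :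
    (fun t => ∫ z, f (t + z) ∂(gaussianReal 0 s)) =
      fun t => Real.exp (-(t ^ 2) / (2 * s)) * mgf id (mf f s) (t / s) := by
  funext t
  rw [shift t f hs]
  congr 1
  unfold mgf
  rw [int_mf hf h0]
  rfl

end Gauss1DAux

open Gauss1DAux in
theorem contDiff_gauss {f : ℝ → ℝ} (hf : Measurable f) {C : ℝ} (h0 : ∀ t, 0 ≤ f t)
    (hC : ∀ t, f t ≤ C) {s : ℝ≥0} (hs : s ≠ 0) :
    ContDiff ℝ ∞ (fun t => ∫ z, f (t + z) ∂(gaussianReal 0 s)) := by
  rw [gauss_eq hf h0 hs]
  have h1 : ContDiff ℝ ∞ (mgf id (mf f s)) := by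
    have h2 := analyticOnNhd_mgf (X := id) (μ := mf f s)
    rw [expSet_mf hf h0 hC] at h2
    exact h2.contDiff
  have h3 : ContDiff ℝ ∞ fun t : ℝ => t / (s : ℝ) := contDiff_id.div_const _
  have h4 : ContDiff ℝ ∞ fun t : ℝ => Real.exp (-(t ^ 2) / (2 * s)) :=
    ((contDiff_id.pow 2).neg.div_const _).exp
  exact h4.mul (h1.comp h3)

open Gauss1DAux in
theorem hasDerivAt_gauss {f : ℝ → ℝ} (hf : Measurable f) {C : ℝ} (h0 : ∀ t, 0 ≤ f t)
    (hC : ∀ t, f t ≤ C) {s : ℝ≥0} (hs : s ≠ 0) (t : ℝ) :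
    HasDerivAt (fun t => ∫ z, f (t + z) ∂(gaussianReal 0 s))
      ((s : ℝ)⁻¹ * ∫ z, f (t + z) * z ∂(gaussianReal 0 s)) t := by
  have hs' : (s : ℝ) ≠ 0 := by exact_mod_cast hs
  rw [gauss_eq hf h0 hs]
  have hmem : t / (s : ℝ) ∈ interior (integrableExpSet id (mf f s)) := by
    rw [expSet_mf hf h0 hC]
    exact Set.mem_univ _
  have h1 := hasDerivAt_mgf hmem
  have h3 : HasDerivAt (fun t : ℝ => t / (s : ℝ)) (1 / s) t := (hasDerivAt_id t).div_const _
  have h4 : HasDerivAt (fun t : ℝ => Real.exp (-(t ^ 2) / (2 * s)))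
      (Real.exp (-(t ^ 2) / (2 * s)) * (-(2 * t) / (2 * s))) t := by
    have h5 : HasDerivAt (fun t : ℝ => -(t ^ 2) / (2 * (s : ℝ))) (-(2 * t) / (2 * s)) t := by
      have h6 := ((hasDerivAt_pow 2 t).neg.div_const (2 * (s : ℝ)))
      simpa using h6
    exact h5.exp
  have h7 := h4.mul (h1.comp t h3)
  have hi1 : Integrable (fun y : ℝ => y * Real.exp (t / s * y)) (mf f s) := by
    have := integrable_pow_mul_exp_of_mem_interior_integrableExpSet hmem 1
    simpa using this
  have hi0 : Integrable (fun y : ℝ => Real.exp (t / s * y)) (mf f s) := by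
    have := integrable_pow_mul_exp_of_mem_interior_integrableExpSet hmem 0
    simpa using this
  have e1 : ∫ z, f (t + z) * z ∂(gaussianReal 0 s) =
      Real.exp (-(t ^ 2) / (2 * s)) * (∫ y, y * Real.exp (t / s * y) ∂(mf f s) -
        t * ∫ y, Real.exp (t / s * y) ∂(mf f s)) := by
    have h8 := shift t (fun y => f y * (y - t)) hs
    simp only [add_sub_cancel_left] at h8
    rw [h8]
    congr 1
    rw [← integral_const_mul, ← integral_sub hi1 (hi0.const_mul t), int_mf hf h0]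
    refine integral_congr_ae (Eventually.of_forall fun y => ?_)
    simp only
    ring
  rw [e1]
  refine h7.congr_deriv ?_
  simp only [Function.comp_apply, mgf, id]
  field_simp
  ring

end Pool.Agent.P76s
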