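import Pool.Agent.Lib.P76s.Defs

/-!
# P76s.HBound (1.2 h): `HH ≤ MM`, Mathlib only

`HH x = (1/N!) ∑_σ ∏_i hcell (a (σ i)) (x i)`.  Every term is `0` or `(m³)^N`, and it is nonzero
only if `a (σ i)` is the cell of `x i` for all `i` (`hcell c y ≠ 0` determines `c`: the cell with
`(c b : ℤ) = ⌊m fract(y b / L)⌋`).  If `σ₀` is one such permutation, then the others are the `σ`
with `a ∘ σ = a ∘ σ₀`, i.e. `σ σ₀⁻¹` (or `σ₀⁻¹ σ`, check) stabilises `a`; their number is
`∏_c (occ a c)!` (`DomMulAction.stabilizer_card` in Mathlib/GroupTheory/Perm/DomMulAction.lean, or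
`MulAction`-free: `Equiv.Perm` fixing the fibres of `a`).
-/

open MeasureTheory Filter Topology ProbabilityTheory
open scoped ENNReal NNReal BigOperators ContDiff

namespace Pool.Agent.P76s

theorem card_perm_fiber {N m : ℕ} (a a' : Fin N → Fin 3 → Fin m) :
    (Finset.univ.filter fun σ : Equiv.Perm (Fin N) => ∀ i, a (σ i) = a' i).card ≤
      ∏ c : Fin 3 → Fin m, Nat.factorial (occ a c) := by
  classical
  rcases (Finset.univ.filter fun σ : Equiv.Perm (Fin N) => ∀ i, a (σ i) = a' i).eq_empty_or_nonempty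
    with h | ⟨σ₀, hσ₀⟩
  · rw [h, Finset.card_empty]
    exact Nat.zero_le _
  · have h0 : ∀ i, a (σ₀ i) = a' i := (Finset.mem_filter.mp hσ₀).2
    have h1 : (∏ c : Fin 3 → Fin m, Nat.factorial (occ a c)) =
        Fintype.card {g : Equiv.Perm (Fin N) // a ∘ g = a} := by
      rw [DomMulAct.stabilizer_card a]
      refine Finset.prod_congr rfl fun c _ => ?_
      rw [Fintype.card_subtype]
      rfl
    rw [h1, Fintype.card_subtype]
    refine Finset.card_le_card_of_injOn (fun σ => σ * σ₀⁻¹) ?_ ?_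
    · intro σ hσ
      have h2 : ∀ i, a (σ i) = a' i := (Finset.mem_filter.mp (Finset.mem_coe.mp hσ)).2
      refine Finset.mem_coe.mpr (Finset.mem_filter.mpr ⟨Finset.mem_univ _, ?_⟩)
      funext i
      change a (σ (σ₀⁻¹ i)) = a i
      rw [h2, ← h0]
      exact congrArg a (σ₀.apply_symm_apply i)
    · intro σ _ τ _ h
      exact mul_right_cancel h

namespace HBoundAux

theorem cell_nonneg (m : ℕ) (L : ℝ) (j : Fin m) (t : ℝ) : 0 ≤ cell m L j t := by
  unfold cell
  split_ifs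
  · positivity
  · exact le_rfl

theorem cell_le (m : ℕ) (L : ℝ) (j : Fin m) (t : ℝ) : cell m L j t ≤ m := by
  unfold cell
  split_ifs
  · exact le_rfl
  · positivity

theorem cell_ne {m : ℕ} {L : ℝ} {j : Fin m} {t : ℝ} (h : cell m L j t ≠ 0) :
    ⌊(m : ℝ) * Int.fract (t / L)⌋ = ((j : ℕ) : ℤ) := by
  unfold cell at h
  by_contra hc
  rw [if_neg hc] at h
  exact h rfl

theorem hcell_nonneg (m : ℕ) (L : ℝ) (c : Fin 3 → Fin m) (y : Fin 3 → ℝ) :
    0 ≤ hcell m L c y := Finset.prod_nonneg fun _ _ => cell_nonneg _ _ _ _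

theorem hcell_le (m : ℕ) (L : ℝ) (c : Fin 3 → Fin m) (y : Fin 3 → ℝ) :
    hcell m L c y ≤ (m : ℝ) ^ 3 := by
  unfold hcell
  calc ∏ b, cell m L (c b) (y b) ≤ ∏ _b : Fin 3, (m : ℝ) :=
        Finset.prod_le_prod (fun _ _ => cell_nonneg _ _ _ _) (fun _ _ => cell_le _ _ _ _)
    _ = (m : ℝ) ^ 3 := by simp

theorem hcell_ne {m : ℕ} {L : ℝ} {c c' : Fin 3 → Fin m} {y : Fin 3 → ℝ}
    (h : hcell m L c y ≠ 0) (h' : hcell m L c' y ≠ 0) : c = c' := by
  funext b
  unfold hcell at h h'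
  rw [Finset.prod_ne_zero_iff] at h h'
  have h1 := cell_ne (h b (Finset.mem_univ _))
  have h2 := cell_ne (h' b (Finset.mem_univ _))
  rw [h1] at h2
  exact Fin.ext (by exact_mod_cast h2)

end HBoundAux

theorem HH_le {N m : ℕ} {L : ℝ} (a : Fin N → Fin 3 → Fin m) (x : Conf N) :
    HH N m L a x ≤ MM N m a := by
  classical
  unfold HH MM
  have hfac : (0 : ℝ) < (Nat.factorial N : ℕ) := by exact_mod_cast Nat.factorial_pos N
  have hkey : ∑ σ : Equiv.Perm (Fin N), ∏ i, hcell m L (a (σ i)) (x i) ≤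
      ((m : ℝ) ^ 3) ^ N * ∏ c : Fin 3 → Fin m, (Nat.factorial (occ a c) : ℝ) := by
    by_cases h : ∃ σ₀ : Equiv.Perm (Fin N), ∏ i, hcell m L (a (σ₀ i)) (x i) ≠ 0
    · obtain ⟨σ₀, h₀⟩ := h
      rw [Finset.prod_ne_zero_iff] at h₀
      have h1 : ∀ σ : Equiv.Perm (Fin N), ∏ i, hcell m L (a (σ i)) (x i) ≤
          if (∀ i, a (σ i) = a (σ₀ i)) then ((m : ℝ) ^ 3) ^ N else 0 := by
        intro σ
        split_ifs with hc
        · calc ∏ i, hcell m L (a (σ i)) (x i) ≤ ∏ _i : Fin N, (m : ℝ) ^ 3 :=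
                Finset.prod_le_prod (fun _ _ => HBoundAux.hcell_nonneg _ _ _ _)
                  (fun _ _ => HBoundAux.hcell_le _ _ _ _)
            _ = ((m : ℝ) ^ 3) ^ N := by simp
        · push Not at hc
          obtain ⟨i, hi⟩ := hc
          refine le_of_eq (Finset.prod_eq_zero (Finset.mem_univ i) ?_)
          by_contra hne
          exact hi (HBoundAux.hcell_ne hne (h₀ i (Finset.mem_univ i)))
      calc ∑ σ : Equiv.Perm (Fin N), ∏ i, hcell m L (a (σ i)) (x i)
          ≤ ∑ σ : Equiv.Perm (Fin N),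
              if (∀ i, a (σ i) = a (σ₀ i)) then ((m : ℝ) ^ 3) ^ N else 0 :=
            Finset.sum_le_sum fun σ _ => h1 σ
        _ = ((Finset.univ.filter fun σ : Equiv.Perm (Fin N) =>
              ∀ i, a (σ i) = a (σ₀ i)).card : ℝ) * ((m : ℝ) ^ 3) ^ N := by
            rw [← Finset.sum_filter, Finset.sum_const, nsmul_eq_mul]
        _ ≤ (∏ c : Fin 3 → Fin m, (Nat.factorial (occ a c) : ℝ)) * ((m : ℝ) ^ 3) ^ N := by
            refine mul_le_mul_of_nonneg_right ?_ (by positivity)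
            have := card_perm_fiber a (fun i => a (σ₀ i))
            calc ((Finset.univ.filter fun σ : Equiv.Perm (Fin N) =>
                  ∀ i, a (σ i) = a (σ₀ i)).card : ℝ)
                ≤ ((∏ c : Fin 3 → Fin m, Nat.factorial (occ a c) : ℕ) : ℝ) := by
                  exact_mod_cast this
              _ = _ := by push_cast; rfl
        _ = _ := mul_comm _ _
    · push Not at h
      rw [Finset.sum_eq_zero fun σ _ => h σ]
      positivity
  rw [inv_mul_eq_div]
  exact div_le_div_of_nonneg_right hkey hfac.le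

end Pool.Agent.P76s
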