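import Pool.Agent.Lib.P76s.PiDens
import Pool.Agent.Lib.P76s.Planch

/-!
# P76s.Kappa (2 h): choice of the Gaussian scale for potentials of positive type
(black box: PiDens)

`KK s w d = ∫∫ w(d + z - z') dγ dγ'` with `w = pot v`, `γ = gam3 s`; `G_s(y) = (2πs)^{-3/2} e^{-|y|²/(2s)}`
is the density of `gam3 s` (`pi_withDensity`, `gaussianReal` has density `gaussianPDFReal`).
* `KK_zero`: `KK s w 0 = ∫ v(x) (G_s ∗ G_s)(x) dx = ∫ v̂(k) e^{-4π² s |k|²} dk`: by Fubini; the Fourier
  transform of a Gaussian measure `gam3 s` at `k` is `e^{-2π² s|k|²}` (`charFun`/`𝓕` of a Gaussian: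
  `fourier_gaussian_innerProductSpace`), and `∫ v (𝓕 g) = ∫ v̂ g` for
  `g(k) = e^{-4π² s|k|²}`, whose Fourier transform is `G_s ∗ G_s = G_{2s}` (density of the law of `z - z'`).
* lower semicontinuity: `KK s w d = ∫∫ w(x) G_s(x - d + z') dx dγ(z')`, `G_s` continuous and positive: by Fatou,
  `liminf_{d→0} KK s w d ≥ KK s w 0`.  So for every `κ < KK s w 0` there is `ℓ > 0` as in the
  statement.
* choice of `s`: if `∫ v̂ e^{-4π² s|k|²} ≤ A := ∫v²/∫v` for all small `s`, then by monotone convergence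
  `∫ v̂ ≤ A` and `v̂` is integrable; `v ∈ L²` and Plancherel (`Lp.norm_fourier_eq`; or, as `v̂` is now
  integrable, Fourier inversion `v = 𝓕⁻ v̂` a.e.) give `∫ v̂² = ∫ v² = A ∫ v`, so
  `∫ v̂ (V₀ - v̂) ≤ 0` with `0 ≤ v̂ ≤ V₀ = v̂(0)`, `v̂` continuous: `v̂(V₀ - v̂) = 0` everywhere, so by
  connectedness `v̂ = V₀` everywhere, which is not integrable.  Contradiction.
(`v` even makes `v̂` real.)  `P76s.Planch` may also be imported.
-/

open MeasureTheory Filter Topology ProbabilityTheory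
open scoped ENNReal NNReal BigOperators ContDiff FourierTransform SchwartzMap

namespace Pool.Agent.P76s

namespace KappaAux

open scoped ComplexConjugate

/-! ### the law of the difference -/

lemma diff1 (s : ℝ≥0) : MeasurePreserving (fun p : ℝ × ℝ => p.1 - p.2)
    ((gaussianReal 0 s).prod (gaussianReal 0 s)) (gaussianReal 0 (s + s)) := by
  have hneg : MeasurePreserving (fun x : ℝ => -x) (gaussianReal 0 s) (gaussianReal 0 s) :=
    ⟨measurable_neg, by rw [gaussianReal_map_neg, neg_zero]⟩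
  have h1 := (MeasurePreserving.id (gaussianReal 0 s)).prod hneg
  have h2 : MeasurePreserving (fun p : ℝ × ℝ => p.1 + p.2)
      ((gaussianReal 0 s).prod (gaussianReal 0 s)) (gaussianReal 0 (s + s)) := by
    refine ⟨by fun_prop, ?_⟩
    have h3 := gaussianReal_conv_gaussianReal (m₁ := 0) (m₂ := 0) (v₁ := s) (v₂ := s)
    rw [add_zero] at h3
    exact h3
  have h4 := h2.comp h1
  exact h4.congr (by fun_prop) (Eventually.of_forall fun p => by
    simp [Prod.map, sub_eq_add_neg])

lemma diff3 (s : ℝ≥0) : MeasurePreserving (fun p : (Fin 3 → ℝ) × (Fin 3 → ℝ) => p.1 - p.2)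
    ((gam3 s).prod (gam3 s)) (gam3 (s + s)) := by
  have h1 := (measurePreserving_arrowProdEquivProdArrow ℝ ℝ (Fin 3)
    (fun _ => gaussianReal 0 s) (fun _ => gaussianReal 0 s)).symm
  have h2 := measurePreserving_pi (ι := Fin 3) (fun _ => (gaussianReal 0 s).prod (gaussianReal 0 s))
    (fun _ => gaussianReal 0 (s + s)) (fun _ => diff1 s)
  exact (h2.comp h1).congr (by fun_prop) (Eventually.of_forall fun p => rfl)

lemma KK_eq (s : ℝ≥0) {w : (Fin 3 → ℝ) → ℝ≥0∞} (hw : Measurable w) (d : Fin 3 → ℝ) :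
    KK s w d = ∫⁻ u, w (d + u) ∂(gam3 (s + s)) := by
  have h1 : Measurable fun p : (Fin 3 → ℝ) × (Fin 3 → ℝ) => w (d + p.1 - p.2) := by fun_prop
  have h2 : KK s w d = ∫⁻ p, w (d + p.1 - p.2) ∂((gam3 s).prod (gam3 s)) :=
    (lintegral_prod _ h1.aemeasurable).symm
  have h3 : Measurable fun u : Fin 3 → ℝ => w (d + u) := by fun_prop
  rw [h2, ← (diff3 s).lintegral_comp h3]
  refine lintegral_congr fun p => ?_
  rw [add_sub_assoc]

/-- density of `gam3 t` -/
noncomputable def gd (t : ℝ≥0) (x : Fin 3 → ℝ) : ℝ≥0∞ := ∏ b, gaussianPDF 0 t (x b)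

lemma measurable_gd (t : ℝ≥0) : Measurable (gd t) := by
  unfold gd
  refine Finset.measurable_prod _ fun b _ => ?_
  exact (measurable_gaussianPDF 0 t).comp (measurable_pi_apply b)

lemma gam3_eq {t : ℝ≥0} (ht : t ≠ 0) : gam3 t = volume.withDensity (gd t) := by
  unfold gam3
  have h1 := pi_withDensity (ι := Fin 3) (X := fun _ => ℝ) (fun _ => volume)
    (fun _ => gaussianPDF 0 t) (fun _ => measurable_gaussianPDF 0 t)
    (fun _ => by rw [lintegral_gaussianPDF_eq_one 0 ht]; exact ENNReal.one_ne_top)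
  rw [← gaussianReal_of_var_ne_zero 0 ht] at h1
  rw [h1]
  rfl

lemma KK_eq' {s : ℝ≥0} (hs : s ≠ 0) {w : (Fin 3 → ℝ) → ℝ≥0∞} (hw : Measurable w)
    (d : Fin 3 → ℝ) : KK s w d = ∫⁻ x, w x * gd (s + s) (x - d) := by
  have hs2 : s + s ≠ 0 := by
    intro h
    exact hs (by simpa using h)
  have h3 : Measurable fun u : Fin 3 → ℝ => w (d + u) := by fun_prop
  rw [KK_eq s hw d, gam3_eq hs2, lintegral_withDensity_eq_lintegral_mul _ (measurable_gd _) h3]
  have h4 := lintegral_add_left_eq_self (μ := (volume : Measure (Fin 3 → ℝ)))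
    (fun x => w x * gd (s + s) (x - d)) d
  rw [← h4]
  refine lintegral_congr fun u => ?_
  rw [Pi.mul_apply, mul_comm, add_sub_cancel_left]

/-! ### lower semicontinuity -/

lemma continuous_gd (t : ℝ≥0) : Continuous (gd t) := by
  unfold gd gaussianPDF gaussianPDFReal
  have h1 : ∀ b : Fin 3, Continuous fun x : Fin 3 → ℝ => ENNReal.ofReal
      ((√(2 * Real.pi * t))⁻¹ * Real.exp (-(x b - 0) ^ 2 / (2 * t))) := by
    intro b
    refine ENNReal.continuous_ofReal.comp ?_
    fun_prop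
  have h2 : (fun x : Fin 3 → ℝ => ∏ b, ENNReal.ofReal
      ((√(2 * Real.pi * t))⁻¹ * Real.exp (-(x b - 0) ^ 2 / (2 * t)))) =
      fun x => ENNReal.ofReal (∏ b, ((√(2 * Real.pi * t))⁻¹ *
        Real.exp (-(x b - 0) ^ 2 / (2 * t)))) := by
    funext x
    rw [ENNReal.ofReal_prod_of_nonneg fun b _ => by positivity]
  rw [h2]
  refine ENNReal.continuous_ofReal.comp ?_
  fun_prop

lemma lsc {s : ℝ≥0} (hs : s ≠ 0) {w : (Fin 3 → ℝ) → ℝ≥0∞} (hw : Measurable w)
    (hwfin : ∀ x, w x ≠ ⊤) {κ : ℝ≥0∞} (hκ : κ < KK s w 0) :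
    ∃ ℓ > 0, ∀ d : Fin 3 → ℝ, (∀ b, |d b| ≤ ℓ) → κ ≤ KK s w d := by
  by_contra hcon
  push Not at hcon
  have hex : ∀ n : ℕ, ∃ d : Fin 3 → ℝ, (∀ b, |d b| ≤ 1 / ((n : ℝ) + 1)) ∧ KK s w d < κ :=
    fun n => hcon (1 / ((n : ℝ) + 1)) (by positivity)
  choose d hd hdκ using hex
  have hlim : Tendsto d atTop (𝓝 0) := by
    rw [tendsto_pi_nhds]
    intro b
    exact squeeze_zero_norm (fun n => hd n b) tendsto_one_div_add_atTop_nhds_zero_nat
  have h1 : ∀ x, Tendsto (fun n => w x * gd (s + s) (x - d n)) atTop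
      (𝓝 (w x * gd (s + s) x)) := by
    intro x
    refine ENNReal.Tendsto.const_mul ?_ (Or.inr (hwfin x))
    have h2 : Tendsto (fun n => x - d n) atTop (𝓝 x) := by
      simpa using tendsto_const_nhds.sub hlim
    exact ((continuous_gd (s + s)).tendsto x).comp h2
  have h2 := lintegral_liminf_le (μ := (volume : Measure (Fin 3 → ℝ))) (u := atTop)
    (f := fun n x => w x * gd (s + s) (x - d n)) (fun n =>
      hw.mul ((measurable_gd (s + s)).comp (measurable_id.sub_const _)))
  have h3 : ∀ x, liminf (fun n => w x * gd (s + s) (x - d n)) atTop = w x * gd (s + s) x :=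
    fun x => (h1 x).liminf_eq
  simp only [h3] at h2
  have h4 : KK s w 0 = ∫⁻ x, w x * gd (s + s) x := by
    rw [KK_eq' hs hw 0]
    simp
  have h5 : ∀ n, ∫⁻ x, w x * gd (s + s) (x - d n) ≤ κ := fun n => by
    rw [← KK_eq' hs hw (d n)]
    exact (hdκ n).le
  have h6 : liminf (fun n => ∫⁻ x, w x * gd (s + s) (x - d n)) atTop ≤ κ := by
    refine (liminf_le_liminf (Eventually.of_forall h5)).trans ?_
    rw [liminf_const]
  rw [← h4] at h2
  exact absurd (h2.trans h6) (not_le.2 hκ)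

/-! ### the Fourier side -/

/-- real Gaussian density on `E3` -/
noncomputable def GG (t : ℝ) (y : E3) : ℝ :=
  (√(2 * Real.pi * t))⁻¹ ^ 3 * Real.exp (-‖y‖ ^ 2 / (2 * t))

lemma gd_eq (t : ℝ≥0) (x : Fin 3 → ℝ) : gd t x = ENNReal.ofReal (GG t (WithLp.toLp 2 x)) := by
  unfold gd gaussianPDF gaussianPDFReal GG
  rw [← ENNReal.ofReal_prod_of_nonneg fun b _ => by positivity, Finset.prod_mul_distrib,
    Finset.prod_const, ← Real.exp_sum, EuclideanSpace.norm_sq_eq]
  congr 2
  congr 1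
  rw [← Finset.sum_div, Finset.sum_neg_distrib]
  simp

lemma gaussian_fourier {t : ℝ} (ht : 0 < t) (y : E3) :
    𝓕 (fun k : E3 => Complex.exp (-((2 * Real.pi ^ 2 * t : ℝ) : ℂ) * ‖k‖ ^ 2)) y =
      ((GG t y : ℝ) : ℂ) := by
  have hb : 0 < (((2 * Real.pi ^ 2 * t : ℝ) : ℂ)).re := by
    rw [Complex.ofReal_re]
    positivity
  rw [fourier_gaussian_innerProductSpace hb y]
  unfold GG
  have hpi := Real.pi_pos
  have h1 : ((Real.pi : ℂ) / ((2 * Real.pi ^ 2 * t : ℝ) : ℂ)) ^
      ((Module.finrank ℝ E3 : ℂ) / 2) = (((√(2 * Real.pi * t))⁻¹ ^ 3 : ℝ) : ℂ) := by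
    have h2 : (Real.pi : ℂ) / ((2 * Real.pi ^ 2 * t : ℝ) : ℂ) =
        (((2 * Real.pi * t)⁻¹ : ℝ) : ℂ) := by
      rw [← Complex.ofReal_div]
      congr 1
      field_simp
    have h3 : ((Module.finrank ℝ E3 : ℂ) / 2) = ((3 / 2 : ℝ) : ℂ) := by
      rw [finrank_euclideanSpace_fin]
      push_cast
      rfl
    rw [h2, h3, ← Complex.ofReal_cpow (by positivity)]
    congr 1
    rw [← Real.sqrt_inv, Real.sqrt_eq_rpow, ← Real.rpow_natCast, ← Real.rpow_mul (by positivity)]
    norm_num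
  rw [h1, Complex.ofReal_mul ((√(2 * Real.pi * t))⁻¹ ^ 3)]
  congr 1
  rw [Complex.ofReal_exp]
  congr 1
  push_cast
  have hpi' : (Real.pi : ℂ) ≠ 0 := by exact_mod_cast hpi.ne'
  have ht' : (t : ℂ) ≠ 0 := by exact_mod_cast ht.ne'
  field_simp

lemma integrable_gauss {t : ℝ} (ht : 0 < t) :
    Integrable (fun k : E3 => Complex.exp (-((2 * Real.pi ^ 2 * t : ℝ) : ℂ) * ‖k‖ ^ 2)) := by
  have hb : 0 < (((2 * Real.pi ^ 2 * t : ℝ) : ℂ)).re := by
    rw [Complex.ofReal_re]
    positivity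
  have h := GaussianFourier.integrable_cexp_neg_mul_sq_norm_add hb 0 (0 : E3)
  simpa using h

lemma GG_nonneg (t : ℝ) (y : E3) : 0 ≤ GG t y := by unfold GG; positivity

lemma GG_le {t : ℝ} (ht : 0 < t) (y : E3) : GG t y ≤ (√(2 * Real.pi * t))⁻¹ ^ 3 := by
  unfold GG
  refine mul_le_of_le_one_right (by positivity) ?_
  rw [Real.exp_le_one_iff]
  have : 0 ≤ ‖y‖ ^ 2 / (2 * t) := by positivity
  rw [neg_div]
  linarith

lemma continuous_GG (t : ℝ) : Continuous (GG t) := by
  unfold GG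
  fun_prop

/-- the real part of the Fourier transform of `v` -/
noncomputable def VV (v : E3 → ℝ) (k : E3) : ℝ := (𝓕 (fun x => (v x : ℂ)) k).re

variable {v : E3 → ℝ}

lemma cexp_re (t : ℝ) (k : E3) :
    Complex.exp (-((2 * Real.pi ^ 2 * t : ℝ) : ℂ) * ‖k‖ ^ 2) =
      ((Real.exp (-(2 * Real.pi ^ 2 * t) * ‖k‖ ^ 2) : ℝ) : ℂ) := by
  push_cast
  rfl

lemma integral_v_GG (hv : Integrable v) {t : ℝ} (ht : 0 < t) :
    ∫ x, v x * GG t x = ∫ k, VV v k * Real.exp (-(2 * Real.pi ^ 2 * t) * ‖k‖ ^ 2) := by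
  have hvC : Integrable (fun x => (v x : ℂ)) := hv.ofReal
  have h1 := VectorFourier.integral_fourierIntegral_smul_eq_flip
    (L := innerₗ E3) (μ := (volume : Measure E3)) (ν := (volume : Measure E3))
    (e := Real.fourierChar) Real.continuous_fourierChar continuous_inner hvC
    (integrable_gauss ht)
  have h2 : ∀ k : E3, VectorFourier.fourierIntegral Real.fourierChar volume (innerₗ E3)
      (fun x => (v x : ℂ)) k = 𝓕 (fun x => (v x : ℂ)) k := fun k => rfl
  have h3 : ∀ x : E3, VectorFourier.fourierIntegral Real.fourierChar volume (innerₗ E3).flip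
      (fun k : E3 => Complex.exp (-((2 * Real.pi ^ 2 * t : ℝ) : ℂ) * ‖k‖ ^ 2)) x =
      ((GG t x : ℝ) : ℂ) := by
    intro x
    rw [flip_innerₗ]
    exact gaussian_fourier ht x
  simp only [h2, h3, smul_eq_mul] at h1
  simp only [cexp_re] at h1
  have h4 : (∫ x, v x * GG t x : ℝ) = (∫ x, (v x : ℂ) * ((GG t x : ℝ) : ℂ)).re := by
    have h5 : (fun x => (v x : ℂ) * ((GG t x : ℝ) : ℂ)) =
        fun x => ((v x * GG t x : ℝ) : ℂ) := by
      funext x
      push_cast
      rfl
    rw [h5, integral_complex_ofReal, Complex.ofReal_re]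
  rw [h4, ← h1]
  have h6 : Integrable fun k : E3 => 𝓕 (fun x => (v x : ℂ)) k *
      ((Real.exp (-(2 * Real.pi ^ 2 * t) * ‖k‖ ^ 2) : ℝ) : ℂ) := by
    have h7 := integrable_gauss ht
    simp only [cexp_re] at h7
    have hcont : Continuous (𝓕 (fun x => (v x : ℂ))) :=
      VectorFourier.fourierIntegral_continuous Real.continuous_fourierChar
        (by exact continuous_inner) hvC
    refine Integrable.bdd_mul (c := ∫ x, ‖(v x : ℂ)‖) h7 hcont.aestronglyMeasurable ?_
    exact Eventually.of_forall fun k =>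
      VectorFourier.norm_fourierIntegral_le_integral_norm _ _ _ _ _
  have h8 := integral_re h6 (𝕜 := ℂ)
  simp only [RCLike.re_to_complex] at h8
  rw [← h8]
  refine integral_congr_ae (Eventually.of_forall fun k => ?_)
  simp only [VV, Complex.mul_re, Complex.ofReal_re, Complex.ofReal_im, mul_zero, sub_zero]

lemma KK_zero (hvm : Measurable v) (hv : Integrable v) (hv0 : ∀ x, 0 ≤ v x) {s : ℝ≥0}
    (hs : s ≠ 0) : KK s (pot v) 0 =
      ENNReal.ofReal (∫ k, VV v k * Real.exp (-(2 * Real.pi ^ 2 * (s + s)) * ‖k‖ ^ 2)) := by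
  have hs0 : 0 < (s : ℝ) := by
    have := pos_iff_ne_zero.2 hs
    exact_mod_cast this
  have ht : (0 : ℝ) < (s : ℝ) + s := by positivity
  have hpm : Measurable (pot v) := by
    unfold pot
    exact (hvm.comp (WithLp.measurable_toLp 2 _)).ennreal_ofReal
  have hint : Integrable fun x : E3 => v x * GG ((s : ℝ) + s) x := by
    have := Integrable.bdd_mul (c := (√(2 * Real.pi * ((s : ℝ) + s)))⁻¹ ^ 3) hv
      (continuous_GG ((s : ℝ) + s)).aestronglyMeasurable
      (Eventually.of_forall fun x => by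
        rw [Real.norm_eq_abs, abs_of_nonneg (GG_nonneg _ _)]
        exact GG_le ht x)
    refine this.congr (Eventually.of_forall fun x => ?_)
    exact mul_comm _ _
  rw [KK_eq' hs hpm 0, ← integral_v_GG hv ht, ofReal_integral_eq_lintegral_ofReal hint
    (Eventually.of_forall fun x => mul_nonneg (hv0 x) (GG_nonneg _ x))]
  have hm : Measurable fun x : E3 => ENNReal.ofReal (v x * GG ((s : ℝ) + s) x) :=
    (hvm.mul (continuous_GG ((s : ℝ) + s)).measurable).ennreal_ofReal
  rw [← (PiLp.volume_preserving_toLp (Fin 3)).lintegral_comp hm]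
  refine lintegral_congr fun x => ?_
  rw [sub_zero, gd_eq, pot, ← ENNReal.ofReal_mul (hv0 _)]
  simp only [NNReal.coe_add]

lemma fourier_im (heven : ∀ x, v (-x) = v x) (k : E3) :
    𝓕 (fun x => (v x : ℂ)) k = ((VV v k : ℝ) : ℂ) := by
  have h1 : conj (𝓕 (fun x => (v x : ℂ)) k) = 𝓕 (fun x => (v x : ℂ)) k := by
    rw [Real.fourier_eq', ← integral_conj]
    rw [← integral_neg_eq_self]
    refine integral_congr_ae (Eventually.of_forall fun x => ?_)
    simp only [smul_eq_mul, map_mul, Complex.conj_ofReal, ← Complex.exp_conj, heven,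
      Complex.conj_I, inner_neg_left]
    congr 2
    push_cast
    ring
  exact (Complex.conj_eq_iff_re.1 h1).symm

lemma continuous_VV (hv : Integrable v) : Continuous (VV v) := by
  have hvC : Integrable (fun x => (v x : ℂ)) := hv.ofReal
  have hcont : Continuous (𝓕 (fun x => (v x : ℂ))) :=
    VectorFourier.fourierIntegral_continuous Real.continuous_fourierChar
      (by exact continuous_inner) hvC
  exact Complex.continuous_re.comp hcont

lemma VV_zero : VV v 0 = ∫ x, v x := by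
  unfold VV
  rw [Real.fourier_eq']
  simp only [inner_zero_right, mul_zero, Complex.ofReal_zero, zero_mul, Complex.exp_zero,
    one_smul]
  rw [integral_complex_ofReal, Complex.ofReal_re]

lemma VV_le (hv0 : ∀ x, 0 ≤ v x) (k : E3) : VV v k ≤ ∫ x, v x := by
  unfold VV
  refine (Complex.re_le_norm _).trans ?_
  have h1 : ‖𝓕 (fun x => (v x : ℂ)) k‖ ≤ ∫ x, ‖(v x : ℂ)‖ :=
    VectorFourier.norm_fourierIntegral_le_integral_norm _ _ _ _ _
  refine h1.trans (le_of_eq ?_)
  refine integral_congr_ae (Eventually.of_forall fun x => ?_)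
  simp only [Complex.norm_real, Real.norm_eq_abs, abs_of_nonneg (hv0 x)]

/-- for some scale the Gaussian average at `0` exceeds `∫ v² / ∫ v` -/
lemma exists_scale (hv : Integrable v) (hv0 : ∀ x, 0 ≤ v x)
    (heven : ∀ x, v (-x) = v x) (hv2 : MemLp v 2) (hne : 0 < ∫ x, v x)
    (hpos : ∀ k, 0 ≤ VV v k) :
    ∃ s : ℝ≥0, s ≠ 0 ∧ (∫ x, v x ^ 2) / (∫ x, v x) <
      ∫ k, VV v k * Real.exp (-(2 * Real.pi ^ 2 * (s + s)) * ‖k‖ ^ 2) := by
  by_contra hcon
  push Not at hcon
  set A : ℝ := (∫ x, v x ^ 2) / (∫ x, v x) with hA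
  have hvC : Integrable (fun x => (v x : ℂ)) := hv.ofReal
  have hvC2 : MemLp (fun x => (v x : ℂ)) 2 := hv2.ofReal
  have hcont := continuous_VV hv
  -- `VV` is integrable with integral at most `A`
  have hint : ∫⁻ k, ENNReal.ofReal (VV v k) ≤ ENNReal.ofReal A := by
    set S : ℕ → ℝ≥0 := fun n => 1 / ((n : ℝ≥0) + 1) with hS
    have hS0 : ∀ n, S n ≠ 0 := fun n => by
      rw [hS]
      positivity
    have hSlim : Tendsto (fun n => ((S n : ℝ≥0) : ℝ)) atTop (𝓝 0) := by
      have := tendsto_one_div_add_atTop_nhds_zero_nat (𝕜 := ℝ)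
      refine this.congr fun n => ?_
      simp [hS]
    set f : ℕ → E3 → ℝ≥0∞ := fun n k =>
      ENNReal.ofReal (VV v k * Real.exp (-(2 * Real.pi ^ 2 * (S n + S n)) * ‖k‖ ^ 2)) with hf
    have h1 : ∀ k, Tendsto (fun n => f n k) atTop (𝓝 (ENNReal.ofReal (VV v k))) := by
      intro k
      refine (ENNReal.continuous_ofReal.tendsto _).comp ?_
      have h2 : Tendsto (fun n => VV v k *
          Real.exp (-(2 * Real.pi ^ 2 * (((S n : ℝ≥0) : ℝ) + S n)) * ‖k‖ ^ 2)) atTop
          (𝓝 (VV v k * Real.exp (-(2 * Real.pi ^ 2 * (0 + 0)) * ‖k‖ ^ 2))) := by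
        refine Tendsto.const_mul _ ((Real.continuous_exp.tendsto _).comp ?_)
        exact (((hSlim.add hSlim).const_mul _).neg).mul_const _
      simpa using h2
    have h3 := lintegral_liminf_le (μ := (volume : Measure E3)) (u := atTop) (f := f)
      (fun n => by
        refine (Measurable.ennreal_ofReal ?_)
        exact hcont.measurable.mul (by fun_prop))
    simp only [(h1 _).liminf_eq] at h3
    refine h3.trans ?_
    have h4 : ∀ n, ∫⁻ k, f n k ≤ ENNReal.ofReal A := by
      intro n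
      have h5 : Integrable fun k : E3 =>
          VV v k * Real.exp (-(2 * Real.pi ^ 2 * (S n + S n)) * ‖k‖ ^ 2) := by
        have hSn : (0 : ℝ) < (S n : ℝ) + S n := by
          have : 0 < (S n : ℝ) := by
            have := pos_iff_ne_zero.2 (hS0 n)
            exact_mod_cast this
          positivity
        have h7 := (integrable_gauss hSn).re
        simp only [cexp_re, RCLike.re_to_complex, Complex.ofReal_re] at h7
        refine Integrable.bdd_mul (c := ∫ x, v x) h7 hcont.aestronglyMeasurable ?_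
        refine Eventually.of_forall fun k => ?_
        rw [Real.norm_eq_abs, abs_of_nonneg (hpos k)]
        exact VV_le hv0 k
      rw [hf, ← ofReal_integral_eq_lintegral_ofReal h5 (Eventually.of_forall fun k =>
        mul_nonneg (hpos k) (Real.exp_pos _).le)]
      exact ENNReal.ofReal_le_ofReal (hcon (S n) (hS0 n))
    refine (liminf_le_liminf (Eventually.of_forall h4)).trans ?_
    rw [liminf_const]
  have hV : Integrable (VV v) := by
    refine ⟨hcont.aestronglyMeasurable, ?_⟩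
    rw [hasFiniteIntegral_iff_ofReal (Eventually.of_forall hpos)]
    exact hint.trans_lt ENNReal.ofReal_lt_top
  have hVA : ∫ k, VV v k ≤ A := by
    have h1 := ofReal_integral_eq_lintegral_ofReal hV (Eventually.of_forall hpos)
    rw [← h1] at hint
    have hA0 : 0 ≤ A := by
      rw [hA]
      exact div_nonneg (integral_nonneg fun x => sq_nonneg _) hne.le
    exact (ENNReal.ofReal_le_ofReal_iff hA0).1 hint
  -- Plancherel
  have hP : ∫ k, VV v k ^ 2 = ∫ x, v x ^ 2 := by
    have h1 := plancherel hvC hvC2 hvC hvC2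
    simp only [fourier_im heven, Complex.conj_ofReal, ← Complex.ofReal_mul] at h1
    rw [integral_complex_ofReal, integral_complex_ofReal] at h1
    have h2 := Complex.ofReal_injective h1
    simpa only [← sq] using h2
  have hV2 : Integrable fun k => VV v k ^ 2 := by
    have h1 := fourier_memLp hvC hvC2
    have h2 := h1.re
    have h3 : (fun k => RCLike.re (𝓕 (fun x => (v x : ℂ)) k)) = VV v := rfl
    rw [h3] at h2
    exact h2.integrable_sq
  -- `VV (V₀ - VV) = 0`
  set V0 : ℝ := ∫ x, v x with hV0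
  have hh0 : 0 ≤ fun k => V0 * VV v k - VV v k ^ 2 := fun k => by
    have h1 := VV_le hv0 k
    have h2 := hpos k
    have h3 : V0 * VV v k - VV v k ^ 2 = VV v k * (V0 - VV v k) := by ring
    simp only [Pi.zero_apply]
    rw [h3]
    exact mul_nonneg h2 (by linarith)
  have hhi : Integrable fun k => V0 * VV v k - VV v k ^ 2 := (hV.const_mul V0).sub hV2
  have hhz : ∫ k, (V0 * VV v k - VV v k ^ 2) = 0 := by
    refine le_antisymm ?_ (integral_nonneg hh0)
    rw [integral_sub (hV.const_mul V0) hV2, integral_const_mul, hP]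
    have h1 : V0 * A = ∫ x, v x ^ 2 := by
      rw [hA]
      field_simp
    have h2 := mul_le_mul_of_nonneg_left hVA hne.le
    linarith
  have hz := (integral_eq_zero_iff_of_nonneg hh0 hhi).1 hhz
  have hz' : (fun k => V0 * VV v k - VV v k ^ 2) = fun _ => (0 : ℝ) :=
    (Continuous.ae_eq_iff_eq (volume : Measure E3)
      ((hcont.const_mul V0).sub (hcont.pow 2)) continuous_const).1 hz
  have hdich : ∀ k, VV v k = 0 ∨ VV v k = V0 := by
    intro k
    have h1 : V0 * VV v k - VV v k ^ 2 = 0 := congrFun hz' k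
    have h2 : VV v k * (V0 - VV v k) = 0 := by linarith
    rcases mul_eq_zero.1 h2 with h | h
    · exact Or.inl h
    · exact Or.inr (by linarith)
  have hclopen : IsClopen {k | VV v k = V0} := by
    refine ⟨isClosed_eq hcont continuous_const, ?_⟩
    have h1 : {k | VV v k = V0} = {k | VV v k = 0}ᶜ := by
      ext k
      simp only [Set.mem_compl_iff]
      constructor
      · intro h h'
        have h2 : VV v k = V0 := h
        have h3 : VV v k = 0 := h'
        rw [h3] at h2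
        exact hne.ne' h2.symm
      · intro h
        rcases hdich k with h' | h'
        · exact absurd h' h
        · exact h'
    rw [h1]
    exact (isClosed_eq hcont continuous_const).isOpen_compl
  have huniv : {k | VV v k = V0} = Set.univ := by
    rcases isClopen_iff.1 hclopen with h | h
    · exfalso
      have h1 : (0 : E3) ∈ {k | VV v k = V0} := VV_zero
      rw [h] at h1
      exact h1
    · exact h
  have hconst : VV v = fun _ => V0 := funext fun k => by
    have h1 : k ∈ {k | VV v k = V0} := by rw [huniv]; trivial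
    exact h1
  rw [hconst, integrable_const_iff] at hV
  rcases hV with h | h
  · exact hne.ne' h
  · exact absurd h.measure_univ_lt_top (by simp)

end KappaAux

theorem exists_kappa {v : E3 → ℝ} (hvm : Measurable v) (hv : Integrable v) (hv0 : ∀ x, 0 ≤ v x)
    (heven : ∀ x, v (-x) = v x) (hv2 : MemLp v 2) (hne : 0 < ∫ x, v x)
    (hpos : ∀ k, 0 ≤ (𝓕 (fun x => (v x : ℂ)) k).re) :
    ∃ s : ℝ≥0, s ≠ 0 ∧ ∃ κ : ℝ, (∫ x, v x ^ 2) / (∫ x, v x) < κ ∧ ∃ ℓ > 0,
      ∀ d : Fin 3 → ℝ, (∀ b, |d b| ≤ ℓ) → ENNReal.ofReal κ ≤ KK s (pot v) d := by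
  obtain ⟨s, hs, hA⟩ := KappaAux.exists_scale hv hv0 heven hv2 hne hpos
  obtain ⟨κ, hκ1, hκ2⟩ := exists_between hA
  have hpm : Measurable (pot v) := by
    unfold pot
    exact (hvm.comp (WithLp.measurable_toLp 2 _)).ennreal_ofReal
  have hκ0 : 0 ≤ κ := by
    refine le_trans ?_ hκ1.le
    exact div_nonneg (integral_nonneg fun x => sq_nonneg _) hne.le
  obtain ⟨ℓ, hℓ, h⟩ := KappaAux.lsc hs hpm (fun x => ENNReal.ofReal_ne_top)
    (κ := ENNReal.ofReal κ) (by
      rw [KappaAux.KK_zero hvm hv hv0 hs]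
      exact (ENNReal.ofReal_lt_ofReal_iff_of_nonneg hκ0).2 hκ2)
  exact ⟨s, hs, κ, hκ1, ℓ, hℓ, h⟩

end Pool.Agent.P76s
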