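import Pool.Agent.Lib.P76s.TrialI
import Pool.Agent.Lib.P76s.Entropy
import Pool.Agent.Lib.P76s.HBound

/-!
# P76s.Kinetic (1.2 h): the kinetic energy of `√PP` (black boxes: TrialP, TrialI, Entropy, HBound)

With `P = PP x > 0`: `|∂ √P|² = (∂P)²/(4P)`; `PP_fderiv` and `entropy_bound` for
`h z = HH (x+z)` (`M = MM N m a`, `HH_le`, `PP_eq`) give
`∑ (∂_{ib} P)² ≤ (1/s²) 2 s P² log (M/P)`, so the integrand of `kinetic` is
`≤ (1/(4s)) P log (M/P) = (1/(4s)) (P log M - P log P) ≤ (1/(4s)) (P log M - P + 1)`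
(`P log P ≥ P - 1`: `Real.one_sub_inv_le_log_of_pos`).  Integrate over `confBox` (volume `(L³)^N`,
`∫ P = (L³)^N` by `integral_PP`; `P` continuous, the box bounded, hence integrable;
`P log M - P + 1 ≥ 0` because it bounds a nonnegative function; `ofReal_integral_eq_lintegral_ofReal`).
-/

open MeasureTheory Filter Topology ProbabilityTheory
open scoped ENNReal NNReal BigOperators ContDiff

namespace Pool.Agent.P76s

namespace KineticAux

variable {N m : ℕ} {L : ℝ} {s : ℝ≥0}

lemma integrable_PP (a : Fin N → Fin 3 → Fin m) : Integrable (PP N m L s a)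
    ((volume : Measure (Conf N)).restrict (confBox N L)) := by
  unfold PP
  exact (integrable_finsetSum _ fun (σ : Equiv.Perm (Fin N)) _ =>
    TrialIAux.integrable_prod_qq (L := L) (s := s) fun i => a (σ i)).const_mul _

lemma integral_one_confBox (hL : 0 < L) : ∫ _ in confBox N L, (1 : ℝ) = (L ^ 3) ^ N := by
  rw [setIntegral_const, smul_eq_mul, mul_one]
  unfold Measure.real confBox box
  rw [volume_pi_pi]
  simp only [volume_pi_pi, Real.volume_Ico, sub_zero]
  simp [hL.le]

/-- the derivative of `√PP` -/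
lemma norm_fderiv (hL : 0 < L) (hs : s ≠ 0) (a : Fin N → Fin 3 → Fin m) (x v : Conf N) :
    ‖fderiv ℝ (trial N m L s a) x v‖ ^ 2 =
      (fderiv ℝ (PP N m L s a) x v) ^ 2 / (4 * PP N m L s a x) := by
  have hP := PP_pos hL hs a x
  have h1 : HasFDerivAt (PP N m L s a) (fderiv ℝ (PP N m L s a) x) x :=
    ((PP_contDiff hs a).differentiable (by simp) x).hasFDerivAt
  have h2 := h1.sqrt hP.ne'
  have h3 := (Complex.ofRealCLM.hasFDerivAt (x := Real.sqrt (PP N m L s a x))).comp x h2
  have h4 : HasFDerivAt (trial N m L s a)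
      (Complex.ofRealCLM.comp ((1 / (2 * Real.sqrt (PP N m L s a x))) •
        fderiv ℝ (PP N m L s a) x)) x := h3
  rw [h4.fderiv]
  simp only [ContinuousLinearMap.comp_apply, smul_apply,
    Complex.ofRealCLM_apply, Complex.norm_real, Real.norm_eq_abs, sq_abs, smul_eq_mul]
  rw [mul_pow, div_pow, mul_pow, Real.sq_sqrt hP.le]
  ring

/-- the pointwise bound -/
lemma pointwise (hL : 0 < L) (hs : s ≠ 0) (a : Fin N → Fin 3 → Fin m) (x : Conf N) :
    1 / 2 * ∑ i, ∑ b, ‖fderiv ℝ (trial N m L s a) x (Pi.single i (Pi.single b 1))‖ ^ 2 ≤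
      1 / (4 * (s : ℝ)) * (PP N m L s a x * Real.log (MM N m a) - PP N m L s a x + 1) := by
  have hP := PP_pos hL hs a x
  have hs0 : (0 : ℝ) < s := by
    have := pos_iff_ne_zero.2 hs
    exact_mod_cast this
  have hPe := PP_eq (L := L) (s := s) a x
  have hM : PP N m L s a x ≤ MM N m a := by
    rw [hPe]
    have h1 : ∫ z, HH N m L a (x + z) ∂(Gam N s) ≤ ∫ _, MM N m a ∂(Gam N s) := by
      refine integral_mono_of_nonneg (Eventually.of_forall fun z => HH_nonneg a _)
        (integrable_const _) (Eventually.of_forall fun z => HH_le a _)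
    simpa using h1
  have hM0 : 0 < MM N m a := hP.trans_le hM
  have hent := entropy_bound hs (h := fun z => HH N m L a (x + z))
    ((measurable_HH a).comp (measurable_const_add x)) (M := MM N m a)
    (fun z => HH_nonneg a _) (fun z => HH_le a _) (by rw [← hPe]; exact hP)
  rw [← hPe] at hent
  have h1 : 1 / 2 * ∑ i, ∑ b,
      ‖fderiv ℝ (trial N m L s a) x (Pi.single i (Pi.single b 1))‖ ^ 2 =
      1 / (8 * PP N m L s a x * (s : ℝ) ^ 2) *
        ∑ i, ∑ b, (∫ z, HH N m L a (x + z) * z i b ∂(Gam N s)) ^ 2 := by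
    simp only [norm_fderiv hL hs, PP_fderiv hs, Finset.mul_sum]
    refine Finset.sum_congr rfl fun i _ => Finset.sum_congr rfl fun b _ => ?_
    field_simp
    ring
  rw [h1]
  have h2 : 1 / (8 * PP N m L s a x * (s : ℝ) ^ 2) *
      ∑ i, ∑ b, (∫ z, HH N m L a (x + z) * z i b ∂(Gam N s)) ^ 2 ≤
      1 / (8 * PP N m L s a x * (s : ℝ) ^ 2) *
        (2 * s * (PP N m L s a x) ^ 2 * Real.log (MM N m a / PP N m L s a x)) :=
    mul_le_mul_of_nonneg_left hent (by positivity)
  refine h2.trans ?_
  have h3 : 1 / (8 * PP N m L s a x * (s : ℝ) ^ 2) *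
        (2 * s * (PP N m L s a x) ^ 2 * Real.log (MM N m a / PP N m L s a x)) =
      1 / (4 * (s : ℝ)) * (PP N m L s a x * Real.log (MM N m a / PP N m L s a x)) := by
    field_simp
    ring
  rw [h3]
  refine mul_le_mul_of_nonneg_left ?_ (by positivity)
  rw [Real.log_div hM0.ne' hP.ne']
  have h4 := Real.one_sub_inv_le_log_of_pos hP
  have h5 := mul_le_mul_of_nonneg_left h4 hP.le
  have h6 : PP N m L s a x * (1 - (PP N m L s a x)⁻¹) = PP N m L s a x - 1 := by
    rw [mul_sub, mul_inv_cancel₀ hP.ne', mul_one]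
  rw [h6] at h5
  linarith

end KineticAux

open KineticAux

theorem kinetic_trial_le {N m : ℕ} {L : ℝ} {s : ℝ≥0} (hL : 0 < L) (hs : s ≠ 0)
    (a : Fin N → Fin 3 → Fin m) :
    kinetic N L (trial N m L s a) ≤
      ENNReal.ofReal (Real.log (MM N m a) / (4 * s) * (L ^ 3) ^ N) := by
  have hs0 : (0 : ℝ) < s := by
    have := pos_iff_ne_zero.2 hs
    exact_mod_cast this
  set g : Conf N → ℝ := fun x => 1 / (4 * (s : ℝ)) *
    (PP N m L s a x * Real.log (MM N m a) - PP N m L s a x + 1) with hg
  have hgi : Integrable g ((volume : Measure (Conf N)).restrict (confBox N L)) := by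
    have h1 := integrable_PP (L := L) (s := s) a
    exact (((h1.mul_const _).sub h1).add (integrable_const _)).const_mul _
  have hg0 : ∀ x, 0 ≤ g x := fun x =>
    le_trans (mul_nonneg (by norm_num) (Finset.sum_nonneg fun i _ =>
      Finset.sum_nonneg fun b _ => sq_nonneg _)) (pointwise hL hs a x)
  have hint : ∫ x in confBox N L, g x = Real.log (MM N m a) / (4 * s) * (L ^ 3) ^ N := by
    have h1 := integrable_PP (L := L) (s := s) a
    have e1 : Integrable (fun x => PP N m L s a x * Real.log (MM N m a))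
        ((volume : Measure (Conf N)).restrict (confBox N L)) := h1.mul_const _
    have e2 : Integrable (fun x => PP N m L s a x * Real.log (MM N m a) - PP N m L s a x)
        ((volume : Measure (Conf N)).restrict (confBox N L)) := e1.sub h1
    rw [hg, integral_const_mul, integral_add e2 (integrable_const (1 : ℝ)),
      integral_sub e1 h1, integral_mul_const, integral_PP hL hs,
      integral_one_confBox hL]
    ring
  unfold kinetic
  rw [← hint, ofReal_integral_eq_lintegral_ofReal hgi (Eventually.of_forall hg0)]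
  exact lintegral_mono fun x => ENNReal.ofReal_le_ofReal (pointwise hL hs a x)

end Pool.Agent.P76s
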