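import Pool.Agent.Lib.P76s.Tile
import Pool.Agent.Lib.P76s.PiDens

/-!
# P76s.NegMode (2 h): product trial functions with one Fourier mode (black box: Tile)

Trial function `Ψ(x) = ∏_i φ(x_i)`, `φ = √p`, `p(y) = 1 + ½ cos(2π ⟨k, y⟩)`, `k = n/L`, `n ∈ ℤ³`
(`½ ≤ p ≤ 3/2`, smooth, `L`-periodic, so `Ψ` is an `IsWave`).  With `V = L³`:
* if `n = 0` then `p = 3/2` is constant; the formula below still holds (`𝓕 v 0 = ∫ v ≥ 0`), e.g. by the
  constant trial function; if `n ≠ 0`: `∫_{box} cos(2π⟨k,y⟩) = 0`, `∫_{box} cos² = V/2`.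
* mass `= (∫_{box} p)^N = V^N`.
* kinetic `= N V^{N-1} ½ ∫_{box} |∇p|²/(4p)`, `|∇p|² ≤ π²|k|² sin²`, `p ≥ ½`, so
  kinetic `≤ N V^N π²|k|²/4`.
* interaction `= (N(N-1)/2) V^{N-2} ∬_{box²} W(x-y) p(x) p(y)`, `W = periodize L (pot v)`, and
  `∬ = V ∫v + 0 + 0 + ¼ ∬ W(x-y) cos cos = V (∫ v + ⅛ (𝓕 v k).re)`:
  `cos(2π⟨k,x⟩) cos(2π⟨k,y⟩) = cos(2π⟨k,x⟩) [cos(2π⟨k,x⟩) cos(2π⟨k,x-y⟩) + sin(2π⟨k,x⟩) sin(2π⟨k,x-y⟩)]`,
  integrate over `y` first (`∫_{box} W(x-y) cos(2π⟨k,x-y⟩) dy = ∫ v cos(2π⟨k,·⟩) = (𝓕 v k).re`, tiling,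
  the sine term vanishes since `v` is even), then over `x`.
* `N(N-1)/2 ≤ N²/2` and `∫ v + ⅛ (𝓕 v k).re ≥ 0`.

A weaker constant is fine for the application: feel free to replace `π²/4` and `1/8` by other
positive constants if that is easier (tell helper1).
-/

open MeasureTheory Filter Topology ProbabilityTheory
open scoped ENNReal NNReal BigOperators ContDiff FourierTransform

namespace Pool.Agent.P76s

namespace NegModeAux

/-- the phase -/
noncomputable def th (n : Fin 3 → ℤ) (L : ℝ) (y : Fin 3 → ℝ) : ℝ :=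
  ∑ b, 2 * Real.pi * ((n b : ℝ) / L) * y b

/-- the density of one particle -/
noncomputable def pd (n : Fin 3 → ℤ) (L : ℝ) (y : Fin 3 → ℝ) : ℝ := 1 + Real.cos (th n L y) / 2

variable {n : Fin 3 → ℤ} {L : ℝ}

lemma contDiff_th : ContDiff ℝ ∞ (th n L) := by
  unfold th
  fun_prop

lemma contDiff_pd : ContDiff ℝ ∞ (pd n L) := by
  unfold pd
  exact contDiff_const.add ((Real.contDiff_cos.comp contDiff_th).div_const 2)

lemma continuous_th : Continuous (th n L) := contDiff_th.continuous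

lemma continuous_pd : Continuous (pd n L) := contDiff_pd.continuous

lemma pd_ge (y : Fin 3 → ℝ) : 1 / 2 ≤ pd n L y := by
  unfold pd
  have := Real.neg_one_le_cos (th n L y)
  linarith

lemma pd_le (y : Fin 3 → ℝ) : pd n L y ≤ 3 / 2 := by
  unfold pd
  have := Real.cos_le_one (th n L y)
  linarith

lemma pd_pos (y : Fin 3 → ℝ) : 0 < pd n L y := lt_of_lt_of_le (by norm_num) (pd_ge y)

lemma th_add (y z : Fin 3 → ℝ) : th n L (y + z) = th n L y + th n L z := by
  unfold th
  rw [← Finset.sum_add_distrib]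
  exact Finset.sum_congr rfl fun b _ => by rw [Pi.add_apply]; ring

lemma th_neg (y : Fin 3 → ℝ) : th n L (-y) = -th n L y := by
  unfold th
  rw [← Finset.sum_neg_distrib]
  exact Finset.sum_congr rfl fun b _ => by rw [Pi.neg_apply]; ring

lemma th_lat (hL : 0 < L) (l : Fin 3 → ℤ) :
    th n L (lat L l) = ((∑ b, n b * l b : ℤ) : ℝ) * (2 * Real.pi) := by
  unfold th lat
  push_cast
  rw [Finset.sum_mul]
  refine Finset.sum_congr rfl fun b _ => ?_
  have := hL.ne'
  field_simp

lemma pd_add_lat (hL : 0 < L) (y : Fin 3 → ℝ) (l : Fin 3 → ℤ) :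
    pd n L (y + lat L l) = pd n L y := by
  unfold pd
  rw [th_add, th_lat hL, Real.cos_add_int_mul_two_pi]

/-- one-particle wave function -/
noncomputable def ph (n : Fin 3 → ℤ) (L : ℝ) (y : Fin 3 → ℝ) : ℝ := Real.sqrt (pd n L y)

lemma contDiff_ph : ContDiff ℝ ∞ (ph n L) := contDiff_pd.sqrt fun y => (pd_pos y).ne'

/-- real trial function -/
noncomputable def tr (N : ℕ) (n : Fin 3 → ℤ) (L : ℝ) (x : Conf N) : ℝ := ∏ i, ph n L (x i)

variable {N : ℕ}

lemma contDiff_tr : ContDiff ℝ ∞ (tr N n L) := by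
  unfold tr
  refine contDiff_prod fun i _ => ?_
  exact contDiff_ph.comp (contDiff_apply ℝ (Fin 3 → ℝ) i)

lemma tr_sq (x : Conf N) : tr N n L x ^ 2 = ∏ i, pd n L (x i) := by
  unfold tr ph
  rw [← Finset.prod_pow]
  exact Finset.prod_congr rfl fun i _ => Real.sq_sqrt (pd_pos _).le

lemma isWave_tr (hL : 0 < L) : IsWave N L (fun x => ((tr N n L x : ℝ) : ℂ)) where
  smooth := Complex.ofRealCLM.contDiff.comp contDiff_tr
  periodic := by
    intro x i l
    congr 1
    unfold tr
    refine Finset.prod_congr rfl fun j _ => ?_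
    by_cases hj : j = i
    · subst hj
      unfold ph
      rw [Pi.add_apply, Pi.single_eq_same, pd_add_lat hL]
    · rw [Pi.add_apply, Pi.single_eq_of_ne hj, add_zero]
  symm := by
    intro x σ
    congr 1
    unfold tr
    exact Equiv.prod_comp σ (fun i => ph n L (x i))

/-! kinetic energy -/

lemma hasDerivAt_ph (y : Fin 3 → ℝ) (b : Fin 3) :
    HasDerivAt (fun t : ℝ => ph n L (y + t • (Pi.single b (1 : ℝ) : Fin 3 → ℝ)))
      (-(Real.pi * ((n b : ℝ) / L) * Real.sin (th n L y)) / (2 * Real.sqrt (pd n L y))) 0 := by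
  have h1 : ∀ t : ℝ, th n L (y + t • (Pi.single b (1 : ℝ) : Fin 3 → ℝ)) =
      th n L y + (2 * Real.pi * ((n b : ℝ) / L)) * t := by
    intro t
    rw [th_add]
    congr 1
    unfold th
    rw [Finset.sum_eq_single b]
    · simp
    · intro c _ hc
      simp [Pi.single_eq_of_ne hc]
    · intro h
      exact absurd (Finset.mem_univ b) h
  have h2 : HasDerivAt (fun t : ℝ => th n L y + (2 * Real.pi * ((n b : ℝ) / L)) * t)
      (2 * Real.pi * ((n b : ℝ) / L)) 0 := by
    have := ((hasDerivAt_id (0 : ℝ)).const_mul (2 * Real.pi * ((n b : ℝ) / L))).const_add (th n L y)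
    simpa using this
  have h3 : HasDerivAt (fun t : ℝ => pd n L (y + t • (Pi.single b (1 : ℝ) : Fin 3 → ℝ)))
      (-(Real.pi * ((n b : ℝ) / L) * Real.sin (th n L y))) 0 := by
    have h4 : (fun t : ℝ => pd n L (y + t • (Pi.single b (1 : ℝ) : Fin 3 → ℝ))) =
        fun t : ℝ => 1 + Real.cos (th n L y + (2 * Real.pi * ((n b : ℝ) / L)) * t) / 2 := by
      funext t
      unfold pd
      rw [h1]
    rw [h4]
    have h5 := ((h2.cos).div_const 2).const_add 1
    have h6 : -(Real.pi * ((n b : ℝ) / L) * Real.sin (th n L y)) =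
        -Real.sin (th n L y + (2 * Real.pi * ((n b : ℝ) / L)) * 0) *
          (2 * Real.pi * ((n b : ℝ) / L)) / 2 := by
      rw [mul_zero, add_zero]
      ring
    rw [h6]
    exact h5
  have h6 : pd n L (y + (0 : ℝ) • (Pi.single b (1 : ℝ) : Fin 3 → ℝ)) ≠ 0 := (pd_pos _).ne'
  have h7 := h3.sqrt h6
  have h8 : y + (0 : ℝ) • (Pi.single b (1 : ℝ) : Fin 3 → ℝ) = y := by simp
  rw [h8] at h7
  exact h7

lemma tr_line (x : Conf N) (i : Fin N) (b : Fin 3) (t : ℝ) :
    tr N n L (x + t • (Pi.single i (Pi.single b (1 : ℝ)) : Conf N)) =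
      (∏ j ∈ Finset.univ.erase i, ph n L (x j)) *
        ph n L (x i + t • (Pi.single b (1 : ℝ) : Fin 3 → ℝ)) := by
  unfold tr
  rw [← Finset.prod_erase_mul Finset.univ _ (Finset.mem_univ i)]
  congr 1
  · refine Finset.prod_congr rfl fun j hj => ?_
    rw [Pi.add_apply, Pi.smul_apply, Pi.single_eq_of_ne (Finset.ne_of_mem_erase hj), smul_zero,
      add_zero]
  · rw [Pi.add_apply, Pi.smul_apply, Pi.single_eq_same]

lemma fderiv_tr (x : Conf N) (i : Fin N) (b : Fin 3) :
    fderiv ℝ (fun x => ((tr N n L x : ℝ) : ℂ)) x (Pi.single i (Pi.single b 1)) =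
      (((∏ j ∈ Finset.univ.erase i, ph n L (x j)) *
        (-(Real.pi * ((n b : ℝ) / L) * Real.sin (th n L (x i))) /
          (2 * Real.sqrt (pd n L (x i)))) : ℝ) : ℂ) := by
  have hd : DifferentiableAt ℝ (tr N n L) x :=
    (contDiff_tr.differentiable (by simp)) x
  have h1 : HasFDerivAt (fun x => ((tr N n L x : ℝ) : ℂ))
      (Complex.ofRealCLM.comp (fderiv ℝ (tr N n L) x)) x :=
    Complex.ofRealCLM.hasFDerivAt.comp x hd.hasFDerivAt
  rw [h1.fderiv]
  have h2 : fderiv ℝ (tr N n L) x (Pi.single i (Pi.single b 1)) =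
      (∏ j ∈ Finset.univ.erase i, ph n L (x j)) *
        (-(Real.pi * ((n b : ℝ) / L) * Real.sin (th n L (x i))) /
          (2 * Real.sqrt (pd n L (x i)))) := by
    have h3 : HasDerivAt (fun t : ℝ => x + t • (Pi.single i (Pi.single b (1 : ℝ)) : Conf N))
        (Pi.single i (Pi.single b (1 : ℝ)) : Conf N) 0 := by
      have := ((hasDerivAt_id (0 : ℝ)).smul_const
        (Pi.single i (Pi.single b (1 : ℝ)) : Conf N)).const_add x
      simpa using this
    have h4 : HasFDerivAt (tr N n L) (fderiv ℝ (tr N n L) x)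
        (x + (0 : ℝ) • (Pi.single i (Pi.single b (1 : ℝ)) : Conf N)) := by
      have h5 : x + (0 : ℝ) • (Pi.single i (Pi.single b (1 : ℝ)) : Conf N) = x := by simp
      rw [h5]
      exact hd.hasFDerivAt
    have h6 := h4.comp_hasDerivAt (0 : ℝ) h3
    have h7 : (tr N n L ∘ fun t : ℝ => x + t • (Pi.single i (Pi.single b (1 : ℝ)) : Conf N)) =
        fun t : ℝ => (∏ j ∈ Finset.univ.erase i, ph n L (x j)) *
          ph n L (x i + t • (Pi.single b (1 : ℝ) : Fin 3 → ℝ)) := by
      funext t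
      exact tr_line x i b t
    rw [h7] at h6
    exact h6.unique ((hasDerivAt_ph (x i) b).const_mul _)
  rw [ContinuousLinearMap.comp_apply, h2]
  rfl

lemma sq_le (y : Fin 3 → ℝ) (κ : ℝ) :
    (-(Real.pi * κ * Real.sin (th n L y)) / (2 * Real.sqrt (pd n L y))) ^ 2 ≤
      Real.pi ^ 2 * κ ^ 2 / 2 * pd n L y := by
  have hp := pd_pos (n := n) (L := L) y
  rw [div_pow, mul_pow, Real.sq_sqrt hp.le, div_le_iff₀ (by positivity)]
  have h1 : Real.sin (th n L y) ^ 2 = 1 - Real.cos (th n L y) ^ 2 := by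
    have := Real.sin_sq_add_cos_sq (th n L y)
    linarith
  have h2 : (-(Real.pi * κ * Real.sin (th n L y))) ^ 2 =
      (Real.pi ^ 2 * κ ^ 2) * (1 - Real.cos (th n L y) ^ 2) := by
    rw [← h1]
    ring
  rw [h2]
  have h3 : 1 - Real.cos (th n L y) ^ 2 ≤ 2 * pd n L y ^ 2 := by
    unfold pd
    nlinarith [sq_nonneg (3 * Real.cos (th n L y) + 2)]
  have h4 : 0 ≤ Real.pi ^ 2 * κ ^ 2 := by positivity
  nlinarith [mul_le_mul_of_nonneg_left h3 h4]

lemma kin_pointwise (x : Conf N) :
    1 / 2 * ∑ i, ∑ b, ‖fderiv ℝ (fun x => ((tr N n L x : ℝ) : ℂ)) x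
      (Pi.single i (Pi.single b 1))‖ ^ 2 ≤
    N * (Real.pi ^ 2 * (∑ b, ((n b : ℝ) / L) ^ 2) / 4) * ∏ i, pd n L (x i) := by
  have h1 : ∀ (i : Fin N) (b : Fin 3), ‖fderiv ℝ (fun x => ((tr N n L x : ℝ) : ℂ)) x
      (Pi.single i (Pi.single b 1))‖ ^ 2 ≤
      Real.pi ^ 2 * ((n b : ℝ) / L) ^ 2 / 2 * ∏ i, pd n L (x i) := by
    intro i b
    rw [fderiv_tr, Complex.norm_real, Real.norm_eq_abs, sq_abs, mul_pow]
    have h2 : (∏ j ∈ Finset.univ.erase i, ph n L (x j)) ^ 2 =
        ∏ j ∈ Finset.univ.erase i, pd n L (x j) := by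
      rw [← Finset.prod_pow]
      exact Finset.prod_congr rfl fun j _ => Real.sq_sqrt (pd_pos _).le
    rw [h2, ← Finset.prod_erase_mul Finset.univ _ (Finset.mem_univ i)]
    have h3 : 0 ≤ ∏ j ∈ Finset.univ.erase i, pd n L (x j) :=
      Finset.prod_nonneg fun j _ => (pd_pos _).le
    calc (∏ j ∈ Finset.univ.erase i, pd n L (x j)) *
          (-(Real.pi * ((n b : ℝ) / L) * Real.sin (th n L (x i))) /
            (2 * Real.sqrt (pd n L (x i)))) ^ 2 ≤
        (∏ j ∈ Finset.univ.erase i, pd n L (x j)) *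
          (Real.pi ^ 2 * ((n b : ℝ) / L) ^ 2 / 2 * pd n L (x i)) :=
          mul_le_mul_of_nonneg_left (sq_le _ _) h3
      _ = _ := by ring
  calc 1 / 2 * ∑ i, ∑ b, ‖fderiv ℝ (fun x => ((tr N n L x : ℝ) : ℂ)) x
          (Pi.single i (Pi.single b 1))‖ ^ 2 ≤
      1 / 2 * ∑ _i : Fin N, ∑ b, Real.pi ^ 2 * ((n b : ℝ) / L) ^ 2 / 2 * ∏ i, pd n L (x i) := by
        refine mul_le_mul_of_nonneg_left ?_ (by norm_num)
        exact Finset.sum_le_sum fun i _ => Finset.sum_le_sum fun b _ => h1 i b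
    _ = _ := by
        rw [Finset.sum_const, Finset.card_univ, Fintype.card_fin, nsmul_eq_mul, ← Finset.sum_mul,
          ← Finset.sum_div, ← Finset.mul_sum]
        ring

lemma kinetic_le :
    kinetic N L (fun x => ((tr N n L x : ℝ) : ℂ)) ≤
      ENNReal.ofReal (N * (Real.pi ^ 2 * (∑ b, ((n b : ℝ) / L) ^ 2) / 4)) *
        mass N L (fun x => ((tr N n L x : ℝ) : ℂ)) := by
  unfold kinetic mass
  have hc : 0 ≤ N * (Real.pi ^ 2 * (∑ b, ((n b : ℝ) / L) ^ 2) / 4) := by positivity
  have hm : Measurable fun x : Conf N => ENNReal.ofReal (‖(tr N n L x : ℂ)‖ ^ 2) := by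
    have : Continuous (tr N n L) := contDiff_tr.continuous
    fun_prop
  rw [← lintegral_const_mul _ hm]
  refine lintegral_mono fun x => ?_
  rw [← ENNReal.ofReal_mul hc]
  refine ENNReal.ofReal_le_ofReal ((kin_pointwise x).trans (le_of_eq ?_))
  rw [Complex.norm_real, Real.norm_eq_abs, sq_abs, tr_sq]


/-! integrals over the box -/

lemma vol_box (hL : 0 < L) : volume (box L) = ENNReal.ofReal (L ^ 3) := by
  unfold box
  rw [Real.volume_pi_Ico]
  simp only [sub_zero, Finset.prod_const, Finset.card_univ, Fintype.card_fin]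
  rw [ENNReal.ofReal_pow hL.le]

lemma fin_box (hL : 0 < L) : IsFiniteMeasure (volume.restrict (box L)) := by
  refine ⟨?_⟩
  rw [Measure.restrict_apply_univ, vol_box hL]
  exact ENNReal.ofReal_lt_top

lemma intg_box (hL : 0 < L) {f : (Fin 3 → ℝ) → ℝ} (hf : Continuous f) {C : ℝ}
    (hb : ∀ y, |f y| ≤ C) : Integrable f (volume.restrict (box L)) := by
  have := fin_box hL
  exact Integrable.of_bound hf.aestronglyMeasurable C (Filter.Eventually.of_forall fun y => by
    rw [Real.norm_eq_abs]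
    exact hb y)

lemma int_one_box (hL : 0 < L) (c : ℝ) : ∫ _y in box L, c = L ^ 3 * c := by
  rw [integral_const, smul_eq_mul]
  congr 1
  rw [Measure.real, Measure.restrict_apply_univ, vol_box hL, ENNReal.toReal_ofReal (by positivity)]

/-- mean of a single mode -/
lemma int_cos_box (hL : 0 < L) (hn : n ≠ 0) : ∫ y in box L, Real.cos (th n L y) = 0 := by
  obtain ⟨b, hb⟩ : ∃ b, n b ≠ 0 := by
    by_contra hcon
    push Not at hcon
    exact hn (funext hcon)
  set t : Fin 3 → ℝ := Pi.single b (L / (2 * n b)) with ht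
  have hnb : (n b : ℝ) ≠ 0 := by exact_mod_cast hb
  have hth : ∀ y, th n L (y + t) = th n L y + Real.pi := by
    intro y
    rw [th_add]
    congr 1
    unfold th
    rw [Finset.sum_eq_single b]
    · rw [ht, Pi.single_eq_same]
      have := hL.ne'
      field_simp
    · intro c _ hc
      rw [ht, Pi.single_eq_of_ne hc, mul_zero]
    · intro h
      exact absurd (Finset.mem_univ b) h
  have hcosm : Continuous fun y => Real.cos (th n L y) := Real.continuous_cos.comp continuous_th
  have hmeas : Measurable fun y => ENNReal.ofReal (1 + Real.cos (th n L y)) :=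
    (continuous_const.add hcosm).measurable.ennreal_ofReal
  have h1 := lintegral_box_shift hL hmeas (fun y l => by
    rw [th_add, th_lat hL, Real.cos_add_int_mul_two_pi]) t
  simp only [hth, Real.cos_add_pi] at h1
  have hi : Integrable (fun y => Real.cos (th n L y)) (volume.restrict (box L)) :=
    intg_box hL hcosm (C := 1) fun y => Real.abs_cos_le_one _
  have hc1 : Integrable (fun _ : Fin 3 → ℝ => (1 : ℝ)) (volume.restrict (box L)) :=
    intg_box hL continuous_const (C := 1) fun y => by norm_num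
  have hin : Integrable (fun y => -Real.cos (th n L y)) (volume.restrict (box L)) := hi.neg
  have hs1 : Integrable (fun y => 1 + -Real.cos (th n L y)) (volume.restrict (box L)) :=
    hc1.add hin
  have hs2 : Integrable (fun y => 1 + Real.cos (th n L y)) (volume.restrict (box L)) :=
    hc1.add hi
  rw [← ofReal_integral_eq_lintegral_ofReal hs1
      (Filter.Eventually.of_forall fun y => by
        show 0 ≤ 1 + -Real.cos (th n L y)
        linarith [Real.cos_le_one (th n L y)]),
    ← ofReal_integral_eq_lintegral_ofReal hs2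
      (Filter.Eventually.of_forall fun y => by
        show 0 ≤ 1 + Real.cos (th n L y)
        linarith [Real.neg_one_le_cos (th n L y)])] at h1
  have e1 : ∫ y in box L, (1 + -Real.cos (th n L y)) = L ^ 3 * 1 -
      ∫ y in box L, Real.cos (th n L y) := by
    rw [integral_add hc1 hin, int_one_box hL]
    have : ∫ y in box L, -Real.cos (th n L y) = -∫ y in box L, Real.cos (th n L y) :=
      integral_neg _
    rw [this]
    ring
  have e2 : ∫ y in box L, (1 + Real.cos (th n L y)) = L ^ 3 * 1 +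
      ∫ y in box L, Real.cos (th n L y) := by
    rw [integral_add hc1 hi, int_one_box hL]
  have p1 : 0 ≤ ∫ y in box L, (1 + -Real.cos (th n L y)) :=
    integral_nonneg fun y => by
      show 0 ≤ 1 + -Real.cos (th n L y)
      linarith [Real.cos_le_one (th n L y)]
  have p2 : 0 ≤ ∫ y in box L, (1 + Real.cos (th n L y)) :=
    integral_nonneg fun y => by
      show 0 ≤ 1 + Real.cos (th n L y)
      linarith [Real.neg_one_le_cos (th n L y)]
  have h2 := (ENNReal.ofReal_eq_ofReal_iff p1 p2).1 h1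
  rw [e1, e2] at h2
  linarith

lemma int_cos_sq_box (hL : 0 < L) (hn : n ≠ 0) :
    ∫ y in box L, Real.cos (th n L y) ^ 2 = L ^ 3 / 2 := by
  have h2n : (2 : ℤ) • n ≠ 0 := by
    intro h
    apply hn
    funext b
    have := congrFun h b
    simpa using this
  have h1 := int_cos_box hL h2n
  have h2 : ∀ y, th ((2 : ℤ) • n) L y = 2 * th n L y := by
    intro y
    unfold th
    rw [Finset.mul_sum]
    refine Finset.sum_congr rfl fun b _ => ?_
    rw [Pi.smul_apply, smul_eq_mul, Int.cast_mul]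
    push_cast
    ring
  have h3 : ∀ y, Real.cos (th n L y) ^ 2 = 1 / 2 + Real.cos (th ((2 : ℤ) • n) L y) / 2 := by
    intro y
    rw [h2, Real.cos_sq]
  simp_rw [h3]
  have hcosm : Continuous fun y => Real.cos (th ((2 : ℤ) • n) L y) :=
    Real.continuous_cos.comp continuous_th
  have hi : Integrable (fun y => Real.cos (th ((2 : ℤ) • n) L y) / 2) (volume.restrict (box L)) :=
    (intg_box hL hcosm (C := 1) fun y => Real.abs_cos_le_one _).div_const 2
  have hc1 : Integrable (fun _ : Fin 3 → ℝ => (1 / 2 : ℝ)) (volume.restrict (box L)) :=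
    intg_box hL continuous_const (C := 1) fun y => by norm_num
  rw [integral_add hc1 hi, int_one_box hL, integral_div, h1]
  ring

/-! the potential -/

variable {v : E3 → ℝ}

lemma measurable_pot (hvm : Measurable v) : Measurable (pot v) :=
  (hvm.comp (MeasurableEquiv.toLp 2 (Fin 3 → ℝ)).measurable).ennreal_ofReal

/-- the potential as a function of the coordinates -/
def vc (v : E3 → ℝ) (y : Fin 3 → ℝ) : ℝ := v (WithLp.toLp 2 y)

lemma integrable_vc (hv : Integrable v) : Integrable (vc v) :=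
  ((PiLp.volume_preserving_toLp (Fin 3)).integrable_comp_emb
    (MeasurableEquiv.toLp 2 _).measurableEmbedding).2 hv

lemma integral_vc : ∫ y, vc v y = ∫ x, v x :=
  (PiLp.volume_preserving_toLp (Fin 3)).integral_comp
    (MeasurableEquiv.toLp 2 _).measurableEmbedding v

lemma integrable_vc_mul (hv : Integrable v) {f : (Fin 3 → ℝ) → ℝ} (hf : Continuous f) {C : ℝ}
    (hb : ∀ y, |f y| ≤ C) : Integrable fun y => vc v y * f y :=
  (integrable_vc hv).mul_bdd (c := C) hf.aestronglyMeasurable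
    (Filter.Eventually.of_forall fun y => by
      rw [Real.norm_eq_abs]
      exact hb y)

lemma fourier_re (hv : Integrable v) {k : E3} (hk : k = WithLp.toLp 2 (fun b => (n b : ℝ) / L)) :
    (𝓕 (fun x => (v x : ℂ)) k).re = ∫ y, vc v y * Real.cos (th n L y) := by
  rw [Real.fourier_eq']
  have h1 : Integrable fun x : E3 =>
      Complex.exp ((↑(-2 * Real.pi * inner ℝ x k) * Complex.I)) • (v x : ℂ) := by
    refine Integrable.bdd_mul (c := 1) (hv.ofReal (𝕜 := ℂ)) ?_ ?_
    · exact (Continuous.aestronglyMeasurable (by fun_prop))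
    · refine Filter.Eventually.of_forall fun x => ?_
      rw [Complex.norm_exp_ofReal_mul_I]
  have h2 := Complex.reCLM.integral_comp_comm h1
  rw [Complex.reCLM_apply] at h2
  rw [← h2, ← (PiLp.volume_preserving_toLp (Fin 3)).integral_comp
    (MeasurableEquiv.toLp 2 _).measurableEmbedding]
  refine integral_congr_ae (Filter.Eventually.of_forall fun y => ?_)
  simp only
  rw [Complex.reCLM_apply, smul_eq_mul, Complex.re_mul_ofReal, Complex.exp_ofReal_mul_I_re]
  have h3 : -2 * Real.pi * inner ℝ (WithLp.toLp 2 y : E3) k = -th n L y := by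
    rw [hk]
    unfold th
    simp only [PiLp.inner_apply, RCLike.inner_apply, conj_trivial]
    rw [Finset.mul_sum, ← Finset.sum_neg_distrib]
    refine Finset.sum_congr rfl fun b _ => ?_
    ring
  rw [h3, Real.cos_neg, mul_comm]
  rfl

lemma odd_zero (heven : ∀ x, v (-x) = v x) : ∫ y, vc v y * Real.sin (th n L y) = 0 := by
  have h1 : ∫ y, vc v (-y) * Real.sin (th n L (-y)) = ∫ y, vc v y * Real.sin (th n L y) :=
    integral_neg_eq_self (fun y => vc v y * Real.sin (th n L y)) volume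
  have h2 : ∀ y, vc v (-y) * Real.sin (th n L (-y)) = -(vc v y * Real.sin (th n L y)) := by
    intro y
    have e1 : vc v (-y) = vc v y := by
      unfold vc
      rw [WithLp.toLp_neg, heven]
    rw [e1, th_neg, Real.sin_neg]
    ring
  simp_rw [h2] at h1
  rw [integral_neg] at h1
  linarith

/-- the potential averaged against the density -/
lemma inner_int (hv : Integrable v) (hv0 : ∀ x, 0 ≤ v x) (heven : ∀ x, v (-x) = v x) {k : E3}
    (hk : k = WithLp.toLp 2 (fun b => (n b : ℝ) / L)) (x : Fin 3 → ℝ) :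
    ∫⁻ y, pot v y * ENNReal.ofReal (pd n L (x - y)) =
      ENNReal.ofReal ((∫ x, v x) +
        (𝓕 (fun x => (v x : ℂ)) k).re * Real.cos (th n L x) / 2) := by
  have h1 : ∀ y, pot v y * ENNReal.ofReal (pd n L (x - y)) =
      ENNReal.ofReal (vc v y * pd n L (x - y)) := by
    intro y
    rw [ENNReal.ofReal_mul (show 0 ≤ vc v y from hv0 _)]
    rfl
  simp_rw [h1]
  have hpc : Continuous fun y => pd n L (x - y) := continuous_pd.comp (by fun_prop)
  have hi : Integrable fun y => vc v y * pd n L (x - y) :=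
    integrable_vc_mul hv hpc (C := 3 / 2) fun y => by
      rw [abs_of_pos (pd_pos _)]
      exact pd_le _
  rw [← ofReal_integral_eq_lintegral_ofReal hi
    (Filter.Eventually.of_forall fun y => mul_nonneg (hv0 _) (pd_pos _).le)]
  congr 1
  have h2 : ∀ y, vc v y * pd n L (x - y) = vc v y +
      (Real.cos (th n L x) / 2) * (vc v y * Real.cos (th n L y)) +
        (Real.sin (th n L x) / 2) * (vc v y * Real.sin (th n L y)) := by
    intro y
    have e1 : th n L (x - y) = th n L x - th n L y := by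
      rw [sub_eq_add_neg, th_add, th_neg, sub_eq_add_neg]
    unfold pd
    rw [e1, Real.cos_sub]
    ring
  simp_rw [h2]
  have hcosm : Continuous fun y => Real.cos (th n L y) := Real.continuous_cos.comp continuous_th
  have hsinm : Continuous fun y => Real.sin (th n L y) := Real.continuous_sin.comp continuous_th
  have i1 := integrable_vc hv
  have i2 : Integrable fun y => (Real.cos (th n L x) / 2) * (vc v y * Real.cos (th n L y)) :=
    (integrable_vc_mul hv hcosm (C := 1) fun y => Real.abs_cos_le_one _).const_mul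
      (Real.cos (th n L x) / 2)
  have i3 : Integrable fun y => (Real.sin (th n L x) / 2) * (vc v y * Real.sin (th n L y)) :=
    (integrable_vc_mul hv hsinm (C := 1) fun y => Real.abs_sin_le_one _).const_mul
      (Real.sin (th n L x) / 2)
  have i12 : Integrable fun y => vc v y +
      (Real.cos (th n L x) / 2) * (vc v y * Real.cos (th n L y)) := i1.add i2
  rw [integral_add i12 i3, integral_add i1 i2, integral_const_mul, integral_const_mul,
    odd_zero heven, integral_vc, ← fourier_re hv hk]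
  ring

lemma fourier_abs_le (hv : Integrable v) (hv0 : ∀ x, 0 ≤ v x) {k : E3}
    (hk : k = WithLp.toLp 2 (fun b => (n b : ℝ) / L)) :
    |(𝓕 (fun x => (v x : ℂ)) k).re| ≤ ∫ x, v x := by
  rw [fourier_re hv hk, ← integral_vc]
  refine (abs_integral_le_integral_abs).trans ?_
  have hcosm : Continuous fun y => Real.cos (th n L y) := Real.continuous_cos.comp continuous_th
  refine integral_mono_of_nonneg (Filter.Eventually.of_forall fun y => abs_nonneg _)
    (integrable_vc hv) (Filter.Eventually.of_forall fun y => ?_)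
  simp only
  rw [abs_mul, abs_of_nonneg (show 0 ≤ vc v y from hv0 _)]
  exact mul_le_of_le_one_right (hv0 _) (Real.abs_cos_le_one _)

/-- the periodized potential averaged against the density over the box -/
lemma inner_box (hL : 0 < L) (hvm : Measurable v) (hv : Integrable v) (hv0 : ∀ x, 0 ≤ v x)
    (heven : ∀ x, v (-x) = v x) {k : E3}
    (hk : k = WithLp.toLp 2 (fun b => (n b : ℝ) / L)) (x : Fin 3 → ℝ) :
    ∫⁻ y in box L, periodize L (pot v) (x - y) * ENNReal.ofReal (pd n L y) =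
      ENNReal.ofReal ((∫ x, v x) +
        (𝓕 (fun x => (v x : ℂ)) k).re * Real.cos (th n L x) / 2) := by
  have hw : Measurable fun z => pot v z * ENNReal.ofReal (pd n L (x - z)) := by
    refine (measurable_pot hvm).mul ?_
    exact (continuous_pd.comp (by fun_prop : Continuous fun z => x - z)).measurable.ennreal_ofReal
  have h1 := lintegral_box_sub hL hw x
  rw [inner_int hv hv0 heven hk x] at h1
  rw [← h1]
  refine lintegral_congr fun y => ?_
  unfold periodize
  rw [← ENNReal.tsum_mul_right]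
  refine tsum_congr fun l => ?_
  congr 2
  have e1 : x - (x - y + lat L l) = y + lat L (-l) := by
    have : lat L (-l) = -lat L l := by
      funext b
      simp [lat]
    rw [this]
    abel
  rw [e1, pd_add_lat hL]

/-- the double integral -/
lemma double_box (hL : 0 < L) (hvm : Measurable v) (hv : Integrable v) (hv0 : ∀ x, 0 ≤ v x)
    (heven : ∀ x, v (-x) = v x) {k : E3}
    (hk : k = WithLp.toLp 2 (fun b => (n b : ℝ) / L)) :
    ∫⁻ x in box L, ENNReal.ofReal (pd n L x) *
      ∫⁻ y in box L, periodize L (pot v) (x - y) * ENNReal.ofReal (pd n L y) =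
      ENNReal.ofReal (L ^ 3 * (∫ x, v x) +
        ((∫ x, v x) / 2 + (𝓕 (fun x => (v x : ℂ)) k).re / 2) *
          (∫ y in box L, Real.cos (th n L y)) +
        (𝓕 (fun x => (v x : ℂ)) k).re / 4 * ∫ y in box L, Real.cos (th n L y) ^ 2) := by
  simp_rw [inner_box hL hvm hv hv0 heven hk]
  set I₀ := ∫ x, v x with hI₀
  set A := (𝓕 (fun x => (v x : ℂ)) k).re with hA
  have hAI : |A| ≤ I₀ := fourier_abs_le hv hv0 hk
  have hI0 : 0 ≤ I₀ := (abs_nonneg _).trans hAI
  have hnn : ∀ x, 0 ≤ I₀ + A * Real.cos (th n L x) / 2 := by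
    intro x
    have h1 : |A * Real.cos (th n L x)| ≤ I₀ := by
      rw [abs_mul]
      exact (mul_le_of_le_one_right (abs_nonneg _) (Real.abs_cos_le_one _)).trans hAI
    have h2 := (abs_le.1 h1).1
    linarith
  have h1 : ∀ x, ENNReal.ofReal (pd n L x) * ENNReal.ofReal (I₀ + A * Real.cos (th n L x) / 2) =
      ENNReal.ofReal (pd n L x * (I₀ + A * Real.cos (th n L x) / 2)) := by
    intro x
    rw [ENNReal.ofReal_mul (pd_pos _).le]
  simp_rw [h1]
  have hcosm : Continuous fun y => Real.cos (th n L y) := Real.continuous_cos.comp continuous_th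
  have i0 : Integrable (fun _ : Fin 3 → ℝ => I₀) (volume.restrict (box L)) :=
    intg_box hL continuous_const (C := |I₀|) fun y => le_rfl
  have i1 : Integrable (fun y => Real.cos (th n L y)) (volume.restrict (box L)) :=
    intg_box hL hcosm (C := 1) fun y => Real.abs_cos_le_one _
  have i2 : Integrable (fun y => Real.cos (th n L y) ^ 2) (volume.restrict (box L)) :=
    intg_box hL (hcosm.pow 2) (C := 1) fun y => by
      rw [abs_pow]
      exact pow_le_one₀ (abs_nonneg _) (Real.abs_cos_le_one _)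
  have h2 : ∀ x, pd n L x * (I₀ + A * Real.cos (th n L x) / 2) =
      I₀ + (I₀ / 2 + A / 2) * Real.cos (th n L x) + (A / 4) * Real.cos (th n L x) ^ 2 := by
    intro x
    unfold pd
    ring
  have i3 : Integrable (fun x => pd n L x * (I₀ + A * Real.cos (th n L x) / 2))
      (volume.restrict (box L)) := by
    simp_rw [h2]
    exact (i0.add (i1.const_mul _)).add (i2.const_mul _)
  rw [← ofReal_integral_eq_lintegral_ofReal i3
    (Filter.Eventually.of_forall fun x => mul_nonneg (pd_pos _).le (hnn x))]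
  congr 1
  simp_rw [h2]
  have j1 : Integrable (fun y => (I₀ / 2 + A / 2) * Real.cos (th n L y))
      (volume.restrict (box L)) := i1.const_mul _
  have j2 : Integrable (fun y => (A / 4) * Real.cos (th n L y) ^ 2)
      (volume.restrict (box L)) := i2.const_mul _
  have j01 : Integrable (fun y => I₀ + (I₀ / 2 + A / 2) * Real.cos (th n L y))
      (volume.restrict (box L)) := i0.add j1
  rw [integral_add j01 j2, integral_add i0 j1,
    integral_const_mul, integral_const_mul, int_one_box hL]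

/-- the mass of one particle -/
lemma mass_one (hL : 0 < L) : ∫⁻ y in box L, ENNReal.ofReal (pd n L y) =
    ENNReal.ofReal (L ^ 3 + (∫ y in box L, Real.cos (th n L y)) / 2) := by
  have hcosm : Continuous fun y => Real.cos (th n L y) := Real.continuous_cos.comp continuous_th
  have i1 : Integrable (fun y => Real.cos (th n L y)) (volume.restrict (box L)) :=
    intg_box hL hcosm (C := 1) fun y => Real.abs_cos_le_one _
  have hc1 : Integrable (fun _ : Fin 3 → ℝ => (1 : ℝ)) (volume.restrict (box L)) :=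
    intg_box hL continuous_const (C := 1) fun y => by norm_num
  have hi : Integrable (pd n L) (volume.restrict (box L)) := hc1.add (i1.div_const 2)
  rw [← ofReal_integral_eq_lintegral_ofReal hi
    (Filter.Eventually.of_forall fun x => (pd_pos _).le)]
  congr 1
  unfold pd
  rw [integral_add hc1 (i1.div_const 2), int_one_box hL, integral_div, mul_one]


/-! assembling -/

lemma measurable_g : Measurable fun y => ENNReal.ofReal (pd n L y) :=
  continuous_pd.measurable.ennreal_ofReal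

lemma norm_tr (x : Conf N) : ENNReal.ofReal (‖((tr N n L x : ℝ) : ℂ)‖ ^ 2) =
    ∏ i, ENNReal.ofReal (pd n L (x i)) := by
  rw [Complex.norm_real, Real.norm_eq_abs, sq_abs, tr_sq, ENNReal.ofReal_prod_of_nonneg]
  intro i _
  exact (pd_pos _).le

lemma mass_tr : mass N L (fun x => ((tr N n L x : ℝ) : ℂ)) =
    (∫⁻ y in box L, ENNReal.ofReal (pd n L y)) ^ N := by
  unfold mass
  rw [TrialIAux.confBox_restrict]
  simp_rw [norm_tr]
  rw [lintegral_pi_prod _ _ (fun _ => measurable_g)]
  simp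

lemma pair_int {g : (Fin 3 → ℝ) → ℝ≥0∞} (hg : Measurable g) {M : ℝ≥0∞}
    (hM : ∫⁻ y in box L, g y = M) (hM0 : M ≠ 0) (hMt : M ≠ ⊤) {W : (Fin 3 → ℝ) → ℝ≥0∞}
    (hW : Measurable W) {i j : Fin N} (hij : i ≠ j) :
    ∫⁻ x in confBox N L, W (x i - x j) * ∏ l, g (x l) =
      M ^ N * (M⁻¹ * M⁻¹ * ∫⁻ x in box L, g x * ∫⁻ y in box L, W (x - y) * g y) := by
  rw [TrialIAux.confBox_restrict]
  set μ : Measure (Fin 3 → ℝ) := volume.restrict (box L) with hμ
  have hgM : Measurable fun y => M⁻¹ * g y := hg.const_mul _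
  have hone : ∫⁻ y, M⁻¹ * g y ∂μ = 1 := by
    rw [lintegral_const_mul _ hg, hM, ENNReal.inv_mul_cancel hM0 hMt]
  set ν : Measure (Fin 3 → ℝ) := μ.withDensity (fun y => M⁻¹ * g y) with hν
  have hp : IsProbabilityMeasure ν := ⟨by
    rw [hν, withDensity_apply _ MeasurableSet.univ, Measure.restrict_univ, hone]⟩
  have h1 := pi_withDensity (fun _ : Fin N => μ) (fun _ y => M⁻¹ * g y) (fun _ => hgM)
    (fun _ => by rw [hone]; exact ENNReal.one_ne_top)
  have hWm : Measurable (Function.uncurry fun a b : Fin 3 → ℝ => W (a - b)) :=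
    hW.comp (measurable_fst.sub measurable_snd)
  have h2 := lintegral_pi_pair (fun _ : Fin N => ν) hij (f := fun a b => W (a - b)) hWm
  have hpm : Measurable fun x : Conf N => ∏ l, M⁻¹ * g (x l) :=
    Finset.measurable_prod _ fun l _ => hgM.comp (measurable_pi_apply l)
  have hpm' : Measurable fun x : Conf N => ∏ l, g (x l) :=
    Finset.measurable_prod _ fun l _ => hg.comp (measurable_pi_apply l)
  have hwm : Measurable fun x : Conf N => W (x i - x j) :=
    hW.comp ((measurable_pi_apply i).sub (measurable_pi_apply j))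
  have h3 : ∫⁻ x : Conf N, W (x i - x j) ∂(Measure.pi fun _ => ν) =
      M⁻¹ ^ N * ∫⁻ x : Conf N, W (x i - x j) * ∏ l, g (x l) ∂(Measure.pi fun _ => μ) := by
    have hm3 : Measurable fun x : Conf N => W (x i - x j) * ∏ l, g (x l) := hwm.mul hpm'
    rw [hν, h1, lintegral_withDensity_eq_lintegral_mul _ hpm hwm, ← lintegral_const_mul _ hm3]
    refine lintegral_congr fun x => ?_
    rw [Pi.mul_apply, Finset.prod_mul_distrib, Finset.prod_const, Finset.card_univ,
      Fintype.card_fin]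
    ring
  have h4 : ∀ x, ∫⁻ y, W (x - y) ∂ν = M⁻¹ * ∫⁻ y, W (x - y) * g y ∂μ := by
    intro x
    have hm1 : Measurable fun y => W (x - y) := hW.comp (measurable_id.const_sub x)
    have hm3 : Measurable fun y => W (x - y) * g y := hm1.mul hg
    rw [hν, lintegral_withDensity_eq_lintegral_mul _ hgM hm1, ← lintegral_const_mul _ hm3]
    refine lintegral_congr fun y => ?_
    rw [Pi.mul_apply]
    ring
  have hm2 : Measurable fun x => ∫⁻ y, W (x - y) * g y ∂μ := by
    refine Measurable.lintegral_prod_right' (f := fun p : (Fin 3 → ℝ) × (Fin 3 → ℝ) =>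
      W (p.1 - p.2) * g p.2) ?_
    exact (hW.comp (measurable_fst.sub measurable_snd)).mul (hg.comp measurable_snd)
  have h5 : ∫⁻ x, ∫⁻ y, W (x - y) ∂ν ∂ν =
      M⁻¹ * M⁻¹ * ∫⁻ x, g x * ∫⁻ y, W (x - y) * g y ∂μ ∂μ := by
    simp_rw [h4]
    rw [lintegral_const_mul _ hm2, mul_assoc]
    congr 1
    have hm3 : Measurable fun x => g x * ∫⁻ y, W (x - y) * g y ∂μ := hg.mul hm2
    rw [hν, lintegral_withDensity_eq_lintegral_mul _ hgM hm2, ← lintegral_const_mul _ hm3]
    refine lintegral_congr fun y => ?_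
    rw [Pi.mul_apply]
    ring
  rw [← h5, ← h2, h3, ← mul_assoc, ← mul_pow, ENNReal.mul_inv_cancel hM0 hMt, one_pow, one_mul]

lemma pairs_le : (∑ i : Fin N, ∑ _j ∈ Finset.Ioi i, (1 : ℝ≥0∞)) ≤
    ENNReal.ofReal ((N : ℝ) ^ 2 / 2) := by
  have h1 : (∑ i : Fin N, ∑ _j ∈ Finset.Ioi i, (1 : ℝ≥0∞)) =
      ((∑ i ∈ Finset.range N, i : ℕ) : ℝ≥0∞) := by
    rw [← Finset.sum_range_reflect, ← Fin.sum_univ_eq_sum_range (fun i => N - 1 - i) N]
    rw [Nat.cast_sum]
    refine Finset.sum_congr rfl fun i _ => ?_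
    rw [Finset.sum_const, Fin.card_Ioi, nsmul_eq_mul, mul_one]
  have h2 := Finset.sum_range_id_mul_two N
  rw [h1, ← ENNReal.ofReal_natCast]
  refine ENNReal.ofReal_le_ofReal ?_
  have h3 : ((∑ i ∈ Finset.range N, i : ℕ) : ℝ) * 2 ≤ (N : ℝ) ^ 2 := by
    have : (∑ i ∈ Finset.range N, i) * 2 ≤ N ^ 2 := by
      rw [h2, sq]
      exact Nat.mul_le_mul_left _ (Nat.sub_le _ _)
    exact_mod_cast this
  linarith

lemma interaction_tr {M : ℝ≥0∞} (hM : ∫⁻ y in box L, ENNReal.ofReal (pd n L y) = M)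
    (hM0 : M ≠ 0) (hMt : M ≠ ⊤) {W : (Fin 3 → ℝ) → ℝ≥0∞} (hW : Measurable W) :
    interaction N L W (fun x => ((tr N n L x : ℝ) : ℂ)) =
      (∑ i : Fin N, ∑ _j ∈ Finset.Ioi i, (1 : ℝ≥0∞)) *
        (M ^ N * (M⁻¹ * M⁻¹ * ∫⁻ x in box L, ENNReal.ofReal (pd n L x) *
          ∫⁻ y in box L, W (x - y) * ENNReal.ofReal (pd n L y))) := by
  unfold interaction
  simp_rw [norm_tr, Finset.sum_mul, one_mul]
  have hpm' : Measurable fun x : Conf N => ∏ l, ENNReal.ofReal (pd n L (x l)) :=
    Finset.measurable_prod _ fun l _ => measurable_g.comp (measurable_pi_apply l)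
  have hwm : ∀ i j : Fin N, Measurable fun x : Conf N =>
      W (x i - x j) * ∏ l, ENNReal.ofReal (pd n L (x l)) := fun i j =>
    (hW.comp ((measurable_pi_apply i).sub (measurable_pi_apply j))).mul hpm'
  rw [lintegral_finsetSum _ fun i _ => Finset.measurable_sum _ fun j _ => hwm i j]
  refine Finset.sum_congr rfl fun i _ => ?_
  rw [lintegral_finsetSum _ fun j _ => hwm i j]
  refine Finset.sum_congr rfl fun j hj => ?_
  exact pair_int measurable_g hM hM0 hMt hW (ne_of_lt (Finset.mem_Ioi.1 hj))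

end NegModeAux

open NegModeAux

theorem upper_mode {N : ℕ} (hN : 0 < N) {L : ℝ} (hL : 0 < L) {v : E3 → ℝ} (hvm : Measurable v)
    (hv : Integrable v) (hv0 : ∀ x, 0 ≤ v x) (heven : ∀ x, v (-x) = v x) (n : Fin 3 → ℤ) (k : E3)
    (hk : k = WithLp.toLp 2 (fun b => (n b : ℝ) / L)) :
    groundEnergy N L (periodize L (pot v)) ≤
      ENNReal.ofReal (N * (Real.pi ^ 2 * ‖k‖ ^ 2 / 4 +
        1 / 2 * (N / L ^ 3) * ((∫ x, v x) + 1 / 8 * (𝓕 (fun x => (v x : ℂ)) k).re))) := by
  have hV : 0 < L ^ 3 := by positivity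
  set c₁ := ∫ y in box L, Real.cos (th n L y) with hc₁
  set c₂ := ∫ y in box L, Real.cos (th n L y) ^ 2 with hc₂
  set I₀ := ∫ x, v x with hI₀
  set A := (𝓕 (fun x => (v x : ℂ)) k).re with hA
  have hAI : |A| ≤ I₀ := fourier_abs_le hv hv0 hk
  have hI0 : 0 ≤ I₀ := (abs_nonneg _).trans hAI
  have hk2 : ‖k‖ ^ 2 = ∑ b, ((n b : ℝ) / L) ^ 2 := by
    rw [hk, EuclideanSpace.norm_sq_eq]
    exact Finset.sum_congr rfl fun b _ => by rw [Real.norm_eq_abs, sq_abs]
  -- the values of the two integrals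
  have hcase : 0 < L ^ 3 + c₁ / 2 ∧
      (L ^ 3 * I₀ + (I₀ / 2 + A / 2) * c₁ + A / 4 * c₂) / (L ^ 3 + c₁ / 2) ^ 2 ≤
        (I₀ + 1 / 8 * A) / L ^ 3 := by
    by_cases hn : n = 0
    · have hth : ∀ y, th n L y = 0 := by
        intro y
        unfold th
        rw [hn]
        simp
      have e1 : c₁ = L ^ 3 := by
        rw [hc₁]
        simp_rw [hth, Real.cos_zero]
        rw [int_one_box hL, mul_one]
      have e2 : c₂ = L ^ 3 := by
        rw [hc₂]
        simp_rw [hth, Real.cos_zero, one_pow]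
        rw [int_one_box hL, mul_one]
      have e3 : A = I₀ := by
        rw [hA, fourier_re hv hk]
        simp_rw [hth, Real.cos_zero, mul_one]
        exact integral_vc
      rw [e1, e2, e3]
      refine ⟨by positivity, ?_⟩
      rw [div_le_div_iff₀ (by positivity) hV]
      nlinarith [mul_nonneg hI0 (sq_nonneg (L ^ 3))]
    · have e1 : c₁ = 0 := int_cos_box hL hn
      have e2 : c₂ = L ^ 3 / 2 := int_cos_sq_box hL hn
      rw [e1, e2]
      refine ⟨by linarith, le_of_eq ?_⟩
      field_simp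
      ring
  obtain ⟨hm0, hdm⟩ := hcase
  set m₁ := L ^ 3 + c₁ / 2 with hm₁
  set d := L ^ 3 * I₀ + (I₀ / 2 + A / 2) * c₁ + A / 4 * c₂ with hd
  have hM := mass_one (n := n) hL
  rw [← hc₁, ← hm₁] at hM
  have hM0 : ENNReal.ofReal m₁ ≠ 0 := by
    rw [Ne, ENNReal.ofReal_eq_zero, not_le]
    exact hm0
  have hMt : ENNReal.ofReal m₁ ≠ ⊤ := ENNReal.ofReal_ne_top
  have hD := double_box (n := n) hL hvm hv hv0 heven hk
  rw [← hc₁, ← hc₂, ← hd] at hD
  have hint := interaction_tr (N := N) hM hM0 hMt (measurable_periodize (L := L) (measurable_pot hvm))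
  rw [hD] at hint
  have hmass : mass N L (fun x => ((tr N n L x : ℝ) : ℂ)) = ENNReal.ofReal m₁ ^ N := by
    rw [mass_tr, hM]
  have hmass0 : mass N L (fun x => ((tr N n L x : ℝ) : ℂ)) ≠ 0 := by
    rw [hmass]
    exact pow_ne_zero _ hM0
  have hmasst : mass N L (fun x => ((tr N n L x : ℝ) : ℂ)) ≠ ⊤ := by
    rw [hmass]
    exact ENNReal.pow_ne_top hMt
  have hge : groundEnergy N L (periodize L (pot v)) ≤
      (kinetic N L (fun x => ((tr N n L x : ℝ) : ℂ)) +
        interaction N L (periodize L (pot v)) (fun x => ((tr N n L x : ℝ) : ℂ))) /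
          mass N L (fun x => ((tr N n L x : ℝ) : ℂ)) := by
    unfold groundEnergy
    refine iInf_le_of_le (fun x => ((tr N n L x : ℝ) : ℂ)) ?_
    exact iInf_le_of_le (isWave_tr hL) (iInf_le_of_le hmass0 le_rfl)
  refine hge.trans ?_
  rw [ENNReal.add_div]
  have hpart1 : kinetic N L (fun x => ((tr N n L x : ℝ) : ℂ)) /
      mass N L (fun x => ((tr N n L x : ℝ) : ℂ)) ≤
      ENNReal.ofReal (N * (Real.pi ^ 2 * ‖k‖ ^ 2 / 4)) := by
    rw [hk2]
    exact ENNReal.div_le_of_le_mul kinetic_le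
  have hdm' : (ENNReal.ofReal m₁)⁻¹ * (ENNReal.ofReal m₁)⁻¹ * ENNReal.ofReal d ≤
      ENNReal.ofReal ((I₀ + 1 / 8 * A) / L ^ 3) := by
    rw [← ENNReal.ofReal_inv_of_pos hm0, ← ENNReal.ofReal_mul (by positivity),
      ← ENNReal.ofReal_mul (by positivity)]
    refine ENNReal.ofReal_le_ofReal (le_trans (le_of_eq ?_) hdm)
    field_simp
  have hpart2 : interaction N L (periodize L (pot v)) (fun x => ((tr N n L x : ℝ) : ℂ)) /
      mass N L (fun x => ((tr N n L x : ℝ) : ℂ)) ≤
      ENNReal.ofReal ((N : ℝ) ^ 2 / 2) * ENNReal.ofReal ((I₀ + 1 / 8 * A) / L ^ 3) := by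
    rw [hint, ← hmass]
    refine ENNReal.div_le_of_le_mul ?_
    calc (∑ i : Fin N, ∑ _j ∈ Finset.Ioi i, (1 : ℝ≥0∞)) *
          (mass N L (fun x => ((tr N n L x : ℝ) : ℂ)) *
            ((ENNReal.ofReal m₁)⁻¹ * (ENNReal.ofReal m₁)⁻¹ * ENNReal.ofReal d)) ≤
        ENNReal.ofReal ((N : ℝ) ^ 2 / 2) * (mass N L (fun x => ((tr N n L x : ℝ) : ℂ)) *
          ENNReal.ofReal ((I₀ + 1 / 8 * A) / L ^ 3)) :=
          mul_le_mul' pairs_le (mul_le_mul' le_rfl hdm')
      _ = _ := by ring
  refine (add_le_add hpart1 hpart2).trans (le_of_eq ?_)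
  have hA8 : 0 ≤ I₀ + 1 / 8 * A := by
    have := (abs_le.1 hAI).1
    linarith
  rw [← ENNReal.ofReal_mul (by positivity), ← ENNReal.ofReal_add (by positivity) (by positivity)]
  congr 1
  field_simp

end Pool.Agent.P76s
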