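import Pool.Agent.Lib.P76s.Upper
import Pool.Agent.Lib.P76s.NegMode
import Pool.Agent.Lib.P76s.SimpleLower
import Pool.Agent.Lib.P76s.PosU
import Pool.Agent.Lib.P76s.Kappa

/-!
# P76s.Main: the comparison at high density
-/

open MeasureTheory Filter Topology ProbabilityTheory
open scoped ENNReal NNReal BigOperators FourierTransform

namespace Pool.Agent.P76s

theorem measurable_pot {v : E3 → ℝ} (hvm : Measurable v) : Measurable (pot v) :=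
  (hvm.comp (PiLp.volume_preserving_toLp (Fin 3)).measurable).ennreal_ofReal

theorem lintegral_pot {v : E3 → ℝ} (hvm : Measurable v) (hv : Integrable v) (hv0 : ∀ x, 0 ≤ v x) :
    ∫⁻ y, pot v y = ENNReal.ofReal (∫ x, v x) := by
  rw [ofReal_integral_eq_lintegral_ofReal hv (Eventually.of_forall hv0)]
  exact (PiLp.volume_preserving_toLp (Fin 3)).lintegral_comp hvm.ennreal_ofReal

theorem pot_neg {v : E3 → ℝ} (heven : ∀ x, v (-x) = v x) (y : Fin 3 → ℝ) :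
    pot v (-y) = pot v y := by
  unfold pot
  rw [WithLp.toLp_neg, heven]

/-- the side length of the torus -/
theorem side_cube {ρ : ℝ} (hρ : 0 < ρ) (N : ℕ) : (((N : ℝ) / ρ) ^ (1 / 3 : ℝ)) ^ 3 = N / ρ := by
  rw [← Real.rpow_natCast, ← Real.rpow_mul (by positivity)]
  norm_num

theorem tendsto_side {ρ : ℝ} (hρ : 0 < ρ) :
    Tendsto (fun N : ℕ => ((N : ℝ) / ρ) ^ (1 / 3 : ℝ)) atTop atTop :=
  (tendsto_rpow_atTop (by norm_num)).comp
    (tendsto_natCast_atTop_atTop.atTop_div_const hρ)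

theorem tendsto_err : Tendsto (fun ν : ℝ => (1 + Real.log (ν + 1) + 1 / ν) / ν) atTop (𝓝 0) := by
  have h1 : Tendsto (fun ν : ℝ => 1 / ν) atTop (𝓝 0) := by
    simpa using tendsto_inv_atTop_zero
  have h2 : Tendsto (fun ν : ℝ => Real.log (ν + 1) / ν) atTop (𝓝 0) := by
    have h3 : Tendsto (fun ν : ℝ => Real.log (ν + 1) / (ν + 1)) atTop (𝓝 0) := by
      have := Real.isLittleO_log_id_atTop.tendsto_div_nhds_zero
      exact this.comp (tendsto_atTop_add_const_right _ 1 tendsto_id)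
    have h4 : Tendsto (fun ν : ℝ => (ν + 1) / ν) atTop (𝓝 1) := by
      have : Tendsto (fun ν : ℝ => 1 + 1 / ν) atTop (𝓝 (1 + 0)) := tendsto_const_nhds.add h1
      rw [add_zero] at this
      refine this.congr' ?_
      filter_upwards [eventually_gt_atTop (0 : ℝ)] with ν hν
      field_simp
    have h5 := h3.mul h4
    rw [zero_mul] at h5
    refine h5.congr' ?_
    filter_upwards [eventually_gt_atTop (0 : ℝ)] with ν hν
    field_simp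
  have h6 := (h1.add h2).add (h1.mul h1)
  simp only [add_zero, mul_zero] at h6
  refine h6.congr' ?_
  filter_upwards [eventually_gt_atTop (0 : ℝ)] with ν hν
  field_simp

/-- The upper bound for `E₀/N` at high density. -/
theorem upper_density {v : E3 → ℝ} (hvm : Measurable v) (hv : Integrable v) (hv0 : ∀ x, 0 ≤ v x)
    (heven : ∀ x, v (-x) = v x) {s : ℝ≥0} (hs : s ≠ 0) {κ ℓ : ℝ} (hℓ : 0 < ℓ)
    (hK : ∀ d : Fin 3 → ℝ, (∀ b, |d b| ≤ ℓ) → ENNReal.ofReal κ ≤ KK s (pot v) d) {δ : ℝ}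
    (hδ0 : 0 < δ) :
    ∃ ρ₀ > 0, ∀ ρ ≥ ρ₀, ∃ N₀ : ℕ, ∀ N ≥ N₀,
      groundEnergy N ((N / ρ) ^ (1 / 3 : ℝ)) (periodize ((N / ρ) ^ (1 / 3 : ℝ)) (pot v)) ≤
        ENNReal.ofReal ((ρ / 2 * (∫ x, v x) - κ / 2 + 2 * δ) * N) := by
  set V₀ := ∫ x, v x with hV₀
  have hV₀0 : 0 ≤ V₀ := integral_nonneg hv0
  have hs' : (0 : ℝ) < s := by positivity
  obtain ⟨ν₀, hν₀⟩ := (eventually_atTop.1 (tendsto_err.eventually
    (gt_mem_nhds (show (0 : ℝ) < 4 * s * δ by positivity))))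
  set ν₁ := max ν₀ 1 with hν₁
  have hν₁1 : (1 : ℝ) ≤ ν₁ := le_max_right _ _
  refine ⟨max (8 * ν₁ / ℓ ^ 3) (32 * V₀ / (ℓ ^ 6 * δ)), by positivity, ?_⟩
  intro ρ hρ
  have hρ2 : 8 * ν₁ / ℓ ^ 3 ≤ ρ := le_trans (le_max_left _ _) hρ
  have hρ3 : 32 * V₀ / (ℓ ^ 6 * δ) ≤ ρ := le_trans (le_max_right _ _) hρ
  have hρ0 : 0 < ρ := lt_of_lt_of_le (by positivity) hρ2
  obtain ⟨N₀, hN₀⟩ := eventually_atTop.1 ((tendsto_side hρ0).eventually_ge_atTop ℓ)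
  refine ⟨max N₀ 1, ?_⟩
  intro N hN
  have hN1 : N₀ ≤ N := le_trans (le_max_left _ _) hN
  have hNpos : 0 < N := lt_of_lt_of_le one_pos (le_trans (le_max_right _ _) hN)
  have hNpos' : (0 : ℝ) < N := by exact_mod_cast hNpos
  have hLℓ := hN₀ N hN1
  set L := ((N : ℝ) / ρ) ^ (1 / 3 : ℝ) with hL
  have hL0 : 0 < L := lt_of_lt_of_le hℓ hLℓ
  have hL3 : L ^ 3 = N / ρ := side_cube hρ0 N
  -- the number of cells
  set m := ⌈L / ℓ⌉₊ with hm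
  have hm0 : 0 < m := Nat.ceil_pos.2 (by positivity)
  have hm0' : (0 : ℝ) < m := by exact_mod_cast hm0
  have hm1 : L / ℓ ≤ m := Nat.le_ceil _
  have hm2 : (m : ℝ) ≤ 2 * (L / ℓ) := by
    have h1 : (m : ℝ) < L / ℓ + 1 := Nat.ceil_lt_add_one (by positivity)
    have h2 : 1 ≤ L / ℓ := by rw [le_div_iff₀ hℓ]; linarith
    linarith
  have hcell : L / m ≤ ℓ := by
    rw [div_le_iff₀ hm0']
    rw [div_le_iff₀ hℓ] at hm1
    linarith
  have hcell2 : ℓ / 2 ≤ L / m := by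
    rw [le_div_iff₀ hm0']
    calc ℓ / 2 * m ≤ ℓ / 2 * (2 * (L / ℓ)) := by gcongr
      _ = L := by field_simp
  have hup := upper (w := pot v) (V₀ := V₀) (κ := κ) hNpos hm0 hL0 hs (measurable_pot hvm)
    (pot_neg heven) (lintegral_pot hvm hv hv0) hV₀0
    (fun d hd => hK d fun b => (hd b).trans hcell)
  refine hup.trans (ENNReal.ofReal_le_ofReal ?_)
  -- the arithmetic
  set ν := (N : ℝ) / m ^ 3 with hν
  have hνeq : ν = ρ * (L / m) ^ 3 := by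
    rw [hν, div_pow, hL3]
    field_simp
  have hν1 : ν₁ ≤ ν := by
    rw [hνeq]
    calc ν₁ = 8 * ν₁ / ℓ ^ 3 * (ℓ / 2) ^ 3 := by field_simp; norm_num
      _ ≤ ρ * (L / m) ^ 3 := by gcongr
  have hνpos : 0 < ν := by linarith
  have herr : (1 + Real.log (ν + 1) + 1 / ν) / ν < 4 * s * δ :=
    hν₀ ν ((le_max_left _ _).trans hν1)
  have hm3N : (m : ℝ) ^ 3 / N = 1 / ν := by rw [hν]; field_simp
  have hkin : (m : ℝ) ^ 3 * (1 + Real.log (ν + 1) + m ^ 3 / N) / (4 * s) ≤ δ * N := by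
    rw [hm3N]
    have h1 : (m : ℝ) ^ 3 = N / ν := by rw [hν]; field_simp
    rw [h1, div_le_iff₀ (by positivity)]
    have h2 : (N : ℝ) / ν * (1 + Real.log (ν + 1) + 1 / ν) =
        N * ((1 + Real.log (ν + 1) + 1 / ν) / ν) := by field_simp
    rw [h2]
    calc (N : ℝ) * ((1 + Real.log (ν + 1) + 1 / ν) / ν) ≤ N * (4 * s * δ) := by gcongr
      _ = δ * N * (4 * s) := by ring
  have hself : (1 : ℝ) / 2 * ((m ^ 3) ^ 2 * V₀ / L ^ 3) ≤ δ * N := by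
    have h1 : (m : ℝ) ^ 3 = N / ν := by rw [hν]; field_simp
    rw [h1, hL3]
    have h2 : (1 : ℝ) / 2 * ((N / ν) ^ 2 * V₀ / (N / ρ)) = N * (1 / 2 * V₀ * ρ / ν ^ 2) := by
      field_simp
    rw [h2, mul_comm δ]
    refine mul_le_mul_of_nonneg_left ?_ hNpos'.le
    have h3 : ρ * (ℓ / 2) ^ 3 ≤ ν := by
      rw [hνeq]; gcongr
    have h4 : (ρ * (ℓ / 2) ^ 3) ^ 2 ≤ ν ^ 2 := by gcongr
    rw [div_le_iff₀ (by positivity)]
    have h5 : 32 * V₀ ≤ ρ * (ℓ ^ 6 * δ) := by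
      rwa [div_le_iff₀ (by positivity)] at hρ3
    calc 1 / 2 * V₀ * ρ = (32 * V₀) * (ρ / 64) := by ring
      _ ≤ (ρ * (ℓ ^ 6 * δ)) * (ρ / 64) := by gcongr
      _ = δ * (ρ * (ℓ / 2) ^ 3) ^ 2 := by ring
      _ ≤ δ * ν ^ 2 := by gcongr
  have hmain : (1 : ℝ) / 2 * (N ^ 2 * V₀ / L ^ 3) = N * (ρ / 2 * V₀) := by
    rw [hL3]; field_simp
  have : (1 : ℝ) / 2 * (N ^ 2 * V₀ / L ^ 3 + (m ^ 3) ^ 2 * V₀ / L ^ 3 - N * κ) =
      1 / 2 * (N ^ 2 * V₀ / L ^ 3) + 1 / 2 * ((m ^ 3) ^ 2 * V₀ / L ^ 3) - N * κ / 2 := by ring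
  rw [this, hmain]
  nlinarith

/-- Case A: potentials of positive type. -/
theorem main_pos {v : E3 → ℝ} (hvm : Measurable v) (hv : Integrable v) (hv0 : ∀ x, 0 ≤ v x)
    (heven : ∀ x, v (-x) = v x) (hv2 : MemLp v 2) (hne : 0 < ∫ x, v x)
    (hpos : ∀ k, 0 ≤ (𝓕 (fun x => (v x : ℂ)) k).re) :
    ∃ δ > 0, ∃ ρ₀ > 0, ∀ ρ ≥ ρ₀, ∃ N₀ : ℕ, ∀ (u : E3 → ℝ) (e : ℝ), IsSimpleSolution v ρ u e →
      (∀ᵐ x, u x ≤ 1) → ∀ N ≥ N₀,
      groundEnergy N ((N / ρ) ^ (1 / 3 : ℝ)) (periodize ((N / ρ) ^ (1 / 3 : ℝ)) (pot v)) ≤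
        ENNReal.ofReal ((e - δ) * N) := by
  obtain ⟨s, hs, κ, hκ, ℓ, hℓ, hK⟩ := exists_kappa hvm hv hv0 heven hv2 hne hpos
  set V₀ := ∫ x, v x with hV₀
  set A := (∫ x, v x ^ 2) / V₀ with hA
  set δ := (κ - A) / 8 with hδ
  have hδ0 : 0 < δ := by rw [hδ]; linarith
  obtain ⟨ρ₁, hρ₁, hlow⟩ := simple_lower_two hv hv0 hv2 hne hδ0
  obtain ⟨ρ₂, hρ₂, hup⟩ := upper_density hvm hv hv0 heven hs hℓ hK hδ0
  refine ⟨δ, hδ0, max ρ₁ ρ₂, by positivity, ?_⟩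
  intro ρ hρ
  have hρ1 : ρ₁ ≤ ρ := le_trans (le_max_left _ _) hρ
  have hρ2 : ρ₂ ≤ ρ := le_trans (le_max_right _ _) hρ
  have hρ0 : 0 < ρ := lt_of_lt_of_le hρ₁ hρ1
  obtain ⟨N₀, hN₀⟩ := hup ρ hρ2
  refine ⟨N₀, ?_⟩
  intro u e hsol hu1 N hN
  have hu0 := nonneg_of_le_one hρ0 hv hv0 hsol hu1
  have hlow' := hlow ρ hρ1 u e hsol (by filter_upwards [hu0, hu1] with x h1 h2 using ⟨h1, h2⟩)
  refine (hN₀ N hN).trans (ENNReal.ofReal_le_ofReal ?_)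
  refine mul_le_mul_of_nonneg_right ?_ (Nat.cast_nonneg N)
  have hAeq : (∫ x, v x ^ 2) / (2 * V₀) = A / 2 := by rw [hA]; ring
  rw [hAeq] at hlow'
  have hκ8 : κ = A + 8 * δ := by rw [hδ]; ring
  rw [hκ8]
  linarith

theorem abs_round_div {L x : ℝ} (hL : 0 < L) : |(round (L * x) : ℝ) / L - x| ≤ 1 / (2 * L) := by
  have h1 := abs_sub_round (L * x)
  have h2 : (round (L * x) : ℝ) / L - x = -((L * x - round (L * x)) / L) := by
    field_simp; ring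
  rw [h2, abs_neg, abs_div, abs_of_pos hL, div_le_iff₀ hL]
  calc |L * x - round (L * x)| ≤ 1 / 2 := h1
    _ = 1 / (2 * L) * L := by field_simp

/-- lattice vectors approximating `k` -/
theorem tendsto_mode (k : E3) :
    Tendsto (fun L : ℝ => (WithLp.toLp 2 (fun b => (round (L * k b) : ℝ) / L) : E3)) atTop
      (𝓝 k) := by
  have h : Tendsto (fun L : ℝ => (fun b => (round (L * k b) : ℝ) / L : Fin 3 → ℝ)) atTop
      (𝓝 (WithLp.ofLp k)) := by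
    rw [tendsto_pi_nhds]
    intro b
    rw [tendsto_iff_norm_sub_tendsto_zero]
    have h1 : Tendsto (fun L : ℝ => 1 / (2 * L)) atTop (𝓝 0) := by
      have := (tendsto_inv_atTop_zero (𝕜 := ℝ)).comp
        (tendsto_id.const_mul_atTop (show (0 : ℝ) < 2 by norm_num))
      refine this.congr fun L => ?_
      simp
    refine squeeze_zero' (Eventually.of_forall fun _ => norm_nonneg _) ?_ h1
    filter_upwards [eventually_gt_atTop (0 : ℝ)] with L hL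
    exact abs_round_div hL
  have := ((PiLp.continuous_toLp 2 (fun _ : Fin 3 => ℝ)).tendsto (WithLp.ofLp k)).comp h
  exact this

/-- Case B: some Fourier coefficient of `v` is negative. -/
theorem main_neg {v : E3 → ℝ} (hvm : Measurable v) (hv : Integrable v) (hv0 : ∀ x, 0 ≤ v x)
    (heven : ∀ x, v (-x) = v x) (hne : 0 < ∫ x, v x)
    (hneg : ∃ k, (𝓕 (fun x => (v x : ℂ)) k).re < 0) :
    ∃ δ > 0, ∃ ρ₀ > 0, ∀ ρ ≥ ρ₀, ∃ N₀ : ℕ, ∀ (u : E3 → ℝ) (e : ℝ), IsSimpleSolution v ρ u e →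
      (∀ᵐ x, u x ≤ 1) → ∀ N ≥ N₀,
      groundEnergy N ((N / ρ) ^ (1 / 3 : ℝ)) (periodize ((N / ρ) ^ (1 / 3 : ℝ)) (pot v)) ≤
        ENNReal.ofReal ((e - δ * ρ) * N) := by
  obtain ⟨k₀, hk₀⟩ := hneg
  set V₀ := ∫ x, v x with hV₀
  set c := -(𝓕 (fun x => (v x : ℂ)) k₀).re with hc
  have hc0 : 0 < c := by rw [hc]; linarith
  set C := Real.pi ^ 2 * (‖k₀‖ + 1) ^ 2 / 4 with hC
  have hC0 : 0 ≤ C := by positivity
  obtain ⟨ρ₁, hρ₁, hlow⟩ := simple_lower_one hv hv0 hne (show 0 < c / 32 by positivity)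
  refine ⟨c / 128, by positivity, max ρ₁ (128 * C / c), by positivity, ?_⟩
  intro ρ hρ
  have hρ1 : ρ₁ ≤ ρ := le_trans (le_max_left _ _) hρ
  have hρ2 : 128 * C / c ≤ ρ := le_trans (le_max_right _ _) hρ
  have hρ0 : 0 < ρ := lt_of_lt_of_le hρ₁ hρ1
  have hcont : Continuous (fun k => (𝓕 (fun x => (v x : ℂ)) k).re) :=
    Complex.continuous_re.comp (VectorFourier.fourierIntegral_continuous
      Real.continuous_fourierChar (by exact continuous_inner) hv.ofReal)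
  have hev : ∀ᶠ N : ℕ in atTop, (𝓕 (fun x => (v x : ℂ)) (WithLp.toLp 2
      (fun b => (round (((N : ℝ) / ρ) ^ (1 / 3 : ℝ) * k₀ b) : ℝ) / ((N : ℝ) / ρ) ^ (1 / 3 : ℝ)) : E3)).re
        < -(c / 2) ∧ ‖(WithLp.toLp 2
      (fun b => (round (((N : ℝ) / ρ) ^ (1 / 3 : ℝ) * k₀ b) : ℝ) / ((N : ℝ) / ρ) ^ (1 / 3 : ℝ)) : E3)‖
        < ‖k₀‖ + 1 ∧ 0 < ((N : ℝ) / ρ) ^ (1 / 3 : ℝ) := by
    have h1 := (tendsto_mode k₀).comp (tendsto_side hρ0)
    have h2 := (hcont.tendsto k₀).comp h1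
    have h3 := (continuous_norm.tendsto k₀).comp h1
    refine (h2.eventually (gt_mem_nhds (by rw [hc]; linarith))).and
      ((h3.eventually (gt_mem_nhds (by linarith))).and
        ((tendsto_side hρ0).eventually_gt_atTop 0))
  obtain ⟨N₀, hN₀⟩ := eventually_atTop.1 hev
  refine ⟨max N₀ 1, ?_⟩
  intro u e hsol hu1 N hN
  have hNpos : 0 < N := lt_of_lt_of_le one_pos (le_trans (le_max_right _ _) hN)
  have hNpos' : (0 : ℝ) < N := by exact_mod_cast hNpos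
  obtain ⟨hk1, hk2, hL0⟩ := hN₀ N (le_trans (le_max_left _ _) hN)
  set L := ((N : ℝ) / ρ) ^ (1 / 3 : ℝ) with hL
  have hL3 : L ^ 3 = N / ρ := side_cube hρ0 N
  have hu0 := nonneg_of_le_one hρ0 hv hv0 hsol hu1
  have hlow' := hlow ρ hρ1 u e hsol (by filter_upwards [hu0, hu1] with x h1 h2 using ⟨h1, h2⟩)
  refine (upper_mode hNpos hL0 hvm hv hv0 heven (fun b => round (L * k₀ b)) _ rfl).trans
    (ENNReal.ofReal_le_ofReal ?_)
  set k : E3 := WithLp.toLp 2 (fun b => (round (L * k₀ b) : ℝ) / L) with hk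
  have hρN : (N : ℝ) / L ^ 3 = ρ := by rw [hL3]; field_simp
  rw [hρN, mul_comm (N : ℝ)]
  refine mul_le_mul_of_nonneg_right ?_ hNpos'.le
  have hkin : Real.pi ^ 2 * ‖k‖ ^ 2 / 4 ≤ C := by
    rw [hC]; gcongr
  have hpot : (1 : ℝ) / 2 * ρ * (V₀ + 1 / 8 * (𝓕 (fun x => (v x : ℂ)) k).re) ≤
      1 / 2 * ρ * (V₀ + 1 / 8 * (-(c / 2))) := by gcongr
  have hCρ : 128 * C ≤ ρ * c := by rwa [div_le_iff₀ hc0] at hρ2
  nlinarith

end Pool.Agent.P76s
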