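import Pool.Agent.Lib.P76s.TrialP

/-!
# P76s.TrialI: the trial density `PP`, integrals
-/

open MeasureTheory Filter Topology ProbabilityTheory
open scoped ENNReal NNReal BigOperators ContDiff

namespace Pool.Agent.P76s

variable {N m : ℕ} {L : ℝ} {s : ℝ≥0}

namespace TrialIAux

lemma psi_nonneg (j : Fin m) (t : ℝ) : 0 ≤ psi m L s j t :=
  integral_nonneg fun _ => cell_nonneg j _

lemma qq_nonneg (c : Fin 3 → Fin m) (y : Fin 3 → ℝ) : 0 ≤ qq m L s c y :=
  Finset.prod_nonneg fun _ _ => psi_nonneg _ _

lemma box_restrict (L : ℝ) : (volume : Measure (Fin 3 → ℝ)).restrict (box L) =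
    Measure.pi fun _ : Fin 3 => (volume : Measure ℝ).restrict (Set.Ico 0 L) := by
  unfold box
  rw [volume_pi, Measure.restrict_pi_pi]

lemma confBox_restrict (N : ℕ) (L : ℝ) : (volume : Measure (Conf N)).restrict (confBox N L) =
    Measure.pi fun _ : Fin N => (volume : Measure (Fin 3 → ℝ)).restrict (box L) := by
  unfold confBox
  rw [volume_pi, Measure.restrict_pi_pi]

instance finBox (L : ℝ) : IsFiniteMeasure ((volume : Measure (Fin 3 → ℝ)).restrict (box L)) := by
  rw [box_restrict]
  infer_instance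

instance finConfBox (N : ℕ) (L : ℝ) :
    IsFiniteMeasure ((volume : Measure (Conf N)).restrict (confBox N L)) := by
  rw [confBox_restrict]
  infer_instance

/-- integrals of products of functions of one variable -/
lemma integral_Gam (F : Fin N → Fin 3 → ℝ → ℝ) :
    ∫ z, ∏ i, ∏ b, F i b (z i b) ∂(Gam N s) = ∏ i, ∏ b, ∫ t, F i b t ∂(gaussianReal 0 s) := by
  unfold Gam
  rw [integral_fintype_prod_eq_prod (fun i (y : Fin 3 → ℝ) => ∏ b, F i b (y b))]
  refine Finset.prod_congr rfl fun i _ => ?_
  unfold gam3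
  rw [integral_fintype_prod_eq_prod (fun b (t : ℝ) => F i b t)]

lemma prod_cell_le (f : Fin N → Fin 3 → Fin m) (x : Conf N) :
    ‖∏ i, hcell m L (f i) (x i)‖ ≤ ((m : ℝ) ^ 3) ^ N := by
  rw [norm_prod]
  calc ∏ i, ‖hcell m L (f i) (x i)‖ ≤ ∏ _i : Fin N, ((m : ℝ) ^ 3) := by
        refine Finset.prod_le_prod (fun _ _ => norm_nonneg _) fun i _ => ?_
        unfold hcell
        rw [norm_prod]
        calc ∏ b, ‖cell m L (f i b) (x i b)‖ ≤ ∏ _b : Fin 3, (m : ℝ) := by
              refine Finset.prod_le_prod (fun _ _ => norm_nonneg _) fun b _ => ?_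
              rw [Real.norm_eq_abs, abs_of_nonneg (cell_nonneg _ _)]
              exact cell_le _ _
          _ = (m : ℝ) ^ 3 := by simp
    _ = ((m : ℝ) ^ 3) ^ N := by simp

lemma measurable_hcell (c : Fin 3 → Fin m) : Measurable (hcell m L c) := by
  unfold hcell
  exact Finset.measurable_fun_prod _ fun b _ => (measurable_cell _).comp (measurable_pi_apply b)

lemma measurable_prod_hcell (f : Fin N → Fin 3 → Fin m) :
    Measurable fun x : Conf N => ∏ i, hcell m L (f i) (x i) :=
  Finset.measurable_fun_prod _ fun i _ => (measurable_hcell _).comp (measurable_pi_apply i)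

lemma integrable_prod_cell (f : Fin N → Fin 3 → Fin m) (x : Conf N) :
    Integrable (fun z => ∏ i, hcell m L (f i) ((x + z) i)) (Gam N s) := by
  refine Integrable.of_bound ?_ (((m : ℝ) ^ 3) ^ N)
    (Eventually.of_forall fun z => prod_cell_le f (x + z))
  exact ((measurable_prod_hcell f).comp (measurable_const_add x)).aestronglyMeasurable

lemma integrable_coord (i : Fin N) (b : Fin 3) :
    Integrable (fun z : Conf N => z i b) (Gam N s) := by
  have h1 : Integrable (fun t : ℝ => t) (gaussianReal 0 s) := by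
    have := (memLp_id_gaussianReal (μ := 0) (v := s) 1).integrable le_rfl
    exact this
  have h2 : Integrable (fun y : Fin 3 → ℝ => y b) (gam3 s) := by
    unfold gam3
    exact (measurePreserving_eval (fun _ : Fin 3 => gaussianReal 0 s) b).integrable_comp_of_integrable h1
  unfold Gam
  exact (measurePreserving_eval (fun _ : Fin N => gam3 s) i).integrable_comp_of_integrable h2

end TrialIAux

open TrialIAux

theorem measurable_qq (c : Fin 3 → Fin m) : Measurable (qq m L s c) := by
  unfold qq
  exact Finset.measurable_fun_prod _ fun b _ => (measurable_psi _).comp (measurable_pi_apply b)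

theorem qq_pos (hL : 0 < L) (hs : s ≠ 0) (c : Fin 3 → Fin m) (y : Fin 3 → ℝ) :
    0 < qq m L s c y :=
  Finset.prod_pos fun _ _ => psi_pos hL hs _ _

theorem qq_le (c : Fin 3 → Fin m) (y : Fin 3 → ℝ) : qq m L s c y ≤ m ^ 3 := by
  unfold qq
  calc ∏ b, psi m L s (c b) (y b) ≤ ∏ _b : Fin 3, (m : ℝ) :=
        Finset.prod_le_prod (fun _ _ => psi_nonneg _ _) fun b _ => psi_le _ _
    _ = (m : ℝ) ^ 3 := by simp

theorem integral_qq (hL : 0 < L) (hs : s ≠ 0) (c : Fin 3 → Fin m) :
    ∫ y in box L, qq m L s c y = L ^ 3 := by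
  rw [box_restrict]
  unfold qq
  rw [integral_fintype_prod_eq_prod (fun b (t : ℝ) => psi m L s (c b) t)]
  simp only [integral_psi hL]
  simp

namespace TrialIAux

lemma integrable_qq (c : Fin 3 → Fin m) : IntegrableOn (qq m L s c) (box L) := by
  refine Integrable.of_bound (measurable_qq c).aestronglyMeasurable ((m : ℝ) ^ 3)
    (Eventually.of_forall fun y => ?_)
  rw [Real.norm_eq_abs, abs_of_nonneg (qq_nonneg c y)]
  exact qq_le c y

lemma integrable_prod_qq (f : Fin N → Fin 3 → Fin m) :
    Integrable (fun x : Conf N => ∏ i, qq m L s (f i) (x i))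
      ((volume : Measure (Conf N)).restrict (confBox N L)) := by
  refine Integrable.of_bound ?_ (((m : ℝ) ^ 3) ^ N) (Eventually.of_forall fun x => ?_)
  · exact (Finset.measurable_fun_prod _ fun i _ =>
      (measurable_qq _).comp (measurable_pi_apply i)).aestronglyMeasurable
  · rw [norm_prod]
    calc ∏ i, ‖qq m L s (f i) (x i)‖ ≤ ∏ _i : Fin N, ((m : ℝ) ^ 3) := by
          refine Finset.prod_le_prod (fun _ _ => norm_nonneg _) fun i _ => ?_
          rw [Real.norm_eq_abs, abs_of_nonneg (qq_nonneg _ _)]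
          exact qq_le _ _
      _ = ((m : ℝ) ^ 3) ^ N := by simp

end TrialIAux

theorem isProbabilityMeasure_nu (hL : 0 < L) (hs : s ≠ 0) (c : Fin 3 → Fin m) :
    IsProbabilityMeasure (nu m L s c) := by
  constructor
  unfold nu
  rw [withDensity_apply _ MeasurableSet.univ, Measure.restrict_univ,
    ← ofReal_integral_eq_lintegral_ofReal ((integrable_qq c).div_const _)
      (Eventually.of_forall fun y => div_nonneg (qq_nonneg c y) (by positivity)),
    integral_div, integral_qq hL hs, div_self (by positivity), ENNReal.ofReal_one]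

theorem PP_eq (a : Fin N → Fin 3 → Fin m) (x : Conf N) :
    PP N m L s a x = ∫ z, HH N m L a (x + z) ∂(Gam N s) := by
  unfold HH PP
  rw [integral_const_mul, integral_finsetSum _ fun σ _ => integrable_prod_cell _ x]
  congr 1
  refine Finset.sum_congr rfl fun σ _ => ?_
  have := integral_Gam (N := N) (s := s) (fun i b t => cell m L (a (σ i) b) (x i b + t))
  unfold hcell
  simp only [Pi.add_apply]
  rw [this]
  rfl

namespace TrialIAux

lemma prod_delta (i : Fin N) (b : Fin 3) (z : Conf N) :
    ∏ k, ∏ c, (if k = i ∧ c = b then z k c else 1) = z i b := by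
  rw [Finset.prod_eq_single i]
  · rw [Finset.prod_eq_single b]
    · simp
    · intro c _ hc
      simp [hc]
    · intro h
      exact absurd (Finset.mem_univ _) h
  · intro k _ hk
    exact Finset.prod_eq_one fun c _ => by simp [hk]
  · intro h
    exact absurd (Finset.mem_univ _) h

/-- the derivative of one product -/
lemma term_deriv (hs : s ≠ 0) (f : Fin N → Fin 3 → Fin m) (x : Conf N) (i : Fin N) (b : Fin 3) :
    HasDerivAt (fun t : ℝ => ∏ k, qq m L s (f k)
      ((x + t • (Pi.single i (Pi.single b 1) : Conf N)) k))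
      ((s : ℝ)⁻¹ * ∫ z, (∏ k, hcell m L (f k) ((x + z) k)) * z i b ∂(Gam N s)) 0 := by
  classical
  obtain ⟨R, hR⟩ : ∃ R : ℝ, R = ∏ p ∈ (Finset.univ : Finset (Fin N × Fin 3)).erase (i, b),
    psi m L s (f p.1 p.2) (x p.1 p.2) := ⟨_, rfl⟩
  -- the function
  have h1 : ∀ t : ℝ, ∏ k, qq m L s (f k) ((x + t • (Pi.single i (Pi.single b 1) : Conf N)) k) =
      psi m L s (f i b) (x i b + t) * R := by
    intro t
    unfold qq
    rw [← Fintype.prod_prod_type' (f := fun k c => psi m L s (f k c)
      ((x + t • (Pi.single i (Pi.single b 1) : Conf N)) k c)),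
      ← Finset.mul_prod_erase _ _ (Finset.mem_univ (i, b)), hR]
    congr 1
    · simp
    · refine Finset.prod_congr rfl fun p hp => ?_
      have hp' : p ≠ (i, b) := (Finset.mem_erase.1 hp).1
      congr 1
      simp only [Pi.add_apply, Pi.smul_apply, smul_eq_mul]
      have : (Pi.single i (Pi.single b 1) : Conf N) p.1 p.2 = 0 := by
        by_cases h : p.1 = i
        · have h2 : p.2 ≠ b := fun h3 => hp' (Prod.ext h h3)
          rw [h, Pi.single_eq_same, Pi.single_eq_of_ne h2]
        · rw [Pi.single_eq_of_ne h, Pi.zero_apply]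
      rw [this, mul_zero, add_zero]
  -- the integral
  have h2 : ∫ z, (∏ k, hcell m L (f k) ((x + z) k)) * z i b ∂(Gam N s) =
      (∫ t, cell m L (f i b) (x i b + t) * t ∂(gaussianReal 0 s)) * R := by
    have h3 := integral_Gam (N := N) (s := s) (fun k c t => cell m L (f k c) (x k c + t) *
      (if k = i ∧ c = b then t else 1))
    have h4 : ∀ z : Conf N, ∏ k, ∏ c, (cell m L (f k c) (x k c + z k c) *
        (if k = i ∧ c = b then z k c else 1)) = (∏ k, hcell m L (f k) ((x + z) k)) * z i b := by
      intro z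
      simp only [Finset.prod_mul_distrib]
      rw [prod_delta]
      rfl
    simp only [h4] at h3
    rw [h3, ← Fintype.prod_prod_type' (f := fun k c => ∫ t, cell m L (f k c) (x k c + t) *
      (if k = i ∧ c = b then t else 1) ∂(gaussianReal 0 s)),
      ← Finset.mul_prod_erase _ _ (Finset.mem_univ (i, b)), hR]
    congr 1
    · simp
    · refine Finset.prod_congr rfl fun p hp => ?_
      have hp' : p ≠ (i, b) := (Finset.mem_erase.1 hp).1
      have h5 : ¬ (p.1 = i ∧ p.2 = b) := fun h => hp' (Prod.ext h.1 h.2)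
      simp only [h5, if_false, mul_one]
      rfl
  rw [h2]
  have h6 : HasDerivAt (fun t => psi m L s (f i b) (x i b + t))
      ((s : ℝ)⁻¹ * ∫ z, cell m L (f i b) (x i b + z) * z ∂(gaussianReal 0 s)) 0 := by
    have h7 := hasDerivAt_gauss (measurable_cell (m := m) (L := L) (f i b))
      (fun t => cell_nonneg (f i b) t) (fun t => cell_le (f i b) t) hs (x i b)
    have h8 : HasDerivAt (psi m L s (f i b))
        ((s : ℝ)⁻¹ * ∫ z, cell m L (f i b) (x i b + z) * z ∂(gaussianReal 0 s)) (x i b + 0) := by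
      rw [add_zero]
      exact h7
    exact h8.comp_const_add (x i b) 0
  have h9 := h6.mul_const R
  have e : (fun t : ℝ => ∏ k, qq m L s (f k)
      ((x + t • (Pi.single i (Pi.single b 1) : Conf N)) k)) =
      fun t => psi m L s (f i b) (x i b + t) * R := funext h1
  rw [e, ← mul_assoc]
  exact h9

end TrialIAux

theorem PP_fderiv (hs : s ≠ 0) (a : Fin N → Fin 3 → Fin m) (x : Conf N) (i : Fin N) (b : Fin 3) :
    fderiv ℝ (PP N m L s a) x (Pi.single i (Pi.single b 1)) =
      (s : ℝ)⁻¹ * ∫ z, HH N m L a (x + z) * z i b ∂(Gam N s) := by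
  classical
  have hd : DifferentiableAt ℝ (PP N m L s a) x :=
    (PP_contDiff hs a).differentiable (by simp) x
  have h1 : HasLineDerivAt ℝ (PP N m L s a)
      ((s : ℝ)⁻¹ * ∫ z, HH N m L a (x + z) * z i b ∂(Gam N s)) x
      (Pi.single i (Pi.single b 1)) := by
    unfold HasLineDerivAt
    have h2 : HasDerivAt (fun t : ℝ => ((Nat.factorial N : ℕ) : ℝ)⁻¹ * ∑ σ : Equiv.Perm (Fin N),
        ∏ k, qq m L s (a (σ k)) ((x + t • (Pi.single i (Pi.single b 1) : Conf N)) k))
        (((Nat.factorial N : ℕ) : ℝ)⁻¹ * ∑ σ : Equiv.Perm (Fin N),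
          ((s : ℝ)⁻¹ * ∫ z, (∏ k, hcell m L (a (σ k)) ((x + z) k)) * z i b ∂(Gam N s))) 0 := by
      refine HasDerivAt.const_mul _ ?_
      exact HasDerivAt.fun_sum fun σ _ => term_deriv hs (fun k => a (σ k)) x i b
    have h3 : (s : ℝ)⁻¹ * ∫ z, HH N m L a (x + z) * z i b ∂(Gam N s) =
        ((Nat.factorial N : ℕ) : ℝ)⁻¹ * ∑ σ : Equiv.Perm (Fin N),
          ((s : ℝ)⁻¹ * ∫ z, (∏ k, hcell m L (a (σ k)) ((x + z) k)) * z i b ∂(Gam N s)) := by
      have h4 : ∀ z : Conf N, HH N m L a (x + z) * z i b =
          ((Nat.factorial N : ℕ) : ℝ)⁻¹ * ∑ σ : Equiv.Perm (Fin N),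
            (∏ k, hcell m L (a (σ k)) ((x + z) k)) * z i b := by
        intro z
        unfold HH
        rw [← Finset.sum_mul, mul_assoc]
      simp only [h4]
      rw [integral_const_mul, integral_finsetSum, ← Finset.mul_sum]
      · ring
      · intro σ _
        refine (integrable_coord i b).bdd_mul (c := ((m : ℝ) ^ 3) ^ N) ?_
          (Eventually.of_forall fun z => prod_cell_le (fun k => a (σ k)) (x + z))
        exact ((measurable_prod_hcell (fun k => a (σ k))).comp
          (measurable_const_add x)).aestronglyMeasurable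
    rw [h3]
    exact h2
  rw [← h1.lineDeriv, hd.lineDeriv_eq_fderiv]

theorem integral_PP (hL : 0 < L) (hs : s ≠ 0) (a : Fin N → Fin 3 → Fin m) :
    ∫ x in confBox N L, PP N m L s a x = (L ^ 3) ^ N := by
  unfold PP
  rw [integral_const_mul, integral_finsetSum _ fun (σ : Equiv.Perm (Fin N)) _ =>
    integrable_prod_qq (L := L) (s := s) fun i => a (σ i)]
  have h1 : ∀ σ : Equiv.Perm (Fin N),
      ∫ x in confBox N L, ∏ i, qq m L s (a (σ i)) (x i) = (L ^ 3) ^ N := by
    intro σ
    rw [confBox_restrict, integral_fintype_prod_eq_prod (fun i (y : Fin 3 → ℝ) =>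
      qq m L s (a (σ i)) y)]
    simp only [integral_qq hL hs]
    simp
  simp only [h1]
  rw [Finset.sum_const, Finset.card_univ, Fintype.card_perm, Fintype.card_fin, nsmul_eq_mul,
    ← mul_assoc, inv_mul_cancel₀ (by positivity), one_mul]

/-- the mass of `√PP` -/
theorem mass_trial (hL : 0 < L) (hs : s ≠ 0) (a : Fin N → Fin 3 → Fin m) :
    mass N L (trial N m L s a) = ENNReal.ofReal ((L ^ 3) ^ N) := by
  have hint : Integrable (PP N m L s a)
      ((volume : Measure (Conf N)).restrict (confBox N L)) := by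
    unfold PP
    exact (integrable_finsetSum _ fun (σ : Equiv.Perm (Fin N)) _ =>
      integrable_prod_qq (L := L) (s := s) fun i => a (σ i)).const_mul _
  have h0 : ∀ x, 0 ≤ PP N m L s a x := fun x => (PP_pos hL hs a x).le
  unfold mass
  rw [← integral_PP hL hs a, ofReal_integral_eq_lintegral_ofReal hint (Eventually.of_forall h0)]
  refine lintegral_congr fun x => ?_
  unfold trial
  rw [Complex.norm_real, Real.norm_eq_abs, sq_abs, Real.sq_sqrt (h0 x)]

end Pool.Agent.P76s
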