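import Pool.Agent.Lib.P76s.Gauss1D
import Pool.Agent.Lib.P76s.Cells

/-!
# P76s.TrialP (1.2 h): the trial density `PP`, pointwise facts (black boxes: Gauss1D, Cells)

`PP x = (1/N!) ∑_σ ∏_i ∏_b psi (a (σ i) b) (x i b)`, `psi = ` Gaussian average of `cell`.

* `contDiff_psi`: `contDiff_gauss` for `f = cell m L j`.
* `PP_contDiff`: finite sums and products of smooth functions of coordinates (`contDiff_apply`,
  `ContDiff.sum`, `contDiff_prod`).
* `PP_symm`: reindex the sum over permutations (`x ∘ τ`: `∏_i qq (a (σ i)) (x (τ i)) =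
  ∏_k qq (a (σ (τ⁻¹ k))) (x k)`, `Equiv.prod_comp`, `Equiv.sum_comp` with `Equiv.mulRight`).
* `isWave_trial`: `ContDiff.sqrt` (`PP > 0`), `Complex.ofRealCLM.contDiff`.
-/

open MeasureTheory Filter Topology ProbabilityTheory
open scoped ENNReal NNReal BigOperators ContDiff

namespace Pool.Agent.P76s

variable {N m : ℕ} {L : ℝ} {s : ℝ≥0}

theorem contDiff_psi (hs : s ≠ 0) (j : Fin m) : ContDiff ℝ ∞ (psi m L s j) :=
  contDiff_gauss (measurable_cell j) (cell_nonneg j) (cell_le j) hs

theorem measurable_HH (a : Fin N → Fin 3 → Fin m) : Measurable (HH N m L a) := by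
  unfold HH hcell
  refine Measurable.const_mul (Finset.measurable_fun_sum _ fun σ _ =>
    Finset.measurable_fun_prod _ fun i _ => Finset.measurable_fun_prod _ fun b _ => ?_) _
  exact (measurable_cell _).comp ((measurable_pi_apply b).comp (measurable_pi_apply i))

theorem HH_nonneg (a : Fin N → Fin 3 → Fin m) (x : Conf N) : 0 ≤ HH N m L a x := by
  unfold HH hcell
  refine mul_nonneg (by positivity) (Finset.sum_nonneg fun σ _ => Finset.prod_nonneg fun i _ =>
    Finset.prod_nonneg fun b _ => cell_nonneg _ _)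

theorem PP_contDiff (hs : s ≠ 0) (a : Fin N → Fin 3 → Fin m) : ContDiff ℝ ∞ (PP N m L s a) := by
  unfold PP qq
  refine contDiff_const.mul (ContDiff.sum fun σ _ => contDiff_prod fun i _ =>
    contDiff_prod fun b _ => ?_)
  exact (contDiff_psi hs _).comp (contDiff_apply_apply ℝ ℝ i b)

theorem PP_pos (hL : 0 < L) (hs : s ≠ 0) (a : Fin N → Fin 3 → Fin m) (x : Conf N) :
    0 < PP N m L s a x := by
  unfold PP qq
  refine mul_pos (by positivity) (Finset.sum_pos (fun σ _ => Finset.prod_pos fun i _ =>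
    Finset.prod_pos fun b _ => psi_pos hL hs _ _) Finset.univ_nonempty)

theorem PP_periodic (hL : 0 < L) (a : Fin N → Fin 3 → Fin m) (x : Conf N) (i : Fin N)
    (n : Fin 3 → ℤ) : PP N m L s a (x + Pi.single i (lat L n)) = PP N m L s a x := by
  unfold PP qq
  congr 1
  refine Finset.sum_congr rfl fun σ _ => Finset.prod_congr rfl fun k _ =>
    Finset.prod_congr rfl fun b _ => ?_
  by_cases hk : k = i
  · subst hk
    rw [Pi.add_apply, Pi.single_eq_same, Pi.add_apply]
    exact psi_add hL _ _ _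
  · rw [Pi.add_apply, Pi.single_eq_of_ne hk, add_zero]

theorem PP_symm (a : Fin N → Fin 3 → Fin m) (x : Conf N) (τ : Equiv.Perm (Fin N)) :
    PP N m L s a (x ∘ τ) = PP N m L s a x := by
  unfold PP
  congr 1
  have h1 : ∀ σ : Equiv.Perm (Fin N), ∏ i, qq m L s (a (σ i)) ((x ∘ τ) i) =
      ∏ k, qq m L s (a ((σ * τ⁻¹) k)) (x k) := by
    intro σ
    rw [← Equiv.prod_comp τ (fun k => qq m L s (a ((σ * τ⁻¹) k)) (x k))]
    refine Finset.prod_congr rfl fun i _ => ?_
    simp
  rw [Finset.sum_congr rfl fun σ _ => h1 σ]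
  exact Equiv.sum_comp (Equiv.mulRight τ⁻¹)
    (fun σ : Equiv.Perm (Fin N) => ∏ k, qq m L s (a (σ k)) (x k))

/-- `√PP` is an admissible wave function. -/
theorem isWave_trial (hL : 0 < L) (hs : s ≠ 0) (a : Fin N → Fin 3 → Fin m) :
    IsWave N L (trial N m L s a) where
  smooth := by
    unfold trial
    exact Complex.ofRealCLM.contDiff.comp
      ((PP_contDiff hs a).sqrt fun x => (PP_pos hL hs a x).ne')
  periodic x i n := by
    unfold trial
    rw [PP_periodic hL]
  symm x σ := by
    unfold trial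
    rw [PP_symm]

end Pool.Agent.P76s
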